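import Mathlib

/-!
# Finitely generated domains have homomorphisms to finite fields

Task C1. `ℤ` is a Jacobson ring (`isJacobsonRing_iff_prime_eq`). Let `B` be the localization of `A` at
`a` (not zero, of finite type over `ℤ`), `m` a maximal ideal of `B` and `k = B / m`. Then
`Module.Finite ℤ k` (`finite_of_finite_type_of_isJacobsonRing`); `k` has positive characteristic
(otherwise `ℤ` would be a field, `isField_of_isIntegral_of_isField'`) and is finite.
-/

set_option autoImplicit false

namespace Pool.Agent.GT

private theorem C1_isJacobsonRing_int : IsJacobsonRing ℤ := by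
  rw [isJacobsonRing_iff_prime_eq]
  intro P hP
  by_cases h : P = ⊥
  · subst h
    refine le_antisymm (fun x hx => ?_) Ideal.le_jacobson
    rw [Ideal.mem_jacobson_iff] at hx
    obtain ⟨z, hz⟩ := hx (2 * x)
    rw [Ideal.mem_bot] at hz
    have h1 : z * (2 * x * x + 1) = 1 := by linear_combination hz
    have h2 : IsUnit (2 * x * x + 1) := IsUnit.of_mul_eq_one _ ((mul_comm _ _).trans h1)
    rw [Ideal.mem_bot]
    rcases Int.isUnit_iff.1 h2 with h3 | h3
    · have : x * x = 0 := by linarith
      exact mul_self_eq_zero.1 this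
    · nlinarith [mul_self_nonneg x]
  · have := hP.isMaximal h
    exact Ideal.jacobson_eq_self_of_isMaximal

private theorem C1_finite_field (k : Type) [Field k] [Algebra.FiniteType ℤ k] : Finite k := by
  have := C1_isJacobsonRing_int
  have hfin : Module.Finite ℤ k := finite_of_finite_type_of_isJacobsonRing ℤ k
  obtain ⟨p, hp⟩ := CharP.exists k
  have hp0 : p ≠ 0 := by
    rintro rfl
    have : CharZero k := CharP.charP_to_charZero k
    have hint : Algebra.IsIntegral ℤ k := inferInstance
    have hinj : Function.Injective (algebraMap ℤ k) := by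
      rw [algebraMap_int_eq]
      exact RingHom.injective_int _
    have h1 : IsField ℤ := isField_of_isIntegral_of_isField hinj (Field.toIsField k)
    exact Int.not_isField h1
  refine Module.finite_of_fg_torsion k fun x => ?_
  refine ⟨⟨(p : ℤ), mem_nonZeroDivisors_of_ne_zero (by exact_mod_cast hp0)⟩, ?_⟩
  show (p : ℤ) • x = 0
  rw [zsmul_eq_mul, Int.cast_natCast, CharP.cast_eq_zero, zero_mul]

private theorem C1_aux (B : Type) [CommRing B] [Nontrivial B] [hB : Algebra.FiniteType ℤ B] :
    ∃ (k : Type) (_ : Field k) (_ : Finite k), Nonempty (B →+* k) := by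
  obtain ⟨m, hm⟩ := Ideal.exists_maximal B
  let F : Field (B ⧸ m) := Ideal.Quotient.field m
  have hk : @Algebra.FiniteType ℤ (B ⧸ m) _ _ (Ring.toIntAlgebra (B ⧸ m)) :=
    Algebra.FiniteType.of_surjective (Ideal.Quotient.mk m).toIntAlgHom
      Ideal.Quotient.mk_surjective
  exact ⟨B ⧸ m, F, C1_finite_field (B ⧸ m), ⟨Ideal.Quotient.mk m⟩⟩

private theorem C1_aux2 (A B : Type) [CommRing A] [CommRing B] [Nontrivial B] [Algebra A B]
    [hA : Algebra.FiniteType ℤ A] [hB : Algebra.FiniteType A B] :
    ∃ (k : Type) (_ : Field k) (_ : Finite k), Nonempty (B →+* k) := by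
  have : Algebra.FiniteType ℤ B := hA.trans hB
  exact C1_aux B

theorem exists_finite_field {A : Type} [CommRing A] [IsDomain A] (s : Finset A)
    (hs : Subring.closure (s : Set A) = ⊤) {a : A} (ha : a ≠ 0) :
    ∃ (k : Type) (_ : Field k) (_ : Finite k) (f : A →+* k), f a ≠ 0 := by
  have hA : Algebra.FiniteType ℤ A := by
    refine ⟨⟨s, ?_⟩⟩
    rw [eq_top_iff]
    intro x _
    have hx : x ∈ Subring.closure (s : Set A) := by
      rw [hs]
      trivial
    have h1 : Subring.closure (s : Set A) ≤ (Algebra.adjoin ℤ (s : Set A)).toSubring := by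
      rw [Subring.closure_le]
      exact Algebra.subset_adjoin
    exact h1 hx
  let B := Localization (Submonoid.powers a)
  have : Monoid.FG (Submonoid.powers a) := inferInstance
  have hB : Algebra.FiniteType A B := IsLocalization.finiteType_of_monoid_fg (Submonoid.powers a) B
  have hnt : Nontrivial B := by
    have h : Submonoid.powers a ≤ nonZeroDivisors A :=
      powers_le_nonZeroDivisors_of_noZeroDivisors ha
    exact (IsLocalization.isDomain_localization h).toNontrivial
  obtain ⟨k, hk, hf, ⟨f⟩⟩ := C1_aux2 A B
  refine ⟨k, hk, hf, f.comp (algebraMap A B), ?_⟩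
  have hu : IsUnit (algebraMap A B a) :=
    IsLocalization.map_units B (⟨a, Submonoid.mem_powers a⟩ : Submonoid.powers a)
  rw [RingHom.comp_apply]
  exact (hu.map f).ne_zero

end Pool.Agent.GT
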