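import Pool.Agent.Lib.MP_98022b_gl.Defs

/-!
# Greedy marks on `ℤ ^ I`

Task A4b. (Compare `mark` in `Lib/MP_98022b_fa/Basic.lean` and `Lib/MP_98022b_fa/Marker.lean`.)
The positions are marked in increasing order of their colour: `n` is marked if no position `n'` with
`|n' i - n i| < R` for all `i` and `c n' < c n` is marked.
-/

set_option autoImplicit false

namespace Pool.Agent.GT

/-- The positions which are marked because of the colours `0, ..., k`. -/
private def grd {I : Type} (R : ℕ) : ℕ → ((I → ℤ) → ℕ) → (I → ℤ) → Prop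
  | 0 => fun c n => c n = 0
  | k + 1 => fun c n => grd R k c n ∨
      (c n = k + 1 ∧ ∀ n' : I → ℤ, (∀ i, |n' i - n i| < R) → ¬ grd R k c n')

private theorem grd_rule {I : Type} (R : ℕ) : ∀ k, IsRule (grd (I := I) R k) (R * k) := by
  intro k
  induction k with
  | zero =>
    intro c c' n n' h
    have h0 := h 0 (fun i => by simp)
    rw [add_zero, add_zero] at h0
    show (c n = 0) = (c' n' = 0)
    rw [h0]
  | succ k ih =>
    have key : ∀ (c c' : (I → ℤ) → ℕ) (n n' : I → ℤ),
        (∀ δ : I → ℤ, (∀ i, |δ i| ≤ ((R * (k + 1) : ℕ) : ℤ)) → c (n + δ) = c' (n' + δ)) →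
        grd R (k + 1) c n → grd R (k + 1) c' n' := by
      intro c c' n n' h hn
      have hz : ∀ δ₀ : I → ℤ, (∀ i, |δ₀ i| ≤ R) → grd R k c (n + δ₀) = grd R k c' (n' + δ₀) := by
        intro δ₀ hδ₀
        refine ih c c' _ _ fun δ hδ => ?_
        rw [add_assoc, add_assoc]
        refine h _ fun i => ?_
        refine (abs_add_le _ _).trans ?_
        have h1 := hδ₀ i
        have h2 := hδ i
        push_cast at h2 ⊢
        linarith
      have h0 := h 0 (fun i => by simp only [Pi.zero_apply, abs_zero]; positivity)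
      have h00 := hz 0 (fun i => by simp)
      rw [add_zero, add_zero] at h0 h00
      rcases hn with hn | ⟨hn1, hn2⟩
      · exact Or.inl (h00 ▸ hn)
      · refine Or.inr ⟨by rw [← h0]; exact hn1, fun m' hm' hg => ?_⟩
        have h3 := hz (m' - n') (fun i => (hm' i).le)
        rw [add_sub_cancel] at h3
        rw [← h3] at hg
        refine hn2 _ (fun i => ?_) hg
        have h4 := hm' i
        simpa using h4
    intro c c' n n' h
    exact propext ⟨key c c' n n' h, key c' c n' n fun δ hδ => (h δ hδ).symm⟩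

theorem exists_greedy (I : Type) (R : ℕ) (hR : 0 < R) :
    ∀ k : ℕ, ∃ F : ((I → ℤ) → ℕ) → (I → ℤ) → Prop, IsRule F (R * k) ∧
      ∀ c, (∀ n, c n ≤ k) →
        (∀ n n' : I → ℤ, (∀ i, |n' i - n i| < R) → F c n → F c n' → c n = c n') ∧
        ∀ n : I → ℤ, ∃ n', (∀ i, |n' i - n i| < R) ∧ F c n' := by
  intro k
  refine ⟨grd R k, grd_rule R k, fun c hc => ⟨?_, ?_⟩⟩
  · clear hc
    induction k with
    | zero =>
      intro n n' _ h1 h2
      have h1' : c n = 0 := h1
      have h2' : c n' = 0 := h2
      rw [h1', h2']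
    | succ k ih =>
      intro n n' h h1 h2
      have h' : ∀ i, |n i - n' i| < R := fun i => by
        rw [abs_sub_comm]
        exact h i
      rcases h1 with h1 | ⟨h1, h3⟩
      · rcases h2 with h2 | ⟨h2, h4⟩
        · exact ih n n' h h1 h2
        · exact absurd h1 (h4 n h')
      · rcases h2 with h2 | ⟨h2, h4⟩
        · exact absurd h2 (h3 n' h)
        · rw [h1, h2]
  · intro n
    have hn := hc n
    clear hc
    induction k generalizing n with
    | zero =>
      refine ⟨n, fun i => ?_, Nat.le_zero.1 hn⟩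
      rw [sub_self, abs_zero]
      exact_mod_cast hR
    | succ k ih =>
      rcases Nat.lt_or_ge (c n) (k + 1) with h1 | h1
      · obtain ⟨n', h2, h3⟩ := ih n (Nat.lt_succ_iff.1 h1)
        exact ⟨n', h2, Or.inl h3⟩
      · by_cases h2 : ∃ n', (∀ i, |n' i - n i| < R) ∧ grd R k c n'
        · obtain ⟨n', h3, h4⟩ := h2
          exact ⟨n', h3, Or.inl h4⟩
        · refine ⟨n, fun i => ?_, Or.inr ⟨le_antisymm hn h1, fun n' h3 h4 => h2 ⟨n', h3, h4⟩⟩⟩
          rw [sub_self, abs_zero]
          exact_mod_cast hR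

end Pool.Agent.GT
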