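import Pool.Agent.Lib.MP_98022b_gl.Defs

/-!
# Colour reduction on `ℤ ^ I`

Task A4a. The reduction of Cole and Vishkin: for colours `a ≠ b` let `j` be the lowest bit in which
they differ. The new colour of `n` assigns to each `δ` with `|δ i| ≤ R` the pair of `j` and the bit
`j` of `c n`, for `a = c n`, `b = c (n + δ)` (any value if the colours are equal). If
`c n ≠ c n'`, `n' = n + δ`, then the new colours differ in `δ`: if the first components are both `j`
then the second ones are the bits `j` of `c n` and of `c n'`, and they are different.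

There are `(2 * R + 1) ^ card I` displacements `δ`, and if `c ≤ Q` then `j ≤ Nat.log 2 Q`, so the
number of new colours is at most `(2 * (Nat.log 2 Q + 1)) ^ ((2 * R + 1) ^ card I)`.
-/

set_option autoImplicit false

namespace Pool.Agent.GT

/-- The bound for the new colours. -/
def redB (M Q : ℕ) : ℕ := (2 * (Nat.log 2 Q + 1)) ^ M

/-- The lowest bit in which `a` and `b` differ. -/
private noncomputable def lowb (a b : ℕ) : ℕ := sInf {j | a.testBit j ≠ b.testBit j}

/-- The lowest bit in which `a` and `b` differ, together with this bit of `a`. -/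
private noncomputable def prb (a b : ℕ) : ℕ := 2 * lowb a b + (a.testBit (lowb a b)).toNat

private theorem lowb_ne {a b : ℕ} (h : a ≠ b) : a.testBit (lowb a b) ≠ b.testBit (lowb a b) := by
  have h1 : ({j | a.testBit j ≠ b.testBit j} : Set ℕ).Nonempty := by
    by_contra hne
    rw [Set.not_nonempty_iff_eq_empty] at hne
    apply h
    apply Nat.eq_of_testBit_eq
    intro j
    by_contra hj
    have h2 : j ∈ ({j | a.testBit j ≠ b.testBit j} : Set ℕ) := hj
    rw [hne] at h2
    exact h2
  exact Nat.sInf_mem h1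

private theorem lowb_self (a : ℕ) : lowb a a = 0 := by
  unfold lowb
  have h : ({j | a.testBit j ≠ a.testBit j} : Set ℕ) = ∅ := by
    ext j
    simp
  rw [h, Nat.sInf_empty]

private theorem lowb_le {a b Q : ℕ} (ha : a ≤ Q) (hb : b ≤ Q) : lowb a b ≤ Nat.log 2 Q := by
  by_cases h : a = b
  · rw [h, lowb_self]
    exact Nat.zero_le _
  · have h1 := lowb_ne h
    have h2 : 2 ^ lowb a b ≤ Q := by
      by_contra hlt
      push Not at hlt
      apply h1
      rw [Nat.testBit_lt_two_pow (ha.trans_lt hlt), Nat.testBit_lt_two_pow (hb.trans_lt hlt)]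
    exact Nat.le_log_of_pow_le (by norm_num) h2

private theorem prb_le {a b Q : ℕ} (ha : a ≤ Q) (hb : b ≤ Q) : prb a b ≤ 2 * Nat.log 2 Q + 1 := by
  have h1 := lowb_le ha hb
  have h2 : (a.testBit (lowb a b)).toNat ≤ 1 := Bool.toNat_le _
  unfold prb
  omega

private theorem prb_ne {a b c : ℕ} (h : a ≠ b) : prb a b ≠ prb b c := by
  intro he
  have h1 : (a.testBit (lowb a b)).toNat ≤ 1 := Bool.toNat_le _
  have h2 : (b.testBit (lowb b c)).toNat ≤ 1 := Bool.toNat_le _
  unfold prb at he
  have h3 : lowb a b = lowb b c := by omega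
  have h4 : (a.testBit (lowb a b)).toNat = (b.testBit (lowb b c)).toNat := by omega
  rw [← h3] at h4
  apply lowb_ne h
  revert h4
  cases a.testBit (lowb a b) <;> cases b.testBit (lowb a b) <;> simp

theorem exists_red (I : Type) [Finite I] (R : ℕ) :
    ∀ Q : ℕ, ∃ red : ((I → ℤ) → ℕ) → (I → ℤ) → ℕ, IsRule red R ∧
      (∀ c, (∀ n, c n ≤ Q) → ∀ n, red c n ≤ redB ((2 * R + 1) ^ Nat.card I) Q) ∧
      ∀ c, (∀ n, c n ≤ Q) → ∀ n n' : I → ℤ, (∀ i, |n' i - n i| ≤ R) → c n ≠ c n' →
        red c n ≠ red c n' := by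
  classical
  intro Q
  have := Fintype.ofFinite I
  let X : Type := (I → Fin (2 * R + 1)) → Fin (2 * (Nat.log 2 Q + 1))
  let enc : X ≃ Fin (Fintype.card X) := Fintype.equivFin X
  have hcard : Fintype.card X = redB ((2 * R + 1) ^ Nat.card I) Q := by
    show Fintype.card ((I → Fin (2 * R + 1)) → Fin (2 * (Nat.log 2 Q + 1))) = _
    rw [Fintype.card_fun, Fintype.card_fun, Fintype.card_fin, Fintype.card_fin,
      Nat.card_eq_fintype_card]
    rfl
  have hlt : ∀ a b : ℕ, min (prb a b) (2 * Nat.log 2 Q + 1) < 2 * (Nat.log 2 Q + 1) := by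
    intro a b
    have := min_le_right (prb a b) (2 * Nat.log 2 Q + 1)
    omega
  let f : ((I → ℤ) → ℕ) → (I → ℤ) → X := fun c n t =>
    ⟨min (prb (c n) (c (n + fun i => ((t i : ℕ) : ℤ) - R))) (2 * Nat.log 2 Q + 1), hlt _ _⟩
  refine ⟨fun c n => (enc (f c n) : ℕ), ?_, ?_, ?_⟩
  · intro c c' n n' h
    have h0 : c n = c' n' := by
      have := h 0 (fun i => by simp)
      rwa [add_zero, add_zero] at this
    have h1 : f c n = f c' n' := by
      funext t
      have h2 : c (n + fun i => ((t i : ℕ) : ℤ) - R) = c' (n' + fun i => ((t i : ℕ) : ℤ) - R) := by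
        refine h _ fun i => ?_
        have h3 : (t i : ℕ) < 2 * R + 1 := (t i).2
        rw [abs_le]
        constructor <;> omega
      apply Fin.ext
      show min (prb (c n) _) _ = min (prb (c' n') _) _
      rw [h0, h2]
    show (enc (f c n) : ℕ) = (enc (f c' n') : ℕ)
    rw [h1]
  · intro c _ n
    rw [← hcard]
    exact (enc (f c n)).2.le
  · intro c hc n n' hnn hne he
    have h1 : f c n = f c n' := enc.injective (Fin.ext he)
    let t : I → Fin (2 * R + 1) := fun i => ⟨(n' i - n i + R).toNat, by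
      have h2 := abs_le.1 (hnn i)
      omega⟩
    have h2 : (n + fun i => ((t i : ℕ) : ℤ) - R) = n' := by
      funext i
      have h3 := abs_le.1 (hnn i)
      show n i + (((n' i - n i + R).toNat : ℕ) - (R : ℤ)) = n' i
      omega
    have h3 := congrArg (fun x : Fin (2 * (Nat.log 2 Q + 1)) => (x : ℕ)) (congrFun h1 t)
    have h4 : min (prb (c n) (c (n + fun i => ((t i : ℕ) : ℤ) - R))) (2 * Nat.log 2 Q + 1) =
        min (prb (c n') (c (n' + fun i => ((t i : ℕ) : ℤ) - R))) (2 * Nat.log 2 Q + 1) := h3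
    rw [h2, min_eq_left (prb_le (hc _) (hc _)), min_eq_left (prb_le (hc _) (hc _))] at h4
    exact prb_ne hne h4

end Pool.Agent.GT
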