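import Pool.Agent.Lib.MP_98022b_gl.Defs
import Pool.Agent.Lib.MP_98022b_fa.Events

/-!
# Close moves and exits

Task A3a. (Compare `Lib/MP_98022b_fa/Events.lean`; the set `{w | Close β ρ g w}` is finite.)
-/

set_option autoImplicit false

open Set Filter
open scoped Topology

namespace Pool.Agent.GT

open Pool.Agent.FA

variable {G V Δ : Type} [Group G] [MulAction G V] [TopologicalSpace Δ] [MulAction G Δ]
  {T : SimpleGraph V} {B : V → V → Set Δ} {β : V → ℕ} {v₀ : V} {ρ : ℕ} {g : G} {x : Δ}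

omit [TopologicalSpace Δ] in
theorem CMove.mono {ρ' m : ℕ} (h : CMove T B β v₀ ρ g x m) (hρ : ρ ≤ ρ') :
    CMove T B β v₀ ρ' g x m :=
  ⟨h.1, h.2.mono hρ⟩

/-- An exit is not a close move. -/
theorem CExit.not_cmove (hB : IsFlow G T B) {e : ℕ} (h : CExit T B β v₀ ρ g x e) :
    ¬ CMove T B β v₀ ρ g x e := by
  intro hm
  exact hB.anti _ _ x hm.1 (mem_of_adj_pth hm.1) (h.2 _ hm.1 hm.2)

theorem CExit.unique (hB : IsFlow G T B) {e e' : ℕ} (h : CExit T B β v₀ ρ g x e)
    (h' : CExit T B β v₀ ρ g x e') : e = e' := by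
  rcases lt_trichotomy e e' with h1 | h1 | h1
  · exact absurd (h'.1 e h1) (h.not_cmove hB)
  · exact h1
  · exact absurd (h.1 e' h1) (h'.not_cmove hB)

private theorem finite_close' {len : G → ℕ} (hβ : IsGauge G β len) (ρ : ℕ) (g : G) :
    {w | Close β ρ g w}.Finite := by
  have : {w | Close β ρ g w} = (fun w => g⁻¹ • w) ⁻¹' {v | β v ≤ ρ} := rfl
  rw [this]
  exact (hβ.finite ρ).preimage (MulAction.injective g⁻¹).injOn

private theorem cmove_of_not (hB : IsFlow G T B) (hx : Reg T B x) {m : ℕ}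
    (h : ¬ ∀ w, T.Adj (pth T B x (g • v₀) m) w → Close β ρ g w → x ∈ B w (pth T B x (g • v₀) m)) :
    CMove T B β v₀ ρ g x m := by
  push Not at h
  obtain ⟨w, hw, ht, hn⟩ := h
  have h1 : x ∈ B (pth T B x (g • v₀) m) w := (hx _ _ hw).resolve_right hn
  have h2 : pth T B x (g • v₀) (m + 1) = w := by
    rw [pth_succ]
    exact nxt_eq hB hw h1
  exact ⟨by rw [h2]; exact hw, by rw [h2]; exact ht⟩

/-- For regular `x` there is an exit (a path of close moves is injective, and only finitely many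
vertices are close). -/
theorem exists_cexit (hT : T.IsTree) (hB : IsFlow G T B) {len : G → ℕ} (hβ : IsGauge G β len)
    (hx : Reg T B x) (v₀ : V) (ρ : ℕ) (g : G) : ∃ e, CExit T B β v₀ ρ g x e := by
  classical
  by_cases h : ∃ e, ∀ w, T.Adj (pth T B x (g • v₀) e) w → Close β ρ g w →
      x ∈ B w (pth T B x (g • v₀) e)
  · exact ⟨Nat.find h, fun m hm => cmove_of_not hB hx (Nat.find_min h hm), Nat.find_spec h⟩
  · exfalso
    push Not at h
    have hm : ∀ m, CMove T B β v₀ ρ g x m := fun m => cmove_of_not hB hx (by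
      push Not
      exact h m)
    have hinj : Function.Injective fun m : ℕ => pth T B x (g • v₀) (m + 1) := by
      intro a b hab
      have key : ∀ a b : ℕ, a ≤ b → pth T B x (g • v₀) (a + 1) = pth T B x (g • v₀) (b + 1) →
          a = b := by
        intro a b hab' he
        have h1 := dist_pth hT hB (x := x) (v := g • v₀) (n := b + 1) (fun m _ => (hm m).1)
          (show a + 1 ≤ b + 1 by omega) le_rfl
        rw [he, SimpleGraph.dist_self] at h1
        omega
      rcases le_total a b with h1 | h1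
      · exact key a b h1 hab
      · exact (key b a h1 hab.symm).symm
    have hfin : (range fun m : ℕ => pth T B x (g • v₀) (m + 1)).Finite :=
      (finite_close' hβ ρ g).subset (by
        rintro _ ⟨m, rfl⟩
        exact (hm m).2)
    exact Set.infinite_range_of_injective hinj hfin

private theorem pth_mul_smul' (hadj : ∀ (g : G) (u v : V), T.Adj u v → T.Adj (g • u) (g • v))
    (hB : IsFlow G T B) (h g : G) (x : Δ) (v₀ : V) :
    pth T B (h • x) ((h * g) • v₀) = fun i => h • pth T B x (g • v₀) i := by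
  funext i
  rw [mul_smul]
  exact pth_smul hadj hB h x (g • v₀) i

theorem cmove_smul (hadj : ∀ (g : G) (u v : V), T.Adj u v → T.Adj (g • u) (g • v))
    (hB : IsFlow G T B) (h : G) {m : ℕ} (hm : CMove T B β v₀ ρ g x m) :
    CMove T B β v₀ ρ (h * g) (h • x) m := by
  unfold CMove
  rw [pth_mul_smul' hadj hB]
  exact ⟨hadj h _ _ hm.1, (close_smul β ρ h g _).mpr hm.2⟩

theorem cexit_smul (hadj : ∀ (g : G) (u v : V), T.Adj u v → T.Adj (g • u) (g • v))
    (hB : IsFlow G T B) (h : G) {e : ℕ} (he : CExit T B β v₀ ρ g x e) :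
    CExit T B β v₀ ρ (h * g) (h • x) e := by
  refine ⟨fun m hm => cmove_smul hadj hB h (he.1 m hm), ?_⟩
  rw [pth_mul_smul' hadj hB]
  intro w hw ht
  obtain ⟨w', rfl⟩ : ∃ w', w = h • w' := ⟨h⁻¹ • w, by rw [smul_inv_smul]⟩
  have h1 : T.Adj (pth T B x (g • v₀) e) w' := by
    have := hadj h⁻¹ _ _ hw
    simpa only [inv_smul_smul] using this
  exact hB.smul h _ _ _ (he.2 w' h1 ((close_smul β ρ h g _).mp ht))

/-- Close moves are an open condition. -/
theorem eventually_cmove (hB : IsFlow G T B) {n : ℕ} (h : ∀ m < n, CMove T B β v₀ ρ g x m) :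
    ∀ᶠ y in 𝓝 x, (∀ m < n, CMove T B β v₀ ρ g y m) ∧
      ∀ m ≤ n, pth T B y (g • v₀) m = pth T B x (g • v₀) m := by
  filter_upwards [eventually_pth_eq hB fun m hm => (h m hm).1] with y hy
  refine ⟨fun m hm => ?_, hy⟩
  unfold CMove
  rw [hy m hm.le, hy (m + 1) hm]
  exact h m hm

/-- An exit is an open condition. -/
theorem eventually_cexit (hB : IsFlow G T B) {len : G → ℕ} (hβ : IsGauge G β len) {e : ℕ}
    (h : CExit T B β v₀ ρ g x e) :
    ∀ᶠ y in 𝓝 x, CExit T B β v₀ ρ g y e ∧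
      ∀ m ≤ e, pth T B y (g • v₀) m = pth T B x (g • v₀) m := by
  have h2 : ∀ᶠ y in 𝓝 x, ∀ w ∈ {w | Close β ρ g w},
      T.Adj (pth T B x (g • v₀) e) w → y ∈ B w (pth T B x (g • v₀) e) := by
    rw [Filter.eventually_all_finite (finite_close' hβ ρ g)]
    intro w hw
    by_cases ha : T.Adj (pth T B x (g • v₀) e) w
    · filter_upwards [(hB.isOpen w (pth T B x (g • v₀) e)).mem_nhds (h.2 w ha hw)] with y hy _
      exact hy
    · exact Filter.Eventually.of_forall fun y h => absurd h ha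
  filter_upwards [eventually_cmove hB h.1, h2] with y hy1 hy2
  refine ⟨⟨hy1.1, ?_⟩, hy1.2⟩
  intro w hw ht
  rw [hy1.2 e le_rfl] at hw ⊢
  exact hy2 w ht hw

end Pool.Agent.GT
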