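import Pool.Agent.Lib.MP_98022b_gl.PrioW
import Pool.Agent.Lib.MP_98022b_fa.Gate

/-!
# A common marker

Task A8a. Let `q i j` be the path from `u i` (`j ≥ 0`). The maximality gives a marked position `n*`
for the array of codes of `q` with `|n* i - (C + R')| < R'`. Choose `κ i` such that
`C + κ i * (3 * η + 3) ≤ n* i` and `n* i + η < C + κ i * (3 * η + 3) + R'`. By the rule property the
position `n* i + b i s` is marked for the path of `g * s`, for all `s ∈ S`.
-/

set_option autoImplicit false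

open Set

namespace Pool.Agent.GT

open Pool.Agent.FA

variable {G I Δ : Type} [Group G] {V : I → Type} [∀ i, MulAction G (V i)] [TopologicalSpace Δ]
  [MulAction G Δ] {T : ∀ i, SimpleGraph (V i)} {B : ∀ i, V i → V i → Set Δ}

omit [TopologicalSpace Δ] [MulAction G Δ] in
private theorem A8a_path {β : ∀ i, V i → ℕ} {v₀ : ∀ i, V i} {S : Finset G} {η ρH : ℕ}
    {g : G} {x : Δ} {u : ∀ i, V i} {b : I → G → ℕ}
    (hd : ∀ i, GateData (T i) (B i) (β i) (v₀ i) S η ρH g x (u i) (b i)) {s : G} (hs : s ∈ S)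
    (i : I) {j j' : ℤ} (hj : 0 ≤ j) (hj' : j' = j + b i s) :
    pth (T i) (B i) x (u i) j.toNat = zp T B v₀ (g * s) x i j' := by
  unfold zp zpth
  have h1 : j'.toNat = j.toNat + b i s := by omega
  rw [h1, ← (hd i).eq s hs]
  unfold pth
  rw [Function.iterate_add_apply]

theorem mark_common [Finite I] {β : ∀ i, V i → ℕ} {v₀ : ∀ i, V i} {S : Finset G} {η ρH : ℕ}
    {g : G} {x : Δ} {u : ∀ i, V i} {b : I → G → ℕ}
    (hd : ∀ i, GateData (T i) (B i) (β i) (v₀ i) S η ρH g x (u i) (b i))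
    {Z C r Q R' : ℕ} {e : Wn V r → ℕ} {F : ((I → ℤ) → ℕ) → (I → ℤ) → Prop} (hR' : R' = 4 * η + 4)
    (he : ∀ w, e w ≤ Q) (hrule : IsRule F Z)
    (hF : ∀ c, (∀ n, c n ≤ Q) → ∀ n : I → ℤ, ∃ n', (∀ i, |n' i - n i| < R') ∧ F c n')
    (hC : Z + r + η + 1 ≤ C) (i₀ : I) :
    ∃ (κ : I → Fin 4) (v : V i₀), ∀ s ∈ S, ∃ n : I → ℤ,
      (∀ i, (C : ℤ) + ((κ i : ℕ) : ℤ) * (3 * η + 3) ≤ n i ∧
        n i < (C : ℤ) + ((κ i : ℕ) : ℤ) * (3 * η + 3) + R') ∧
      F (code G e (zp T B v₀ (g * s) x)) n ∧ v = zp T B v₀ (g * s) x i₀ (n i₀) := by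
  obtain ⟨n', hn', hFn⟩ := hF (code G e (fun i (j : ℤ) => pth (T i) (B i) x (u i) j.toNat))
    (fun n => code_le he _ n) (fun _ => (C : ℤ) + R')
  have hlo : ∀ i, (C : ℤ) < n' i := fun i => by
    have h := (abs_lt.1 (hn' i)).1
    omega
  have hhi : ∀ i, n' i < (C : ℤ) + 2 * R' := fun i => by
    have h := (abs_lt.1 (hn' i)).2
    omega
  have hκ : ∀ i, ∃ κ : Fin 4, (C : ℤ) + ((κ : ℕ) : ℤ) * (3 * η + 3) ≤ n' i ∧
      n' i + η < (C : ℤ) + ((κ : ℕ) : ℤ) * (3 * η + 3) + R' := by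
    intro i
    have h1 := hlo i
    have h2 := hhi i
    have hR : (R' : ℤ) = 4 * η + 4 := by exact_mod_cast hR'
    by_cases ha : n' i - C < 3 * η + 3
    · refine ⟨0, ?_, ?_⟩
      · simp only [Fin.val_zero, Nat.cast_zero, zero_mul, add_zero]
        omega
      · simp only [Fin.val_zero, Nat.cast_zero, zero_mul, add_zero]
        omega
    · by_cases hb : n' i - C < 2 * (3 * η + 3)
      · refine ⟨1, ?_, ?_⟩
        · simp only [Fin.val_one, Nat.cast_one, one_mul]
          omega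
        · simp only [Fin.val_one, Nat.cast_one, one_mul]
          omega
      · refine ⟨2, ?_, ?_⟩
        · simp only [Fin.val_two, Nat.cast_ofNat]
          omega
        · simp only [Fin.val_two, Nat.cast_ofNat]
          omega
  choose κ hκ1 hκ2 using hκ
  refine ⟨κ, pth (T i₀) (B i₀) x (u i₀) (n' i₀).toNat, fun s hs => ?_⟩
  have hb : ∀ i, (b i s : ℤ) ≤ η := fun i => by exact_mod_cast (hd i).le s hs
  refine ⟨fun i => n' i + b i s, fun i => ⟨?_, ?_⟩, ?_, ?_⟩
  · have h1 := hκ1 i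
    simp only
    omega
  · have h1 := hκ2 i
    have h2 := hb i
    simp only
    omega
  · have h := hrule (code G e (fun i (j : ℤ) => pth (T i) (B i) x (u i) j.toNat))
      (code G e (zp T B v₀ (g * s) x)) n' (fun i => n' i + b i s) (fun δ hδ => by
        refine code_congr e fun i j hj => ?_
        have h1 := hlo i
        have h2 := (abs_le.1 (hδ i)).1
        have h3 := (abs_le.1 hj).1
        refine A8a_path hd hs i ?_ ?_
        · simp only [Pi.add_apply]
          omega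
        · simp only [Pi.add_apply]
          omega)
    rw [← h]
    exact hFn
  · have h1 := hlo i₀
    exact A8a_path hd hs i₀ (by omega) rfl

end Pool.Agent.GT
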