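import Pool.Agent.Lib.MP_98022b_gl.Levels
import Pool.Agent.Lib.MP_98022b_gl.MarkCommon
import Pool.Agent.Lib.MP_98022b_gl.CMoves

/-!
# A common colour if all paths move for a long time

Task A8b. The vertices with the numbers `C`, `C + L` of the paths of `g * s`, `g * s'` have distance
at most `η`, so `Sq ... R (g * s) x ⊆ Sq ... (R + 2 * η) (g * s') x`. If some
`Sq ... (R' + 4 * η) (g * s) x` contains an element acting nontrivially use `squeeze`, otherwise
`mark_common`.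
-/

set_option autoImplicit false

open Set

namespace Pool.Agent.GT

open Pool.Agent.FA

variable {G I Δ Ω : Type} [Group G] {V : I → Type} [∀ i, MulAction G (V i)] [TopologicalSpace Δ]
  [MulAction G Δ] [MulAction G Ω] {T : ∀ i, SimpleGraph (V i)} {B : ∀ i, V i → V i → Set Δ}

theorem case_A [Finite I] (hT : ∀ i, (T i).IsTree)
    (hadj : ∀ i (g : G) (u v : V i), (T i).Adj u v → (T i).Adj (g • u) (g • v))
    (hB : ∀ i, IsFlow G (T i) (B i)) {β : ∀ i, V i → ℕ} {v₀ : ∀ i, V i} {S : Finset G}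
    {η ρH : ℕ} {g : G} {x : Δ} {u : ∀ i, V i} {b : I → G → ℕ}
    (hd : ∀ i, GateData (T i) (B i) (β i) (v₀ i) S η ρH g x (u i) (b i))
    {ρ D Z C L r Q R' : ℕ} {e : Wn V r → ℕ} {F : ((I → ℤ) → ℕ) → (I → ℤ) → Prop}
    (hR' : R' = 4 * η + 4) (he : ∀ w, e w ≤ Q) (hrule : IsRule F Z)
    (hF : ∀ c, (∀ n, c n ≤ Q) → ∀ n : I → ℤ, ∃ n', (∀ i, |n' i - n i| < R') ∧ F c n')
    (hC : Z + r + η + 1 ≤ C) (hD : C + L ≤ D) (i₀ : I)
    (hfix : ∀ g : G, NT V g → {ω : Ω | g • ω = ω}.encard ≤ 2)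
    (hE : ∀ x y : ∀ i, V i, (∀ i, L ≤ (T i).dist (x i) (y i)) →
      (FixS Ω (Sh G T (R' + 2 * η * 6) x y)).Nonempty)
    (hdom : ∀ i, ∀ s ∈ S, ∀ m < b i s + D, CMove (T i) (B i) (β i) (v₀ i) ρ (g * s) x m) :
    (∃ k : ℕ, (k = 3 ∨ k = 5) ∧ ∃ l : Set Ω, ∀ s ∈ S,
      colF T B β v₀ ρ D C L (R' + 2 * η * k) (g * s) x l) ∨
    ∃ (κ : I → Fin 4) (v : V i₀), ∀ s ∈ S,
      colK T B β v₀ ρ D C L (R' + 2 * η * 2) e F
        (fun i => (C : ℤ) + ((κ i : ℕ) : ℤ) * (3 * η + 3)) R' i₀ (g * s) x v := by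
  classical
  have hbη : ∀ i, ∀ s ∈ S, b i s ≤ η := fun i s hs => (hd i).le s hs
  have hpt : ∀ i, ∀ s ∈ S, ∀ j : ℕ, pth (T i) (B i) x ((g * s) • v₀ i) (b i s + j) =
      pth (T i) (B i) x (u i) j := by
    intro i s hs j
    rw [pth_add, (hd i).eq s hs]
  have hmoves : ∀ i, ∀ s ∈ S, ∀ m < b i s + D,
      (T i).Adj (pth (T i) (B i) x ((g * s) • v₀ i) m)
        (pth (T i) (B i) x ((g * s) • v₀ i) (m + 1)) := fun i s hs m hm => (hdom i s hs m hm).1
  have hzp : ∀ i, ∀ s, ∀ j : ℕ, zp T B v₀ (g * s) x i (j : ℤ) =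
      pth (T i) (B i) x ((g * s) • v₀ i) j := by
    intro i s j
    unfold zp zpth
    rw [Int.toNat_natCast]
  -- vertices with the same number are at distance at most `η`
  have hclose : ∀ i, ∀ s ∈ S, ∀ s' ∈ S, ∀ j : ℕ, η ≤ j → j ≤ D →
      (T i).dist (zp T B v₀ (g * s) x i (j : ℤ)) (zp T B v₀ (g * s') x i (j : ℤ)) ≤ η := by
    have key : ∀ i, ∀ s ∈ S, ∀ s' ∈ S, ∀ j : ℕ, η ≤ j → j ≤ D → b i s ≤ b i s' →
        (T i).dist (zp T B v₀ (g * s) x i (j : ℤ)) (zp T B v₀ (g * s') x i (j : ℤ)) ≤ η := by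
      intro i s hs s' hs' j hj hjD hbb
      have h1 := hbη i s hs
      have h2 := hbη i s' hs'
      obtain ⟨a, rfl⟩ := Nat.exists_eq_add_of_le (h2.trans hj)
      have e1 : zp T B v₀ (g * s') x i ((b i s' + a : ℕ) : ℤ) = pth (T i) (B i) x
          ((g * s) • v₀ i) (b i s + a) := by
        rw [hzp, hpt i s' hs', hpt i s hs]
      rw [e1, hzp, SimpleGraph.dist_comm,
        dist_pth (hT i) (hB i) (n := b i s + D) (hmoves i s hs) (by omega) (by omega)]
      omega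
    intro i s hs s' hs' j hj hjD
    rcases le_total (b i s) (b i s') with h | h
    · exact key i s hs s' hs' j hj hjD h
    · rw [SimpleGraph.dist_comm]
      exact key i s' hs' s hs j hj hjD h
  have hC1 : η ≤ C := by omega
  have hSq : ∀ R, ∀ s ∈ S, ∀ s' ∈ S, Sq T B v₀ C L R (g * s) x ⊆
      Sq T B v₀ C L (R + 2 * η) (g * s') x := by
    intro R s hs s' hs' γ hγ i
    have key : ∀ j : ℕ, η ≤ j → j ≤ D →
        (T i).dist (γ • zp T B v₀ (g * s) x i (j : ℤ)) (zp T B v₀ (g * s) x i (j : ℤ)) ≤ R →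
        (T i).dist (γ • zp T B v₀ (g * s') x i (j : ℤ)) (zp T B v₀ (g * s') x i (j : ℤ)) ≤
          R + 2 * η := by
      intro j hj hjD h
      have h1 := hclose i s hs s' hs' j hj hjD
      have h2 := dist_smul (hadj i) γ (zp T B v₀ (g * s) x i (j : ℤ))
        (zp T B v₀ (g * s') x i (j : ℤ))
      have t1 := (hT i).connected.dist_triangle (u := γ • zp T B v₀ (g * s') x i (j : ℤ))
        (v := γ • zp T B v₀ (g * s) x i (j : ℤ)) (w := zp T B v₀ (g * s') x i (j : ℤ))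
      have t2 := (hT i).connected.dist_triangle (u := γ • zp T B v₀ (g * s) x i (j : ℤ))
        (v := zp T B v₀ (g * s) x i (j : ℤ)) (w := zp T B v₀ (g * s') x i (j : ℤ))
      have t3 := SimpleGraph.dist_comm (G := T i) (u := γ • zp T B v₀ (g * s') x i (j : ℤ))
        (v := γ • zp T B v₀ (g * s) x i (j : ℤ))
      omega
    have hγi := hγ i
    refine ⟨key C hC1 (by omega) hγi.1, ?_⟩
    have h3 := key (C + L) (by omega) hD
    rw [Nat.cast_add] at h3
    exact h3 hγi.2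
  have hPD : ∀ s ∈ S, PDom T B β v₀ ρ D (g * s) x := fun s hs i m hm =>
    hdom i s hs m (by omega)
  by_cases hex : ∃ s ∈ S, ∃ γ ∈ Sq T B v₀ C L (R' + 2 * η * 2) (g * s) x, NT V γ
  · left
    obtain ⟨k, hk, l, hl⟩ := squeeze (Ω := Ω) (S := S)
      (E := fun k s => Sq T B v₀ C L (R' + 2 * η * k) (g * s) x) (NT V)
      (by
        intro k s hs s' hs'
        have h1 := hSq (R' + 2 * η * k) s hs s' hs'
        have h2 : R' + 2 * η * (k + 1) = R' + 2 * η * k + 2 * η := by ring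
        change Sq T B v₀ C L (R' + 2 * η * k) (g * s) x ⊆
          Sq T B v₀ C L (R' + 2 * η * (k + 1)) (g * s') x
        rw [h2]
        exact h1)
      (by
        intro s hs
        refine hE _ _ fun i => ?_
        rw [← Nat.cast_add, hzp, hzp,
          dist_pth (hT i) (hB i) (n := b i s + D) (hmoves i s hs) (by omega) (by omega)]
        omega)
      hfix hex
    exact ⟨k, hk, l, fun s hs => ⟨hPD s hs, (hl s hs).1, (hl s hs).2⟩⟩
  · right
    push Not at hex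
    obtain ⟨κ, v, hv⟩ := mark_common hd hR' he hrule hF hC i₀
    refine ⟨κ, v, fun s hs => ?_⟩
    obtain ⟨n, hn, hFn, hvn⟩ := hv s hs
    refine ⟨hPD s hs, ?_, n, hn, hFn, hvn⟩
    rintro ⟨γ, hγ, hN⟩
    exact hex s hs γ hγ hN

end Pool.Agent.GT
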