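import Pool.Agent.Lib.MP_98022b_gl.CMoves

/-!
# The colours by common fixed points

Task A6a.
-/

set_option autoImplicit false

open Set
open scoped Pointwise

namespace Pool.Agent.GT

open Pool.Agent.FA

variable {G I Δ Ω : Type} [Group G] {V : I → Type} [∀ i, MulAction G (V i)] [TopologicalSpace Δ]
  [MulAction G Δ] [MulAction G Ω] {T : ∀ i, SimpleGraph (V i)} {B : ∀ i, V i → V i → Set Δ}

namespace A6aaux

theorem zp_smul (hadj : ∀ i (g : G) (u v : V i), (T i).Adj u v → (T i).Adj (g • u) (g • v))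
    (hB : ∀ i, IsFlow G (T i) (B i)) (v₀ : ∀ i, V i) (h g : G) (x : Δ) :
    zp T B v₀ (h * g) (h • x) = fun i j => h • zp T B v₀ g x i j := by
  funext i j
  unfold zp zpth
  rw [mul_smul, pth_smul (hadj i) (hB i)]

theorem nt_conj {h γ : G} (hγ : NT V γ) : NT V (h * γ * h⁻¹) := by
  obtain ⟨i, v, hv⟩ := hγ
  refine ⟨i, h • v, fun h1 => hv ?_⟩
  rw [mul_smul, mul_smul, inv_smul_smul] at h1
  have h2 := congrArg (fun w => h⁻¹ • w) h1
  simpa only [inv_smul_smul] using h2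

theorem sq_smul (hadj : ∀ i (g : G) (u v : V i), (T i).Adj u v → (T i).Adj (g • u) (g • v))
    (hB : ∀ i, IsFlow G (T i) (B i)) {v₀ : ∀ i, V i} {C L R : ℕ} (h : G) {g γ : G}
    {x : Δ} (hγ : γ ∈ Sq T B v₀ C L R (h * g) (h • x)) :
    h⁻¹ * γ * h ∈ Sq T B v₀ C L R g x := by
  have key : ∀ i (v : V i), (T i).dist (h⁻¹ • γ • h • v) v = (T i).dist (γ • h • v) (h • v) := by
    intro i v
    rw [← dist_smul (hadj i) h (h⁻¹ • γ • h • v) v, smul_inv_smul]
  intro i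
  have h1 := hγ i
  rw [zp_smul hadj hB] at h1
  refine ⟨?_, ?_⟩
  · rw [mul_smul, mul_smul, key]
    exact h1.1
  · rw [mul_smul, mul_smul, key]
    exact h1.2

theorem sq_smul' (hadj : ∀ i (g : G) (u v : V i), (T i).Adj u v → (T i).Adj (g • u) (g • v))
    (hB : ∀ i, IsFlow G (T i) (B i)) {v₀ : ∀ i, V i} {C L R : ℕ} (h : G) {g γ : G}
    {x : Δ} (hγ : γ ∈ Sq T B v₀ C L R g x) :
    h * γ * h⁻¹ ∈ Sq T B v₀ C L R (h * g) (h • x) := by
  have h1 := sq_smul hadj hB (v₀ := v₀) (C := C) (L := L) (R := R) h⁻¹ (g := h * g) (γ := γ)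
    (x := h • x) (by rwa [inv_mul_cancel_left, inv_smul_smul])
  rwa [inv_inv] at h1

theorem fixS_smul (hadj : ∀ i (g : G) (u v : V i), (T i).Adj u v → (T i).Adj (g • u) (g • v))
    (hB : ∀ i, IsFlow G (T i) (B i)) {v₀ : ∀ i, V i} {C L R : ℕ} (h g : G) (x : Δ) :
    FixS Ω (Sq T B v₀ C L R (h * g) (h • x)) = h • FixS Ω (Sq T B v₀ C L R g x) := by
  ext ω
  rw [Set.mem_smul_set_iff_inv_smul_mem]
  refine ⟨fun hω γ hγ => ?_, fun hω γ hγ => ?_⟩
  · have h1 := hω _ (sq_smul' hadj hB h hγ)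
    rw [mul_smul, mul_smul] at h1
    have h2 := congrArg (fun w => h⁻¹ • w) h1
    simpa only [inv_smul_smul] using h2
  · have h1 := hω _ (sq_smul hadj hB h hγ)
    rw [mul_smul, mul_smul, smul_inv_smul] at h1
    have h2 := congrArg (fun w => h • w) h1
    simpa only [smul_inv_smul] using h2

end A6aaux

open A6aaux

theorem isColour_colF [Finite I] (hT : ∀ i, (T i).IsTree)
    (hadj : ∀ i (g : G) (u v : V i), (T i).Adj u v → (T i).Adj (g • u) (g • v))
    (hB : ∀ i, IsFlow G (T i) (B i)) (β : ∀ i, V i → ℕ) (v₀ : ∀ i, V i) {ρ D C L R : ℕ}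
    (hD : C + L ≤ D)
    (hfix : ∀ g : G, NT V g → {ω : Ω | g • ω = ω}.encard ≤ 2)
    (hE : ∀ x y : ∀ i, V i, (∀ i, L ≤ (T i).dist (x i) (y i)) → (FixS Ω (Sh G T R x y)).Nonempty) :
    IsColour (G := G) (fun l : Set Ω => l.Nonempty ∧ l.encard ≤ 2)
      (colF T B β v₀ ρ D C L R) := by
  refine ⟨?_, ?_, ?_, ?_⟩
  · rintro g x l l' ⟨-, -, rfl⟩ ⟨-, -, rfl⟩
    rfl
  · intro g l
    rw [isOpen_iff_mem_nhds]
    rintro x ⟨hd, hnt, rfl⟩
    have hev : ∀ᶠ y in nhds x, ∀ i, (∀ m < D, CMove (T i) (B i) (β i) (v₀ i) ρ g y m) ∧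
        ∀ m ≤ D, pth (T i) (B i) y (g • v₀ i) m = pth (T i) (B i) x (g • v₀ i) m :=
      Filter.eventually_all.2 fun i => eventually_cmove (hB i) (hd i)
    filter_upwards [hev] with y hy
    have hz : ∀ i (j : ℤ), j ≤ D → zp T B v₀ g y i j = zp T B v₀ g x i j := by
      intro i j hj
      exact (hy i).2 _ (by omega)
    have hsq : Sq T B v₀ C L R g y = Sq T B v₀ C L R g x := by
      unfold Sq
      congr 1
      · funext i
        exact hz i _ (by omega)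
      · funext i
        exact hz i _ (by omega)
    refine ⟨fun i => (hy i).1, ?_, ?_⟩
    · rw [hsq]
      exact hnt
    · rw [hsq]
  · rintro h g x l ⟨hd, ⟨γ, hγ, hγ'⟩, rfl⟩
    exact ⟨fun i m hm => cmove_smul (hadj i) (hB i) h (hd i m hm),
      ⟨_, sq_smul' hadj hB h hγ, nt_conj hγ'⟩, (fixS_smul hadj hB h g x).symm⟩
  · rintro g x l ⟨hd, ⟨γ, hγ, hγ'⟩, rfl⟩
    refine ⟨hE _ _ fun i => ?_, le_trans (Set.encard_le_encard ?_) (hfix γ hγ')⟩
    · have h1 := dist_pth (hT i) (hB i) (x := x) (v := g • v₀ i) (n := D)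
        (fun m hm => (hd i m hm).1) (a := C) (b := C + L) (by omega) hD
      unfold zp zpth
      rw [show ((C : ℤ) + L).toNat = C + L by omega, Int.toNat_natCast, h1]
      omega
    · intro ω hω
      exact hω γ hγ

end Pool.Agent.GT
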