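import Pool.Agent.Lib.MP_98022b_gl.Defs

/-!
# The code of a position

Task A5b. (Compare `Lib/MP_98022b_fa/Prio.lean`.)
-/

set_option autoImplicit false

namespace Pool.Agent.GT

open Pool.Agent.FA

variable {G I : Type} [Group G] {V : I → Type} [∀ i, MulAction G (V i)] {r : ℕ}

theorem code_le {e : Wn V r → ℕ} {Q : ℕ} (he : ∀ w, e w ≤ Q) (P : ∀ i, ℤ → V i) (n : I → ℤ) :
    code G e P n ≤ Q :=
  le_trans (Nat.sInf_le ⟨1, rfl⟩) (he _)

theorem code_smul (e : Wn V r → ℕ) (P : ∀ i, ℤ → V i) (n : I → ℤ) (g : G) :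
    code G e (fun i j => g • P i j) n = code G e P n := by
  unfold code win
  congr 1
  ext k
  constructor
  · rintro ⟨h, rfl⟩
    exact ⟨h * g, by simp only [mul_smul]⟩
  · rintro ⟨h, rfl⟩
    exact ⟨h * g⁻¹, by simp only [mul_smul, inv_smul_smul]⟩

theorem code_congr (e : Wn V r → ℕ) {P P' : ∀ i, ℤ → V i} {n n' : I → ℤ}
    (h : ∀ i j, |j| ≤ (r : ℤ) → P i (n i + j) = P' i (n' i + j)) :
    code G e P n = code G e P' n' := by
  have hw : win P r n = win P' r n' := by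
    funext i t
    have ht := t.2
    have h1 := h i ((t : ℕ) - (r : ℤ)) (by rw [abs_le]; constructor <;> omega)
    have e1 : n i + ((t : ℕ) - (r : ℤ)) = n i - r + (t : ℕ) := by ring
    have e2 : n' i + ((t : ℕ) - (r : ℤ)) = n' i - r + (t : ℕ) := by ring
    rw [e1, e2] at h1
    exact h1
  unfold code
  rw [hw]

/-- Positions with the same code whose windows are close to `g` have windows in one orbit. -/
theorem exists_of_code_eq {e : Wn V r → ℕ} {Q ρ : ℕ} {β : ∀ i, V i → ℕ}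
    (h1 : ∀ w, (∀ i t, β i (w i t) ≤ ρ) → e w < Q)
    (h2 : ∀ w w', e w < Q → e w = e w' → w = w') {P : ∀ i, ℤ → V i} {n n' : I → ℤ} {g : G}
    (hn : ∀ i j, |j| ≤ (r : ℤ) → Close (β i) ρ g (P i (n i + j)))
    (h : code G e P n = code G e P n') :
    ∃ γ : G, ∀ i j, |j| ≤ (r : ℤ) → γ • P i (n i + j) = P i (n' i + j) := by
  have key : ∀ m : I → ℤ, ∃ g : G, code G e P m = e (fun i t => g • win P r m i t) := by
    intro m
    have hne : {k | ∃ g : G, k = e (fun i t => g • win P r m i t)}.Nonempty := ⟨_, 1, rfl⟩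
    exact Nat.sInf_mem hne
  obtain ⟨g₁, hg₁⟩ := key n
  obtain ⟨g₂, hg₂⟩ := key n'
  have hlt : code G e P n < Q := by
    refine lt_of_le_of_lt (Nat.sInf_le ⟨g⁻¹, rfl⟩) (h1 _ fun i t => ?_)
    have ht := t.2
    have h3 := hn i ((t : ℕ) - (r : ℤ)) (by rw [abs_le]; constructor <;> omega)
    have e1 : n i + ((t : ℕ) - (r : ℤ)) = n i - r + (t : ℕ) := by ring
    rw [e1] at h3
    exact h3
  rw [hg₁] at hlt
  rw [hg₁, hg₂] at h
  have h4 := h2 _ _ hlt h
  refine ⟨g₂⁻¹ * g₁, fun i j hj => ?_⟩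
  have hb := abs_le.mp hj
  have hlt' : (j + r).toNat < 2 * r + 1 := by omega
  have h5 := congrFun (congrFun h4 i) ⟨(j + r).toNat, hlt'⟩
  simp only [win] at h5
  have e1 : n i - r + ((j + r).toNat : ℤ) = n i + j := by omega
  have e2 : n' i - r + ((j + r).toNat : ℤ) = n' i + j := by omega
  rw [e1, e2] at h5
  rw [mul_smul, h5, inv_smul_smul]

end Pool.Agent.GT
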