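import Pool.Agent.Lib.MP_98022b_gl.CMoves
import Pool.Agent.Lib.MP_98022b_gl.PrioW

/-!
# The marker colours

Task A6b. `unique`: if `n ≠ n'` are two marked positions in the cube then by `hF` they have the same
code, hence some `γ` maps the window around `n` to the window around `n'` (`exists_of_code_eq`). It
moves each vertex of the window by at most `R'` along the paths, the windows contain the positions
`C` and `C + L`, and `γ` acts nontrivially: this contradicts the condition in `colK`.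
-/

set_option autoImplicit false

open Set

namespace Pool.Agent.GT

open Pool.Agent.FA

variable {G I Δ : Type} [Group G] {V : I → Type} [∀ i, MulAction G (V i)] [TopologicalSpace Δ]
  [MulAction G Δ] {T : ∀ i, SimpleGraph (V i)} {B : ∀ i, V i → V i → Set Δ}

namespace A6baux

theorem zp_smul (hadj : ∀ i (g : G) (u v : V i), (T i).Adj u v → (T i).Adj (g • u) (g • v))
    (hB : ∀ i, IsFlow G (T i) (B i)) (v₀ : ∀ i, V i) (h g : G) (x : Δ) :
    zp T B v₀ (h * g) (h • x) = fun i j => h • zp T B v₀ g x i j := by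
  funext i j
  unfold zp zpth
  rw [mul_smul, pth_smul (hadj i) (hB i)]

theorem pdom_smul (hadj : ∀ i (g : G) (u v : V i), (T i).Adj u v → (T i).Adj (g • u) (g • v))
    (hB : ∀ i, IsFlow G (T i) (B i)) {β : ∀ i, V i → ℕ} {v₀ : ∀ i, V i} {ρ D : ℕ} (h : G) {g : G}
    {x : Δ} (hd : PDom T B β v₀ ρ D g x) : PDom T B β v₀ ρ D (h * g) (h • x) :=
  fun i m hm => cmove_smul (hadj i) (hB i) h (hd i m hm)

theorem nt_conj {h γ : G} (hγ : NT V (h⁻¹ * γ * h)) : NT V γ := by
  obtain ⟨i, v, hv⟩ := hγ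
  refine ⟨i, h • v, fun h1 => hv ?_⟩
  rw [mul_smul, mul_smul, h1, inv_smul_smul]

theorem nt_conj' {h γ : G} (hγ : NT V γ) : NT V (h⁻¹ * γ * h) := by
  obtain ⟨i, v, hv⟩ := hγ
  refine ⟨i, h⁻¹ • v, fun h1 => hv ?_⟩
  rw [mul_smul, mul_smul, smul_inv_smul] at h1
  have h2 := congrArg (fun w => h • w) h1
  simpa only [smul_inv_smul] using h2

theorem sq_smul (hadj : ∀ i (g : G) (u v : V i), (T i).Adj u v → (T i).Adj (g • u) (g • v))
    (hB : ∀ i, IsFlow G (T i) (B i)) {v₀ : ∀ i, V i} {C L R : ℕ} (h : G) {g γ : G}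
    {x : Δ} (hγ : γ ∈ Sq T B v₀ C L R (h * g) (h • x)) :
    h⁻¹ * γ * h ∈ Sq T B v₀ C L R g x := by
  have key : ∀ i (v : V i), (T i).dist (h⁻¹ • γ • h • v) v = (T i).dist (γ • h • v) (h • v) := by
    intro i v
    rw [← dist_smul (hadj i) h (h⁻¹ • γ • h • v) v, smul_inv_smul]
  intro i
  have h1 := hγ i
  rw [zp_smul hadj hB] at h1
  refine ⟨?_, ?_⟩
  · rw [mul_smul, mul_smul, key]
    exact h1.1
  · rw [mul_smul, mul_smul, key]
    exact h1.2

end A6baux

open A6baux

theorem isColour_colK [Finite I] (hT : ∀ i, (T i).IsTree)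
    (hadj : ∀ i (g : G) (u v : V i), (T i).Adj u v → (T i).Adj (g • u) (g • v))
    (hB : ∀ i, IsFlow G (T i) (B i)) (β : ∀ i, V i → ℕ) (v₀ : ∀ i, V i)
    {ρ D C L R R' Q Z r : ℕ} {e : Wn V r → ℕ} {F : ((I → ℤ) → ℕ) → (I → ℤ) → Prop} {C' : I → ℤ}
    (i₀ : I) (he : ∀ w, e w ≤ Q) (he1 : ∀ w, (∀ i t, β i (w i t) ≤ ρ) → e w < Q)
    (he2 : ∀ w w', e w < Q → e w = e w' → w = w')
    (hrule : IsRule F Z)
    (hF : ∀ c, (∀ n, c n ≤ Q) → ∀ n n' : I → ℤ, (∀ i, |n' i - n i| < R') → F c n → F c n' →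
      c n = c n')
    (hR : R' ≤ R) (hC1 : ∀ i, (C : ℤ) ≤ C' i) (hC2 : ∀ i, C' i + R' ≤ C + 4 * R')
    (hZC : Z + r + 1 ≤ C) (hr : r = 4 * R' + L) (hD : C + 4 * R' + Z + r ≤ D) :
    IsColour (G := G) (fun _ : V i₀ => True) (colK T B β v₀ ρ D C L R e F C' R' i₀) := by
  refine ⟨?_, ?_, ?_, fun _ _ _ _ => trivial⟩
  · rintro g x l l' ⟨hd, hnt, n, hn, hFn, rfl⟩ ⟨-, -, n', hn', hFn', rfl⟩
    by_contra hne
    refine hnt ?_
    have hcode := hF (code G e (zp T B v₀ g x)) (code_le he _) n n' (fun i => by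
      have h1 := hn i
      have h2 := hn' i
      rw [abs_lt]
      constructor <;> omega) hFn hFn'
    have hclose : ∀ i j, |j| ≤ (r : ℤ) → Close (β i) ρ g (zp T B v₀ g x i (n i + j)) := by
      intro i j hj
      have h1 := hn i
      have h2 := hC1 i
      have h3 := hC2 i
      have h4 := abs_le.1 hj
      obtain ⟨m, hm⟩ : ∃ m : ℕ, (n i + j).toNat = m + 1 := ⟨(n i + j).toNat - 1, by omega⟩
      unfold zp zpth
      rw [hm]
      exact (hd i m (by omega)).2
    obtain ⟨γ, hγ⟩ := exists_of_code_eq he1 he2 hclose hcode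
    have hdist : ∀ i (a b : ℤ), 0 ≤ a → 0 ≤ b → a ≤ D → b ≤ D → |a - b| ≤ (R : ℤ) →
        (T i).dist (zp T B v₀ g x i a) (zp T B v₀ g x i b) ≤ R := by
      intro i a b ha hb ha' hb' hab
      have h4 := abs_le.1 hab
      unfold zp zpth
      rcases le_total a.toNat b.toNat with h | h
      · rw [dist_pth (hT i) (hB i) (n := D) (fun m hm => (hd i m hm).1) h (by omega)]
        omega
      · rw [(T i).dist_comm, dist_pth (hT i) (hB i) (n := D) (fun m hm => (hd i m hm).1) h
          (by omega)]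
        omega
    refine ⟨γ, fun i => ?_, i₀, zp T B v₀ g x i₀ (n i₀), fun h1 => hne ?_⟩
    · have h1 := hn i
      have h2 := hC1 i
      have h3 := hC2 i
      have h4 := hn' i
      have e1 := hγ i (C - n i) (by rw [abs_le]; constructor <;> omega)
      have e2 := hγ i (C + L - n i) (by rw [abs_le]; constructor <;> omega)
      rw [show n i + ((C : ℤ) - n i) = C by ring] at e1
      rw [show n i + ((C : ℤ) + L - n i) = C + L by ring] at e2
      refine ⟨?_, ?_⟩
      · rw [e1]
        refine hdist i _ _ (by omega) (by omega) (by omega) (by omega) ?_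
        rw [abs_le]
        constructor <;> omega
      · rw [e2]
        refine hdist i _ _ (by omega) (by omega) (by omega) (by omega) ?_
        rw [abs_le]
        constructor <;> omega
    · have h2 := hγ i₀ 0 (by simp)
      rw [add_zero, add_zero] at h2
      exact h1.symm.trans h2
  · intro g l
    rw [isOpen_iff_mem_nhds]
    rintro x ⟨hd, hnt, n, hn, hFn, rfl⟩
    have hev : ∀ᶠ y in nhds x, ∀ i, (∀ m < D, CMove (T i) (B i) (β i) (v₀ i) ρ g y m) ∧
        ∀ m ≤ D, pth (T i) (B i) y (g • v₀ i) m = pth (T i) (B i) x (g • v₀ i) m :=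
      Filter.eventually_all.2 fun i => eventually_cmove (hB i) (hd i)
    filter_upwards [hev] with y hy
    have hz : ∀ i (j : ℤ), j ≤ D → zp T B v₀ g y i j = zp T B v₀ g x i j := by
      intro i j hj
      exact (hy i).2 _ (by omega)
    have hsq : Sq T B v₀ C L R g y = Sq T B v₀ C L R g x := by
      unfold Sq
      congr 1
      · funext i
        exact hz i _ (by omega)
      · funext i
        exact hz i _ (by omega)
    refine ⟨fun i => (hy i).1, ?_, n, hn, ?_, ?_⟩
    · rw [hsq]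
      exact hnt
    · have h1 : F (code G e (zp T B v₀ g y)) n = F (code G e (zp T B v₀ g x)) n := by
        refine hrule _ _ _ _ fun δ hδ => ?_
        refine code_congr e fun i j hj => ?_
        refine hz i _ ?_
        have h1 := hn i
        have h2 := hC1 i
        have h3 := hC2 i
        have h4 := abs_le.1 hj
        have h5 := abs_le.1 (hδ i)
        simp only [Pi.add_apply]
        omega
      rw [h1]
      exact hFn
    · have h1 := hn i₀
      have h2 := hC1 i₀
      have h3 := hC2 i₀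
      exact (hz i₀ _ (by omega)).symm
  · rintro h g x l ⟨hd, hnt, n, hn, hFn, rfl⟩
    refine ⟨pdom_smul hadj hB h hd, ?_, n, hn, ?_, ?_⟩
    · rintro ⟨γ, hγ, hγ'⟩
      exact hnt ⟨_, sq_smul hadj hB h hγ, nt_conj' hγ'⟩
    · have h1 : code G e (zp T B v₀ (h * g) (h • x)) = code G e (zp T B v₀ g x) := by
        rw [zp_smul hadj hB]
        funext m
        exact code_smul e _ m h
      rw [h1]
      exact hFn
    · rw [zp_smul hadj hB]

end Pool.Agent.GT
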