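import Pool.Agent.Lib.MP_98022b_gl.Defs

/-!
# Codes of windows

Task A5a.
-/

set_option autoImplicit false

namespace Pool.Agent.GT

open Pool.Agent.FA

/-- Windows whose vertices have gauge at most `ρ` have injective codes less than `Q`; the other
windows have the code `Q`. -/
theorem exists_enc {I : Type} [Finite I] {V : I → Type} (β : ∀ i, V i → ℕ) {C : ℕ}
    (hfin : ∀ i n, {v | β i v ≤ n}.Finite) (hβ : ∀ i n, {v | β i v ≤ n}.ncard ≤ C ^ (n + 1))
    (r ρ Q : ℕ) (hQ : C ^ ((ρ + 1) * ((2 * r + 1) * Nat.card I)) ≤ Q) :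
    ∃ e : Wn V r → ℕ, (∀ w, e w ≤ Q) ∧ (∀ w, (∀ i t, β i (w i t) ≤ ρ) → e w < Q) ∧
      ∀ w w', e w < Q → e w = e w' → w = w' := by
  classical
  have : Fintype I := Fintype.ofFinite I
  -- the vertices of small gauge
  let A : I → Type := fun i => {v : V i // β i v ≤ ρ}
  have hA : ∀ i, Finite (A i) := fun i => (hfin i ρ).to_subtype
  have hAf : ∀ i, Fintype (A i) := fun i => Fintype.ofFinite (A i)
  have hcard : ∀ i, Fintype.card (A i) ≤ C ^ (ρ + 1) := by
    intro i
    rw [← Nat.card_eq_fintype_card]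
    exact hβ i ρ
  let W : Type := ∀ i, Fin (2 * r + 1) → A i
  have hW : Fintype.card W ≤ Q := by
    refine le_trans ?_ hQ
    have h1 : Fintype.card W = ∏ i : I, (Fintype.card (A i)) ^ (2 * r + 1) := by
      simp only [W, Fintype.card_pi, Finset.prod_const, Finset.card_univ, Fintype.card_fin]
    rw [h1]
    calc ∏ i : I, (Fintype.card (A i)) ^ (2 * r + 1)
        ≤ ∏ _i : I, (C ^ (ρ + 1)) ^ (2 * r + 1) :=
          Finset.prod_le_prod' fun i _ => Nat.pow_le_pow_left (hcard i) _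
      _ = C ^ ((ρ + 1) * ((2 * r + 1) * Nat.card I)) := by
          simp only [Finset.prod_const, Finset.card_univ, Nat.card_eq_fintype_card, ← pow_mul,
            mul_assoc]
  obtain ⟨f⟩ : Nonempty (W ↪ Fin Q) := by
    rw [Function.Embedding.nonempty_iff_card_le, Fintype.card_fin]
    exact hW
  let e : Wn V r → ℕ := fun w =>
    if h : ∀ i t, β i (w i t) ≤ ρ then (f fun i t => ⟨w i t, h i t⟩ : ℕ) else Q
  have he1 : ∀ w (h : ∀ i t, β i (w i t) ≤ ρ), e w = (f fun i t => ⟨w i t, h i t⟩ : ℕ) :=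
    fun w h => dif_pos h
  have he2 : ∀ w, ¬ (∀ i t, β i (w i t) ≤ ρ) → e w = Q := fun w h => dif_neg h
  refine ⟨e, fun w => ?_, fun w h => ?_, fun w w' hlt heq => ?_⟩
  · by_cases h : ∀ i t, β i (w i t) ≤ ρ
    · rw [he1 w h]
      exact (f _).2.le
    · rw [he2 w h]
  · rw [he1 w h]
    exact (f _).2
  · have h : ∀ i t, β i (w i t) ≤ ρ := by
      by_contra h
      rw [he2 w h] at hlt
      exact lt_irrefl _ hlt
    have h' : ∀ i t, β i (w' i t) ≤ ρ := by
      by_contra h'
      rw [heq, he2 w' h'] at hlt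
      exact lt_irrefl _ hlt
    rw [he1 w h, he1 w' h'] at heq
    have h3 := f.injective (Fin.ext heq)
    funext i t
    exact congrArg Subtype.val (congrFun (congrFun h3 i) t)

end Pool.Agent.GT
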