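import Pool.Agent.Lib.MP_98022b_gl.Defs

/-!
# Gauges of exponential growth

Task A2. Take a finite symmetric generating set `A` of `G`, the word length `len`, an enumeration
`x 0, x 1, ...` of `V i`, and `β i v = min {len g + k | v = g • x k}`.
-/

set_option autoImplicit false

namespace Pool.Agent.GT

open Pool.Agent.FA

open scoped Pointwise in
/-- a word length -/
private theorem A2_len {G : Type} [Group G] (hG : Group.FG G) :
    ∃ (len : G → ℕ) (N : ℕ), 1 ≤ N ∧ len 1 = 0 ∧ (∀ g h, len (g * h) ≤ len g + len h) ∧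
      ∀ n, {g | len g ≤ n}.Finite ∧ {g | len g ≤ n}.ncard ≤ N ^ n := by
  classical
  obtain ⟨S, hS⟩ := hG.out
  set A : Finset G := insert 1 (S ∪ S⁻¹) with hA
  have h1A : (1 : G) ∈ A := Finset.mem_insert_self _ _
  have hmono : ∀ {a b : ℕ}, a ≤ b → A ^ a ⊆ A ^ b := fun h => Finset.pow_subset_pow_right h1A h
  have hex : ∀ g : G, ∃ k : ℕ, g ∈ A ^ k := by
    intro g
    have hg : g ∈ (Subgroup.closure (S : Set G)).toSubmonoid := by
      rw [hS]
      trivial
    rw [Subgroup.closure_toSubmonoid] at hg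
    induction hg using Submonoid.closure_induction with
    | mem x hx =>
      refine ⟨1, ?_⟩
      rw [pow_one, hA, Finset.mem_insert]
      right
      rw [Finset.mem_union]
      rcases hx with hx | hx
      · exact Or.inl hx
      · exact Or.inr (Finset.mem_inv'.2 hx)
    | one => exact ⟨0, by rw [pow_zero]; exact Finset.mem_one.2 rfl⟩
    | mul x y _ _ hx hy =>
      obtain ⟨a, ha⟩ := hx
      obtain ⟨b, hb⟩ := hy
      exact ⟨a + b, by rw [pow_add]; exact Finset.mul_mem_mul ha hb⟩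
  have hmem : ∀ g : G, g ∈ A ^ (sInf {k : ℕ | g ∈ A ^ k}) := fun g => Nat.sInf_mem (hex g)
  have hle : ∀ (g : G) (k : ℕ), g ∈ A ^ k → sInf {k : ℕ | g ∈ A ^ k} ≤ k :=
    fun g k h => Nat.sInf_le h
  have hset : ∀ n, {g : G | sInf {k : ℕ | g ∈ A ^ k} ≤ n} ⊆ ((A ^ n : Finset G) : Set G) :=
    fun n g hg => hmono hg (hmem g)
  refine ⟨fun g => sInf {k : ℕ | g ∈ A ^ k}, A.card, Finset.card_pos.2 ⟨1, h1A⟩, ?_, ?_, ?_⟩
  · exact Nat.le_zero.1 (hle 1 0 (by rw [pow_zero]; exact Finset.mem_one.2 rfl))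
  · intro g h
    exact hle _ _ (by rw [pow_add]; exact Finset.mul_mem_mul (hmem g) (hmem h))
  · intro n
    refine ⟨(Finset.finite_toSet _).subset (hset n), ?_⟩
    refine (Set.ncard_le_ncard (hset n) (Finset.finite_toSet _)).trans ?_
    rw [Set.ncard_coe_finset]
    exact Finset.card_pow_le

theorem exists_expGauge {G I : Type} [Group G] (hG : Group.FG G) (V : I → Type)
    [∀ i, MulAction G (V i)] [∀ i, Countable (V i)] :
    ∃ (β : ∀ i, V i → ℕ) (len : G → ℕ) (C : ℕ), (∀ i, IsGauge G (β i) len) ∧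
      ∀ i n, {v | β i v ≤ n}.ncard ≤ C ^ (n + 1) := by
  obtain ⟨len, N, hN, h1, hmul, hball⟩ := A2_len hG
  have hf : ∀ i, ∃ f : V i → ℕ, Function.Injective f := fun i => Countable.exists_injective_nat (V i)
  choose f hf using hf
  have hne : ∀ i (v : V i), {m | ∃ g : G, m = len g + f i (g⁻¹ • v)}.Nonempty :=
    fun i v => ⟨_, 1, rfl⟩
  have hkey : ∀ i n, {v : V i | sInf {m | ∃ g : G, m = len g + f i (g⁻¹ • v)} ≤ n} ⊆
      (fun p : G × V i => p.1 • p.2) '' ({g : G | len g ≤ n} ×ˢ {w : V i | f i w ≤ n}) := by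
    intro i n v hv
    obtain ⟨g, hg⟩ := Nat.sInf_mem (hne i v)
    have hv' : len g + f i (g⁻¹ • v) ≤ n := hg ▸ hv
    refine ⟨(g, g⁻¹ • v), ⟨?_, ?_⟩, smul_inv_smul g v⟩
    · show len g ≤ n
      omega
    · show f i (g⁻¹ • v) ≤ n
      omega
  have hF : ∀ i n, {w : V i | f i w ≤ n}.Finite := by
    intro i n
    exact (Set.finite_Iic n).preimage (hf i).injOn
  have hFc : ∀ i n, {w : V i | f i w ≤ n}.ncard ≤ n + 1 := by
    intro i n
    have h := Set.ncard_le_ncard_of_injOn (s := {w : V i | f i w ≤ n}) (t := Set.Iic n) (f i)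
      (fun a ha => ha) (hf i).injOn (Set.finite_Iic n)
    refine h.trans ?_
    rw [← Finset.coe_Iic, Set.ncard_coe_finset, Nat.card_Iic]
  refine ⟨fun i v => sInf {m | ∃ g : G, m = len g + f i (g⁻¹ • v)}, len, 2 * N, ?_, ?_⟩
  · intro i
    refine ⟨fun n => ?_, fun g v => ?_⟩
    · exact (((hball n).1.prod (hF i n)).image _).subset (hkey i n)
    · obtain ⟨h, hh⟩ := Nat.sInf_mem (hne i v)
      have h2 : sInf {m | ∃ k : G, m = len k + f i (k⁻¹ • (g • v))} ≤
          len (g * h) + f i ((g * h)⁻¹ • (g • v)) := Nat.sInf_le ⟨g * h, rfl⟩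
      have h3 : (g * h)⁻¹ • (g • v) = h⁻¹ • v := by
        rw [mul_inv_rev, mul_smul, inv_smul_smul]
      rw [h3] at h2
      have h4 := hmul g h
      show sInf {m | ∃ k : G, m = len k + f i (k⁻¹ • (g • v))} ≤
        sInf {m | ∃ k : G, m = len k + f i (k⁻¹ • v)} + len g
      omega
  · intro i n
    have h2 := ((hball n).1.prod (hF i n)).image (fun p : G × V i => p.1 • p.2)
    refine (Set.ncard_le_ncard (hkey i n) h2).trans ?_
    refine (Set.ncard_image_le ((hball n).1.prod (hF i n))).trans ?_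
    rw [Set.ncard_prod]
    have h3 : n + 1 ≤ 2 ^ n := Nat.lt_two_pow_self
    calc {g : G | len g ≤ n}.ncard * {w : V i | f i w ≤ n}.ncard ≤ N ^ n * (n + 1) :=
          Nat.mul_le_mul (hball n).2 (hFc i n)
      _ ≤ N ^ n * 2 ^ n := Nat.mul_le_mul_left _ h3
      _ = (2 * N) ^ n := by rw [mul_pow, mul_comm]
      _ ≤ (2 * N) ^ (n + 1) := Nat.pow_le_pow_right (by omega) (Nat.le_succ n)

end Pool.Agent.GT
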