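import Pool.Agent.Lib.MP_98022b_gl.Reduce
import Pool.Agent.Lib.MP_98022b_gl.Marks

/-!
# Marks with small radius

Task A4c. Reduce the colours twice, then take greedy marks: with `M = (2 * R + 1) ^ card I`,
`k = redB M (redB M Q)` the radius is `κ Q = 2 * R + R * k`. For `Q = 2 ^ (A * D)` we have
`redB M Q = (2 * (A * D + 1)) ^ M` and `Nat.log 2` of this is at most `M * (Nat.log 2 (A * D + 1) + 2)`,
so `κ Q` is bounded by a polynomial in `Nat.log 2 D`; with `D = 2 ^ t` this is less than `2 ^ t / A`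
for large `t`.
-/

set_option autoImplicit false

namespace Pool.Agent.GT

/-- The radius of the marks. -/
def kap (M R Q : ℕ) : ℕ := 2 * R + R * redB M (redB M Q)

private theorem exists_t (M c : ℕ) : ∃ t : ℕ, 1 ≤ t ∧ c * t ^ M ≤ 2 ^ t := by
  have h := tendsto_pow_const_div_const_pow_of_one_lt M (r := (2 : ℝ)) one_lt_two
  have hc : (0 : ℝ) < 1 / (c + 1) := by positivity
  obtain ⟨t, h1, h2⟩ := ((h.eventually_lt_const hc).and (Filter.eventually_ge_atTop 1)).exists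
  refine ⟨t, h2, ?_⟩
  have h3 : (t : ℝ) ^ M < 1 / (c + 1) * 2 ^ t := (div_lt_iff₀ (by positivity)).1 h1
  have h4 : ((c : ℝ) + 1) * (t : ℝ) ^ M < 2 ^ t := by
    have h5 := mul_lt_mul_of_pos_left h3 (show (0 : ℝ) < c + 1 by positivity)
    rwa [← mul_assoc, mul_one_div_cancel (by positivity), one_mul] at h5
  have h6 : (c : ℝ) * (t : ℝ) ^ M ≤ 2 ^ t := by
    have h7 : (0 : ℝ) ≤ (t : ℝ) ^ M := by positivity
    nlinarith
  exact_mod_cast h6

theorem exists_D (M R A : ℕ) : ∃ D : ℕ, 0 < D ∧ A * (kap M R (2 ^ (A * D)) + 1) ≤ D := by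
  obtain ⟨t, ht, h⟩ := exists_t M (A * (2 * R + 1 + R * (2 * (M * (A + 2) + 1)) ^ M))
  refine ⟨2 ^ t, by positivity, le_trans ?_ h⟩
  have h1 : A * 2 ^ t + 1 ≤ 2 ^ (t + A) := by
    have h2 : A + 1 ≤ 2 ^ A := Nat.lt_two_pow_self
    have h3 : 1 ≤ 2 ^ t := Nat.one_le_two_pow
    calc A * 2 ^ t + 1 ≤ A * 2 ^ t + 2 ^ t := by omega
      _ = (A + 1) * 2 ^ t := by ring
      _ ≤ 2 ^ A * 2 ^ t := Nat.mul_le_mul_right _ h2
      _ = 2 ^ (t + A) := by ring
  have h4 : redB M (2 ^ (A * 2 ^ t)) ≤ 2 ^ (M * (t + A + 1)) := by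
    unfold redB
    rw [Nat.log_pow (by norm_num)]
    calc (2 * (A * 2 ^ t + 1)) ^ M ≤ (2 * 2 ^ (t + A)) ^ M :=
          Nat.pow_le_pow_left (Nat.mul_le_mul_left _ h1) _
      _ = 2 ^ (M * (t + A + 1)) := by
          rw [← pow_succ', ← pow_mul, Nat.mul_comm]
  have h5 : redB M (redB M (2 ^ (A * 2 ^ t))) ≤ (2 * (M * (A + 2) + 1)) ^ M * t ^ M := by
    rw [← Nat.mul_pow]
    conv_lhs => unfold redB
    refine Nat.pow_le_pow_left ?_ _
    have h6 : Nat.log 2 (redB M (2 ^ (A * 2 ^ t))) ≤ M * (t + A + 1) := by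
      refine (Nat.log_mono_right h4).trans ?_
      rw [Nat.log_pow (by norm_num)]
    have h7 : M * (t + A + 1) + 1 ≤ (M * (A + 2) + 1) * t := by
      have h8 : t + A + 1 ≤ (A + 2) * t := by nlinarith
      calc M * (t + A + 1) + 1 ≤ M * ((A + 2) * t) + t :=
            Nat.add_le_add (Nat.mul_le_mul_left _ h8) ht
        _ = (M * (A + 2) + 1) * t := by ring
    calc 2 * (Nat.log 2 (redB M (2 ^ (A * 2 ^ t))) + 1) ≤ 2 * (M * (t + A + 1) + 1) := by omega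
      _ ≤ 2 * ((M * (A + 2) + 1) * t) := Nat.mul_le_mul_left _ h7
      _ = 2 * (M * (A + 2) + 1) * t := by ring
  have h9 : 1 ≤ t ^ M := Nat.one_le_pow _ _ ht
  unfold kap
  rw [Nat.mul_assoc]
  refine Nat.mul_le_mul_left _ ?_
  calc 2 * R + R * redB M (redB M (2 ^ (A * 2 ^ t))) + 1
      ≤ 2 * R + R * ((2 * (M * (A + 2) + 1)) ^ M * t ^ M) + 1 := by
        have := Nat.mul_le_mul_left R h5
        omega
    _ = (2 * R + 1) * 1 + R * (2 * (M * (A + 2) + 1)) ^ M * t ^ M := by ring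
    _ ≤ (2 * R + 1) * t ^ M + R * (2 * (M * (A + 2) + 1)) ^ M * t ^ M :=
        Nat.add_le_add_right (Nat.mul_le_mul_left _ h9) _
    _ = (2 * R + 1 + R * (2 * (M * (A + 2) + 1)) ^ M) * t ^ M := by ring

/-- The composition of rules. -/
theorem IsRule.comp {I α β γ : Type} {F : ((I → ℤ) → α) → (I → ℤ) → β}
    {F' : ((I → ℤ) → β) → (I → ℤ) → γ} {Z Z' : ℕ} (h : IsRule F Z) (h' : IsRule F' Z') :
    IsRule (fun c => F' (F c)) (Z + Z') := by
  intro c c' n n' hc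
  refine h' _ _ _ _ fun δ' hδ' => h _ _ _ _ fun δ hδ => ?_
  rw [add_assoc, add_assoc]
  refine hc _ fun i => ?_
  rw [Pi.add_apply]
  have h1 := abs_add_le (δ' i) (δ i)
  have h2 := hδ' i
  have h3 := hδ i
  push_cast
  linarith

theorem exists_marks (I : Type) [Finite I] (R : ℕ) (hR : 0 < R) (Q : ℕ) :
    ∃ F : ((I → ℤ) → ℕ) → (I → ℤ) → Prop,
      IsRule F (kap ((2 * R + 1) ^ Nat.card I) R Q) ∧
      ∀ c, (∀ n, c n ≤ Q) →
        (∀ n n' : I → ℤ, (∀ i, |n' i - n i| < R) → F c n → F c n' → c n = c n') ∧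
        ∀ n : I → ℤ, ∃ n', (∀ i, |n' i - n i| < R) ∧ F c n' := by
  obtain ⟨r1, hr1, hr1b, hr1c⟩ := exists_red I R Q
  obtain ⟨r2, hr2, hr2b, hr2c⟩ := exists_red I R (redB ((2 * R + 1) ^ Nat.card I) Q)
  obtain ⟨F, hF, hF2⟩ := exists_greedy I R hR (redB ((2 * R + 1) ^ Nat.card I)
    (redB ((2 * R + 1) ^ Nat.card I) Q))
  refine ⟨fun c => F (r2 (r1 c)), ?_, fun c hc => ?_⟩
  · have h1 := IsRule.comp hr1 (IsRule.comp hr2 hF)
    have h2 : R + (R + R * redB ((2 * R + 1) ^ Nat.card I)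
        (redB ((2 * R + 1) ^ Nat.card I) Q)) = kap ((2 * R + 1) ^ Nat.card I) R Q := by
      unfold kap
      ring
    rw [← h2]
    exact h1
  · have hb1 := hr1b c hc
    have hb2 := hr2b (r1 c) hb1
    obtain ⟨h1, h2⟩ := hF2 (r2 (r1 c)) hb2
    refine ⟨fun n n' hn hFn hFn' => ?_, h2⟩
    have h3 := h1 n n' hn hFn hFn'
    by_contra hne
    exact hr2c (r1 c) hb1 n n' (fun i => (hn i).le)
      (hr1c c hc n n' (fun i => (hn i).le) hne) h3

end Pool.Agent.GT
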