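import Pool.Agent.Lib.MP_98022b_gl.SoftCommon
import Pool.Agent.Lib.MP_98022b_gl.ExpGauge
import Pool.Agent.Lib.MP_98022b_gl.MarkRate
import Pool.Agent.Lib.MP_98022b_gl.Enc
import Pool.Agent.Lib.MP_98022b_gl.ColFix
import Pool.Agent.Lib.MP_98022b_gl.ColMark
import Pool.Agent.Lib.MP_98022b_gl.CaseA

/-!
# The colours exist

Task A9. Parameters, for given `S`: `η`, `ρH` (gates, maxima over `i`; `GateData` is monotone in
both), `c` (bound of `len (s⁻¹ * s')`), `θ ≥ ρH`, `β i (v₀ i)`, `R' = 4 * η + 4`, `L` from `hE` for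
`R' + 12 * η` (works for smaller radii too), `r = 4 * R' + L`, `Z = kap ((2 * R' + 1) ^ card I) R' Q`,
`Q = 2 ^ (A * D)`, `h = D * c + 1`, `ρ = θ + 2 * h + c`, `C = Z + r + η + 1`, and `D` from `exists_D`
with `A` so large that `C₀ ^ ((ρ + 1) * ((2 * r + 1) * card I)) ≤ 2 ^ (A * D)` (`ρ` is at most linear
in `D`) and `C + 4 * R' + Z + r ≤ D`.

If for some `i` the exits of all `g * s` (threshold `θ + 2 * h`) are before `b i s + D` use
`soft_common`. Otherwise for each `i` some `s` has `b i s + D` close moves for the threshold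
`θ + 2 * h`, and then all `s' ∈ S` have `b i s' + D` close moves for the threshold `ρ`: `case_A`.
-/

set_option autoImplicit false

open Set
open scoped Pointwise

namespace Pool.Agent.GT

open Pool.Agent.FA

variable {G I Δ Ω : Type} [Group G] {V : I → Type} [∀ i, MulAction G (V i)] [TopologicalSpace Δ]
  [MulAction G Δ] [MulAction G Ω] {T : ∀ i, SimpleGraph (V i)} {B : ∀ i, V i → V i → Set Δ}

omit [TopologicalSpace Δ] [MulAction G Δ] in
/-- Close moves for one member of `S` give close moves for all. -/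
theorem transfer {V : Type} [MulAction G V] {T : SimpleGraph V} {B : V → V → Set Δ} {β : V → ℕ}
    {len : G → ℕ} (hβ : IsGauge G β len) {v₀ : V} {S : Finset G} {η ρH : ℕ} {g : G} {x : Δ} {u : V}
    {b : G → ℕ} (hd : GateData T B β v₀ S η ρH g x u b) {θ c D : ℕ} (hθ : ρH ≤ θ)
    (hc : ∀ s ∈ S, ∀ s' ∈ S, len (s⁻¹ * s') ≤ c) {s s' : G} (hs : s ∈ S) (hs' : s' ∈ S)
    (h : ∀ m < b s + D, CMove T B β v₀ θ (g * s) x m) :
    ∀ m < b s' + D, CMove T B β v₀ (θ + c) (g * s') x m := by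
  intro m hm
  rcases lt_or_ge m (b s') with hlt | hge
  · refine ⟨hd.adj s' hs' m hlt, ?_⟩
    have h1 := hd.close s' hs' (m + 1) hlt
    unfold Close at h1 ⊢
    omega
  · obtain ⟨k, rfl⟩ := Nat.exists_eq_add_of_le hge
    have hp : ∀ j, pth T B x ((g * s') • v₀) (b s' + j) = pth T B x ((g * s) • v₀) (b s + j) := by
      intro j
      rw [pth_add, pth_add, hd.eq s' hs', hd.eq s hs]
    have h1 := h (b s + k) (by omega)
    unfold CMove at h1 ⊢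
    rw [add_assoc, hp, hp, ← add_assoc]
    refine ⟨h1.1, ?_⟩
    have h2 := h1.2
    unfold Close at h2 ⊢
    have h3 : (g * s')⁻¹ • pth T B x ((g * s) • v₀) (b s + k + 1) =
        (s'⁻¹ * s) • (g * s)⁻¹ • pth T B x ((g * s) • v₀) (b s + k + 1) := by
      rw [← mul_smul]
      congr 1
      group
    rw [h3]
    have h4 := hβ.le (s'⁻¹ * s) ((g * s)⁻¹ • pth T B x ((g * s) • v₀) (b s + k + 1))
    have h5 := hc s' hs' s hs
    omega

namespace A9aux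

omit [TopologicalSpace Δ] [MulAction G Δ] in
theorem gate_mono {V : Type} [MulAction G V] {T : SimpleGraph V} {B : V → V → Set Δ} {β : V → ℕ}
    {v₀ : V} {S : Finset G} {η ρH η' ρH' : ℕ} {g : G} {x : Δ} {u : V}
    {b : G → ℕ} (hd : GateData T B β v₀ S η ρH g x u b) (h1 : η ≤ η') (h2 : ρH ≤ ρH') :
    GateData T B β v₀ S η' ρH' g x u b :=
  ⟨fun s hs => (hd.le s hs).trans h1, hd.eq, hd.adj, fun s hs j hj => by
    have h3 := hd.close s hs j hj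
    unfold Close at h3 ⊢
    omega⟩

theorem sh_mono {T : ∀ i, SimpleGraph (V i)} {R R' : ℕ} (h : R ≤ R') (x y : ∀ i, V i) :
    Sh G T R x y ⊆ Sh G T R' x y := fun _ hγ i =>
  ⟨(hγ i).1.trans h, (hγ i).2.trans h⟩

theorem fixS_nonempty_mono {T : ∀ i, SimpleGraph (V i)} {R R' : ℕ} (h : R ≤ R') {x y : ∀ i, V i}
    (hne : (FixS Ω (Sh G T R' x y)).Nonempty) : (FixS Ω (Sh G T R x y)).Nonempty := by
  obtain ⟨ω, hω⟩ := hne
  exact ⟨ω, fun γ hγ => hω γ (sh_mono h x y hγ)⟩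

theorem exists_params (M R' C₀ θ c r η K : ℕ) : ∃ A D : ℕ, 0 < D ∧
    C₀ ^ ((θ + 2 * (D * c + 1) + c + 1) * K) ≤ 2 ^ (A * D) ∧
    (kap M R' (2 ^ (A * D)) + r + η + 1) + 4 * R' + kap M R' (2 ^ (A * D)) + r ≤ D := by
  obtain ⟨A, hA⟩ : ∃ A, A = C₀ * ((θ + 3 * c + 3) * K) + (2 + 2 * r + η + 1 + 4 * R') := ⟨_, rfl⟩
  obtain ⟨D, hD0, hD⟩ := exists_D M R' A
  refine ⟨A, D, hD0, ?_, ?_⟩
  · have h1 : C₀ ≤ 2 ^ C₀ := Nat.lt_two_pow_self.le
    have h2 : θ + 2 * (D * c + 1) + c + 1 ≤ D * (θ + 3 * c + 3) := by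
      obtain ⟨D', rfl⟩ : ∃ D', D = D' + 1 := ⟨D - 1, by omega⟩
      ring_nf
      nlinarith [Nat.zero_le (D' * θ), Nat.zero_le (D' * c), Nat.zero_le D']
    calc C₀ ^ ((θ + 2 * (D * c + 1) + c + 1) * K)
        ≤ (2 ^ C₀) ^ ((θ + 2 * (D * c + 1) + c + 1) * K) := Nat.pow_le_pow_left h1 _
      _ = 2 ^ (C₀ * ((θ + 2 * (D * c + 1) + c + 1) * K)) := by rw [← pow_mul]
      _ ≤ 2 ^ (A * D) := by
          refine Nat.pow_le_pow_right (by norm_num) ?_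
          have h3 : C₀ * ((θ + 2 * (D * c + 1) + c + 1) * K) ≤
              C₀ * (D * (θ + 3 * c + 3) * K) :=
            Nat.mul_le_mul_left _ (Nat.mul_le_mul_right _ h2)
          have h4 : C₀ * (D * (θ + 3 * c + 3) * K) = C₀ * ((θ + 3 * c + 3) * K) * D := by ring
          rw [h4] at h3
          refine h3.trans (Nat.mul_le_mul_right _ ?_)
          omega
  · have h1 : (2 + 2 * r + η + 1 + 4 * R') * (kap M R' (2 ^ (A * D)) + 1) ≤ D :=
      le_trans (Nat.mul_le_mul_right _ (by omega)) hD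
    generalize kap M R' (2 ^ (A * D)) = Z at h1 ⊢
    have h2 : (2 + 2 * r + η + 1 + 4 * R') * (Z + 1) =
        2 * Z + (2 * r + η + 1 + 4 * R') * Z + (2 + 2 * r + η + 1 + 4 * R') := by ring
    rw [h2] at h1
    have h3 := Nat.zero_le ((2 * r + η + 1 + 4 * R') * Z)
    omega

end A9aux

open A9aux

theorem coreP [Finite I] (hG : Group.FG G) [∀ i, Countable (V i)] (hT : ∀ i, (T i).IsTree)
    (hadj : ∀ i (g : G) (u v : V i), (T i).Adj u v → (T i).Adj (g • u) (g • v))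
    (hB : ∀ i, IsFlow G (T i) (B i))
    (hfix : ∀ g : G, NT V g → {ω : Ω | g • ω = ω}.encard ≤ 2)
    (hE : ∀ R : ℕ, ∃ L : ℕ, ∀ x y : ∀ i, V i, (∀ i, L ≤ (T i).dist (x i) (y i)) →
      (FixS Ω (Sh G T R x y)).Nonempty) (i₀ : I) (S : Finset G) :
    ∃ (cS : ∀ i, Fin 2 → G → Δ → V i → Prop) (cF : Fin 2 → G → Δ → Set Ω → Prop)
      (cK : (I → Fin 4) → G → Δ → V i₀ → Prop),
      (∀ i a, IsColour (fun _ : V i => True) (cS i a)) ∧
      (∀ a, IsColour (fun l : Set Ω => l.Nonempty ∧ l.encard ≤ 2) (cF a)) ∧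
      (∀ κ, IsColour (fun _ : V i₀ => True) (cK κ)) ∧
      ∀ (g : G) (x : Δ), (∀ i, Reg (T i) (B i) x) →
        (∃ i a v, ∀ s ∈ S, cS i a (g * s) x v) ∨ (∃ a l, ∀ s ∈ S, cF a (g * s) x l) ∨
          ∃ κ v, ∀ s ∈ S, cK κ (g * s) x v := by
  classical
  obtain ⟨β, len, C₀, hβ, hcard⟩ := exists_expGauge hG V
  have hne : ∀ i, Nonempty (V i) := fun i => (hT i).1.nonempty
  obtain ⟨v₀⟩ : Nonempty (∀ i, V i) := ⟨fun i => (hne i).some⟩
  choose ηi ρi hgate using fun i => exists_gate (G := G) (hT i) (hadj i) (hB i) (β i) (v₀ i) S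
  obtain ⟨η, hη⟩ : ∃ η, ∀ i, ηi i ≤ η := by
    obtain ⟨η, h⟩ := (Set.finite_range ηi).bddAbove
    exact ⟨η, fun i => h ⟨i, rfl⟩⟩
  obtain ⟨ρH, hρH⟩ : ∃ ρH, ∀ i, ρi i ≤ ρH := by
    obtain ⟨ρH, h⟩ := (Set.finite_range ρi).bddAbove
    exact ⟨ρH, fun i => h ⟨i, rfl⟩⟩
  obtain ⟨c, hc⟩ : ∃ c, ∀ s ∈ S, ∀ s' ∈ S, len (s⁻¹ * s') ≤ c := by
    obtain ⟨c, h⟩ := ((S.finite_toSet.prod S.finite_toSet).image
      fun p : G × G => len (p.1⁻¹ * p.2)).bddAbove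
    exact ⟨c, fun s hs s' hs' => h ⟨(s, s'), ⟨hs, hs'⟩, rfl⟩⟩
  obtain ⟨R', hR'⟩ : ∃ R', R' = 4 * η + 4 := ⟨_, rfl⟩
  obtain ⟨L, hL⟩ := hE (R' + 2 * η * 6)
  obtain ⟨r, hr⟩ : ∃ r, r = 4 * R' + L := ⟨_, rfl⟩
  obtain ⟨A, D, hD0, hQ, hDle⟩ := exists_params ((2 * R' + 1) ^ Nat.card I) R' C₀ ρH c r η
    ((2 * r + 1) * Nat.card I)
  obtain ⟨Q, hQdef⟩ : ∃ Q, Q = 2 ^ (A * D) := ⟨_, rfl⟩
  obtain ⟨Z, hZ⟩ : ∃ Z, Z = kap ((2 * R' + 1) ^ Nat.card I) R' Q := ⟨_, rfl⟩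
  obtain ⟨h, hh⟩ : ∃ h, h = D * c + 1 := ⟨_, rfl⟩
  obtain ⟨ρ, hρ⟩ : ∃ ρ, ρ = ρH + 2 * h + c := ⟨_, rfl⟩
  obtain ⟨C, hC⟩ : ∃ C, C = Z + r + η + 1 := ⟨_, rfl⟩
  rw [← hQdef] at hQ hDle
  rw [← hZ, ← hC] at hDle
  rw [← hh, ← hρ] at hQ
  obtain ⟨e, he, he1, he2⟩ := exists_enc β (fun i => (hβ i).finite) hcard r ρ Q hQ
  obtain ⟨F, hrule, hF⟩ := exists_marks I R' (by omega) Q
  rw [← hZ] at hrule
  have hE' : ∀ k, k ≤ 6 → ∀ x y : ∀ i, V i, (∀ i, L ≤ (T i).dist (x i) (y i)) →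
      (FixS Ω (Sh G T (R' + 2 * η * k) x y)).Nonempty := by
    intro k hk x y hxy
    exact fixS_nonempty_mono (by gcongr) (hL x y hxy)
  refine ⟨fun i a => colS (T i) (B i) (β i) (v₀ i) ρH h a,
    fun a => colF T B β v₀ ρ D C L (R' + 2 * η * (3 + 2 * (a : ℕ))),
    fun κ => colK T B β v₀ ρ D C L (R' + 2 * η * 2) e F
      (fun i => (C : ℤ) + ((κ i : ℕ) : ℤ) * (3 * η + 3)) R' i₀, ?_, ?_, ?_, ?_⟩
  · intro i a
    exact isColour_colS (hadj i) (hB i) (hβ i) (v₀ i) ρH h a (by omega) (by omega)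
  · intro a
    exact isColour_colF hT hadj hB β v₀ (by omega) hfix (hE' _ (by omega))
  · intro κ
    refine isColour_colK hT hadj hB β v₀ i₀ he he1 he2 hrule (fun c hc => (hF c hc).1)
      (by omega) (fun i => ?_) (fun i => ?_) (by omega) hr (by omega)
    · have h3 : (0 : ℤ) ≤ ((κ i : ℕ) : ℤ) * (3 * (η : ℤ) + 3) := by positivity
      show (C : ℤ) ≤ C + ((κ i : ℕ) : ℤ) * (3 * η + 3)
      linarith
    · have h3 : ((κ i : ℕ) : ℤ) ≤ 3 := by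
        have := (κ i).2
        omega
      have h4 : ((κ i : ℕ) : ℤ) * (3 * (η : ℤ) + 3) ≤ 3 * (3 * (η : ℤ) + 3) :=
        mul_le_mul_of_nonneg_right h3 (by positivity)
      show (C : ℤ) + ((κ i : ℕ) : ℤ) * (3 * η + 3) + R' ≤ C + 4 * R'
      rw [hR']
      push_cast
      linarith
  · intro g x hx
    choose u b hd' using fun i => hgate i g x (hx i)
    have hd : ∀ i, GateData (T i) (B i) (β i) (v₀ i) S η ρH g x (u i) (b i) := fun i =>
      gate_mono (hd' i) (hη i) (hρH i)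
    by_cases hcase : ∃ i, ∀ s ∈ S, ¬ ∀ m < b i s + D,
        CMove (T i) (B i) (β i) (v₀ i) (ρH + 2 * h) (g * s) x m
    · obtain ⟨i, hi⟩ := hcase
      obtain ⟨α, hα, v, hv⟩ := soft_common (hT i) (hB i) (hβ i) (hx i) (hd i) le_rfl hc
        (by omega : D * c < h) hi
      exact Or.inl ⟨i, ⟨α, by omega⟩, v, hv⟩
    · right
      push Not at hcase
      have hdom : ∀ i, ∀ s ∈ S, ∀ m < b i s + D,
          CMove (T i) (B i) (β i) (v₀ i) ρ (g * s) x m := by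
        intro i s hs
        obtain ⟨s₁, hs₁, h₁⟩ := hcase i
        rw [hρ]
        exact transfer (hβ i) (hd i) (by omega) hc hs₁ hs h₁
      have hC1 : Z + r + η + 1 ≤ C := by omega
      have hC2 : C + L ≤ D := by omega
      rcases case_A hT hadj hB hd hR' he hrule (fun c hc => (hF c hc).2) hC1
        hC2 i₀ hfix hL hdom with ⟨k, hk, l, hl⟩ | ⟨κ, v, hv⟩
      · left
        rcases hk with rfl | rfl
        · exact ⟨0, l, hl⟩
        · exact ⟨1, l, hl⟩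
      · exact Or.inr ⟨κ, v, hv⟩

end Pool.Agent.GT
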