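import Pool.Agent.Lib.MP_98022b_fa.Defs

/-!
# The covering dimension of a finite product of compact metrizable spaces

Task A1b. (Lebesgue number of the cover for the maximum metric; refine the covers by small balls in
each factor by `h`; take the products of the members: at most `2 ^ card I` of them contain a given
point.)
-/

set_option autoImplicit false

namespace Pool.Agent.GT

open Pool.Agent.FA

theorem covDimLE_pi {I : Type} [Finite I] {X : I → Type} [∀ i, TopologicalSpace (X i)]
    [∀ i, CompactSpace (X i)] [∀ i, TopologicalSpace.MetrizableSpace (X i)]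
    (h : ∀ i, CovDimLE (X i) 1) : ∃ n, CovDimLE (∀ i, X i) n := by
  classical
  have := Fintype.ofFinite I
  letI : ∀ i, MetricSpace (X i) := fun i => TopologicalSpace.metrizableSpaceMetric (X i)
  refine ⟨2 ^ Fintype.card I, fun ι O hO hcov => ?_⟩
  obtain ⟨δ, hδ, hL⟩ := lebesgue_number_lemma_of_metric (α := ∀ i, X i) (s := Set.univ) (c := O)
    isCompact_univ hO (by rw [hcov])
  have h1 : ∀ i, ∃ (κ : Type) (W : κ → Set (X i)), (∀ j, IsOpen (W j)) ∧ (⋃ j, W j) = Set.univ ∧
      (∀ j, ∃ x, W j ⊆ Metric.ball x δ) ∧ ∀ x, {j | x ∈ W j}.encard ≤ (1 : ℕ) + 1 := by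
    intro i
    refine h i (X i) (fun x => Metric.ball x δ) (fun x => Metric.isOpen_ball) ?_
    rw [Set.eq_univ_iff_forall]
    exact fun x => Set.mem_iUnion.2 ⟨x, Metric.mem_ball_self hδ⟩
  choose κ W hW hWc hWr hWn using h1
  refine ⟨∀ i, κ i, fun j => Set.pi Set.univ fun i => W i (j i), fun j =>
    isOpen_set_pi Set.finite_univ fun i _ => hW i (j i), ?_, fun j => ?_, fun x => ?_⟩
  · rw [Set.eq_univ_iff_forall]
    intro x
    have h2 : ∀ i, ∃ j, x i ∈ W i j := fun i => by
      have h3 : x i ∈ ⋃ j, W i j := by rw [hWc]; exact Set.mem_univ _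
      exact Set.mem_iUnion.1 h3
    choose j hj using h2
    exact Set.mem_iUnion.2 ⟨j, fun i _ => hj i⟩
  · choose y hy using fun i => hWr i (j i)
    obtain ⟨k, hk⟩ := hL y (Set.mem_univ _)
    refine ⟨k, Set.Subset.trans (fun x hx => ?_) hk⟩
    rw [Metric.mem_ball, dist_pi_lt_iff hδ]
    exact fun i => hy i (hx i (Set.mem_univ i))
  · have h2 : {j : ∀ i, κ i | x ∈ Set.pi Set.univ fun i => W i (j i)} =
        Set.pi Set.univ fun i => {j | x i ∈ W i j} := by
      ext j
      simp [Set.mem_pi]
    rw [h2, Set.encard_pi_eq_prod_encard]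
    calc ∏ i, {j | x i ∈ W i j}.encard ≤ ∏ _i : I, (2 : ℕ∞) :=
          Finset.prod_le_prod' fun i _ => by
            have := hWn i (x i)
            norm_num at this ⊢
            exact this
      _ = ((2 ^ Fintype.card I : ℕ) : ℕ∞) := by
          rw [Finset.prod_const, Finset.card_univ]
          push_cast
          rfl
      _ ≤ _ := le_self_add

end Pool.Agent.GT
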