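import Pool.Agent.Lib.MP_98022b_gl.Defs

/-!
# The flows on the product of the compactified trees

Task A1c.
-/

set_option autoImplicit false

open Set
open scoped Pointwise

namespace Pool.Agent.GT

open Pool.Agent.FA

variable {G I : Type} [Group G] {V : I → Type} [∀ i, MulAction G (V i)]
  {T : ∀ i, SimpleGraph (V i)}

/-- The product of the actions on the compactified trees. -/
@[reducible] def piAction (T : ∀ i, SimpleGraph (V i))
    (hadj : ∀ i (g : G) (u v : V i), (T i).Adj u v → (T i).Adj (g • u) (g • v)) :
    MulAction G (∀ i, Bar (T i)) :=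
  letI : ∀ i, MulAction G (Bar (T i)) := fun i => barAction (T i) (hadj i)
  inferInstance

/-- The flows on the product. -/
def piB (T : ∀ i, SimpleGraph (V i)) (i : I) (u v : V i) : Set (∀ i, Bar (T i)) :=
  {x | x i ∈ barB (T i) u v}

theorem continuousConstSMul_pi
    (hadj : ∀ i (g : G) (u v : V i), (T i).Adj u v → (T i).Adj (g • u) (g • v)) :
    letI := piAction T hadj
    ContinuousConstSMul G (∀ i, Bar (T i)) := by
  let _ : ∀ i, MulAction G (Bar (T i)) := fun i => barAction (T i) (hadj i)
  have hc : ∀ i, ContinuousConstSMul G (Bar (T i)) := fun i => continuousConstSMul_bar (hadj i)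
  let _ := piAction T hadj
  refine ⟨fun g => continuous_pi fun i => ?_⟩
  exact ((hc i).continuous_const_smul g).comp (continuous_apply i)

theorem isFlow_pi
    (hadj : ∀ i (g : G) (u v : V i), (T i).Adj u v → (T i).Adj (g • u) (g • v)) (i : I) :
    letI := piAction T hadj
    IsFlow G (T i) (piB T i) := by
  let _ : ∀ i, MulAction G (Bar (T i)) := fun i => barAction (T i) (hadj i)
  have h := isFlow_bar (hadj i)
  let _ := piAction T hadj
  exact ⟨fun u v => (h.isOpen u v).preimage (continuous_apply i),
    fun u v x => h.anti u v (x i), fun u v w x => h.trans u v w (x i),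
    fun g u v x => h.smul g u v (x i)⟩

/-- The colours by edges. -/
theorem isColour_edge (hT : ∀ i, (T i).IsTree)
    (hadj : ∀ i (g : G) (u v : V i), (T i).Adj u v → (T i).Adj (g • u) (g • v)) (i : I) :
    letI := piAction T hadj
    letI : MulAction G (Set (V i)) := Set.mulActionSet
    IsColour (G := G) (fun e : Set (V i) => ∃ u v, (T i).Adj u v ∧ e = {u, v})
      (fun g (x : ∀ i, Bar (T i)) e => colE (T i) g (x i) e) := by
  let _ : ∀ i, MulAction G (Bar (T i)) := fun i => barAction (T i) (hadj i)
  have hc := isColour_colE (hT i) (hadj i)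
  let _ := piAction T hadj
  have hopen : ∀ (g : G) (l : Set (V i)), IsOpen {x : ∀ i, Bar (T i) | colE (T i) g (x i) l} := by
    intro g l
    have hcont : Continuous fun x : ∀ i, Bar (T i) => x i := continuous_apply i
    exact (hc.isOpen g l).preimage hcont
  exact ⟨fun g x l l' => hc.unique g (x i) l l', hopen,
    fun h g x l => hc.smul h g (x i) l, fun g x l => hc.good g (x i) l⟩

omit [Group G] [∀ i, MulAction G (V i)] in
theorem reg_or_edge (x : ∀ i, Bar (T i)) :
    (∀ i, Reg (T i) (piB T i) x) ∨ ∃ i, ∃ e, ∀ g : G, colE (T i) g (x i) e := by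
  by_cases h : ∀ i, Reg (T i) (piB T i) x
  · exact Or.inl h
  · right
    push Not at h
    obtain ⟨i, hi⟩ := h
    rcases reg_or_colE (x i) with h1 | ⟨e, he⟩
    · exact absurd h1 hi
    · exact ⟨i, e, fun _ => he⟩

end Pool.Agent.GT
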