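import Pool.Agent.Lib.MP_98022b_gl.PiTop
import Pool.Agent.Lib.MP_98022b_gl.PiDim
import Pool.Agent.Lib.MP_98022b_gl.PiFlow
import Pool.Agent.Lib.MP_98022b_gl.CoreP
import Pool.Agent.Lib.MP_98022b_fa.Cover
import Pool.Agent.Lib.MP_98022b_fa.BarSLC
import Pool.Agent.Lib.MP_98022b_fa.BarDim

/-!
# Actions on finitely many trees are finitely amenable

Task A10. (Compare `Lib/MP_98022b_fa/Amen.lean`.)
-/

set_option autoImplicit false

open Set
open scoped Pointwise

namespace Pool.Agent.GT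

open Pool.Agent.FA

/-- The kinds of colours: soft exits, common fixed points, markers, edges. -/
private abbrev A10ix (I : Type) : Type := (I × Fin 2 ⊕ Fin 2) ⊕ ((I → Fin 4) ⊕ I)

/-- The labels of the four kinds of colours. -/
private def A10L {I : Type} (V : I → Type) (Ω : Type) (i₀ : I) : A10ix I → Type
  | Sum.inl (Sum.inl p) => V p.1
  | Sum.inl (Sum.inr _) => Set Ω
  | Sum.inr (Sum.inl _) => V i₀
  | Sum.inr (Sum.inr i) => Set (V i)

@[reducible] private def A10act (G : Type) {I : Type} (V : I → Type) (Ω : Type) (i₀ : I) [Group G]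
    [∀ i, MulAction G (V i)] [MulAction G Ω] : ∀ a, MulAction G (A10L V Ω i₀ a)
  | Sum.inl (Sum.inl p) => (inferInstance : MulAction G (V p.1))
  | Sum.inl (Sum.inr _) => (inferInstance : MulAction G (Set Ω))
  | Sum.inr (Sum.inl _) => (inferInstance : MulAction G (V i₀))
  | Sum.inr (Sum.inr i) => (inferInstance : MulAction G (Set (V i)))

private def A10good {I : Type} {V : I → Type} (Ω : Type) (i₀ : I) (T : ∀ i, SimpleGraph (V i)) :
    ∀ a, A10L V Ω i₀ a → Prop
  | Sum.inl (Sum.inl _) => fun _ => True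
  | Sum.inl (Sum.inr _) => fun l : Set Ω => l.Nonempty ∧ l.encard ≤ 2
  | Sum.inr (Sum.inl _) => fun _ => True
  | Sum.inr (Sum.inr i) => fun e : Set (V i) => ∃ u v, (T i).Adj u v ∧ e = {u, v}

private def A10c {G I Ω Δ : Type} {V : I → Type} {i₀ : I}
    (cS : ∀ i, Fin 2 → G → Δ → V i → Prop) (cF : Fin 2 → G → Δ → Set Ω → Prop)
    (cK : (I → Fin 4) → G → Δ → V i₀ → Prop) (cE : ∀ i, G → Δ → Set (V i) → Prop) :
    ∀ a, G → Δ → A10L V Ω i₀ a → Prop
  | Sum.inl (Sum.inl p) => cS p.1 p.2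
  | Sum.inl (Sum.inr a) => cF a
  | Sum.inr (Sum.inl κ) => cK κ
  | Sum.inr (Sum.inr i) => cE i

theorem finitelyAmenable_of_trees {G I Ω : Type} [Group G] [Finite I] [Nonempty I] [MulAction G Ω]
    (hG : Group.FG G) {V : I → Type} [∀ i, MulAction G (V i)] [∀ i, Countable (V i)]
    {T : ∀ i, SimpleGraph (V i)} (hT : ∀ i, (T i).IsTree)
    (hadj : ∀ i (g : G) (u v : V i), (T i).Adj u v → (T i).Adj (g • u) (g • v))
    (hfix : ∀ g : G, NT V g → {ω : Ω | g • ω = ω}.encard ≤ 2)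
    (hE : ∀ R : ℕ, ∃ L : ℕ, ∀ x y : ∀ i, V i, (∀ i, L ≤ (T i).dist (x i) (y i)) →
      (FixS Ω (Sh G T R x y)).Nonempty) :
    FinitelyAmenable G (PFam T Ω) := by
  classical
  obtain ⟨i₀⟩ := ‹Nonempty I›
  let act : MulAction G (∀ i, Bar (T i)) := piAction T hadj
  have : ∀ i, CompactSpace (Bar (T i)) := fun i => compactSpace_bar (T i)
  have : ∀ i, TopologicalSpace.MetrizableSpace (Bar (T i)) := fun i => metrizableSpace_bar (T i)
  have hB : ∀ i, IsFlow G (T i) (piB T i) := fun i => isFlow_pi hadj i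
  refine ⟨∀ i, Bar (T i), inferInstance, act, inferInstance, ?_,
    contractibleSpace_pi fun i => contractibleSpace_bar (hT i),
    stronglyLocallyContractible_pi fun i => stronglyLocallyContractible_bar (hT i),
    covDimLE_pi fun i => covDimLE_bar (hT i),
    continuousConstSMul_pi hadj, Nat.card (A10ix I), fun S => ?_⟩
  · have := Fintype.ofFinite I
    infer_instance
  obtain ⟨cS, cF, cK, hcS, hcF, hcK, hw⟩ :=
    coreP (Ω := Ω) (Δ := ∀ i, Bar (T i)) hG hT hadj hB hfix hE i₀ (insert 1 S)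
  let := A10act G V Ω i₀
  have key := isWideCover_of_colours (G := G) (Δ := ∀ i, Bar (T i)) (A10L V Ω i₀) (A10good Ω i₀ T)
    (A10c cS cF cK fun i g x e => colE (T i) g (x i) e) (N := Nat.card (A10ix I))
    (𝓕 := PFam T Ω) (S := ((insert 1 S : Finset G) : Set G))
    (by
      rintro ((p | a) | (κ | i))
      · exact hcS p.1 p.2
      · exact hcF a
      · exact hcK κ
      · exact isColour_edge hT hadj i)
    (Nat.le_succ _)
    (by
      rintro ((p | a) | (κ | i)) l hl H hH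
      · exact Or.inl ⟨p.1, l, hH⟩
      · exact Or.inr (Or.inr ⟨l, hl.1, hl.2, hH⟩)
      · exact Or.inl ⟨i₀, l, hH⟩
      · obtain ⟨u, v, huv, rfl⟩ := hl
        exact Or.inr (Or.inl ⟨i, u, v, huv, hH⟩))
    ⟨1, by simp⟩
    (by
      intro g x
      rcases reg_or_edge (G := G) x with hx | ⟨i, e, he⟩
      · rcases hw g x hx with ⟨i, a, l, h⟩ | ⟨a, l, h⟩ | ⟨κ, l, h⟩
        · exact ⟨Sum.inl (Sum.inl (i, a)), l, fun s hs => h s (by exact_mod_cast hs)⟩
        · exact ⟨Sum.inl (Sum.inr a), l, fun s hs => h s (by exact_mod_cast hs)⟩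
        · exact ⟨Sum.inr (Sum.inl κ), l, fun s hs => h s (by exact_mod_cast hs)⟩
      · exact ⟨Sum.inr (Sum.inr i), e, fun s _ => he (g * s)⟩)
  refine ⟨_, key.isOpen, key.smul_mem, key.eq_or_disjoint, key.stabilizer, key.order,
    fun g x => ?_⟩
  obtain ⟨U, hU, h⟩ := key.wide g x
  exact ⟨U, hU, fun s hs => h s (by simp [Finset.mem_coe.1 hs])⟩

end Pool.Agent.GT
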