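import Mathlib

/-!
# Powers of algebraic elements are separable

Task B12b. (`Irreducible.hasSeparableContraction`, or the perfect closure.)
-/

set_option autoImplicit false

namespace Pool.Agent.GT

theorem exists_sep {k F : Type} [Field k] [Field F] [Algebra k F] (q : ℕ) [ExpChar F q]
    (s : Finset F) (hs : ∀ a ∈ s, IsAlgebraic k a) :
    ∃ n : ℕ, ∀ a ∈ s, IsSeparable k (a ^ q ^ n) := by
  classical
  have hk : ExpChar k q := (RingHom.expChar_iff (algebraMap k F) (algebraMap k F).injective q).2
    inferInstance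
  have h1 : ∀ a ∈ s, ∃ m : ℕ, ∀ n, m ≤ n → IsSeparable k (a ^ q ^ n) := by
    intro a ha
    have hint : IsIntegral k a := (hs a ha).isIntegral
    obtain ⟨g, hg, m, hm⟩ := (minpoly.irreducible hint).hasSeparableContraction q
    have h2 : IsSeparable k (a ^ q ^ m) := by
      have h3 : Polynomial.aeval (a ^ q ^ m) g = 0 := by
        have h4 := minpoly.aeval k a
        rw [← hm, Polynomial.expand_aeval] at h4
        exact h4
      exact hg.of_dvd (minpoly.dvd k _ h3)
    refine ⟨m, fun n hn => ?_⟩
    obtain ⟨j, rfl⟩ := Nat.exists_eq_add_of_le hn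
    rw [pow_add, pow_mul]
    have h5 : a ^ q ^ m ∈ separableClosure k F := (mem_separableClosure_iff).2 h2
    exact (mem_separableClosure_iff).1 (pow_mem h5 _)
  choose m hm using h1
  refine ⟨s.attach.sup fun a => m a.1 a.2, fun a ha => hm a ha _ ?_⟩
  exact Finset.le_sup (f := fun a : {x // x ∈ s} => m a.1 a.2) (Finset.mem_attach s ⟨a, ha⟩)

end Pool.Agent.GT
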