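import Mathlib

/-!
# A parameter over which given elements are integral

Task B12a. The elements of `s` are integral over `K[t, 1 / d(t)]` for some nonzero `d` in `K[X]` (the
product of the leading coefficients). Let `t' = t + 1 / d(t)`. Then `(t' - t) * d(t) = 1` shows that
`t` is integral over `K[t']`, hence so are `1 / d(t) = t' - t` and all members of `s`; `t'` is
transcendental over `K`, as `t` is algebraic over `K(t')`. Let `ι` map `X` to `t'`.
-/

set_option autoImplicit false

open Polynomial

namespace Pool.Agent.GT

/-- A common denominator. -/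
private theorem B12a_denom {K F : Type} [Field K] [Field F] [Algebra K F] {t : F}
    (s : Finset F) (hs : ∀ a ∈ s, IsAlgebraic (Algebra.adjoin K {t}) a) :
    ∃ d : K[X], d.Monic ∧ ∀ a ∈ s, IsIntegral (Algebra.adjoin K {t}) (aeval t d * a) := by
  classical
  -- values of polynomials are integral
  have hval : ∀ p : K[X], IsIntegral (Algebra.adjoin K {t}) (aeval t p) := by
    intro p
    have h1 : aeval t p ∈ Algebra.adjoin K {t} := by
      rw [Algebra.adjoin_singleton_eq_range_aeval]
      exact ⟨p, rfl⟩
    exact isIntegral_algebraMap (x := (⟨aeval t p, h1⟩ : Algebra.adjoin K {t}))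
  induction s using Finset.induction with
  | empty => exact ⟨1, monic_one, by simp⟩
  | insert b s hb ih =>
    obtain ⟨d, hd, h⟩ := ih (fun a ha => hs a (Finset.mem_insert_of_mem ha))
    obtain ⟨y, hy, hyb⟩ := (hs b (Finset.mem_insert_self b s)).exists_integral_multiple
    obtain ⟨q, hq⟩ : ∃ q : K[X], aeval t q = (y : F) := by
      have h2 : (y : F) ∈ (Algebra.adjoin K {t}) := y.2
      generalize (y : F) = z at h2
      rw [Algebra.adjoin_singleton_eq_range_aeval] at h2
      exact h2
    have hq0 : q ≠ 0 := by
      rintro rfl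
      apply hy
      apply Subtype.ext
      rw [← hq]
      simp
    refine ⟨d * (q * C q.leadingCoeff⁻¹), hd.mul (monic_mul_leadingCoeff_inv hq0), ?_⟩
    intro a ha
    rcases Finset.mem_insert.1 ha with rfl | ha
    · have h3 : aeval t (d * (q * C q.leadingCoeff⁻¹)) * a =
          aeval t (d * C q.leadingCoeff⁻¹) * (y • a) := by
        rw [Algebra.smul_def]
        change _ = _ * ((y : F) * a)
        rw [← hq]
        simp only [map_mul]
        ring
      rw [h3]
      exact (hval _).mul hyb
    · have h3 : aeval t (d * (q * C q.leadingCoeff⁻¹)) * a =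
          aeval t (q * C q.leadingCoeff⁻¹) * (aeval t d * a) := by
        simp only [map_mul]
        ring
      rw [h3]
      exact (hval _).mul (h a ha)

theorem exists_ratFunc {K F : Type} [Field K] [Field F] [Algebra K F] {t : F}
    (ht : Transcendental K t) (s : Finset F) (hs : ∀ a ∈ s, IsAlgebraic (Algebra.adjoin K {t}) a) :
    ∃ ι : RatFunc K →+* F, (∀ a : K, ι (RatFunc.C a) = algebraMap K F a) ∧
      ∀ a ∈ s, (ι.comp (algebraMap K[X] (RatFunc K))).IsIntegralElem a := by
  classical
  obtain ⟨d, hd, hda⟩ := B12a_denom s hs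
  have hdt : aeval t d ≠ 0 := fun h => hd.ne_zero (by
    by_contra hne
    exact ht ⟨d, hne, h⟩)
  set t' : F := t + (aeval t d)⁻¹ with ht'
  let f : K[X] →+* F := (aeval t' : K[X] →ₐ[K] F).toRingHom
  let algF : Algebra K[X] F := f.toAlgebra
  have hf : ∀ p : K[X], algebraMap K[X] F p = aeval t' p := fun p => rfl
  -- `t` is integral
  have hti : IsIntegral K[X] t := by
    refine ⟨(X - C X) * d.map C + 1, ?_, ?_⟩
    · refine ((monic_X_sub_C (X : K[X])).mul (hd.map C)).add_of_left ?_
      rw [degree_one, Monic.degree_mul (hd.map C), degree_X_sub_C]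
      have h1 : (0 : WithBot ℕ) ≤ (d.map (C : K →+* K[X])).degree := by
        rw [zero_le_degree_iff]
        exact (hd.map C).ne_zero
      exact lt_of_lt_of_le (by norm_num) (add_le_add_right h1 1)
    · rw [eval₂_add, eval₂_mul, eval₂_sub, eval₂_X, eval₂_C, eval₂_one, eval₂_map, hf, aeval_X]
      have h2 : (algebraMap K[X] F).comp C = algebraMap K F := by
        ext a
        simp [hf]
      have h3 : eval₂ (algebraMap K F) t d = aeval t d := rfl
      rw [h2, h3, ht', sub_add_cancel_left, neg_mul, inv_mul_cancel₀ hdt, neg_add_cancel]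
  have htd : IsIntegral K[X] (aeval t d)⁻¹ := by
    have h1 : (aeval t d)⁻¹ = algebraMap K[X] F X - t := by
      rw [hf, aeval_X, ht', add_sub_cancel_left]
    rw [h1]
    exact isIntegral_algebraMap.sub hti
  -- the members of `K[t]` are integral
  have hK : ∀ c : K, IsIntegral K[X] (algebraMap K F c) := by
    intro c
    have h1 : algebraMap K F c = algebraMap K[X] F (C c) := by
      rw [hf, aeval_C]
    rw [h1]
    exact isIntegral_algebraMap
  have hA : ∀ y ∈ Algebra.adjoin K {t}, IsIntegral K[X] y := by
    intro y hy
    induction hy using Algebra.adjoin_induction with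
    | mem x hx =>
      rw [Set.mem_singleton_iff] at hx
      rw [hx]
      exact hti
    | algebraMap r => exact hK r
    | add x y _ _ hx hy => exact hx.add hy
    | mul x y _ _ hx hy => exact hx.mul hy
  -- transitivity
  have htr : ∀ z : F, IsIntegral (Algebra.adjoin K {t}) z → IsIntegral K[X] z := by
    rintro z ⟨p, hp, hz⟩
    let φ : Algebra.adjoin K {t} →+* integralClosure K[X] F :=
      { toFun := fun y => ⟨y.1, hA y.1 y.2⟩
        map_one' := rfl
        map_mul' := fun _ _ => rfl
        map_zero' := rfl
        map_add' := fun _ _ => rfl }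
    refine isIntegral_trans (A := integralClosure K[X] F) z ⟨p.map φ, hp.map φ, ?_⟩
    rw [eval₂_map]
    exact hz
  have hall : ∀ a ∈ s, IsIntegral K[X] a := by
    intro a ha
    have h1 : a = (aeval t d)⁻¹ * (aeval t d * a) := by
      rw [← mul_assoc, inv_mul_cancel₀ hdt, one_mul]
    rw [h1]
    exact htd.mul (htr _ (hda a ha))
  -- `t'` is transcendental
  have ht'' : Transcendental K t' := by
    intro h
    apply ht
    refine IsIntegral.isAlgebraic ?_
    obtain ⟨p, hp, hz⟩ := hti
    let φ : K[X] →+* integralClosure K F :=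
      (aeval (⟨t', h.isIntegral⟩ : integralClosure K F) :
        K[X] →ₐ[K] integralClosure K F).toRingHom
    refine isIntegral_trans (A := integralClosure K F) t ⟨p.map φ, hp.map φ, ?_⟩
    rw [eval₂_map]
    have h1 : (algebraMap (integralClosure K F) F).comp φ = algebraMap K[X] F := by
      ext x
      · simp [φ, hf]
      · simp [φ, hf]
    rw [h1]
    exact hz
  have hinj : Function.Injective f := transcendental_iff_injective.1 ht''
  have hle : nonZeroDivisors K[X] ≤ (nonZeroDivisors F).comap f :=
    nonZeroDivisors_le_comap_nonZeroDivisors_of_injective f hinj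
  refine ⟨RatFunc.liftRingHom f hle, fun a => ?_, fun a ha => ?_⟩
  · rw [RatFunc.liftRingHom_C]
    exact aeval_C t' a
  · have h1 : (RatFunc.liftRingHom f hle).comp (algebraMap K[X] (RatFunc K)) = f := by
      ext x
      · simp
      · simp
    rw [h1]
    exact hall a ha

end Pool.Agent.GT
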