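import Pool.Agent.Lib.MP_98022b_gl.GeoMain
import Pool.Agent.Lib.MP_98022b_gl.Param
import Pool.Agent.Lib.MP_98022b_gl.Frob

/-!
# The step of the induction on the transcendence degree

Task B13. By `IsFJClass.locally` let `G₀` be generated by a finite set `M` of matrices, `s` the set of
the entries of the members of `M` and their inverses, `ι` as in `exists_ratFunc`, and `n` as in
`exists_sep` for `k = RatFunc K`. The map `a ↦ a ^ q ^ n` induces an injective endomorphism of
`GL_2(F)`; the image of `G₀` has its entries in the finite separable extension `E` of `RatFunc K`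
generated by the `a ^ q ^ n`, `a ∈ s`, and they are integral over `K[X]`. Use `mem_geo`.
-/

set_option autoImplicit false

open Set

namespace Pool.Agent.GT

open Pool.Agent.FJ

variable {P : ∀ (G : Type) [Group G], Prop}

namespace B13aux

theorem map_injective {B F : Type} [CommRing B] [CommRing F] (f : B →+* F)
    (hf : Function.Injective f) :
    Function.Injective (Matrix.GeneralLinearGroup.map (n := Fin 2) f) := by
  intro M N h
  apply Units.ext
  ext i j
  have h1 : (Matrix.GeneralLinearGroup.map (n := Fin 2) f M).1 i j =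
      (Matrix.GeneralLinearGroup.map (n := Fin 2) f N).1 i j := by rw [h]
  exact hf h1

/-- A matrix over `F` which has, like its inverse, entries in the image of `f` comes from an
invertible matrix over `B`. -/
theorem mem_range_map {B F : Type} [CommRing B] [CommRing F] (f : B →+* F)
    (hf : Function.Injective f) (M : GL (Fin 2) F) (h : ∀ i j, ∃ b, f b = M.1 i j)
    (h' : ∀ i j, ∃ b, f b = (M⁻¹).1 i j) :
    M ∈ (Matrix.GeneralLinearGroup.map (n := Fin 2) f).range := by
  choose U hU using h
  choose W hW using h'
  let U' : Matrix (Fin 2) (Fin 2) B := Matrix.of U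
  let W' : Matrix (Fin 2) (Fin 2) B := Matrix.of W
  have hU' : U'.map f = M.1 := by
    ext i j
    exact hU i j
  have hW' : W'.map f = (M⁻¹).1 := by
    ext i j
    exact hW i j
  have hinj : Function.Injective (fun A : Matrix (Fin 2) (Fin 2) B => A.map f) := by
    intro A A' hA
    ext i j
    exact hf (congrFun (congrFun hA i) j)
  have h1 : U' * W' = 1 := by
    apply hinj
    show (U' * W').map f = (1 : Matrix (Fin 2) (Fin 2) B).map f
    rw [Matrix.map_mul, hU', hW', Matrix.map_one f (map_zero f) (map_one f)]
    exact M.mul_inv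
  have h2 : W' * U' = 1 := by
    apply hinj
    show (W' * U').map f = (1 : Matrix (Fin 2) (Fin 2) B).map f
    rw [Matrix.map_mul, hU', hW', Matrix.map_one f (map_zero f) (map_one f)]
    exact M.inv_mul
  refine ⟨⟨U', W', h1, h2⟩, ?_⟩
  apply Units.ext
  exact hU'

end B13aux

open B13aux

theorem mem_step (hP : IsFJClassA P) (hsol : ∀ (G : Type) [Group G], IsSolvable G → P G)
    {K F : Type} [Field K] [IsAlgClosed K] [Field F] [Countable F] [Algebra K F] {t : F}
    (ht : Transcendental K t) (halg : ∀ a : F, IsAlgebraic (Algebra.adjoin K {t}) a)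
    (hK : P (GL (Fin 2) K)) : P (GL (Fin 2) F) := by
  classical
  refine hP.toIsFJClass.locally fun S => ⟨Subgroup.closure (S : Set (GL (Fin 2) F)),
    fun x hx => Subgroup.subset_closure hx, ?_⟩
  -- the entries
  let s : Finset F := S.biUnion fun M =>
    Finset.univ.image (fun p : Fin 2 × Fin 2 => M.1 p.1 p.2) ∪
      Finset.univ.image (fun p : Fin 2 × Fin 2 => (M⁻¹).1 p.1 p.2)
  have hs1 : ∀ M ∈ S, ∀ i j, M.1 i j ∈ s := fun M hM i j =>
    Finset.mem_biUnion.2 ⟨M, hM, Finset.mem_union_left _
      (Finset.mem_image.2 ⟨(i, j), Finset.mem_univ _, rfl⟩)⟩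
  have hs2 : ∀ M ∈ S, ∀ i j, (M⁻¹).1 i j ∈ s := fun M hM i j =>
    Finset.mem_biUnion.2 ⟨M, hM, Finset.mem_union_right _
      (Finset.mem_image.2 ⟨(i, j), Finset.mem_univ _, rfl⟩)⟩
  obtain ⟨ι, hι, hint⟩ := exists_ratFunc ht s (fun a _ => halg a)
  letI algF : Algebra (RatFunc K) F := ι.toAlgebra
  have hq : ExpChar F (ringExpChar F) := inferInstance
  have halg' : ∀ a ∈ s, IsIntegral (RatFunc K) a := by
    intro a ha
    obtain ⟨p, hp, hp0⟩ := hint a ha
    refine ⟨p.map (algebraMap (Polynomial K) (RatFunc K)), hp.map _, ?_⟩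
    rw [Polynomial.eval₂_map]
    exact hp0
  obtain ⟨n, hn⟩ := exists_sep (k := RatFunc K) (ringExpChar F) s
    (fun a ha => (halg' a ha).isAlgebraic)
  -- the field generated by the powers of the entries
  let X : Set F := (fun a => a ^ ringExpChar F ^ n) '' (s : Set F)
  let E : IntermediateField (RatFunc K) F := IntermediateField.adjoin (RatFunc K) X
  have hfin : FiniteDimensional (RatFunc K) E := by
    have hXfin : X.Finite := (s.finite_toSet).image _
    have : Finite X := hXfin
    refine IntermediateField.finiteDimensional_adjoin fun x hx => ?_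
    obtain ⟨a, ha, rfl⟩ := hx
    exact (halg' a ha).pow _
  have hsep : Algebra.IsSeparable (RatFunc K) E := by
    rw [IntermediateField.isSeparable_adjoin_iff_isSeparable]
    rintro x ⟨a, ha, rfl⟩
    exact hn a ha
  have hcount : Countable E := Subtype.countable
  letI algX : Algebra (Polynomial K) E := (pE K E).toAlgebra
  let B : Subring E := (integralClosure (Polynomial K) E).toSubring
  let f : B →+* F := (algebraMap E F).comp B.subtype
  have hf : Function.Injective f := (algebraMap E F).injective.comp Subtype.val_injective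
  have hpow : ∀ a ∈ s, ∃ b : B, f b = a ^ ringExpChar F ^ n := by
    intro a ha
    have hmem : a ^ ringExpChar F ^ n ∈ E :=
      IntermediateField.subset_adjoin _ _ ⟨a, ha, rfl⟩
    have hint' : (pE K E).IsIntegralElem ⟨a ^ ringExpChar F ^ n, hmem⟩ := by
      have h1 : (ι.comp (algebraMap (Polynomial K) (RatFunc K))).IsIntegralElem
          (a ^ ringExpChar F ^ n) := by
        letI alg2 : Algebra (Polynomial K) F :=
          (ι.comp (algebraMap (Polynomial K) (RatFunc K))).toAlgebra
        have h2 : IsIntegral (Polynomial K) a := hint a ha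
        exact h2.pow _
      obtain ⟨p, hp, hp0⟩ := h1
      refine ⟨p, hp, ?_⟩
      apply (algebraMap E F).injective
      rw [Polynomial.hom_eval₂, map_zero]
      exact hp0
    exact ⟨⟨⟨a ^ ringExpChar F ^ n, hmem⟩, hint'⟩, rfl⟩
  -- the group over `E`
  let G' : Subgroup (GL (Fin 2) E) := (Matrix.GeneralLinearGroup.map (n := Fin 2) B.subtype).range
  have hG' : P G' := by
    refine mem_geo hP hsol hK G' ?_
    rintro g ⟨U, rfl⟩ i j
    exact (U.1 i j).2
  have hG'F : P (G'.map (toF E F)) := by
    have e := G'.equivMapOfInjective (toF E F) (map_injective _ (algebraMap E F).injective)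
    exact hP.toIsFJClass.of_equiv e.symm hG'
  -- the Frobenius map
  let Φ : GL (Fin 2) F →* GL (Fin 2) F :=
    Matrix.GeneralLinearGroup.map (n := Fin 2) (iterateFrobenius F (ringExpChar F) n)
  have hΦ : Function.Injective Φ := map_injective _ (RingHom.injective _)
  have hent : ∀ (M : GL (Fin 2) F) (i j : Fin 2), (Φ M).1 i j = M.1 i j ^ ringExpChar F ^ n :=
    fun M i j => rfl
  have hle : (Subgroup.closure (S : Set (GL (Fin 2) F))).map Φ ≤ G'.map (toF E F) := by
    rw [MonoidHom.map_closure, Subgroup.closure_le]
    rintro _ ⟨M, hM, rfl⟩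
    obtain ⟨U, hU⟩ := mem_range_map f hf (Φ M)
      (fun i j => by rw [hent]; exact hpow _ (hs1 M hM i j))
      (fun i j => by
        rw [← map_inv, hent]
        exact hpow _ (hs2 M hM i j))
    refine ⟨Matrix.GeneralLinearGroup.map (n := Fin 2) B.subtype U, ⟨U, rfl⟩, ?_⟩
    rw [← hU]
    rfl
  have e := (Subgroup.closure (S : Set (GL (Fin 2) F))).equivMapOfInjective Φ hΦ
  exact hP.toIsFJClass.of_equiv e (hP.toIsFJClass.of_le hle hG'F)

end Pool.Agent.GT
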