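import Pool.Agent.Lib.MP_98022b_gl.FinField
import Pool.Agent.Lib.MP_98022b_gl.StepF

/-!
# Subgroups of finite index which do not contain `-1`

Task C2. Let `A` be the subring generated by the entries of the members of `s` and their inverses.
The group `H = closure s` is contained in the image of `GL_2(A)` (`B13aux.mem_range_map`); the kernel
of `GL_2(A) → GL_2(k)` (`exists_finite_field` for `a = 2`) has finite index and does not contain `-1`.
-/

set_option autoImplicit false

namespace Pool.Agent.GT

theorem exists_avoid {F : Type} [Field F] (h2 : (2 : F) ≠ 0) (s : Finset (GL (Fin 2) F)) :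
    ∃ N : Subgroup (Subgroup.closure (s : Set (GL (Fin 2) F))), N.FiniteIndex ∧
      ∀ x ∈ N, (x : GL (Fin 2) F).1 ≠ -1 := by
  classical
  let S0 : Finset F := (s ×ˢ (Finset.univ : Finset (Fin 2 × Fin 2))).image
      (fun q => q.1.1 q.2.1 q.2.2) ∪
    (s ×ˢ (Finset.univ : Finset (Fin 2 × Fin 2))).image (fun q => (q.1⁻¹).1 q.2.1 q.2.2)
  let A : Subring F := Subring.closure (S0 : Set F)
  have hA : ∀ x ∈ S0, x ∈ A := fun x hx => Subring.subset_closure hx
  -- finite generation of `A`
  let s' : Finset A := S0.preimage (fun x : A => (x : F)) (Subtype.val_injective.injOn)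
  have hs' : Subring.closure (s' : Set A) = ⊤ := by
    have h : (A.subtype '' (s' : Set A) : Set F) = S0 := by
      rw [Finset.coe_preimage]
      ext x
      constructor
      · rintro ⟨y, hy, rfl⟩
        exact hy
      · intro hx
        exact ⟨⟨x, hA x hx⟩, hx, rfl⟩
    have h3 : (Subring.closure (s' : Set A)).map A.subtype = A := by
      rw [RingHom.map_closure, h]
    rw [eq_top_iff]
    intro x _
    have h4 : (x : F) ∈ (Subring.closure (s' : Set A)).map A.subtype := by
      rw [h3]
      exact x.2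
    obtain ⟨y, hy, hyx⟩ := h4
    have h5 : y = x := Subtype.val_injective hyx
    rw [← h5]
    exact hy
  have h2A : (2 : A) ≠ 0 := by
    intro h
    apply h2
    have h3 : A.subtype 2 = 0 := by rw [h, map_zero]
    rwa [map_ofNat] at h3
  obtain ⟨k, _, _, f, hf⟩ := exists_finite_field s' hs' h2A
  have hfin : Finite (GL (Fin 2) k) := inferInstance
  let ι : GL (Fin 2) A →* GL (Fin 2) F := Matrix.GeneralLinearGroup.map (n := Fin 2) A.subtype
  have hι : Function.Injective ι := B13aux.map_injective _ Subtype.val_injective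
  have hle : Subgroup.closure (s : Set (GL (Fin 2) F)) ≤ ι.range := by
    rw [Subgroup.closure_le]
    intro M hM
    refine B13aux.mem_range_map A.subtype Subtype.val_injective M (fun i j => ?_) (fun i j => ?_)
    · refine ⟨⟨M.1 i j, hA _ ?_⟩, rfl⟩
      exact Finset.mem_union_left _ (Finset.mem_image.2 ⟨(M, i, j),
        Finset.mem_product.2 ⟨hM, Finset.mem_univ _⟩, rfl⟩)
    · refine ⟨⟨(M⁻¹).1 i j, hA _ ?_⟩, rfl⟩
      exact Finset.mem_union_right _ (Finset.mem_image.2 ⟨(M, i, j),
        Finset.mem_product.2 ⟨hM, Finset.mem_univ _⟩, rfl⟩)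
  let φ : Subgroup.closure (s : Set (GL (Fin 2) F)) →* GL (Fin 2) A :=
    ((MonoidHom.ofInjective hι).symm : ι.range →* GL (Fin 2) A).comp (Subgroup.inclusion hle)
  have hφ : ∀ x, ι (φ x) = x := by
    intro x
    have h := MonoidHom.apply_ofInjective_symm hι (Subgroup.inclusion hle x)
    exact h
  let ψ : Subgroup.closure (s : Set (GL (Fin 2) F)) →* GL (Fin 2) k :=
    (Matrix.GeneralLinearGroup.map (n := Fin 2) f).comp φ
  refine ⟨ψ.ker, Subgroup.finiteIndex_ker ψ, fun x hx hcon => hf ?_⟩
  have h1 : (φ x).1 0 0 = -1 := by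
    apply Subtype.val_injective
    have h3 : (ι (φ x)).1 0 0 = -1 := by
      rw [hφ x, hcon]
      simp
    have h4 : (ι (φ x)).1 0 0 = (((φ x).1 0 0 : A) : F) := rfl
    rw [← h4, h3]
    simp
  have h5 : (Matrix.GeneralLinearGroup.map (n := Fin 2) f (φ x)).1 0 0 = 1 := by
    have h6 : Matrix.GeneralLinearGroup.map (n := Fin 2) f (φ x) = 1 := hx
    rw [h6]
    simp
  have h7 : (Matrix.GeneralLinearGroup.map (n := Fin 2) f (φ x)).1 0 0 = f ((φ x).1 0 0) := rfl
  rw [h7, h1, map_neg, map_one] at h5
  have h8 : (2 : A) = 1 + 1 := by norm_num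
  rw [h8, map_add, map_one]
  nth_rewrite 1 [← h5]
  exact neg_add_cancel 1

end Pool.Agent.GT
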