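import Pool.Agent.Lib.MP_98022b_gl.Len

/-!
# Normal forms for the vertices of the Bruhat-Tits tree

Task B2. (Iwasawa decomposition.)
-/

set_option autoImplicit false

open scoped WithZero

namespace Pool.Agent.GT

variable {E : Type} [Field E] (v : Valuation E ℤᵐ⁰) {π : E}

/-- The upper triangular matrix with the rows `π ^ n, b` and `0, 1`. -/
def nf (hπ : π ≠ 0) (n : ℤ) (b : E) : GL (Fin 2) E :=
  Matrix.GeneralLinearGroup.mkOfDetNeZero !![π ^ n, b; 0, 1] (by simp [hπ, zpow_ne_zero])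

private theorem nf_v_zpow (hv : v π = WithZero.exp (-1)) (n : ℤ) :
    v (π ^ n) = WithZero.exp (-n) := by
  rw [map_zpow₀, hv, ← WithZero.exp_zsmul, smul_eq_mul, mul_neg, mul_one]

private theorem nf_len_zero {M : GL (Fin 2) E} (h : v M.1.det = nrm v M.1 ^ 2) : len v M = 0 := by
  unfold len
  rw [h, WithZero.log_pow]
  simp

private theorem nf_val (hπ : π ≠ 0) (n : ℤ) (b : E) :
    (nf hπ n b).1 = !![π ^ n, b; 0, 1] := rfl

theorem exists_nf (hπ : π ≠ 0) (hv : v π = WithZero.exp (-1)) (g : GL (Fin 2) E) :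
    ∃ (n : ℤ) (b : E), vt v g = vt v (nf hπ n b) := by
  have hdet := det_ne_zero g
  obtain ⟨a, ha⟩ : ∃ a, g.1 0 0 = a := ⟨_, rfl⟩
  obtain ⟨c, hc⟩ : ∃ a, g.1 0 1 = a := ⟨_, rfl⟩
  obtain ⟨d, hd⟩ : ∃ a, g.1 1 0 = a := ⟨_, rfl⟩
  obtain ⟨e, he⟩ : ∃ a, g.1 1 1 = a := ⟨_, rfl⟩
  have hg : g.1 = !![a, c; d, e] := by
    ext i j
    fin_cases i <;> fin_cases j <;> simp [ha, hc, hd, he]
  have hD : g.1.det = a * e - c * d := by rw [hg, Matrix.det_fin_two_of]
  rw [hD] at hdet
  have hvD : v (a * e - c * d) ≠ 0 := v.ne_zero_iff.2 hdet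
  -- the conclusion from an explicit matrix
  have key : ∀ (n : ℤ) (b : E) (M : Matrix (Fin 2) (Fin 2) E), M.det ≠ 0 →
      g.1 * M = (nf hπ n b).1 → v M.det = nrm v M ^ 2 → vt v g = vt v (nf hπ n b) := by
    intro n b M h0 h1 h2
    rw [vt_eq_iff]
    have h3 : g * Matrix.GeneralLinearGroup.mkOfDetNeZero M h0 = nf hπ n b := Units.ext h1
    rw [← h3, inv_mul_cancel_left]
    exact nf_len_zero v h2
  rcases le_total (v d) (v e) with hde | hde
  · have he0 : e ≠ 0 := by
      rintro rfl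
      rw [map_zero, le_zero_iff, v.zero_iff] at hde
      rw [hde] at hdet
      simp at hdet
    have hve : v e ≠ 0 := v.ne_zero_iff.2 he0
    set n : ℤ := -WithZero.log (v (a * e - c * d) / v e ^ 2) with hn
    have hvn : v (π ^ n) = v (a * e - c * d) / v e ^ 2 := by
      rw [nf_v_zpow v hv, hn, neg_neg, WithZero.exp_log]
      exact div_ne_zero hvD (pow_ne_zero 2 hve)
    have hπn : π ^ n ≠ 0 := zpow_ne_zero n hπ
    have hMd : (!![e * π ^ n / (a * e - c * d), 0; -(d * π ^ n / (a * e - c * d)), 1 / e] :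
        Matrix (Fin 2) (Fin 2) E).det = π ^ n / (a * e - c * d) := by
      rw [Matrix.det_fin_two_of]
      field_simp
      ring
    refine ⟨n, c / e, key n (c / e)
      !![e * π ^ n / (a * e - c * d), 0; -(d * π ^ n / (a * e - c * d)), 1 / e]
      (by rw [hMd]; exact div_ne_zero hπn hdet) ?_ ?_⟩
    · rw [nf_val, hg, Matrix.mul_fin_two]
      ext i j
      fin_cases i <;> fin_cases j
      · show a * (e * π ^ n / (a * e - c * d)) + c * (-(d * π ^ n / (a * e - c * d))) = π ^ n
        field_simp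
        ring
      · show a * 0 + c * (1 / e) = c / e
        ring
      · show d * (e * π ^ n / (a * e - c * d)) + e * (-(d * π ^ n / (a * e - c * d))) = 0
        ring
      · show d * 0 + e * (1 / e) = 1
        field_simp
        ring
    · have h1 : v (e * π ^ n / (a * e - c * d)) = (v e)⁻¹ := by
        rw [map_div₀, map_mul, hvn]
        field_simp
      have h2 : v (-(d * π ^ n / (a * e - c * d))) ≤ (v e)⁻¹ := by
        rw [Valuation.map_neg]
        have h3 : v (d * π ^ n / (a * e - c * d)) = v d * ((v e)⁻¹ * (v e)⁻¹) := by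
          rw [map_div₀, map_mul, hvn]
          field_simp
        rw [h3]
        calc v d * ((v e)⁻¹ * (v e)⁻¹) ≤ v e * ((v e)⁻¹ * (v e)⁻¹) :=
              mul_le_mul' hde le_rfl
          _ = (v e)⁻¹ := by rw [mul_inv_cancel_left₀ hve]
      have h3 : v (1 / e) = (v e)⁻¹ := by rw [one_div, map_inv₀]
      have h4 : nrm v (!![e * π ^ n / (a * e - c * d), 0; -(d * π ^ n / (a * e - c * d)), 1 / e] :
          Matrix (Fin 2) (Fin 2) E) = (v e)⁻¹ := by
        show max (max (v (e * π ^ n / (a * e - c * d))) (v 0))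
          (max (v (-(d * π ^ n / (a * e - c * d)))) (v (1 / e))) = _
        rw [h1, h3, map_zero, max_eq_left zero_le, max_eq_right h2, max_self]
      rw [hMd, h4, map_div₀, hvn]
      field_simp
  · have hd0 : d ≠ 0 := by
      rintro rfl
      rw [map_zero, le_zero_iff, v.zero_iff] at hde
      rw [hde] at hdet
      simp at hdet
    have hvd : v d ≠ 0 := v.ne_zero_iff.2 hd0
    set n : ℤ := -WithZero.log (v (a * e - c * d) / v d ^ 2) with hn
    have hvn : v (π ^ n) = v (a * e - c * d) / v d ^ 2 := by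
      rw [nf_v_zpow v hv, hn, neg_neg, WithZero.exp_log]
      exact div_ne_zero hvD (pow_ne_zero 2 hvd)
    have hπn : π ^ n ≠ 0 := zpow_ne_zero n hπ
    have hMd : (!![e * π ^ n / (a * e - c * d), 1 / d; -(d * π ^ n / (a * e - c * d)), 0] :
        Matrix (Fin 2) (Fin 2) E).det = π ^ n / (a * e - c * d) := by
      rw [Matrix.det_fin_two_of]
      field_simp
      ring
    refine ⟨n, a / d, key n (a / d)
      !![e * π ^ n / (a * e - c * d), 1 / d; -(d * π ^ n / (a * e - c * d)), 0]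
      (by rw [hMd]; exact div_ne_zero hπn hdet) ?_ ?_⟩
    · rw [nf_val, hg, Matrix.mul_fin_two]
      ext i j
      fin_cases i <;> fin_cases j
      · show a * (e * π ^ n / (a * e - c * d)) + c * (-(d * π ^ n / (a * e - c * d))) = π ^ n
        field_simp
        ring
      · show a * (1 / d) + c * 0 = a / d
        ring
      · show d * (e * π ^ n / (a * e - c * d)) + e * (-(d * π ^ n / (a * e - c * d))) = 0
        ring
      · show d * (1 / d) + e * 0 = 1
        field_simp
        ring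
    · have h1 : v (-(d * π ^ n / (a * e - c * d))) = (v d)⁻¹ := by
        rw [Valuation.map_neg, map_div₀, map_mul, hvn]
        field_simp
      have h2 : v (e * π ^ n / (a * e - c * d)) ≤ (v d)⁻¹ := by
        have h3 : v (e * π ^ n / (a * e - c * d)) = v e * ((v d)⁻¹ * (v d)⁻¹) := by
          rw [map_div₀, map_mul, hvn]
          field_simp
        rw [h3]
        calc v e * ((v d)⁻¹ * (v d)⁻¹) ≤ v d * ((v d)⁻¹ * (v d)⁻¹) :=
              mul_le_mul' hde le_rfl
          _ = (v d)⁻¹ := by rw [mul_inv_cancel_left₀ hvd]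
      have h3 : v (1 / d) = (v d)⁻¹ := by rw [one_div, map_inv₀]
      have h4 : nrm v (!![e * π ^ n / (a * e - c * d), 1 / d; -(d * π ^ n / (a * e - c * d)), 0] :
          Matrix (Fin 2) (Fin 2) E) = (v d)⁻¹ := by
        show max (max (v (e * π ^ n / (a * e - c * d))) (v (1 / d)))
          (max (v (-(d * π ^ n / (a * e - c * d)))) (v 0)) = _
        rw [h1, h3, map_zero, max_eq_right h2, max_eq_left zero_le, max_self]
      rw [hMd, h4, map_div₀, hvn]
      field_simp

theorem len_nf (hπ : π ≠ 0) (hv : v π = WithZero.exp (-1)) (n n' : ℤ) (b b' : E) :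
    len v ((nf hπ n b)⁻¹ * nf hπ n' b') = n + n' +
      2 * WithZero.log (max (max (WithZero.exp (-n)) (WithZero.exp (-n'))) (v (b' - b))) := by
  have hπn : π ^ n ≠ 0 := zpow_ne_zero n hπ
  have hπn' : π ^ n' ≠ 0 := zpow_ne_zero n' hπ
  have hMd : (!![π ^ n' / π ^ n, (b' - b) / π ^ n; 0, 1] : Matrix (Fin 2) (Fin 2) E).det =
      π ^ n' / π ^ n := by
    rw [Matrix.det_fin_two_of]
    ring
  have h1 : (nf hπ n b)⁻¹ * nf hπ n' b' = Matrix.GeneralLinearGroup.mkOfDetNeZero
      !![π ^ n' / π ^ n, (b' - b) / π ^ n; 0, 1]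
      (by rw [hMd]; exact div_ne_zero hπn' hπn) := by
    rw [inv_mul_eq_iff_eq_mul]
    refine Units.ext ?_
    show !![π ^ n', b'; 0, 1] = !![π ^ n, b; 0, 1] * !![π ^ n' / π ^ n, (b' - b) / π ^ n; 0, 1]
    rw [Matrix.mul_fin_two]
    ext i j
    fin_cases i <;> fin_cases j
    · show π ^ n' = π ^ n * (π ^ n' / π ^ n) + b * 0
      field_simp
      ring
    · show b' = π ^ n * ((b' - b) / π ^ n) + b * 1
      field_simp
      ring
    · show (0 : E) = 0 * (π ^ n' / π ^ n) + 1 * 0
      ring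
    · show (1 : E) = 0 * ((b' - b) / π ^ n) + 1 * 1
      ring
  rw [h1]
  set m := max (max (WithZero.exp (-n)) (WithZero.exp (-n'))) (v (b' - b)) with hm
  have hm0 : m ≠ 0 := by
    intro h
    have h2 : WithZero.exp (-n) ≤ m := (le_max_left _ _).trans (le_max_left _ _)
    rw [h, le_zero_iff] at h2
    exact WithZero.exp_ne_zero h2
  have hvn : v (π ^ n) = WithZero.exp (-n) := nf_v_zpow v hv n
  have hvn' : v (π ^ n') = WithZero.exp (-n') := nf_v_zpow v hv n'
  have hn0 : WithZero.exp (-n) ≠ (0 : ℤᵐ⁰) := WithZero.exp_ne_zero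
  have hnrm : nrm v (!![π ^ n' / π ^ n, (b' - b) / π ^ n; 0, 1] : Matrix (Fin 2) (Fin 2) E) =
      (WithZero.exp (-n))⁻¹ * m := by
    show max (max (v (π ^ n' / π ^ n)) (v ((b' - b) / π ^ n))) (max (v 0) (v 1)) = _
    rw [map_div₀, map_div₀, hvn, hvn', map_zero, map_one, max_eq_right zero_le, hm, mul_max,
      mul_max, inv_mul_cancel₀ hn0, div_eq_inv_mul, div_eq_inv_mul]
    rw [max_comm, max_assoc]
  unfold len
  show 2 * WithZero.log (nrm v (!![π ^ n' / π ^ n, (b' - b) / π ^ n; 0, 1] :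
    Matrix (Fin 2) (Fin 2) E)) - WithZero.log (v (!![π ^ n' / π ^ n, (b' - b) / π ^ n; 0, 1] :
    Matrix (Fin 2) (Fin 2) E).det) = _
  rw [hnrm, hMd, map_div₀, hvn, hvn', WithZero.log_mul (inv_ne_zero hn0) hm0, WithZero.log_inv,
    WithZero.log_div WithZero.exp_ne_zero hn0, WithZero.log_exp, WithZero.log_exp]
  ring

end Pool.Agent.GT
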