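import Pool.Agent.Lib.MP_98022b_gl.ParentTree
import Pool.Agent.Lib.MP_98022b_gl.NormalForm

/-!
# The Bruhat-Tits tree is a tree

Task B3. The parent of `vt v (nf n b)` is `vt v (nf (n - 1) b)`, the height is `n`; two vertices
`(n, b)`, `(n', b')` are equal if and only if `n = n'` and `v (b' - b) ≤ exp (-n)`; the common
ancestors of `(n, b)`, `(n', b')` are the `(m, b)` with `m ≤ n`, `m ≤ n'`,
`v (b' - b) ≤ exp (-m)`.
-/

set_option autoImplicit false

open scoped WithZero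

namespace Pool.Agent.GT

variable {E : Type} [Field E] (v : Valuation E ℤᵐ⁰)

private theorem B3_len {π : E} (hπ : π ≠ 0) (hv : v π = WithZero.exp (-1)) (n n' : ℤ) (b b' : E) :
    ∃ m : ℤ, m ≤ n ∧ m ≤ n' ∧ v (b' - b) ≤ WithZero.exp (-m) ∧
      (∀ k : ℤ, k ≤ n → k ≤ n' → v (b' - b) ≤ WithZero.exp (-k) → k ≤ m) ∧
      len v ((nf hπ n b)⁻¹ * nf hπ n' b') = n + n' - 2 * m := by
  have h0 := len_nf v hπ hv n n' b b'
  generalize hX : max (max (WithZero.exp (-n)) (WithZero.exp (-n'))) (v (b' - b)) = X at h0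
  have h1 : WithZero.exp (-n) ≤ X := by
    rw [← hX]; exact (le_max_left _ _).trans (le_max_left _ _)
  have h2 : WithZero.exp (-n') ≤ X := by
    rw [← hX]; exact (le_max_right _ _).trans (le_max_left _ _)
  have h3 : v (b' - b) ≤ X := by rw [← hX]; exact le_max_right _ _
  have hX0 : X ≠ 0 := by
    intro h
    rw [h] at h1
    exact absurd h1 (not_le.2 WithZero.exp_pos)
  refine ⟨-WithZero.log X, ?_, ?_, ?_, ?_, by rw [h0]; ring⟩
  · have := (WithZero.le_log_iff_exp_le hX0).2 h1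
    omega
  · have := (WithZero.le_log_iff_exp_le hX0).2 h2
    omega
  · rw [neg_neg, WithZero.exp_log hX0]
    exact h3
  · intro k hk1 hk2 hk3
    have h4 : X ≤ WithZero.exp (-k) := by
      rw [← hX, max_le_iff, max_le_iff]
      exact ⟨⟨WithZero.exp_le_exp.2 (by omega), WithZero.exp_le_exp.2 (by omega)⟩, hk3⟩
    have h5 := (WithZero.log_le_iff_le_exp hX0).2 h4
    omega

private theorem B3_eq {π : E} (hπ : π ≠ 0) (hv : v π = WithZero.exp (-1)) (n n' : ℤ) (b b' : E) :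
    vt v (nf hπ n b) = vt v (nf hπ n' b') ↔ n = n' ∧ v (b' - b) ≤ WithZero.exp (-n) := by
  obtain ⟨m, h1, h2, h3, h4, h5⟩ := B3_len v hπ hv n n' b b'
  rw [vt_eq_iff, h5]
  constructor
  · intro h
    have e1 : n = m := by omega
    have e2 : n = n' := by omega
    exact ⟨e2, by rw [e1]; exact h3⟩
  · rintro ⟨h6, h7⟩
    have := h4 n le_rfl h6.le h7
    omega

private theorem B3_adj {π : E} (hπ : π ≠ 0) (hv : v π = WithZero.exp (-1)) (n n' : ℤ) (b b' : E) :
    (bt v).Adj (vt v (nf hπ n b)) (vt v (nf hπ n' b')) ↔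
      vt v (nf hπ (n - 1) b) = vt v (nf hπ n' b') ∨ vt v (nf hπ (n' - 1) b') = vt v (nf hπ n b) := by
  rw [bt_adj_iff, B3_eq v hπ hv, B3_eq v hπ hv]
  obtain ⟨m, h1, h2, h3, h4, h5⟩ := B3_len v hπ hv n n' b b'
  rw [h5]
  constructor
  · intro h
    rcases (show m = n - 1 ∨ m = n' - 1 by omega) with h6 | h6
    · left
      exact ⟨by omega, by rw [← h6]; exact h3⟩
    · right
      refine ⟨by omega, ?_⟩
      rw [← h6, Valuation.map_sub_swap]
      exact h3
  · rintro (⟨h6, h7⟩ | ⟨h6, h7⟩)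
    · have := h4 (n - 1) (by omega) (by omega) h7
      omega
    · rw [Valuation.map_sub_swap] at h7
      have := h4 (n' - 1) (by omega) (by omega) h7
      omega

private theorem B3_parent {π : E} (hπ : π ≠ 0) (hv : v π = WithZero.exp (-1)) :
    ∃ (p : Vtx v → Vtx v) (ht : Vtx v → ℤ), (∀ x, ht (p x) = ht x - 1) ∧
      (∀ n b, p (vt v (nf hπ n b)) = vt v (nf hπ (n - 1) b)) ∧
      (∀ x y, (bt v).Adj x y ↔ p x = y ∨ p y = x) ∧
      (∀ n b (a : ℕ), p^[a] (vt v (nf hπ n b)) = vt v (nf hπ (n - a) b)) ∧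
      ∀ x y, ∃ a b, p^[a] x = p^[b] y := by
  have hex : ∀ x : Vtx v, ∃ (n : ℤ) (b : E), x = vt v (nf hπ n b) := by
    intro x
    obtain ⟨g, rfl⟩ := vt_surj v x
    exact exists_nf v hπ hv g
  choose N B hNB using hex
  have hN : ∀ n b, N (vt v (nf hπ n b)) = n ∧
      v (b - B (vt v (nf hπ n b))) ≤ WithZero.exp (-n) := by
    intro n b
    have h1 := hNB (vt v (nf hπ n b))
    have h2 := (B3_eq v hπ hv _ _ _ _).1 h1
    refine ⟨h2.1.symm, ?_⟩
    rw [Valuation.map_sub_swap]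
    exact h2.2
  have hp : ∀ n b, vt v (nf hπ (N (vt v (nf hπ n b)) - 1) (B (vt v (nf hπ n b)))) =
      vt v (nf hπ (n - 1) b) := by
    intro n b
    obtain ⟨h1, h2⟩ := hN n b
    rw [B3_eq v hπ hv, h1]
    exact ⟨rfl, h2.trans (WithZero.exp_le_exp.2 (by omega))⟩
  have hit : ∀ n b (a : ℕ), (fun x => vt v (nf hπ (N x - 1) (B x)))^[a] (vt v (nf hπ n b)) =
      vt v (nf hπ (n - a) b) := by
    intro n b a
    induction a with
    | zero => simp
    | succ a ih =>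
      rw [Function.iterate_succ_apply', ih]
      show vt v (nf hπ (N (vt v (nf hπ (n - a) b)) - 1) (B (vt v (nf hπ (n - a) b)))) = _
      rw [hp]
      congr 2
      push_cast
      ring
  refine ⟨fun x => vt v (nf hπ (N x - 1) (B x)), N, fun x => (hN _ _).1, hp, ?_, hit, ?_⟩
  · intro x y
    show _ ↔ vt v (nf hπ (N x - 1) (B x)) = y ∨ vt v (nf hπ (N y - 1) (B y)) = x
    have h1 := B3_adj v hπ hv (N x) (N y) (B x) (B y)
    rwa [← hNB x, ← hNB y] at h1
  · intro x y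
    obtain ⟨m, h1, h2, h3, -, -⟩ := B3_len v hπ hv (N x) (N y) (B x) (B y)
    refine ⟨(N x - m).toNat, (N y - m).toNat, ?_⟩
    have e1 := hit (N x) (B x) (N x - m).toNat
    have e2 := hit (N y) (B y) (N y - m).toNat
    rw [← hNB x] at e1
    rw [← hNB y] at e2
    rw [e1, e2, B3_eq v hπ hv]
    refine ⟨by omega, ?_⟩
    rw [Int.toNat_of_nonneg (by omega)]
    have e : N x - (N x - m) = m := by ring
    rw [e]
    exact h3

theorem bt_isTree (hv : ∃ π, v π = WithZero.exp (-1)) : (bt v).IsTree := by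
  obtain ⟨π, hv⟩ := hv
  have hπ : π ≠ 0 := by
    rintro rfl
    rw [map_zero] at hv
    exact WithZero.exp_ne_zero hv.symm
  obtain ⟨p, ht, h1, -, h2, -, h3⟩ := B3_parent v hπ hv
  have : Nonempty (Vtx v) := ⟨vt v 1⟩
  exact isTree_of_parent h1 h2 h3

theorem bt_dist (hv : ∃ π, v π = WithZero.exp (-1)) (g h : GL (Fin 2) E) :
    ((bt v).dist (vt v g) (vt v h) : ℤ) = len v (g⁻¹ * h) := by
  obtain ⟨π, hv⟩ := hv
  have hπ : π ≠ 0 := by
    rintro rfl
    rw [map_zero] at hv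
    exact WithZero.exp_ne_zero hv.symm
  obtain ⟨p, ht, h1, -, h2, hit, h3⟩ := B3_parent v hπ hv
  obtain ⟨n, b, hg⟩ := exists_nf v hπ hv g
  obtain ⟨n', b', hh⟩ := exists_nf v hπ hv h
  have e1 := (vt_eq_iff v g (nf hπ n b)).1 hg
  have e2 := (vt_eq_iff v h (nf hπ n' b')).1 hh
  have e3 : len v (g⁻¹ * h) = len v ((nf hπ n b)⁻¹ * nf hπ n' b') := by
    have e : (nf hπ n b)⁻¹ * nf hπ n' b' =
        (g⁻¹ * nf hπ n b)⁻¹ * (g⁻¹ * h) * (h⁻¹ * nf hπ n' b') := by group
    rw [e, len_mul_right v _ e2, len_mul_left v _ ((Hv v).inv_mem e1)]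
  obtain ⟨m, k1, k2, k3, k4, k5⟩ := B3_len v hπ hv n n' b b'
  rw [e3, k5, hg, hh]
  have h4 : p^[(n - m).toNat] (vt v (nf hπ n b)) = p^[(n' - m).toNat] (vt v (nf hπ n' b')) := by
    rw [hit, hit, B3_eq v hπ hv]
    refine ⟨by omega, ?_⟩
    rw [Int.toNat_of_nonneg (by omega)]
    have e : n - (n - m) = m := by ring
    rw [e]
    exact k3
  have h5 := dist_of_parent h1 h2 h3 h4 (fun a' b'' h6 => by
    rw [hit, hit, B3_eq v hπ hv] at h6
    have h7 := k4 (n - a') (by omega) (by omega) h6.2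
    omega)
  rw [h5]
  push_cast
  rw [Int.toNat_of_nonneg (by omega), Int.toNat_of_nonneg (by omega)]
  ring

end Pool.Agent.GT
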