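import Pool.Agent.Lib.MP_98022b_gl.Lines

/-!
# Groups of matrices with `trace ^ 2 / det` in a subfield

Task B6. Let `H'` be the group of the matrices of determinant `1` which are scalar multiples of
members of `H`; their traces are in `K`.

Case 1: some `g ∈ H'` has eigenvalues `l ≠ l⁻¹` (in `K`). In a basis of eigenvectors of `g` the
diagonal entries of all `h ∈ H'` are in `K` (`trace h`, `trace (g h)`), so `b * c'` is in `K` for the
off-diagonal entries `b` of `h`, `c'` of `h'`. If all `b` or all `c` are `0` a basis vector gives a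
fixed point; otherwise conjugate with a diagonal matrix such that all `b`, `c` are in `K`.

Case 2: all traces in `H'` are `2` or `-2`. Let `g ∈ H'` be not scalar, `e` its eigenvector; in a
basis `e, e'` the matrix `g` has the entries `ε, 1, 0, ε` (`ε = 1` or `-1`), and for `h` with lower
left entry `c` the traces of `h`, `g ε h`, `(g ε) ^ 2 h` are `t`, `t + c ε`, `t + 2 c ε`; all are `2`
or `-2`; hence `c = 0`. So `e` gives a fixed point.
-/

set_option autoImplicit false

namespace Pool.Agent.GT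

variable {K F : Type} [Field K] [Field F] [Algebra K F]

/-- The member `h` is a scalar multiple of a matrix over `K`, after conjugation with `g`. -/
def ScalK (K F : Type) [Field K] [Field F] [Algebra K F] (g h : GL (Fin 2) F) : Prop :=
  ∃ (c : Fˣ) (M : GL (Fin 2) K), (g⁻¹ * h * g).1 = (c : F) • M.1.map (algebraMap K F)

namespace ClaimCaux

/-- the conclusion for a set of matrices -/
def Concl (K : Type) {F : Type} [Field K] [Field F] [Algebra K F] (S : Set (GL (Fin 2) F)) : Prop :=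
  (∃ u : Fin 2 → F, u ≠ 0 ∧ ∀ a ∈ S, IsEig a.1 u) ∨
    ∃ g : GL (Fin 2) F, ∀ a ∈ S, ∃ M : Matrix (Fin 2) (Fin 2) K,
      (g⁻¹ * a * g).1 = M.map (algebraMap K F)

theorem inv_mul_val (P : GL (Fin 2) F) : (P⁻¹).1 * P.1 = 1 := by
  have h : P⁻¹ * P = 1 := inv_mul_cancel P
  exact congrArg Units.val h

/-- the conjugate set -/
def cj (P : GL (Fin 2) F) (S : Set (GL (Fin 2) F)) : Set (GL (Fin 2) F) := {b | P * b * P⁻¹ ∈ S}

theorem concl_cj {S : Set (GL (Fin 2) F)} (P : GL (Fin 2) F) (h : Concl K (cj P S)) :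
    Concl K S := by
  have hmem : ∀ a ∈ S, P⁻¹ * a * P ∈ cj P S := by
    intro a ha
    show P * (P⁻¹ * a * P) * P⁻¹ ∈ S
    have e : P * (P⁻¹ * a * P) * P⁻¹ = a := by group
    rw [e]
    exact ha
  rcases h with ⟨u, hu, h⟩ | ⟨g, h⟩
  · refine Or.inl ⟨P.1.mulVec u, ?_, fun a ha => ?_⟩
    · intro h0
      apply hu
      have h1 : (P⁻¹).1.mulVec (P.1.mulVec u) = u := by
        rw [Matrix.mulVec_mulVec, inv_mul_val, Matrix.one_mulVec]
      rw [← h1, h0, Matrix.mulVec_zero]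
    · obtain ⟨c, hc⟩ := h _ (hmem a ha)
      refine ⟨c, ?_⟩
      have e : a * P = P * (P⁻¹ * a * P) := by group
      have e1 : a.1 * P.1 = P.1 * (P⁻¹ * a * P).1 := congrArg Units.val e
      rw [Matrix.mulVec_mulVec, e1, ← Matrix.mulVec_mulVec, hc, Matrix.mulVec_smul]
  · refine Or.inr ⟨P * g, fun a ha => ?_⟩
    obtain ⟨M, hM⟩ := h _ (hmem a ha)
    refine ⟨M, ?_⟩
    rw [← hM]
    congr 1
    group

theorem cj_mul {S : Set (GL (Fin 2) F)} (P : GL (Fin 2) F) (hmul : ∀ a ∈ S, ∀ b ∈ S, a * b ∈ S) :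
    ∀ a ∈ cj P S, ∀ b ∈ cj P S, a * b ∈ cj P S := by
  intro a ha b hb
  have h := hmul _ ha _ hb
  show P * (a * b) * P⁻¹ ∈ S
  have e : P * (a * b) * P⁻¹ = P * a * P⁻¹ * (P * b * P⁻¹) := by group
  rw [e]
  exact h

theorem trace_cj (P b : GL (Fin 2) F) : (P * b * P⁻¹).1.trace = b.1.trace := by
  have h : (P * b * P⁻¹).1 = P.1 * b.1 * (P⁻¹).1 := rfl
  rw [h, Matrix.trace_mul_comm, ← Matrix.mul_assoc, inv_mul_val, Matrix.one_mul]

theorem eig0 {a : Matrix (Fin 2) (Fin 2) F} (h : a 1 0 = 0) : IsEig a ![1, 0] := by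
  refine ⟨a 0 0, ?_⟩
  funext i
  fin_cases i
  · simp [Matrix.mulVec, dotProduct, Fin.sum_univ_two]
  · simp [Matrix.mulVec, dotProduct, Fin.sum_univ_two, h]

theorem eig1 {a : Matrix (Fin 2) (Fin 2) F} (h : a 0 1 = 0) : IsEig a ![0, 1] := by
  refine ⟨a 1 1, ?_⟩
  funext i
  fin_cases i
  · simp [Matrix.mulVec, dotProduct, Fin.sum_univ_two, h]
  · simp [Matrix.mulVec, dotProduct, Fin.sum_univ_two]

theorem ne0 : (![1, 0] : Fin 2 → F) ≠ 0 := by
  intro h
  have := congrFun h 0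
  simp at this

theorem ne1 : (![0, 1] : Fin 2 → F) ≠ 0 := by
  intro h
  have := congrFun h 1
  simp at this

theorem diag_case {S : Set (GL (Fin 2) F)} (hmul : ∀ a ∈ S, ∀ b ∈ S, a * b ∈ S)
    (htr : ∀ a ∈ S, ∃ t : K, a.1.trace = algebraMap K F t) {l m : K} (hlm : l ≠ m)
    {d : GL (Fin 2) F} (hd : d ∈ S)
    (hd1 : d.1 = !![algebraMap K F l, 0; 0, algebraMap K F m]) : Concl K S := by
  have hlm' : l - m ≠ 0 := sub_ne_zero.2 hlm
  have hdiag : ∀ a ∈ S, ∃ x : K, a.1 0 0 = algebraMap K F x := by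
    intro a ha
    obtain ⟨t1, ht1⟩ := htr a ha
    obtain ⟨t2, ht2⟩ := htr _ (hmul d hd a ha)
    have e2 : (d * a).1 = d.1 * a.1 := rfl
    rw [e2, hd1, Matrix.trace_fin_two, Matrix.mul_apply, Matrix.mul_apply, Fin.sum_univ_two,
      Fin.sum_univ_two] at ht2
    simp only [Matrix.of_apply, Matrix.cons_val', Matrix.cons_val_zero, Matrix.cons_val_fin_one,
      Matrix.cons_val_one, zero_mul, add_zero, zero_add] at ht2
    rw [Matrix.trace_fin_two] at ht1
    refine ⟨(t2 - m * t1) / (l - m), ?_⟩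
    rw [map_div₀, map_sub, map_mul, map_sub, ← ht1, ← ht2]
    have h3 : algebraMap K F l - algebraMap K F m ≠ 0 := by
      rw [← map_sub]
      exact (map_ne_zero _).2 hlm'
    field_simp
    ring
  have hdiag1 : ∀ a ∈ S, ∃ x : K, a.1 1 1 = algebraMap K F x := by
    intro a ha
    obtain ⟨t1, ht1⟩ := htr a ha
    obtain ⟨x, hx⟩ := hdiag a ha
    rw [Matrix.trace_fin_two, hx] at ht1
    exact ⟨t1 - x, by rw [map_sub, ← ht1]; ring⟩
  have hoff : ∀ a ∈ S, ∀ b ∈ S, ∃ x : K, a.1 0 1 * b.1 1 0 = algebraMap K F x := by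
    intro a ha b hb
    obtain ⟨x, hx⟩ := hdiag _ (hmul a ha b hb)
    obtain ⟨y, hy⟩ := hdiag a ha
    obtain ⟨z, hz⟩ := hdiag b hb
    have e2 : (a * b).1 = a.1 * b.1 := rfl
    rw [e2, Matrix.mul_apply, Fin.sum_univ_two, hy, hz] at hx
    exact ⟨x - y * z, by rw [map_sub, map_mul, ← hx]; ring⟩
  by_cases h1 : ∀ a ∈ S, a.1 0 1 = 0
  · exact Or.inl ⟨_, ne1, fun a ha => eig1 (h1 a ha)⟩
  by_cases h2 : ∀ a ∈ S, a.1 1 0 = 0
  · exact Or.inl ⟨_, ne0, fun a ha => eig0 (h2 a ha)⟩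
  push Not at h1 h2
  obtain ⟨b1, hb1, hb1'⟩ := h1
  obtain ⟨b2, hb2, hb2'⟩ := h2
  set μ := b2.1 1 0 with hμ
  obtain ⟨κ, hκ⟩ := hoff b1 hb1 b2 hb2
  rw [← hμ] at hκ
  have hκ0 : algebraMap K F κ ≠ 0 := by
    rw [← hκ]
    exact mul_ne_zero hb1' hb2'
  have hdet : (!![(1 : F), 0; 0, μ]).det ≠ 0 := by
    rw [Matrix.det_fin_two_of]
    simpa using hb2'
  refine Or.inr ⟨Matrix.GeneralLinearGroup.mkOfDetNeZero _ hdet, fun a ha => ?_⟩
  set g : GL (Fin 2) F := Matrix.GeneralLinearGroup.mkOfDetNeZero _ hdet with hg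
  have hg1 : g.1 = !![(1 : F), 0; 0, μ] := rfl
  obtain ⟨x0, hx0⟩ := hdiag a ha
  obtain ⟨x1, hx1⟩ := hdiag1 a ha
  obtain ⟨y, hy⟩ := hoff a ha b2 hb2
  rw [← hμ] at hy
  obtain ⟨κ', hκ'⟩ := hoff b1 hb1 a ha
  have hz : a.1 1 0 = μ * algebraMap K F (κ' / κ) := by
    rw [map_div₀, ← hκ', ← hκ]
    field_simp
  refine ⟨!![x0, y; κ' / κ, x1], ?_⟩
  have key : a.1 * g.1 = g.1 * (!![x0, y; κ' / κ, x1]).map (algebraMap K F) := by
    ext i j
    rw [Matrix.mul_apply, Matrix.mul_apply, Fin.sum_univ_two, Fin.sum_univ_two, hg1]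
    fin_cases i <;> fin_cases j
    · simp [hx0]
    · simp [← hy]
    · simp [hz]
    · simp [hx1, mul_comm]
  have e : (g⁻¹ * a * g).1 = (g⁻¹).1 * (a.1 * g.1) := by
    rw [← Matrix.mul_assoc]
    rfl
  rw [e, key, ← Matrix.mul_assoc, inv_mul_val, Matrix.one_mul]

theorem unip_case {S : Set (GL (Fin 2) F)} (hmul : ∀ a ∈ S, ∀ b ∈ S, a * b ∈ S)
    (htr : ∀ a ∈ S, a.1.trace ^ 2 = 4) {ε : F} (hε : ε ^ 2 = 1)
    {d : GL (Fin 2) F} (hd : d ∈ S) (hd1 : d.1 = !![ε, 1; 0, ε]) : Concl K S := by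
  refine Or.inl ⟨_, ne0, fun a ha => eig0 ?_⟩
  have h1 := htr a ha
  have h2 := htr _ (hmul d hd a ha)
  have h3 := htr _ (hmul d hd _ (hmul d hd a ha))
  have e2 : (d * a).1 = d.1 * a.1 := rfl
  have e3 : (d * (d * a)).1 = d.1 * (d.1 * a.1) := rfl
  rw [Matrix.trace_fin_two] at h1
  rw [e2, hd1, Matrix.trace_fin_two, Matrix.mul_apply, Matrix.mul_apply, Fin.sum_univ_two,
    Fin.sum_univ_two] at h2
  rw [e3, hd1, Matrix.trace_fin_two, Matrix.mul_apply, Matrix.mul_apply, Fin.sum_univ_two,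
    Fin.sum_univ_two, Matrix.mul_apply, Matrix.mul_apply, Matrix.mul_apply, Matrix.mul_apply,
    Fin.sum_univ_two, Fin.sum_univ_two, Fin.sum_univ_two, Fin.sum_univ_two] at h3
  simp only [Matrix.of_apply, Matrix.cons_val', Matrix.cons_val_zero, Matrix.cons_val_fin_one,
    Matrix.cons_val_one, zero_mul, zero_add, one_mul] at h2 h3
  by_contra hc
  -- `c (2 ε t + c) = 0`
  have h4 : a.1 1 0 * (2 * ε * (a.1 0 0 + a.1 1 1) + a.1 1 0) = 0 := by
    linear_combination h2 - h1 - (a.1 0 0 + a.1 1 1) ^ 2 * hε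
  have h5 : 2 * ε * (a.1 0 0 + a.1 1 1) + a.1 1 0 = 0 := (mul_eq_zero.1 h4).resolve_left hc
  have h6 : 4 * a.1 1 0 * (ε * (a.1 0 0 + a.1 1 1) + a.1 1 0) = 0 := by
    linear_combination h3 - h1 - ((a.1 0 0 + a.1 1 1) ^ 2 * (ε ^ 2 + 1) + 4 * ε * a.1 1 0 *
      (a.1 0 0 + a.1 1 1) + 4 * a.1 1 0 ^ 2) * hε
  by_cases hch : (2 : F) = 0
  · apply hc
    have h7 : a.1 1 0 = -(2 * ε * (a.1 0 0 + a.1 1 1)) := by linear_combination h5
    rw [h7, hch]
    ring
  · have h4' : (4 : F) ≠ 0 := by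
      have h8 : (4 : F) = 2 * 2 := by norm_num
      rw [h8]
      exact mul_ne_zero hch hch
    have h9 : ε * (a.1 0 0 + a.1 1 1) + a.1 1 0 = 0 :=
      (mul_eq_zero.1 h6).resolve_left (mul_ne_zero h4' hc)
    have h10 : ε * (a.1 0 0 + a.1 1 1) = 0 := by linear_combination h5 - h9
    have h11 : (4 : F) = 0 := by
      linear_combination (ε * (a.1 0 0 + a.1 1 1)) * h10 - h1 - (a.1 0 0 + a.1 1 1) ^ 2 * hε
    exact h4' h11

/-- the matrix with the columns `u`, `v` -/
def col (u v : Fin 2 → F) : Matrix (Fin 2) (Fin 2) F := !![u 0, v 0; u 1, v 1]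

theorem col_mulVec (u v w : Fin 2 → F) : (col u v).mulVec w = w 0 • u + w 1 • v := by
  funext i
  fin_cases i
  · simp [col, Matrix.mulVec, dotProduct, Fin.sum_univ_two]
    ring
  · simp [col, Matrix.mulVec, dotProduct, Fin.sum_univ_two]
    ring

theorem mul_col (a : Matrix (Fin 2) (Fin 2) F) (u v : Fin 2 → F) :
    a * col u v = col (a.mulVec u) (a.mulVec v) := by
  ext i j
  fin_cases i <;> fin_cases j <;>
    simp [col, Matrix.mul_apply, Matrix.mulVec, dotProduct, Fin.sum_univ_two]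

/-- change of basis -/
theorem exists_basis {a : GL (Fin 2) F} {u v : Fin 2 → F} {p q r t : F}
    (hind : ∀ x y : F, x • u + y • v = 0 → x = 0 ∧ y = 0) (hu : a.1.mulVec u = p • u + r • v)
    (hv : a.1.mulVec v = q • u + t • v) :
    ∃ P b : GL (Fin 2) F, P * b * P⁻¹ = a ∧ b.1 = !![p, q; r, t] := by
  have hdet : (col u v).det ≠ 0 := by
    intro h
    obtain ⟨w, hw, hw'⟩ := Matrix.exists_mulVec_eq_zero_iff.2 h
    rw [col_mulVec] at hw'
    obtain ⟨h1, h2⟩ := hind _ _ hw'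
    apply hw
    funext i
    fin_cases i
    · exact h1
    · exact h2
  set P : GL (Fin 2) F := Matrix.GeneralLinearGroup.mkOfDetNeZero _ hdet with hP
  have hP1 : P.1 = col u v := rfl
  refine ⟨P, P⁻¹ * a * P, by group, ?_⟩
  have key : a.1 * P.1 = P.1 * !![p, q; r, t] := by
    rw [hP1, mul_col, hu, hv]
    ext i j
    fin_cases i <;> fin_cases j <;>
      simp [col, Matrix.mul_apply, Fin.sum_univ_two, mul_comm]
  have e : (P⁻¹ * a * P).1 = (P⁻¹).1 * (a.1 * P.1) := by
    rw [← Matrix.mul_assoc]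
    rfl
  rw [e, key, ← Matrix.mul_assoc, inv_mul_val, Matrix.one_mul]

theorem det_sub (a : Matrix (Fin 2) (Fin 2) F) (l : F) :
    (a - l • (1 : Matrix (Fin 2) (Fin 2) F)).det = a.det - l * a.trace + l ^ 2 := by
  rw [Matrix.det_fin_two, Matrix.det_fin_two, Matrix.trace_fin_two]
  simp
  ring

theorem exists_eig {a : Matrix (Fin 2) (Fin 2) F} {l : F} (h : a.det - l * a.trace + l ^ 2 = 0) :
    ∃ u : Fin 2 → F, u ≠ 0 ∧ a.mulVec u = l • u := by
  rw [← det_sub] at h
  obtain ⟨u, hu, hu'⟩ := Matrix.exists_mulVec_eq_zero_iff.2 h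
  refine ⟨u, hu, ?_⟩
  rw [Matrix.sub_mulVec, Matrix.smul_mulVec, Matrix.one_mulVec, sub_eq_zero] at hu'
  exact hu'

theorem core [IsAlgClosed K] {S : Set (GL (Fin 2) F)}
    (hmul : ∀ a ∈ S, ∀ b ∈ S, a * b ∈ S) (hdet : ∀ a ∈ S, a.1.det = 1)
    (htr : ∀ a ∈ S, ∃ t : K, a.1.trace = algebraMap K F t) : Concl K S := by
  by_cases hall : ∀ a ∈ S, a.1.trace ^ 2 = 4
  · by_cases hsc : ∀ a ∈ S, ∃ c : F, a.1 = c • (1 : Matrix (Fin 2) (Fin 2) F)
    · refine Or.inl ⟨_, ne0, fun a ha => ?_⟩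
      obtain ⟨c, hc⟩ := hsc a ha
      exact ⟨c, by rw [hc, Matrix.smul_mulVec, Matrix.one_mulVec]⟩
    · push Not at hsc
      obtain ⟨a, ha, hns⟩ := hsc
      obtain ⟨ε, hε, hεt⟩ : ∃ ε : F, ε ^ 2 = 1 ∧ a.1.trace = 2 * ε := by
        have h1 := hall a ha
        have h2 : (a.1.trace - 2) * (a.1.trace + 2) = 0 := by linear_combination h1
        rcases mul_eq_zero.1 h2 with h | h
        · exact ⟨1, by ring, by linear_combination h⟩
        · exact ⟨-1, by ring, by linear_combination h⟩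
      have hN2 : ∀ w : Fin 2 → F, (a.1 - ε • (1 : Matrix (Fin 2) (Fin 2) F)).mulVec
          ((a.1 - ε • (1 : Matrix (Fin 2) (Fin 2) F)).mulVec w) = 0 := by
        intro w
        have hd := hdet a ha
        rw [Matrix.det_fin_two] at hd
        rw [Matrix.trace_fin_two] at hεt
        rw [Matrix.mulVec_mulVec]
        have h0 : (a.1 - ε • (1 : Matrix (Fin 2) (Fin 2) F)) *
            (a.1 - ε • (1 : Matrix (Fin 2) (Fin 2) F)) = 0 := by
          ext i j
          rw [Matrix.mul_apply, Fin.sum_univ_two]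
          fin_cases i <;> fin_cases j
          · simp
            linear_combination a.1 0 0 * hεt - hd + hε
          · simp
            linear_combination a.1 0 1 * hεt
          · simp
            linear_combination a.1 1 0 * hεt
          · simp
            linear_combination a.1 1 1 * hεt - hd + hε
        rw [h0, Matrix.zero_mulVec]
      obtain ⟨w, hw⟩ : ∃ w : Fin 2 → F,
          (a.1 - ε • (1 : Matrix (Fin 2) (Fin 2) F)).mulVec w ≠ 0 := by
        by_contra hcon
        push Not at hcon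
        apply hns ε
        have h1 : a.1 - ε • (1 : Matrix (Fin 2) (Fin 2) F) = 0 := by
          ext i j
          have h2 := congrFun (hcon (Pi.single j 1)) i
          rw [Matrix.mulVec_single_one] at h2
          exact h2
        exact sub_eq_zero.1 h1
      set N := a.1 - ε • (1 : Matrix (Fin 2) (Fin 2) F) with hN
      have haN : ∀ z : Fin 2 → F, a.1.mulVec z = N.mulVec z + ε • z := by
        intro z
        rw [hN, Matrix.sub_mulVec, Matrix.smul_mulVec, Matrix.one_mulVec, sub_add_cancel]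
      obtain ⟨P, b, hPb, hb⟩ := exists_basis (a := a) (u := N.mulVec w) (v := w) (p := ε) (q := 1)
        (r := 0) (t := ε) (by
          intro x y hxy
          have h1 := congrArg N.mulVec hxy
          rw [Matrix.mulVec_add, Matrix.mulVec_smul, Matrix.mulVec_smul, hN2, smul_zero, zero_add,
            Matrix.mulVec_zero] at h1
          have hy : y = 0 := (smul_eq_zero.1 h1).resolve_right hw
          rw [hy, zero_smul, add_zero] at hxy
          exact ⟨(smul_eq_zero.1 hxy).resolve_right hw, hy⟩)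
        (by rw [haN, hN2]; simp) (by rw [haN]; simp)
      refine concl_cj P (unip_case (cj_mul P hmul) (fun c hc => ?_) hε (d := b) ?_ hb)
      · rw [← trace_cj P c]
        exact hall _ hc
      · show P * b * P⁻¹ ∈ S
        rw [hPb]
        exact ha
  · push Not at hall
    obtain ⟨a, ha, h4⟩ := hall
    obtain ⟨t, ht⟩ := htr a ha
    obtain ⟨l, hl⟩ := IsAlgClosed.exists_root
      (Polynomial.C (1 : K) * Polynomial.X ^ 2 + Polynomial.C (-t) * Polynomial.X +
        Polynomial.C 1) (by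
        rw [Polynomial.degree_quadratic one_ne_zero]
        norm_num)
    have hl' : l ^ 2 - t * l + 1 = 0 := by
      have h := hl
      rw [Polynomial.IsRoot.def] at h
      simp only [Polynomial.eval_add, Polynomial.eval_mul, Polynomial.eval_C, Polynomial.eval_pow,
        Polynomial.eval_X] at h
      linear_combination h
    have hlm : l ≠ t - l := by
      intro h
      apply h4
      have h5 : t = 2 * l := by linear_combination -h
      have h6 : t ^ 2 = 4 := by
        rw [h5] at hl' ⊢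
        linear_combination -4 * hl'
      rw [ht, ← map_pow, h6]
      exact map_ofNat (algebraMap K F) 4
    have hroot : ∀ m : K, m ^ 2 - t * m + 1 = 0 →
        a.1.det - algebraMap K F m * a.1.trace + algebraMap K F m ^ 2 = 0 := by
      intro m hm
      rw [hdet a ha, ht]
      have h5 := congrArg (algebraMap K F) hm
      simp only [map_add, map_sub, map_mul, map_pow, map_one, map_zero] at h5
      linear_combination h5
    obtain ⟨u, hu, hau⟩ := exists_eig (hroot l hl')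
    obtain ⟨v, hv, hav⟩ := exists_eig (hroot (t - l) (by linear_combination hl'))
    have hlm' : algebraMap K F (t - l) - algebraMap K F l ≠ 0 := by
      rw [← map_sub]
      exact (map_ne_zero _).2 (sub_ne_zero.2 (Ne.symm hlm))
    obtain ⟨P, b, hPb, hb⟩ := exists_basis (a := a) (u := u) (v := v) (p := algebraMap K F l)
      (q := 0) (r := 0) (t := algebraMap K F (t - l)) (by
        intro x y hxy
        have h1 := congrArg a.1.mulVec hxy
        rw [Matrix.mulVec_add, Matrix.mulVec_smul, Matrix.mulVec_smul, hau, hav,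
          Matrix.mulVec_zero] at h1
        have h2 : (y * (algebraMap K F (t - l) - algebraMap K F l)) • v = 0 := by
          have h3 : (y * (algebraMap K F (t - l) - algebraMap K F l)) • v =
              (x • algebraMap K F l • u + y • algebraMap K F (t - l) • v) -
                algebraMap K F l • (x • u + y • v) := by
            module
          rw [h3, h1, hxy, smul_zero, sub_zero]
        have hy : y = 0 := by
          have h3 := (smul_eq_zero.1 h2).resolve_right hv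
          exact (mul_eq_zero.1 h3).resolve_right hlm'
        rw [hy, zero_smul, add_zero] at hxy
        exact ⟨(smul_eq_zero.1 hxy).resolve_right hu, hy⟩)
      (by rw [hau]; simp) (by rw [hav]; simp)
    refine concl_cj P (diag_case (cj_mul P hmul) (fun c hc => ?_) hlm (d := b) ?_ hb)
    · rw [← trace_cj P c]
      exact htr _ hc
    · show P * b * P⁻¹ ∈ S
      rw [hPb]
      exact ha

end ClaimCaux

open ClaimCaux

theorem claimC [IsAlgClosed K] [IsAlgClosed F] (H : Subgroup (GL (Fin 2) F))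
    (hH : ∀ h ∈ H, ∃ a : K, h.1.trace ^ 2 = algebraMap K F a * h.1.det) :
    (∃ ω : Ln F, ∀ h ∈ H, h • ω = ω) ∨ ∃ g : GL (Fin 2) F, ∀ h ∈ H, ScalK K F g h := by
  -- the normalised group
  set S : Set (GL (Fin 2) F) :=
    {a | a.1.det = 1 ∧ ∃ c : F, c ≠ 0 ∧ ∃ h ∈ H, a.1 = c • h.1} with hS
  have hex : ∀ h ∈ H, ∃ a ∈ S, ∃ c : F, c ≠ 0 ∧ a.1 = c • h.1 := by
    intro h hh
    have hd0 : h.1.det ≠ 0 := ((Matrix.isUnit_iff_isUnit_det _).1 h.isUnit).ne_zero
    obtain ⟨c, hc⟩ := IsAlgClosed.exists_pow_nat_eq (h.1.det)⁻¹ (n := 2) two_pos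
    have hc0 : c ≠ 0 := by
      rintro rfl
      rw [zero_pow two_ne_zero] at hc
      exact inv_ne_zero hd0 hc.symm
    have hdet : (c • h.1).det = 1 := by
      rw [Matrix.det_smul, Fintype.card_fin, hc, inv_mul_cancel₀ hd0]
    refine ⟨Matrix.GeneralLinearGroup.mkOfDetNeZero (c • h.1) (by rw [hdet]; exact one_ne_zero),
      ⟨hdet, c, hc0, h, hh, rfl⟩, c, hc0, rfl⟩
  have hcore : Concl K S := by
    refine core ?_ (fun a ha => ha.1) ?_
    · rintro a ⟨ha, c, hc, h, hh, hca⟩ b ⟨hb, c', hc', h', hh', hcb⟩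
      refine ⟨?_, c * c', mul_ne_zero hc hc', h * h', H.mul_mem hh hh', ?_⟩
      · show (a.1 * b.1).det = 1
        rw [Matrix.det_mul, ha, hb, one_mul]
      · show a.1 * b.1 = (c * c') • (h.1 * h'.1)
        rw [hca, hcb, Matrix.smul_mul, Matrix.mul_smul, smul_smul]
    · rintro a ⟨ha, c, hc, h, hh, hca⟩
      obtain ⟨x, hx⟩ := hH h hh
      obtain ⟨y, hy⟩ := IsAlgClosed.exists_pow_nat_eq x (n := 2) two_pos
      have h1 : a.1.trace ^ 2 = algebraMap K F y ^ 2 := by
        have h2 : a.1.trace = c * h.1.trace := by rw [hca, Matrix.trace_smul, smul_eq_mul]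
        have h3 : c ^ 2 * h.1.det = 1 := by
          rw [hca, Matrix.det_smul, Fintype.card_fin] at ha
          exact ha
        rw [h2, mul_pow, hx, ← map_pow, hy]
        linear_combination algebraMap K F x * h3
      rcases sq_eq_sq_iff_eq_or_eq_neg.1 h1 with h2 | h2
      · exact ⟨y, h2⟩
      · exact ⟨-y, by rw [h2, map_neg]⟩
  rcases hcore with ⟨u, hu, hall⟩ | ⟨g, hall⟩
  · left
    obtain ⟨ω, hω⟩ := exists_line u hu
    refine ⟨ω, fun h hh => (hω h).2 ?_⟩
    obtain ⟨a, ha, c, hc, hca⟩ := hex h hh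
    obtain ⟨x, hx⟩ := hall a ha
    refine ⟨c⁻¹ * x, ?_⟩
    rw [hca, Matrix.smul_mulVec] at hx
    rw [mul_smul, ← hx, smul_smul, inv_mul_cancel₀ hc, one_smul]
  · right
    refine ⟨g, fun h hh => ?_⟩
    obtain ⟨a, ha, c, hc, hca⟩ := hex h hh
    obtain ⟨M, hM⟩ := hall a ha
    have hdM : M.det ≠ 0 := by
      intro h0
      have h1 : (g⁻¹ * a * g).1.det = 0 := by
        rw [hM]
        have h2 : (M.map (algebraMap K F)).det = algebraMap K F M.det :=
          ((algebraMap K F).map_det M).symm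
        rw [h2, h0, map_zero]
      exact ((Matrix.isUnit_iff_isUnit_det _).1 (g⁻¹ * a * g).isUnit).ne_zero h1
    refine ⟨(Units.mk0 c hc)⁻¹, Matrix.GeneralLinearGroup.mkOfDetNeZero M hdM, ?_⟩
    have h1 : (g⁻¹ * a * g).1 = c • (g⁻¹ * h * g).1 := by
      show (g⁻¹).1 * a.1 * g.1 = c • ((g⁻¹).1 * h.1 * g.1)
      rw [hca, Matrix.mul_smul, Matrix.smul_mul]
    have h2 : (g⁻¹ * h * g).1 = c⁻¹ • (g⁻¹ * a * g).1 := by
      rw [h1, smul_smul, inv_mul_cancel₀ hc, one_smul]
    rw [h2, hM]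
    rfl

end Pool.Agent.GT
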