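import Pool.Agent.Lib.MP_98022b_gl.Len

/-!
# The valuation of the determinant of a commutator

Task B4. `v_cm_far`: we may multiply `Y` by a scalar, so let the largest value of its entries be `1`;
then `v (det Y) = exp (-len Y)`. Let `y₁` be a column of `Y` with an entry of value `1`, `y₂` the
other one. Then `y₂ = α y₁ + e` with `v α ≤ 1` and `v e ≤ v (det Y)`, and
`M Y = Y (Y⁻¹ M Y)` gives `M y₁ = λ y₁ + e'` with `v λ ≤ nrm (Y⁻¹ M Y)`,
`v e' ≤ nrm (Y⁻¹ M Y) v (det Y)`. Same for `N`. So `Z = M N - N M` satisfies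
`v (Z y₁) ^ 2 ≤ a b v (det Y) ^ 2`, where `a = exp R * v (det M)`, `b = exp R * v (det N)`
(`nrm M ^ 2 ≤ a` and so on), and `det Z • y₁ = adjugate Z (Z y₁)`.
-/

set_option autoImplicit false

open scoped WithZero

namespace Pool.Agent.GT

variable {E : Type} [Field E] (v : Valuation E ℤᵐ⁰)

/-- The determinant of `M N - N M`. -/
def cm {E : Type} [Field E] (M N : Matrix (Fin 2) (Fin 2) E) : E := (M * N - N * M).det

theorem nrm_sq_le {M : GL (Fin 2) E} {R : ℤ} (h : len v M ≤ R) :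
    nrm v M.1 ^ 2 ≤ WithZero.exp R * v M.1.det := by
  have h0 := v_det_ne_zero v M
  have h1 := nrm_ne_zero v M
  rw [← WithZero.log_le_log (pow_ne_zero 2 h1) (mul_ne_zero WithZero.exp_ne_zero h0),
    WithZero.log_pow, WithZero.log_mul WithZero.exp_ne_zero h0, WithZero.log_exp]
  unfold len at h
  have h2 : (2 : ℕ) • WithZero.log (nrm v M.1) = 2 * WithZero.log (nrm v M.1) := by simp
  rw [h2]
  omega

theorem cm_conj (g M N : GL (Fin 2) E) :
    cm (g⁻¹ * M * g).1 (g⁻¹ * N * g).1 = cm M.1 N.1 := by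
  unfold cm
  have h1 : (g⁻¹ * M * g).1 * (g⁻¹ * N * g).1 - (g⁻¹ * N * g).1 * (g⁻¹ * M * g).1 =
      (g⁻¹).1 * (M.1 * N.1 - N.1 * M.1) * g.1 := by
    have h2 : (g⁻¹ * M * g).1 * (g⁻¹ * N * g).1 = (g⁻¹).1 * (M.1 * N.1) * g.1 := by
      have : (g⁻¹ * M * g) * (g⁻¹ * N * g) = g⁻¹ * (M * N) * g := by group
      exact congrArg Units.val this
    have h3 : (g⁻¹ * N * g).1 * (g⁻¹ * M * g).1 = (g⁻¹).1 * (N.1 * M.1) * g.1 := by
      have : (g⁻¹ * N * g) * (g⁻¹ * M * g) = g⁻¹ * (N * M) * g := by group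
      exact congrArg Units.val this
    rw [h2, h3, mul_sub, sub_mul]
  rw [h1, Matrix.det_mul, Matrix.det_mul]
  have h4 : (g⁻¹).1.det * g.1.det = 1 := by
    rw [← Matrix.det_mul]
    have : (g⁻¹).1 * g.1 = 1 := g.inv_mul
    rw [this, Matrix.det_one]
  linear_combination (M.1 * N.1 - N.1 * M.1).det * h4

private theorem nrm_comm_le {M N : Matrix (Fin 2) (Fin 2) E} {A B : ℤᵐ⁰} (hM : nrm v M ≤ A)
    (hN : nrm v N ≤ B) : nrm v (M * N - N * M) ≤ A * B := by
  have h1 : nrm v (M * N) ≤ A * B := (nrm_mul_le v M N).trans (mul_le_mul' hM hN)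
  have h2 : nrm v (N * M) ≤ A * B :=
    (nrm_mul_le v N M).trans ((mul_le_mul' hN hM).trans (mul_comm B A).le)
  rw [nrm_le_iff]
  intro i j
  rw [Matrix.sub_apply]
  exact (v.map_sub _ _).trans (max_le ((le_nrm v _ i j).trans h1) ((le_nrm v _ i j).trans h2))

theorem v_cm_le {M N : GL (Fin 2) E} {R : ℤ} (hM : len v M ≤ R) (hN : len v N ≤ R) :
    v (cm M.1 N.1) ≤ WithZero.exp (2 * R) * (v M.1.det * v N.1.det) := by
  have h1 := nrm_sq_le v hM
  have h2 := nrm_sq_le v hN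
  calc v (cm M.1 N.1) ≤ nrm v (M.1 * N.1 - N.1 * M.1) ^ 2 := v_det_le v _
    _ ≤ (nrm v M.1 * nrm v N.1) ^ 2 := pow_le_pow_left' (nrm_comm_le v le_rfl le_rfl) 2
    _ = nrm v M.1 ^ 2 * nrm v N.1 ^ 2 := mul_pow _ _ _
    _ ≤ (WithZero.exp R * v M.1.det) * (WithZero.exp R * v N.1.det) := mul_le_mul' h1 h2
    _ = _ := by
      rw [two_mul, WithZero.exp_add, mul_mul_mul_comm]

private theorem v_two {a b x y : E} {A C : ℤᵐ⁰} (ha : v a ≤ A) (hb : v b ≤ A) (hx : v x ≤ C)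
    (hy : v y ≤ C) : v (a * x + b * y) ≤ A * C := by
  refine (v.map_add _ _).trans (max_le ?_ ?_) <;> rw [map_mul]
  · exact mul_le_mul' ha hx
  · exact mul_le_mul' hb hy

/-- The main estimate, for a basis `y, z` such that `y` has an entry of the largest value. -/
private theorem far_aux {M N : Matrix (Fin 2) (Fin 2) E} {y z : Fin 2 → E} {m₁ m₂ n₁ n₂ : E}
    (hM : M.mulVec y = m₁ • y + m₂ • z) (hN : N.mulVec y = n₁ • y + n₂ • z) {A B : ℤᵐ⁰}
    (hA : nrm v M ≤ A) (hB : nrm v N ≤ B) (hm₁ : v m₁ ≤ A) (hm₂ : v m₂ ≤ A) (hn₁ : v n₁ ≤ B)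
    (hn₂ : v n₂ ≤ B) {k l : Fin 2} (hkl : k ≠ l) (hk : y k ≠ 0)
    (hz : ∀ i, v (z i) ≤ v (y k)) :
    v (cm M N) * v (y k) ^ 2 ≤ (A * B) ^ 2 * v (y k * z l - y l * z k) := by
  set D : E := y k * z l - y l * z k with hD
  set α : E := z k / y k with hα
  have hvk : v (y k) ≠ 0 := (v.ne_zero_iff).2 hk
  have hkz : z k = α * y k := by rw [hα, div_mul_cancel₀ _ hk]
  have hvα : v α ≤ 1 := by
    rw [hα, map_div₀]
    exact (div_le_one₀ (zero_lt_iff.2 hvk)).2 (hz k)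
  set e : Fin 2 → E := z - α • y with he
  set W : ℤᵐ⁰ := v D / v (y k) with hW
  have hcase : ∀ i : Fin 2, i = k ∨ i = l := by
    have : ∀ i k l : Fin 2, k ≠ l → i = k ∨ i = l := by decide
    exact fun i => this i k l hkl
  have hei : ∀ i, e i = z i - α * y i := fun i => rfl
  have hek : e k = 0 := by rw [hei, hkz, sub_self]
  have hDe : D = y k * e l := by
    rw [hei, hD, hkz]
    ring
  have hvD : v D = W * v (y k) := by rw [hW, div_mul_cancel₀ _ hvk]
  have hvel : v (e l) = W := by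
    have h1 : v (y k) * v (e l) = W * v (y k) := by rw [← map_mul, ← hDe, hvD]
    rw [mul_comm] at h1
    exact mul_right_cancel₀ hvk h1
  have hve : ∀ i, v (e i) ≤ W := by
    intro i
    rcases hcase i with rfl | rfl
    · rw [hek, map_zero]
      exact zero_le
    · exact hvel.le
  have hza : z = α • y + e := by
    rw [he]
    abel
  set lam : E := m₁ + m₂ * α with hlam
  set mu : E := n₁ + n₂ * α with hmu
  have hvlam : v lam ≤ A := by
    refine (v.map_add _ _).trans (max_le hm₁ ?_)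
    rw [map_mul]
    exact (mul_le_mul' hm₂ hvα).trans (mul_one A).le
  have hvmu : v mu ≤ B := by
    refine (v.map_add _ _).trans (max_le hn₁ ?_)
    rw [map_mul]
    exact (mul_le_mul' hn₂ hvα).trans (mul_one B).le
  have hMy : M.mulVec y = lam • y + m₂ • e := by
    rw [hM, hza, hlam, add_smul, mul_smul, smul_add, add_assoc]
  have hNy : N.mulVec y = mu • y + n₂ • e := by
    rw [hN, hza, hmu, add_smul, mul_smul, smul_add, add_assoc]
  set Z : Matrix (Fin 2) (Fin 2) E := M * N - N * M with hZ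
  have hZy : Z.mulVec y = (mu * m₂) • e + n₂ • M.mulVec e - (lam * n₂) • e - m₂ • N.mulVec e := by
    have h1 : Z.mulVec y = M.mulVec (N.mulVec y) - N.mulVec (M.mulVec y) := by
      rw [hZ, Matrix.sub_mulVec, Matrix.mulVec_mulVec, Matrix.mulVec_mulVec]
    rw [h1, hNy, hMy, Matrix.mulVec_add, Matrix.mulVec_add, Matrix.mulVec_smul, Matrix.mulVec_smul,
      Matrix.mulVec_smul, Matrix.mulVec_smul, hMy, hNy]
    ext i
    simp only [Pi.add_apply, Pi.sub_apply, Pi.smul_apply, smul_eq_mul]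
    ring
  have hmv : ∀ (P : Matrix (Fin 2) (Fin 2) E) (C : ℤᵐ⁰) (w : Fin 2 → E) (W' : ℤᵐ⁰),
      nrm v P ≤ C → (∀ i, v (w i) ≤ W') → ∀ i, v (P.mulVec w i) ≤ C * W' := by
    intro P C w W' hP hw i
    have h1 : P.mulVec w i = P i 0 * w 0 + P i 1 * w 1 := by
      rw [Matrix.mulVec, dotProduct, Fin.sum_univ_two]
    rw [h1]
    exact v_two v ((le_nrm v P i 0).trans hP) ((le_nrm v P i 1).trans hP) (hw 0) (hw 1)
  have hvZy : ∀ i, v (Z.mulVec y i) ≤ A * B * W := by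
    intro i
    rw [hZy]
    simp only [Pi.add_apply, Pi.sub_apply, Pi.smul_apply, smul_eq_mul]
    have g1 : v (mu * m₂ * e i) ≤ A * B * W := by
      rw [map_mul, map_mul]
      refine (mul_le_mul' (mul_le_mul' hvmu hm₂) (hve i)).trans (le_of_eq ?_)
      rw [mul_comm B A]
    have g2 : v (n₂ * M.mulVec e i) ≤ A * B * W := by
      rw [map_mul]
      refine (mul_le_mul' hn₂ (hmv M A e W hA hve i)).trans (le_of_eq ?_)
      rw [← mul_assoc, mul_comm B A]
    have g3 : v (lam * n₂ * e i) ≤ A * B * W := by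
      rw [map_mul, map_mul]
      exact mul_le_mul' (mul_le_mul' hvlam hn₂) (hve i)
    have g4 : v (m₂ * N.mulVec e i) ≤ A * B * W := by
      rw [map_mul]
      refine (mul_le_mul' hm₂ (hmv N B e W hB hve i)).trans (le_of_eq ?_)
      rw [← mul_assoc]
    exact (v.map_sub _ _).trans (max_le ((v.map_sub _ _).trans (max_le
      ((v.map_add _ _).trans (max_le g1 g2)) g3)) g4)
  have hdet : Z.det * y k = Z.adjugate.mulVec (Z.mulVec y) k := by
    rw [Matrix.mulVec_mulVec, Matrix.adjugate_mul, Matrix.smul_mulVec, Matrix.one_mulVec]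
    rfl
  have hfin : v Z.det * v (y k) ≤ (A * B) * (A * B * W) := by
    rw [← map_mul, hdet]
    refine hmv _ _ _ _ ?_ hvZy k
    rw [nrm_adjugate]
    exact nrm_comm_le v hA hB
  calc v (cm M N) * v (y k) ^ 2 = v Z.det * v (y k) * v (y k) := by
        rw [pow_two, mul_assoc]
        rfl
    _ ≤ (A * B) * (A * B * W) * v (y k) := mul_le_mul' hfin le_rfl
    _ = (A * B) ^ 2 * v D := by
        rw [hvD, pow_two]
        simp only [mul_assoc]

private theorem conj_col (M Y : GL (Fin 2) E) (j j' : Fin 2) (h : j ≠ j') :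
    M.1.mulVec (fun i => Y.1 i j) = (Y⁻¹ * M * Y).1 j j • (fun i => Y.1 i j) +
      (Y⁻¹ * M * Y).1 j' j • (fun i => Y.1 i j') := by
  have h1 : M.1 * Y.1 = Y.1 * (Y⁻¹ * M * Y).1 := by
    have : M * Y = Y * (Y⁻¹ * M * Y) := by group
    exact congrArg Units.val this
  ext i
  have h2 : (M.1 * Y.1) i j = (Y.1 * (Y⁻¹ * M * Y).1) i j := by rw [h1]
  rw [Matrix.mul_apply, Matrix.mul_apply, Fin.sum_univ_two, Fin.sum_univ_two] at h2
  have h3 : M.1.mulVec (fun i => Y.1 i j) i = M.1 i 0 * Y.1 0 j + M.1 i 1 * Y.1 1 j := by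
    rw [Matrix.mulVec, dotProduct, Fin.sum_univ_two]
  rw [h3, h2]
  simp only [Pi.add_apply, Pi.smul_apply, smul_eq_mul]
  have hc : (j = 0 ∧ j' = 1) ∨ (j = 1 ∧ j' = 0) := by
    have : ∀ j j' : Fin 2, j ≠ j' → (j = 0 ∧ j' = 1) ∨ (j = 1 ∧ j' = 0) := by decide
    exact this j j' h
  rcases hc with ⟨rfl, rfl⟩ | ⟨rfl, rfl⟩ <;> ring

theorem v_cm_far {M N Y : GL (Fin 2) E} {R : ℤ} (hM : len v M ≤ R) (hN : len v N ≤ R)
    (hM' : len v (Y⁻¹ * M * Y) ≤ R) (hN' : len v (Y⁻¹ * N * Y) ≤ R) :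
    v (cm M.1 N.1) ≤ WithZero.exp (2 * R - len v Y) * (v M.1.det * v N.1.det) := by
  have hdM : (Y⁻¹ * M * Y).1.det = M.1.det := by
    have h1 : (Y⁻¹ * M * Y).1 = (Y⁻¹).1 * M.1 * Y.1 := rfl
    have h2 : (Y⁻¹).1.det * Y.1.det = 1 := by
      rw [← Matrix.det_mul]
      have : (Y⁻¹).1 * Y.1 = 1 := Y.inv_mul
      rw [this, Matrix.det_one]
    rw [h1, Matrix.det_mul, Matrix.det_mul]
    linear_combination M.1.det * h2
  have hdN : (Y⁻¹ * N * Y).1.det = N.1.det := by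
    have h1 : (Y⁻¹ * N * Y).1 = (Y⁻¹).1 * N.1 * Y.1 := rfl
    have h2 : (Y⁻¹).1.det * Y.1.det = 1 := by
      rw [← Matrix.det_mul]
      have : (Y⁻¹).1 * Y.1 = 1 := Y.inv_mul
      rw [this, Matrix.det_one]
    rw [h1, Matrix.det_mul, Matrix.det_mul]
    linear_combination N.1.det * h2
  set A : ℤᵐ⁰ := max (nrm v M.1) (nrm v (Y⁻¹ * M * Y).1) with hA
  set B : ℤᵐ⁰ := max (nrm v N.1) (nrm v (Y⁻¹ * N * Y).1) with hB
  have hA2 : A ^ 2 ≤ WithZero.exp R * v M.1.det := by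
    rcases max_cases (nrm v M.1) (nrm v (Y⁻¹ * M * Y).1) with ⟨h, -⟩ | ⟨h, -⟩
    · rw [hA, h]
      exact nrm_sq_le v hM
    · rw [hA, h, ← hdM]
      exact nrm_sq_le v hM'
  have hB2 : B ^ 2 ≤ WithZero.exp R * v N.1.det := by
    rcases max_cases (nrm v N.1) (nrm v (Y⁻¹ * N * Y).1) with ⟨h, -⟩ | ⟨h, -⟩
    · rw [hB, h]
      exact nrm_sq_le v hN
    · rw [hB, h, ← hdN]
      exact nrm_sq_le v hN'
  -- the largest entry of `Y`
  obtain ⟨k, j, hkj⟩ : ∃ k j, nrm v Y.1 = v (Y.1 k j) := by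
    unfold nrm
    rcases max_choice (max (v (Y.1 0 0)) (v (Y.1 0 1))) (max (v (Y.1 1 0)) (v (Y.1 1 1))) with h | h
    · rcases max_choice (v (Y.1 0 0)) (v (Y.1 0 1)) with h' | h'
      · exact ⟨0, 0, by rw [h, h']⟩
      · exact ⟨0, 1, by rw [h, h']⟩
    · rcases max_choice (v (Y.1 1 0)) (v (Y.1 1 1)) with h' | h'
      · exact ⟨1, 0, by rw [h, h']⟩
      · exact ⟨1, 1, by rw [h, h']⟩
  have hY0 : Y.1 k j ≠ 0 := by
    intro h
    rw [h, map_zero] at hkj
    exact nrm_ne_zero v Y hkj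
  have hex : ∀ j : Fin 2, ∃ j' : Fin 2, j ≠ j' := by decide
  obtain ⟨j', hj⟩ := hex j
  obtain ⟨l, hl⟩ := hex k
  have hmain := far_aux v (M := M.1) (N := N.1) (y := fun i => Y.1 i j) (z := fun i => Y.1 i j')
    (conj_col M Y j j' hj) (conj_col N Y j j' hj) (A := A) (B := B) (le_max_left _ _)
    (le_max_left _ _) ((le_nrm v _ _ _).trans (le_max_right _ _))
    ((le_nrm v _ _ _).trans (le_max_right _ _)) ((le_nrm v _ _ _).trans (le_max_right _ _))
    ((le_nrm v _ _ _).trans (le_max_right _ _)) hl hY0 (fun i => by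
      rw [← hkj]
      exact le_nrm v _ _ _)
  have hc : ∀ j j' : Fin 2, j ≠ j' → (j = 0 ∧ j' = 1) ∨ (j = 1 ∧ j' = 0) := by decide
  have hD : v (Y.1 k j * Y.1 l j' - Y.1 l j * Y.1 k j') = v Y.1.det := by
    rw [Matrix.det_fin_two]
    rcases hc j j' hj with ⟨rfl, rfl⟩ | ⟨rfl, rfl⟩ <;> rcases hc k l hl with ⟨rfl, rfl⟩ | ⟨rfl, rfl⟩
    · congr 1
      ring
    · rw [Valuation.map_sub_swap]
      congr 1
      ring
    · rw [Valuation.map_sub_swap]
      congr 1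
      ring
    · congr 1
      ring
  have hlen : WithZero.exp (-len v Y) * nrm v Y.1 ^ 2 = v Y.1.det := by
    have h1 := nrm_ne_zero v Y
    have h2 := v_det_ne_zero v Y
    calc WithZero.exp (-len v Y) * nrm v Y.1 ^ 2
        = WithZero.exp (-len v Y) * WithZero.exp (WithZero.log (nrm v Y.1 ^ 2)) := by
          rw [WithZero.exp_log (pow_ne_zero 2 h1)]
      _ = WithZero.exp (-len v Y + WithZero.log (nrm v Y.1 ^ 2)) := (WithZero.exp_add _ _).symm
      _ = WithZero.exp (WithZero.log (v Y.1.det)) := by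
          congr 1
          rw [WithZero.log_pow]
          have h3 : (2 : ℕ) • WithZero.log (nrm v Y.1) = 2 * WithZero.log (nrm v Y.1) := by simp
          rw [h3]
          unfold len
          ring
      _ = v Y.1.det := WithZero.exp_log h2
  have hmain' : v (cm M.1 N.1) * nrm v Y.1 ^ 2 ≤
      (A * B) ^ 2 * WithZero.exp (-len v Y) * nrm v Y.1 ^ 2 := by
    rw [mul_assoc ((A * B) ^ 2), hlen, ← hD, hkj]
    exact hmain
  have hpos : 0 < nrm v Y.1 ^ 2 := zero_lt_iff.2 (pow_ne_zero 2 (nrm_ne_zero v Y))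
  refine (le_of_mul_le_mul_right hmain' hpos).trans ?_
  rw [mul_pow]
  refine (mul_le_mul' (mul_le_mul' hA2 hB2) le_rfl).trans (le_of_eq ?_)
  rw [two_mul, sub_eq_add_neg, WithZero.exp_add, WithZero.exp_add]
  ac_rfl

end Pool.Agent.GT
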