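import Mathlib

/-!
# The length of an invertible matrix for a discrete valuation

`v : Valuation E ℤᵐ⁰` is a valuation of a field with integral values (written multiplicatively).
`len v M = 2 * log (max of v (M i j)) - log (v (det M)) ≥ 0`; the matrices of length `0` are the
scalar multiples of the invertible matrices over the valuation ring.
-/

set_option autoImplicit false

open scoped WithZero

namespace Pool.Agent.GT

variable {E : Type} [Field E] (v : Valuation E ℤᵐ⁰)

/-- The largest value of the entries. -/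
def nrm (M : Matrix (Fin 2) (Fin 2) E) : ℤᵐ⁰ :=
  max (max (v (M 0 0)) (v (M 0 1))) (max (v (M 1 0)) (v (M 1 1)))

theorem nrm_le_iff {M : Matrix (Fin 2) (Fin 2) E} {c : ℤᵐ⁰} :
    nrm v M ≤ c ↔ ∀ i j, v (M i j) ≤ c := by
  simp only [nrm, max_le_iff, Fin.forall_fin_two]

theorem le_nrm (M : Matrix (Fin 2) (Fin 2) E) (i j : Fin 2) : v (M i j) ≤ nrm v M :=
  (nrm_le_iff v).1 le_rfl i j

theorem nrm_mul_le (M N : Matrix (Fin 2) (Fin 2) E) : nrm v (M * N) ≤ nrm v M * nrm v N := by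
  rw [nrm_le_iff]
  intro i j
  rw [Matrix.mul_apply, Fin.sum_univ_two]
  refine (v.map_add _ _).trans (max_le ?_ ?_) <;> rw [map_mul] <;>
    exact mul_le_mul' (le_nrm v M _ _) (le_nrm v N _ _)

theorem v_det_le (M : Matrix (Fin 2) (Fin 2) E) : v M.det ≤ nrm v M ^ 2 := by
  rw [Matrix.det_fin_two, pow_two]
  refine (v.map_sub _ _).trans (max_le ?_ ?_) <;> rw [map_mul] <;>
    exact mul_le_mul' (le_nrm v M _ _) (le_nrm v M _ _)

theorem nrm_smul (c : E) (M : Matrix (Fin 2) (Fin 2) E) : nrm v (c • M) = v c * nrm v M := by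
  simp only [nrm, Matrix.smul_apply, smul_eq_mul, map_mul, mul_max]

theorem nrm_one : nrm v (1 : Matrix (Fin 2) (Fin 2) E) = 1 := by
  simp [nrm]

theorem nrm_adjugate (M : Matrix (Fin 2) (Fin 2) E) : nrm v M.adjugate = nrm v M := by
  have key : ∀ N : Matrix (Fin 2) (Fin 2) E, nrm v N.adjugate ≤ nrm v N := by
    intro N
    rw [nrm_le_iff]
    have h := le_nrm v N
    intro i j
    rw [Matrix.adjugate_fin_two]
    fin_cases i <;> fin_cases j
    · exact h 1 1
    · show v (-(N 0 1)) ≤ _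
      rw [Valuation.map_neg]
      exact h 0 1
    · show v (-(N 1 0)) ≤ _
      rw [Valuation.map_neg]
      exact h 1 0
    · exact h 0 0
  refine le_antisymm (key M) ?_
  have h2 : M.adjugate.adjugate = M := by
    rw [Matrix.adjugate_fin_two, Matrix.adjugate_fin_two]
    ext i j
    fin_cases i <;> fin_cases j <;> simp
  conv_lhs => rw [← h2]
  exact key _

theorem det_ne_zero (M : GL (Fin 2) E) : M.1.det ≠ 0 :=
  ((Matrix.isUnit_iff_isUnit_det _).1 M.isUnit).ne_zero

theorem v_det_ne_zero (M : GL (Fin 2) E) : v M.1.det ≠ 0 := (v.ne_zero_iff).2 (det_ne_zero M)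

theorem nrm_ne_zero (M : GL (Fin 2) E) : nrm v M.1 ≠ 0 := by
  intro h
  have h1 := v_det_le v M.1
  rw [h] at h1
  exact v_det_ne_zero v M (by simpa using h1)

theorem nrm_inv (M : GL (Fin 2) E) : nrm v (M⁻¹).1 = (v M.1.det)⁻¹ * nrm v M.1 := by
  have h : (M⁻¹).1 = (M.1.det)⁻¹ • M.1.adjugate := by
    rw [Matrix.coe_units_inv, Matrix.inv_def, Ring.inverse_eq_inv']
  rw [h, nrm_smul, nrm_adjugate, map_inv₀]

/-- The length. -/
def len (M : GL (Fin 2) E) : ℤ := 2 * WithZero.log (nrm v M.1) - WithZero.log (v M.1.det)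

theorem len_nonneg (M : GL (Fin 2) E) : 0 ≤ len v M := by
  have h1 := v_det_le v M.1
  rw [← WithZero.log_le_log (v_det_ne_zero v M) (pow_ne_zero 2 (nrm_ne_zero v M)),
    WithZero.log_pow] at h1
  have h2 : (2 : ℕ) • WithZero.log (nrm v M.1) = 2 * WithZero.log (nrm v M.1) := by simp
  rw [h2] at h1
  unfold len
  omega

theorem len_one : len v (1 : GL (Fin 2) E) = 0 := by
  simp [len, nrm_one]

theorem len_inv (M : GL (Fin 2) E) : len v M⁻¹ = len v M := by
  unfold len
  rw [nrm_inv, WithZero.log_mul (inv_ne_zero (v_det_ne_zero v M)) (nrm_ne_zero v M),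
    WithZero.log_inv]
  have h : (M⁻¹).1.det = (M.1.det)⁻¹ := by
    rw [Matrix.coe_units_inv, Matrix.det_nonsing_inv, Ring.inverse_eq_inv']
  rw [h, map_inv₀, WithZero.log_inv]
  ring

theorem len_mul_le (M N : GL (Fin 2) E) : len v (M * N) ≤ len v M + len v N := by
  unfold len
  have h1 : nrm v (M * N).1 ≤ nrm v M.1 * nrm v N.1 := nrm_mul_le v M.1 N.1
  rw [← WithZero.log_le_log (nrm_ne_zero v (M * N))
    (mul_ne_zero (nrm_ne_zero v M) (nrm_ne_zero v N)),
    WithZero.log_mul (nrm_ne_zero v M) (nrm_ne_zero v N)] at h1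
  have h2 : WithZero.log (v (M * N).1.det) = WithZero.log (v M.1.det) + WithZero.log (v N.1.det) := by
    rw [← WithZero.log_mul (v_det_ne_zero v M) (v_det_ne_zero v N), ← map_mul, ← Matrix.det_mul]
    rfl
  rw [h2]
  have h3 : WithZero.log (nrm v (M * N).1) ≤
    WithZero.log (nrm v M.1) + WithZero.log (nrm v N.1) := h1
  omega

/-- The matrices of length `0`. -/
def Hv : Subgroup (GL (Fin 2) E) where
  carrier := {M | len v M = 0}
  mul_mem' {M N} hM hN := by
    have h1 := len_mul_le v M N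
    have h2 := len_nonneg v (M * N)
    have h3 : len v M = 0 := hM
    have h4 : len v N = 0 := hN
    show len v (M * N) = 0
    omega
  one_mem' := len_one v
  inv_mem' {M} hM := (len_inv v M).trans hM

theorem mem_Hv (M : GL (Fin 2) E) : M ∈ Hv v ↔ len v M = 0 := Iff.rfl

theorem len_mul_right (M : GL (Fin 2) E) {N : GL (Fin 2) E} (hN : N ∈ Hv v) :
    len v (M * N) = len v M := by
  have h1 := len_mul_le v M N
  have h2 := len_mul_le v (M * N) N⁻¹
  rw [mul_inv_cancel_right, len_inv] at h2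
  have h3 : len v N = 0 := hN
  omega

theorem len_mul_left (M : GL (Fin 2) E) {N : GL (Fin 2) E} (hN : N ∈ Hv v) :
    len v (N * M) = len v M := by
  have h1 := len_mul_le v N M
  have h2 := len_mul_le v N⁻¹ (N * M)
  rw [inv_mul_cancel_left, len_inv] at h2
  have h3 : len v N = 0 := hN
  omega

/-- The vertices of the Bruhat-Tits tree. -/
abbrev Vtx : Type := GL (Fin 2) E ⧸ Hv v

/-- The vertex `g • x₀`. -/
def vt (g : GL (Fin 2) E) : Vtx v := QuotientGroup.mk g

theorem vt_eq_iff (g h : GL (Fin 2) E) : vt v g = vt v h ↔ len v (g⁻¹ * h) = 0 := by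
  unfold vt
  rw [QuotientGroup.eq]
  rfl

theorem vt_surj (x : Vtx v) : ∃ g, vt v g = x := QuotientGroup.mk_surjective x

theorem smul_vt (g h : GL (Fin 2) E) : g • vt v h = vt v (g * h) := rfl

/-- The Bruhat-Tits tree. -/
def bt : SimpleGraph (Vtx v) where
  Adj x y := ∃ g h, vt v g = x ∧ vt v h = y ∧ len v (g⁻¹ * h) = 1
  symm := ⟨by
    rintro x y ⟨g, h, rfl, rfl, hl⟩
    refine ⟨h, g, rfl, rfl, ?_⟩
    rw [← len_inv, mul_inv_rev, inv_inv]
    exact hl⟩
  loopless := ⟨by
    rintro x ⟨g, h, rfl, hh, hl⟩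
    have := (vt_eq_iff v h g).1 hh
    rw [← len_inv, mul_inv_rev, inv_inv] at this
    omega⟩

theorem bt_adj_iff (g h : GL (Fin 2) E) :
    (bt v).Adj (vt v g) (vt v h) ↔ len v (g⁻¹ * h) = 1 := by
  constructor
  · rintro ⟨g', h', hg, hh, hl⟩
    have h1 := (vt_eq_iff v g' g).1 hg
    have h2 := (vt_eq_iff v h' h).1 hh
    have e : g⁻¹ * h = (g'⁻¹ * g)⁻¹ * (g'⁻¹ * h') * (h'⁻¹ * h) := by group
    rw [e, len_mul_right v _ h2, len_mul_left v _ ((Hv v).inv_mem h1)]
    exact hl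
  · intro hl
    exact ⟨g, h, rfl, rfl, hl⟩

theorem bt_adj_smul (g : GL (Fin 2) E) (x y : Vtx v) (h : (bt v).Adj x y) :
    (bt v).Adj (g • x) (g • y) := by
  obtain ⟨a, b, rfl, rfl, hl⟩ := h
  rw [smul_vt, smul_vt, bt_adj_iff]
  rw [show (g * a)⁻¹ * (g * b) = a⁻¹ * b by group]
  exact hl

end Pool.Agent.GT
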