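import Pool.Agent.Lib.MP_98022b_gl.ScalarExt
import Pool.Agent.Lib.MP_98022b_gl.Len

/-!
# Common stabilizers of vertices

Task B10. For `h` in the common stabilizer `trace h ^ 2 / det h` is in `A`, and its valuations are
`≤ 1` (conjugate with a representative of `x i`: `nrm ^ 2 = v det`), so it is in `K` by `hA`. Apply
`claimC` to the image in `GL_2` of the algebraic closure of `E`: it is contained in the solvable
stabilizer of a point of the projective line, or `mem_of_scalar` applies.
-/

set_option autoImplicit false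

open scoped WithZero

namespace Pool.Agent.GT

open Pool.Agent.FJ

variable {P : ∀ (G : Type) [Group G], Prop}

private theorem v_trace_sq_le {E : Type} [Field E] (v : Valuation E ℤᵐ⁰) {M : GL (Fin 2) E}
    (h : len v M = 0) : v (M.1.trace) ^ 2 ≤ v M.1.det := by
  have h1 : nrm v M.1 ^ 2 ≤ v M.1.det := by
    rw [← WithZero.log_le_log (pow_ne_zero 2 (nrm_ne_zero v M)) (v_det_ne_zero v M),
      WithZero.log_pow]
    have h2 : (2 : ℕ) • WithZero.log (nrm v M.1) = 2 * WithZero.log (nrm v M.1) := by simp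
    rw [h2]
    unfold len at h
    omega
  refine le_trans ?_ h1
  have h3 : v (M.1.trace) ≤ nrm v M.1 := by
    rw [Matrix.trace_fin_two]
    exact (v.map_add _ _).trans (max_le (le_nrm v M.1 0 0) (le_nrm v M.1 1 1))
  rw [pow_two, pow_two]
  exact mul_le_mul' h3 h3

private theorem v_trace_sq_le' {E : Type} [Field E] (v : Valuation E ℤᵐ⁰) {M : GL (Fin 2) E}
    {x : Vtx v} (h : M • x = x) : v (M.1.trace) ^ 2 ≤ v M.1.det := by
  obtain ⟨g, rfl⟩ := vt_surj v x
  rw [smul_vt, vt_eq_iff] at h
  have h1 : len v (g⁻¹ * M * g) = 0 := by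
    rw [← len_inv]
    rw [show (g⁻¹ * M * g)⁻¹ = (M * g)⁻¹ * g by group]
    exact h
  have h2 := v_trace_sq_le v h1
  have e1 : (g⁻¹ * M * g).1.trace = M.1.trace := Matrix.trace_units_conj' g M.1
  have e2 : (g⁻¹ * M * g).1.det = M.1.det := Matrix.det_units_conj' g M.1
  rw [e1, e2] at h2
  exact h2

theorem mem_common (hP : IsFJClass P) (hsol : ∀ (G : Type) [Group G], IsSolvable G → P G)
    {K E I : Type} [Field K] [IsAlgClosed K] [Field E] [Algebra K E] (hK : P (GL (Fin 2) K))
    (v : I → Valuation E ℤᵐ⁰) (A : Subring E)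
    (hA : ∀ x ∈ A, (∀ i, v i x ≤ 1) → x ∈ (algebraMap K E).range)
    (G : Subgroup (GL (Fin 2) E)) (hG : ∀ g ∈ G, ∀ i j, g.1 i j ∈ A) (x : ∀ i, Vtx (v i)) :
    P ↥(⨅ i, MulAction.stabilizer G (x i)) := by
  classical
  set S : Subgroup G := ⨅ i, MulAction.stabilizer G (x i) with hS
  let F : Type := AlgebraicClosure E
  let φ : S →* GL (Fin 2) F := (toF E F).comp (G.subtype.comp S.subtype)
  have hφ : Function.Injective φ := by
    have h1 : Function.Injective (toF E F) := by
      intro M N hMN
      apply Units.ext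
      ext i j
      have h2 : (toF E F M).1 i j = (toF E F N).1 i j := by rw [hMN]
      exact (algebraMap E F).injective h2
    exact h1.comp (G.subtype_injective.comp S.subtype_injective)
  -- the quotient `trace ^ 2 / det`
  have key : ∀ s : S, ∃ a : K, (φ s).1.trace ^ 2 = algebraMap K F a * (φ s).1.det := by
    intro s
    have hsG : (s : G).1 ∈ G := (s : G).2
    set M : GL (Fin 2) E := (s : G).1 with hM
    have hd : M.1.det ≠ 0 := det_ne_zero M
    have hdi : (M⁻¹).1.det = (M.1.det)⁻¹ := by
      rw [Matrix.coe_units_inv, Matrix.det_nonsing_inv, Ring.inverse_eq_inv']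
    have h1 : M.1.trace ^ 2 * (M.1.det)⁻¹ ∈ A := by
      have h2 := hG M hsG
      have h3 := hG M⁻¹ (G.inv_mem hsG)
      rw [← hdi, Matrix.det_fin_two, Matrix.trace_fin_two]
      exact A.mul_mem (A.pow_mem (A.add_mem (h2 0 0) (h2 1 1)) 2)
        (A.sub_mem (A.mul_mem (h3 0 0) (h3 1 1)) (A.mul_mem (h3 0 1) (h3 1 0)))
    have h2 : ∀ i, v i (M.1.trace ^ 2 * (M.1.det)⁻¹) ≤ 1 := by
      intro i
      have h3 : (s : G) • x i = x i := by
        have h4 : (s : G) ∈ ⨅ i, MulAction.stabilizer G (x i) := s.2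
        rw [Subgroup.mem_iInf] at h4
        exact h4 i
      have h5 : M • x i = x i := h3
      have h6 := v_trace_sq_le' (v i) h5
      rw [map_mul, map_pow, map_inv₀]
      exact mul_inv_le_one_of_le₀ h6 zero_le
    obtain ⟨a, ha⟩ := hA _ h1 h2
    refine ⟨a, ?_⟩
    have h3 : M.1.trace ^ 2 = algebraMap K E a * M.1.det := by
      rw [ha, mul_assoc, inv_mul_cancel₀ hd, mul_one]
    have e0 : (φ s).1 = M.1.map (algebraMap E F) := rfl
    have e1 : (φ s).1.trace = algebraMap E F M.1.trace := by
      rw [e0, Matrix.trace_fin_two, Matrix.trace_fin_two, map_add]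
      rfl
    have e2 : (φ s).1.det = algebraMap E F M.1.det := by
      rw [e0, Matrix.det_fin_two, Matrix.det_fin_two, map_sub, map_mul, map_mul]
      rfl
    rw [e1, e2, ← map_pow, h3, map_mul, IsScalarTower.algebraMap_apply K E F]
  have hrange : ∀ h ∈ φ.range, ∃ a : K, h.1.trace ^ 2 = algebraMap K F a * h.1.det := by
    rintro _ ⟨s, rfl⟩
    exact key s
  have hPr : P φ.range := by
    rcases claimC φ.range hrange with ⟨ω, hω⟩ | ⟨g, hg⟩
    · have h1 : φ.range ≤ MulAction.stabilizer (GL (Fin 2) F) ω := fun h hh => hω h hh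
      exact hP.of_le h1 (hsol _ (solvable_line ω))
    · exact mem_of_scalar hP hsol hK φ.range g hg
  exact hP.of_injective φ.rangeRestrict (fun a b hab => hφ (by
    have := congrArg Subtype.val hab
    exact this)) hPr

end Pool.Agent.GT
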