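import Pool.Agent.Lib.MP_98022b_gl.PlaceDefs

/-!
# Elements which are integral at all places are constants

Task B8c. The minimal polynomial of `x` over `RatFunc K` has its coefficients in `K[X]` and in
`K[1/X]`, hence in `K`; so `x` is algebraic over `K`, which is algebraically closed.
-/

set_option autoImplicit false

open Polynomial
open scoped WithZero

namespace Pool.Agent.GT

/-- elements which are integral over a ring of elements of valuation at most `1` -/
private theorem B8c_val {R F Γ : Type} [CommRing R] [Field F]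
    [LinearOrderedCommGroupWithZero Γ] (v : Valuation F Γ) (f : R →+* F) (hf : ∀ a, v (f a) ≤ 1)
    {c : F} (hc : f.IsIntegralElem c) : v c ≤ 1 := by
  obtain ⟨p, hp, hpc⟩ := hc
  let g : R →+* v.integer := f.codRestrict v.integer hf
  have h1 : IsIntegral v.integer c := by
    refine ⟨p.map g, hp.map g, ?_⟩
    rw [eval₂_map]
    exact hpc
  exact (Valuation.integer.integers v).isIntegral_iff_v_le_one.1 h1

/-- the coefficients of the minimal polynomial -/
private theorem B8c_coeff {R F E : Type} [CommRing R] [Field F] [Field E] [Algebra F E]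
    (f : R →+* F) {x : E} (hx : ((algebraMap F E).comp f).IsIntegralElem x) (i : ℕ) :
    f.IsIntegralElem ((minpoly F x).coeff i) := by
  obtain ⟨p, hp, hpx⟩ := hx
  let _ : Algebra R F := f.toAlgebra
  have hxint : IsIntegral F x := by
    refine ⟨p.map f, hp.map f, ?_⟩
    rw [eval₂_map]
    exact hpx
  refine Polynomial.isIntegral_coeff_of_dvd p (minpoly F x) hp (minpoly.monic hxint) ?_ i
  refine minpoly.dvd F x ?_
  rw [Polynomial.aeval_def, eval₂_map]
  exact hpx

theorem mem_constants {K E : Type} [Field K] [IsAlgClosed K] [Field E] [Algebra (RatFunc K) E]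
    {x : E} (h1 : (pE K E).IsIntegralElem x) (h2 : (pI K E).IsIntegralElem x) :
    x ∈ (cE K E).range := by
  classical
  have hxint : IsIntegral (RatFunc K) x := by
    obtain ⟨p, hp, hpx⟩ := h1
    refine ⟨p.map (algebraMap K[X] (RatFunc K)), hp.map _, ?_⟩
    rw [eval₂_map]
    exact hpx
  -- the coefficients are constants
  have hco : ∀ i, ∃ a : K, RatFunc.C a = (minpoly (RatFunc K) x).coeff i := by
    intro i
    have k1 : IsIntegral K[X] ((minpoly (RatFunc K) x).coeff i) :=
      B8c_coeff (algebraMap K[X] (RatFunc K)) h1 i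
    obtain ⟨f, hf⟩ := IsIntegrallyClosed.isIntegral_iff.1 k1
    have k2 := B8c_coeff _ h2 i
    have k3 : RatFunc.inftyValuation K ((minpoly (RatFunc K) x).coeff i) ≤ 1 := by
      refine B8c_val (RatFunc.inftyValuation K) _ (fun a => ?_) k2
      rw [Polynomial.coe_eval₂RingHom, Polynomial.eval₂_eq_sum_range]
      refine Valuation.map_sum_le _ fun j _ => ?_
      rw [map_mul, map_pow]
      have e1 : RatFunc.inftyValuation K (RatFunc.C (a.coeff j)) ≤ 1 := by
        by_cases h0 : a.coeff j = 0
        · rw [h0, map_zero, map_zero]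
          exact zero_le_one
        · rw [RatFunc.inftyValuation.C K h0]
      have e2 : RatFunc.inftyValuation K (RatFunc.X (K := K))⁻¹ ≤ 1 := by
        rw [← one_div, RatFunc.inftyValuation.X_inv, ← WithZero.exp_zero, WithZero.exp_le_exp]
        norm_num
      exact mul_le_one' e1 (pow_le_one' e2 j)
    by_cases h0 : f = 0
    · refine ⟨0, ?_⟩
      rw [← hf, h0, map_zero, map_zero]
    · have k4 : RatFunc.inftyValuation K (algebraMap K[X] (RatFunc K) f) =
          WithZero.exp (f.natDegree : ℤ) := RatFunc.inftyValuation.polynomial K h0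
      rw [← hf, k4, ← WithZero.exp_zero, WithZero.exp_le_exp] at k3
      have k5 : f.natDegree = 0 := by omega
      obtain ⟨a, ha⟩ := Polynomial.natDegree_eq_zero.1 k5
      refine ⟨a, ?_⟩
      rw [← hf, ← ha, RatFunc.algebraMap_C]
  choose a ha using hco
  -- the polynomial over `K`
  have hlift : minpoly (RatFunc K) x ∈ Polynomial.lifts (RatFunc.C (K := K)) := by
    rw [Polynomial.lifts_iff_coeff_lifts]
    intro i
    exact ⟨a i, ha i⟩
  obtain ⟨P, hP⟩ := (Polynomial.mem_lifts _).1 hlift
  have hP0 : P ≠ 0 := by
    rintro rfl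
    rw [Polynomial.map_zero] at hP
    exact minpoly.ne_zero hxint hP.symm
  have hroot : (P.map (cE K E)).IsRoot x := by
    have e1 : cE K E = (algebraMap (RatFunc K) E).comp (RatFunc.C (K := K)) := by
      ext r
      show algebraMap (RatFunc K) E (algebraMap K[X] (RatFunc K) (Polynomial.C r)) = _
      rw [RatFunc.algebraMap_C]
      rfl
    rw [Polynomial.IsRoot.def, e1, ← Polynomial.map_map, hP, Polynomial.eval_map_algebraMap,
      minpoly.aeval]
  exact (IsAlgClosed.splits P).mem_range_of_isRoot hP0 hroot

end Pool.Agent.GT
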