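import Pool.Agent.Lib.MP_98022b_fa.Basic
import Pool.Agent.Lib.MP_98022b_fa.BarEdge

/-!
# Definitions for actions on finitely many trees

`G` acts on a set `Δ` with a flow `B i` for each of the finitely many trees `T i`, and on a set `Ω`.
-/

set_option autoImplicit false

open Set
open scoped Pointwise

namespace Pool.Agent.GT

open Pool.Agent.FA

/-! ### Close moves and exits (one tree) -/

section One

variable {G V Δ : Type} [Group G] [MulAction G V] [TopologicalSpace Δ] [MulAction G Δ]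

/-- The step `m` of the path from `g • v₀` in the direction of `x` is a move to a vertex which is
`ρ`-close to `g`. -/
def CMove (T : SimpleGraph V) (B : V → V → Set Δ) (β : V → ℕ) (v₀ : V) (ρ : ℕ) (g : G) (x : Δ)
    (m : ℕ) : Prop :=
  T.Adj (pth T B x (g • v₀) m) (pth T B x (g • v₀) (m + 1)) ∧
    Close β ρ g (pth T B x (g • v₀) (m + 1))

/-- The path from `g • v₀` leaves the set of the vertices which are `ρ`-close to `g` at its
vertex `e`. -/
def CExit (T : SimpleGraph V) (B : V → V → Set Δ) (β : V → ℕ) (v₀ : V) (ρ : ℕ) (g : G) (x : Δ)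
    (e : ℕ) : Prop :=
  (∀ m < e, CMove T B β v₀ ρ g x m) ∧
    ∀ w, T.Adj (pth T B x (g • v₀) e) w → Close β ρ g w → x ∈ B w (pth T B x (g • v₀) e)

/-- The largest value of the gauge (seen from `g`) on `p 1, ..., p a`. -/
def top (β : V → ℕ) (g : G) (p : ℕ → V) (a : ℕ) : ℕ :=
  (Finset.Icc 1 a).sup fun j => β (g⁻¹ • p j)

/-- The weight: `2 * h` up to `θ`, then decreasing to `0` at `θ + 2 * h`. -/
def wt (θ h t : ℕ) : ℕ := min (2 * h) (θ + 2 * h - t)

/-- The sum of the weights of the steps `1, ..., e`. -/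
def wsum (β : V → ℕ) (θ h : ℕ) (g : G) (p : ℕ → V) (e : ℕ) : ℕ :=
  ∑ a ∈ Finset.Icc 1 e, wt θ h (top β g p a)

/-- The soft exit colours (`α = 0, 1`). -/
def colS (T : SimpleGraph V) (B : V → V → Set Δ) (β : V → ℕ) (v₀ : V) (θ h α : ℕ) (g : G) (x : Δ)
    (v : V) : Prop :=
  ∃ e, CExit T B β v₀ (θ + 2 * h) g x e ∧
    v = pth T B x (g • v₀) ((wsum β θ h g (pth T B x (g • v₀)) e + α * h) / (2 * h))

end One

/-! ### Several trees -/

section Several

variable {G I Δ Ω : Type} [Group G] {V : I → Type} [∀ i, MulAction G (V i)] [TopologicalSpace Δ]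
  [MulAction G Δ] [MulAction G Ω]

/-- The elements which move all `x i` and all `y i` by at most `R`. -/
def Sh (G : Type) [Group G] [∀ i, MulAction G (V i)] (T : ∀ i, SimpleGraph (V i)) (R : ℕ)
    (x y : ∀ i, V i) : Set G :=
  {γ | ∀ i, (T i).dist (γ • x i) (x i) ≤ R ∧ (T i).dist (γ • y i) (y i) ≤ R}

variable (V) in
/-- `γ` acts nontrivially on one of the trees. -/
def NT (γ : G) : Prop := ∃ i, ∃ v : V i, γ • v ≠ v

variable (Ω) in
/-- The common fixed points of the members of `E`. -/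
def FixS (E : Set G) : Set Ω := {ω | ∀ γ ∈ E, γ • ω = ω}

/-- The paths in the trees, indexed by `ℤ`. -/
noncomputable def zp (T : ∀ i, SimpleGraph (V i)) (B : ∀ i, V i → V i → Set Δ) (v₀ : ∀ i, V i)
    (g : G) (x : Δ) (i : I) (j : ℤ) : V i :=
  zpth (T i) (B i) (v₀ i) g x j

/-- In each tree the first `D` steps of the path are moves to vertices `ρ`-close to `g`. -/
def PDom (T : ∀ i, SimpleGraph (V i)) (B : ∀ i, V i → V i → Set Δ) (β : ∀ i, V i → ℕ)
    (v₀ : ∀ i, V i) (ρ D : ℕ) (g : G) (x : Δ) : Prop :=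
  ∀ i, ∀ m < D, CMove (T i) (B i) (β i) (v₀ i) ρ g x m

/-- The elements which move the vertices with the numbers `C` and `C + L` by at most `R`. -/
def Sq (T : ∀ i, SimpleGraph (V i)) (B : ∀ i, V i → V i → Set Δ) (v₀ : ∀ i, V i) (C L R : ℕ)
    (g : G) (x : Δ) : Set G :=
  Sh G T R (fun i => zp T B v₀ g x i C) (fun i => zp T B v₀ g x i (C + L))

/-- The colour by common fixed points. -/
def colF (T : ∀ i, SimpleGraph (V i)) (B : ∀ i, V i → V i → Set Δ) (β : ∀ i, V i → ℕ)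
    (v₀ : ∀ i, V i) (ρ D C L R : ℕ) (g : G) (x : Δ) (l : Set Ω) : Prop :=
  PDom T B β v₀ ρ D g x ∧ (∃ γ ∈ Sq T B v₀ C L R g x, NT V γ) ∧ l = FixS Ω (Sq T B v₀ C L R g x)

variable (V) in
/-- Windows of radius `r`. -/
abbrev Wn (r : ℕ) : Type := ∀ i, Fin (2 * r + 1) → V i

/-- The window of radius `r` of `P` around `n`. -/
def win (P : ∀ i, ℤ → V i) (r : ℕ) (n : I → ℤ) : Wn V r := fun i t => P i (n i - r + (t : ℕ))

/-- The smallest code of a translate of the window around `n`. -/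
noncomputable def code (G : Type) [Group G] [∀ i, MulAction G (V i)] {r : ℕ} (e : Wn V r → ℕ)
    (P : ∀ i, ℤ → V i) (n : I → ℤ) : ℕ :=
  sInf {k | ∃ g : G, k = e (fun i t => g • win P r n i t)}

/-- `F` is a rule of radius `Z`. -/
def IsRule {α β : Type} (F : ((I → ℤ) → α) → (I → ℤ) → β) (Z : ℕ) : Prop :=
  ∀ c c' n n', (∀ δ : I → ℤ, (∀ i, |δ i| ≤ Z) → c (n + δ) = c' (n' + δ)) → F c n = F c' n'

/-- The marker colours: `F` is a rule, `C'` is the corner of a cube of side `R'`. -/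
def colK (T : ∀ i, SimpleGraph (V i)) (B : ∀ i, V i → V i → Set Δ) (β : ∀ i, V i → ℕ)
    (v₀ : ∀ i, V i) (ρ D C L R : ℕ) {r : ℕ} (e : Wn V r → ℕ)
    (F : ((I → ℤ) → ℕ) → (I → ℤ) → Prop) (C' : I → ℤ) (R' : ℕ) (i₀ : I) (g : G) (x : Δ)
    (v : V i₀) : Prop :=
  PDom T B β v₀ ρ D g x ∧ (¬ ∃ γ ∈ Sq T B v₀ C L R g x, NT V γ) ∧
    ∃ n : I → ℤ, (∀ i, C' i ≤ n i ∧ n i < C' i + R') ∧ F (code G e (zp T B v₀ g x)) n ∧
      v = zp T B v₀ g x i₀ (n i₀)

/-- The family of the stabilizers: subgroups which fix a vertex, preserve an edge or preserve a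
nonempty set of at most two points of `Ω`. -/
def PFam (T : ∀ i, SimpleGraph (V i)) (Ω : Type) [MulAction G Ω] (H : Subgroup G) : Prop :=
  (∃ i, ∃ v : V i, ∀ g ∈ H, g • v = v) ∨
  (∃ i, ∃ u v : V i, (T i).Adj u v ∧ ∀ g ∈ H, g • ({u, v} : Set (V i)) = {u, v}) ∨
  ∃ l : Set Ω, l.Nonempty ∧ l.encard ≤ 2 ∧ ∀ g ∈ H, g • l = l

end Several

end Pool.Agent.GT
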