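import Pool.Agent.Lib.MP_98022b_gl.Lines
import Pool.Agent.Lib.MP_98022b_gl.Comm

/-!
# Common fixed points

Task B5b. `share`: in a basis with `M` upper triangular, with the entries `a, b, 0, d`, and `N` with
the entries `p, q, r, s` we have
`det (M N - N M) = r * ((a - d) ^ 2 * q + (a - d) * b * (s - p) - b ^ 2 * r)`; if `r = 0` the first
basis vector is a common eigenvector, otherwise the vector `(b, d - a)` is one, unless it is `0`, and
then `M` is scalar.

`common_line`: if all members of `E` are scalar any point works. If `M ∈ E` is not scalar it fixes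
one or two points `ω₁`, `ω₂` (`fix_le_two`); each member fixes one of them by `h1`. If `N` does not
fix `ω₁` and `N'` does not fix `ω₂` then `N` fixes `ω₂`, `N'` fixes `ω₁`, and `N * N'` fixes
neither of them, against `h2`.
-/

set_option autoImplicit false

namespace Pool.Agent.GT

variable {F : Type} [Field F]

private theorem share_scalar {M : GL (Fin 2) F} {c : F}
    (h : M.1 = c • (1 : Matrix (Fin 2) (Fin 2) F)) (ω : Ln F) : M • ω = ω := by
  obtain ⟨u, -, hu⟩ := line_rep ω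
  rw [hu, h]
  exact ⟨c, by rw [Matrix.smul_mulVec, Matrix.one_mulVec]⟩

private theorem share_eig [IsAlgClosed F] (M : GL (Fin 2) F) : ∃ ω : Ln F, M • ω = ω := by
  obtain ⟨c, hc⟩ := Module.End.exists_eigenvalue (Matrix.toLin' M.1)
  obtain ⟨u, hu⟩ := hc.exists_hasEigenvector
  obtain ⟨ω, hω⟩ := exists_line u hu.2
  refine ⟨ω, (hω M).2 ⟨c, ?_⟩⟩
  have h1 := hu.apply_eq_smul
  rw [Matrix.toLin'_apply] at h1
  exact h1

private theorem share_par {v w : Fin 2 → F} (hv : v ≠ 0) (h : v 0 * w 1 - v 1 * w 0 = 0) :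
    ∃ c : F, w = c • v := by
  by_cases h0 : v 0 = 0
  · have h1 : v 1 ≠ 0 := by
      intro h2
      apply hv
      funext i
      fin_cases i
      · exact h0
      · exact h2
    have h3 : w 0 = 0 := by
      rw [h0] at h
      have h4 : v 1 * w 0 = 0 := by linear_combination -h
      exact (mul_eq_zero.1 h4).resolve_left h1
    refine ⟨w 1 / v 1, ?_⟩
    funext i
    fin_cases i
    · simp [h0, h3]
    · simp [h1]
  · refine ⟨w 0 / v 0, ?_⟩
    funext i
    fin_cases i
    · simp [h0]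
    · show w 1 = w 0 / v 0 * v 1
      field_simp
      linear_combination h

private theorem share_tri [IsAlgClosed F] {M N : GL (Fin 2) F} (h : cm M.1 N.1 = 0)
    (hM : M.1 1 0 = 0) : ∃ ω : Ln F, M • ω = ω ∧ N • ω = ω := by
  set a := M.1 0 0 with ha
  set b := M.1 0 1 with hb
  set d := M.1 1 1 with hd
  set p := N.1 0 0 with hp
  set q := N.1 0 1 with hq
  set r := N.1 1 0 with hr
  set s := N.1 1 1 with hs
  have h1 : r * ((a - d) ^ 2 * q + (a - d) * b * (s - p) - b ^ 2 * r) = 0 := by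
    unfold cm at h
    rw [Matrix.det_fin_two] at h
    simp only [Matrix.sub_apply, Matrix.mul_apply, Fin.sum_univ_two, ← ha, ← hb, ← hd, ← hp, ← hq,
      ← hr, ← hs, hM] at h
    linear_combination h
  by_cases hz : b = 0 ∧ d - a = 0
  · obtain ⟨ω, hω⟩ := share_eig N
    refine ⟨ω, share_scalar (c := a) ?_ ω, hω⟩
    ext i j
    fin_cases i <;> fin_cases j
    · simp [ha]
    · simpa [hb] using hz.1
    · simpa using hM
    · have h2 : d = a := sub_eq_zero.1 hz.2
      simpa [hd, ha] using h2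
  rcases mul_eq_zero.1 h1 with h2 | h2
  · have h3 : (![1, 0] : Fin 2 → F) ≠ 0 := by
      intro h4
      simpa using congrFun h4 0
    obtain ⟨ω, hω⟩ := exists_line (![1, 0] : Fin 2 → F) h3
    refine ⟨ω, (hω M).2 ⟨a, ?_⟩, (hω N).2 ⟨p, ?_⟩⟩
    · funext i
      fin_cases i
      · simp [Matrix.mulVec, dotProduct, Fin.sum_univ_two, ha]
      · simpa [Matrix.mulVec, dotProduct, Fin.sum_univ_two] using hM
    · funext i
      fin_cases i
      · simp [Matrix.mulVec, dotProduct, Fin.sum_univ_two, hp]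
      · simpa [Matrix.mulVec, dotProduct, Fin.sum_univ_two] using h2
  · have h3 : (![b, d - a] : Fin 2 → F) ≠ 0 := by
      intro h4
      exact hz ⟨by simpa using congrFun h4 0, by simpa using congrFun h4 1⟩
    obtain ⟨ω, hω⟩ := exists_line (![b, d - a] : Fin 2 → F) h3
    refine ⟨ω, (hω M).2 ⟨d, ?_⟩, (hω N).2 ?_⟩
    · funext i
      fin_cases i
      · simp [Matrix.mulVec, dotProduct, Fin.sum_univ_two, ← ha, ← hb]
        ring
      · simp [Matrix.mulVec, dotProduct, Fin.sum_univ_two, ← hd, hM]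
    · refine share_par h3 ?_
      simp [Matrix.mulVec, dotProduct, Fin.sum_univ_two, ← hp, ← hq, ← hr, ← hs]
      linear_combination -h2

theorem share [IsAlgClosed F] {M N : GL (Fin 2) F} (h : cm M.1 N.1 = 0) :
    ∃ ω : Ln F, M • ω = ω ∧ N • ω = ω := by
  obtain ⟨ω, hω⟩ := share_eig M
  obtain ⟨x, rfl⟩ := QuotientGroup.mk_surjective ω
  have h1 : (x⁻¹ * M * x).1 1 0 = 0 := by
    rw [eq_comm] at hω
    have h2 : (x : Ln F) = ((M * x : GL (Fin 2) F) : Ln F) := hω
    rw [QuotientGroup.eq] at h2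
    rw [mul_assoc]
    exact h2
  have h2 := cm_conj x M N
  rw [h] at h2
  obtain ⟨ω, h3, h4⟩ := share_tri h2 h1
  refine ⟨x • ω, ?_, ?_⟩
  · have h5 : M • x • ω = x • (x⁻¹ * M * x) • ω := by
      rw [smul_smul, smul_smul]
      congr 1
      group
    rw [h5, h3]
  · have h5 : N • x • ω = x • (x⁻¹ * N * x) • ω := by
      rw [smul_smul, smul_smul]
      congr 1
      group
    rw [h5, h4]

theorem common_line (E : Set (GL (Fin 2) F))
    (h1 : ∀ M ∈ E, ∀ N ∈ E, ∃ ω : Ln F, M • ω = ω ∧ N • ω = ω)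
    (h2 : ∀ M ∈ E, ∀ N ∈ E, ∀ N' ∈ E, ∃ ω : Ln F, M • ω = ω ∧ (N * N') • ω = ω) :
    ∃ ω : Ln F, ∀ M ∈ E, M • ω = ω := by
  by_cases hE : ∀ M ∈ E, ∃ c : F, M.1 = c • (1 : Matrix (Fin 2) (Fin 2) F)
  · refine ⟨((1 : GL (Fin 2) F) : Ln F), fun M hM => ?_⟩
    obtain ⟨c, hc⟩ := hE M hM
    exact share_scalar hc _
  push Not at hE
  obtain ⟨M, hM, hMc⟩ := hE
  have hfix := fix_le_two M (by
    rintro ⟨c, hc⟩
    exact hMc c hc)
  have key : ∀ x y z : Ln F, M • x = x → M • y = y → M • z = z → x ≠ y → x ≠ z → y = z := by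
    intro x y z hx hy hz hxy hxz
    by_contra hyz
    have h3 : ({x, y, z} : Set (Ln F)).encard = 3 :=
      Set.encard_eq_three.2 ⟨x, y, z, hxy, hxz, hyz, rfl⟩
    have h4 : ({x, y, z} : Set (Ln F)) ⊆ {ω : Ln F | M • ω = ω} := by
      rintro w (rfl | rfl | rfl)
      · exact hx
      · exact hy
      · exact hz
    have h5 := (Set.encard_le_encard h4).trans hfix
    rw [h3] at h5
    exact absurd h5 (by decide)
  obtain ⟨x, hx, -⟩ := h1 M hM M hM
  by_cases hx' : ∀ N ∈ E, N • x = x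
  · exact ⟨x, hx'⟩
  push Not at hx'
  obtain ⟨N, hN, hNx⟩ := hx'
  obtain ⟨y, hy, hNy⟩ := h1 M hM N hN
  have hxy : x ≠ y := by
    rintro rfl
    exact hNx hNy
  by_cases hy' : ∀ N ∈ E, N • y = y
  · exact ⟨y, hy'⟩
  push Not at hy'
  obtain ⟨N', hN', hNy'⟩ := hy'
  obtain ⟨z, hz, hNz⟩ := h1 M hM N' hN'
  have hyz : y ≠ z := by
    rintro rfl
    exact hNy' hNz
  have hxz : x = z := key y x z hy hx hz hxy.symm hyz
  subst hxz
  obtain ⟨w, hw, hNw⟩ := h2 M hM N hN N' hN'
  exfalso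
  by_cases hxw : x = w
  · subst hxw
    rw [mul_smul, hNz] at hNw
    exact hNx hNw
  · have hyw : y = w := key x y w hx hy hw hxy hxw
    subst hyw
    rw [mul_smul] at hNw
    have h3 : N' • y = N⁻¹ • y := by
      rw [← hNw, inv_smul_smul, hNw]
    rw [h3] at hNy'
    apply hNy'
    rw [inv_smul_eq_iff]
    exact hNy.symm

end Pool.Agent.GT
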