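import Pool.Agent.Lib.MP_98022b_gl.BT
import Pool.Agent.Lib.MP_98022b_gl.Share

/-!
# Elements which move far vertices by a bounded distance

Task B9. For `M`, `N` in `G` let `τ = cm M N / (det M * det N)`, a member of `A`. If `M` and `N` move
all `x i`, `y i` by at most `R` then `v i τ ≤ exp (2 * R)` for all `i` (`v_cm_le` for the conjugates
with a representative of `x i`), and `v i τ ≤ exp (2 * R - L)` for one `i` (`v_cm_far`). If
`L > 2 * R + C` then `τ = 0` by `hA`. Use this with `2 * R` in place of `R` (products of two elements)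
and `share`, `common_line`.
-/

set_option autoImplicit false

open scoped WithZero

namespace Pool.Agent.GT

namespace B9aux

variable {E : Type} [Field E] (v : Valuation E ℤᵐ⁰)

theorem det_conj (a M : GL (Fin 2) E) : (a⁻¹ * M * a).1.det = M.1.det := by
  have h : (a⁻¹ * M * a).1 = (a⁻¹).1 * M.1 * a.1 := rfl
  rw [h, Matrix.det_mul, Matrix.det_mul]
  have h1 : (a⁻¹).1.det * a.1.det = 1 := by
    rw [← Matrix.det_mul, a.inv_mul, Matrix.det_one]
  calc (a⁻¹).1.det * M.1.det * a.1.det = M.1.det * ((a⁻¹).1.det * a.1.det) := by ring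
    _ = M.1.det := by rw [h1, mul_one]

theorem len_conj_le (hv : ∃ π, v π = WithZero.exp (-1)) {a M : GL (Fin 2) E} {ρ : ℕ}
    (h : (bt v).dist (M • vt v a) (vt v a) ≤ ρ) : len v (a⁻¹ * M * a) ≤ ρ := by
  have h1 := bt_dist v hv (M * a) a
  rw [← smul_vt] at h1
  have h2 : len v ((M * a)⁻¹ * a) = len v (a⁻¹ * M * a) := by
    rw [← len_inv v ((M * a)⁻¹ * a)]
    congr 1
    group
  rw [← h2, ← h1]
  exact_mod_cast h

theorem near {a M N : GL (Fin 2) E} {ρ : ℕ} (hM : len v (a⁻¹ * M * a) ≤ ρ)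
    (hN : len v (a⁻¹ * N * a) ≤ ρ) :
    v (cm M.1 N.1) ≤ WithZero.exp (2 * (ρ : ℤ)) * (v M.1.det * v N.1.det) := by
  have h := v_cm_le v hM hN
  rwa [cm_conj, det_conj, det_conj] at h

theorem farb {a b M N : GL (Fin 2) E} {ρ : ℕ} (hM : len v (a⁻¹ * M * a) ≤ ρ)
    (hN : len v (a⁻¹ * N * a) ≤ ρ) (hM' : len v (b⁻¹ * M * b) ≤ ρ)
    (hN' : len v (b⁻¹ * N * b) ≤ ρ) :
    v (cm M.1 N.1) ≤ WithZero.exp (2 * (ρ : ℤ) - len v (a⁻¹ * b)) *
      (v M.1.det * v N.1.det) := by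
  have e : ∀ X : GL (Fin 2) E, (a⁻¹ * b)⁻¹ * (a⁻¹ * X * a) * (a⁻¹ * b) = b⁻¹ * X * b := by
    intro X
    group
  have h := v_cm_far v (M := a⁻¹ * M * a) (N := a⁻¹ * N * a) (Y := a⁻¹ * b) hM hN
    (by rw [e]; exact hM') (by rw [e]; exact hN')
  rwa [cm_conj, det_conj, det_conj] at h

theorem map_cm {E F : Type} [Field E] [Field F] [Algebra E F] (M N : GL (Fin 2) E) :
    cm (toF E F M).1 (toF E F N).1 = algebraMap E F (cm M.1 N.1) := by
  unfold cm
  have h : ((toF E F M).1 * (toF E F N).1 - (toF E F N).1 * (toF E F M).1) =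
      (algebraMap E F).mapMatrix (M.1 * N.1 - N.1 * M.1) := by
    rw [map_sub, map_mul, map_mul]
    rfl
  rw [h, ← RingHom.map_det]

end B9aux

open B9aux

theorem exists_far {E F I : Type} [Field E] [Field F] [IsAlgClosed F] [Algebra E F] [Finite I]
    (v : I → Valuation E ℤᵐ⁰) (hv : ∀ i, ∃ π, v i π = WithZero.exp (-1)) (A : Subring E)
    (hA : ∀ R : ℕ, ∃ C : ℕ, ∀ x ∈ A, x ≠ 0 → (∀ i, v i x ≤ WithZero.exp (R : ℤ)) →
      ∀ i, WithZero.exp (-(C : ℤ)) ≤ v i x)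
    (G : Subgroup (GL (Fin 2) E)) (hG : ∀ g ∈ G, ∀ i j, g.1 i j ∈ A) (R : ℕ) :
    ∃ L : ℕ, ∀ x y : ∀ i, Vtx (v i), (∃ i, L ≤ (bt (v i)).dist (x i) (y i)) →
      ∃ ω : Ln F, ∀ g ∈ G, (∀ i, (bt (v i)).dist (g • x i) (x i) ≤ R ∧
        (bt (v i)).dist (g • y i) (y i) ≤ R) → toF E F g • ω = ω := by
  classical
  obtain ⟨C, hC⟩ := hA (4 * R)
  refine ⟨4 * R + C + 1, fun x y hxy => ?_⟩
  obtain ⟨i₀, hi₀⟩ := hxy
  choose a ha using fun i => vt_surj (v i) (x i)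
  choose b hb using fun i => vt_surj (v i) (y i)
  have hcm : ∀ g h : GL (Fin 2) E, g ∈ G → h ∈ G → cm g.1 h.1 ∈ A := by
    intro g h hg hh
    have hg' := hG g hg
    have hh' := hG h hh
    unfold cm
    rw [Matrix.det_fin_two]
    simp only [Matrix.sub_apply, Matrix.mul_apply, Fin.sum_univ_two]
    refine A.sub_mem (A.mul_mem ?_ ?_) (A.mul_mem ?_ ?_) <;>
      exact A.sub_mem (A.add_mem (A.mul_mem (hg' _ _) (hh' _ _)) (A.mul_mem (hg' _ _) (hh' _ _)))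
        (A.add_mem (A.mul_mem (hh' _ _) (hg' _ _)) (A.mul_mem (hh' _ _) (hg' _ _)))
  have hdet : ∀ g : GL (Fin 2) E, g ∈ G → (g.1.det)⁻¹ ∈ A := by
    intro g hg
    have h1 : (g⁻¹).1.det = (g.1.det)⁻¹ := by
      rw [Matrix.coe_units_inv, Matrix.det_nonsing_inv, Ring.inverse_eq_inv']
    rw [← h1, Matrix.det_fin_two]
    have h2 := hG g⁻¹ (G.inv_mem hg)
    exact A.sub_mem (A.mul_mem (h2 _ _) (h2 _ _)) (A.mul_mem (h2 _ _) (h2 _ _))
  -- the key step
  have key : ∀ g h : GL (Fin 2) E, g ∈ G → h ∈ G →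
      (∀ i, (bt (v i)).dist (g • x i) (x i) ≤ 2 * R ∧ (bt (v i)).dist (g • y i) (y i) ≤ 2 * R) →
      (∀ i, (bt (v i)).dist (h • x i) (x i) ≤ 2 * R ∧ (bt (v i)).dist (h • y i) (y i) ≤ 2 * R) →
      cm g.1 h.1 = 0 := by
    intro g h hg hh hgd hhd
    by_contra hne
    have hdg := det_ne_zero g
    have hdh := det_ne_zero h
    let τ : E := cm g.1 h.1 * ((g.1.det)⁻¹ * (h.1.det)⁻¹)
    have hτ0 : τ ≠ 0 := mul_ne_zero hne (mul_ne_zero (inv_ne_zero hdg) (inv_ne_zero hdh))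
    have hτA : τ ∈ A := A.mul_mem (hcm g h hg hh) (A.mul_mem (hdet g hg) (hdet h hh))
    have hvτ : ∀ i (c : ℤᵐ⁰), v i (cm g.1 h.1) ≤ c * (v i g.1.det * v i h.1.det) →
        v i τ ≤ c := by
      intro i c hc
      have h1 : v i g.1.det ≠ 0 := v_det_ne_zero (v i) g
      have h2 : v i h.1.det ≠ 0 := v_det_ne_zero (v i) h
      show v i (cm g.1 h.1 * ((g.1.det)⁻¹ * (h.1.det)⁻¹)) ≤ c
      rw [map_mul, map_mul, map_inv₀, map_inv₀, ← mul_inv]
      rw [← div_eq_mul_inv]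
      exact (div_le_iff₀ (zero_lt_iff.2 (mul_ne_zero h1 h2))).2 hc
    have lg : ∀ i, len (v i) ((a i)⁻¹ * g * a i) ≤ ((2 * R : ℕ) : ℤ) ∧
        len (v i) ((b i)⁻¹ * g * b i) ≤ ((2 * R : ℕ) : ℤ) := by
      intro i
      have := hgd i
      rw [← ha i, ← hb i] at this
      exact ⟨len_conj_le (v i) (hv i) this.1, len_conj_le (v i) (hv i) this.2⟩
    have lh : ∀ i, len (v i) ((a i)⁻¹ * h * a i) ≤ ((2 * R : ℕ) : ℤ) ∧
        len (v i) ((b i)⁻¹ * h * b i) ≤ ((2 * R : ℕ) : ℤ) := by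
      intro i
      have := hhd i
      rw [← ha i, ← hb i] at this
      exact ⟨len_conj_le (v i) (hv i) this.1, len_conj_le (v i) (hv i) this.2⟩
    have h1 := hC τ hτA hτ0 (fun i => by
      refine hvτ i _ ?_
      have := near (v i) (lg i).1 (lh i).1
      convert this using 3
      push_cast
      ring) i₀
    have h2 := hvτ i₀ _ (farb (v i₀) (lg i₀).1 (lh i₀).1 (lg i₀).2 (lh i₀).2)
    have h3 := h1.trans h2
    rw [WithZero.exp_le_exp] at h3
    have h4 := bt_dist (v i₀) (hv i₀) (a i₀) (b i₀)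
    rw [ha, hb] at h4
    have h5 : ((4 * R + C + 1 : ℕ) : ℤ) ≤ ((bt (v i₀)).dist (x i₀) (y i₀) : ℤ) := by
      exact_mod_cast hi₀
    rw [h4] at h5
    push_cast at h3 h5
    omega
  -- the set of the elements
  let X : Set (GL (Fin 2) E) := {g | g ∈ G ∧ ∀ i, (bt (v i)).dist (g • x i) (x i) ≤ R ∧
    (bt (v i)).dist (g • y i) (y i) ≤ R}
  have hX1 : ∀ g ∈ X, ∀ i, (bt (v i)).dist (g • x i) (x i) ≤ 2 * R ∧
      (bt (v i)).dist (g • y i) (y i) ≤ 2 * R := by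
    intro g hg i
    have := hg.2 i
    omega
  have hX2 : ∀ g ∈ X, ∀ h ∈ X, ∀ i, (bt (v i)).dist ((g * h) • x i) (x i) ≤ 2 * R ∧
      (bt (v i)).dist ((g * h) • y i) (y i) ≤ 2 * R := by
    intro g hg h hh i
    have h1 := hg.2 i
    have h2 := hh.2 i
    have hconn := (bt_isTree (v i) (hv i)).connected
    have hd : ∀ z w : Vtx (v i), (bt (v i)).dist (g • z) (g • w) = (bt (v i)).dist z w := by
      intro z w
      obtain ⟨z', rfl⟩ := vt_surj (v i) z
      obtain ⟨w', rfl⟩ := vt_surj (v i) w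
      have e1 := bt_dist (v i) (hv i) (g * z') (g * w')
      have e2 := bt_dist (v i) (hv i) z' w'
      rw [show (g * z')⁻¹ * (g * w') = z'⁻¹ * w' by group] at e1
      rw [smul_vt, smul_vt]
      have := e1.trans e2.symm
      exact_mod_cast this
    have t1 : (bt (v i)).dist ((g * h) • x i) (x i) ≤
        (bt (v i)).dist (g • h • x i) (g • x i) + (bt (v i)).dist (g • x i) (x i) := by
      rw [mul_smul]
      exact hconn.dist_triangle
    have t2 : (bt (v i)).dist ((g * h) • y i) (y i) ≤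
        (bt (v i)).dist (g • h • y i) (g • y i) + (bt (v i)).dist (g • y i) (y i) := by
      rw [mul_smul]
      exact hconn.dist_triangle
    rw [hd] at t1 t2
    omega
  obtain ⟨ω, hω⟩ := common_line (F := F) (toF E F '' X)
    (by
      rintro _ ⟨g, hg, rfl⟩ _ ⟨h, hh, rfl⟩
      apply share
      rw [map_cm, key g h hg.1 hh.1 (hX1 g hg) (hX1 h hh), map_zero])
    (by
      rintro _ ⟨g, hg, rfl⟩ _ ⟨h, hh, rfl⟩ _ ⟨h', hh', rfl⟩
      rw [← map_mul]
      apply share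
      rw [map_cm, key g (h * h') hg.1 (G.mul_mem hh.1 hh'.1) (hX1 g hg) (hX2 h hh h' hh'),
        map_zero])
  exact ⟨ω, fun g hg hgd => hω _ ⟨g, ⟨hg, hgd⟩, rfl⟩⟩

end Pool.Agent.GT
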