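import Pool.Agent.Lib.MP_98022b_gl.MemA

/-!
# Groups acting on finitely many trees

Task A12. Induction on `card I`; `IsFJClass.locally` reduces to finitely generated subgroups `H`, for
which `mem_of_trees_fg` applies; the stabilizer `H_v`, `v : V i`, acts on the other trees (if
`card I = 1` it is in `P` by `ha`).
-/

set_option autoImplicit false

open Set
open scoped Pointwise

namespace Pool.Agent.GT

open Pool.Agent.FA Pool.Agent.FJ

variable {P : ∀ (G : Type) [Group G], Prop}

private theorem A12aux_ext {I : Type} {V : I → Type} (i : I) (v : V i)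
    (x : ∀ j : {j : I // j ≠ i}, V j) :
    ∃ x' : ∀ j, V j, x' i = v ∧ ∀ j : {j : I // j ≠ i}, x' j = x j := by
  classical
  exact ⟨fun k => if h : k = i then h ▸ v else x ⟨k, h⟩, by simp, fun j => by simp [j.2]⟩

private theorem A12aux_P {P : ∀ (G : Type) [Group G], Prop} (hP : IsFJClass P) {G K : Type}
    [Group G] [Group K] (f : K →* G) (hf : Function.Injective f) {A : Subgroup K} {B : Subgroup G}
    (hAB : ∀ a ∈ A, f a ∈ B) (h : P B) : P A := by
  refine hP.of_injective ((f.comp A.subtype).codRestrict B fun a => hAB a a.2) ?_ h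
  intro a b hab
  apply Subtype.ext
  apply hf
  exact congrArg Subtype.val hab

private theorem A12aux (hP : IsFJClassA P) (n : ℕ) : ∀ {G I Ω : Type} [Group G] [Finite I]
    [Nonempty I] [MulAction G Ω] {V : I → Type} [∀ i, MulAction G (V i)] [∀ i, Countable (V i)]
    {T : ∀ i, SimpleGraph (V i)} (_ : Nat.card I = n + 1) (_ : ∀ i, (T i).IsTree)
    (_ : ∀ i (g : G) (u v : V i), (T i).Adj u v → (T i).Adj (g • u) (g • v))
    (_ : ∀ x : ∀ i, V i, P ↥(⨅ i, MulAction.stabilizer G (x i)))
    (_ : ∀ ω ω' : Ω, P ↥(MulAction.stabilizer G ω ⊓ MulAction.stabilizer G ω'))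
    (_ : ∀ g : G, NT V g → {ω : Ω | g • ω = ω}.encard ≤ 2)
    (_ : ∀ R : ℕ, ∃ L : ℕ, ∀ x y : ∀ i, V i, (∃ i, L ≤ (T i).dist (x i) (y i)) →
      (FixS Ω (Sh G T R x y)).Nonempty), P G := by
  induction n with
  | zero =>
    intro G I Ω _ _ _ _ V _ _ T hI hT hadj ha hb hc hd
    refine hP.toIsFJClass.locally fun S => ⟨Subgroup.closure (S : Set G),
      fun x hx => Subgroup.subset_closure hx, ?_⟩
    set H := Subgroup.closure (S : Set G) with hH
    have hinj : Function.Injective H.subtype := H.subtype_injective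
    refine mem_of_trees_fg hP (G := H) (Ω := Ω) (T := T) inferInstance hT
      (fun i g u v => hadj i g u v) ?_ ?_ ?_ ?_
    · intro i v
      have : Subsingleton I := (Nat.card_eq_one_iff_unique.1 hI).1
      have hex : ∃ x : ∀ j, V j, x i = v := by
        refine ⟨fun j => (Subsingleton.elim i j) ▸ v, rfl⟩
      obtain ⟨x, hx⟩ := hex
      refine A12aux_P hP.toIsFJClass H.subtype hinj ?_ (ha x)
      intro a haa
      rw [Subgroup.mem_iInf]
      intro j
      obtain rfl := Subsingleton.elim i j
      rw [hx]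
      exact haa
    · intro ω ω'
      exact A12aux_P hP.toIsFJClass H.subtype hinj (fun a haa => haa) (hb ω ω')
    · intro g hg
      exact hc g hg
    · intro R
      obtain ⟨L, hL⟩ := hd R
      refine ⟨L, fun x y hxy => ?_⟩
      obtain ⟨ω, hω⟩ := hL x y ⟨Classical.arbitrary I, hxy _⟩
      exact ⟨ω, fun γ hγ => hω γ hγ⟩
  | succ n ih =>
    intro G I Ω _ _ _ _ V _ _ T hI hT hadj ha hb hc hd
    refine hP.toIsFJClass.locally fun S => ⟨Subgroup.closure (S : Set G),
      fun x hx => Subgroup.subset_closure hx, ?_⟩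
    set H := Subgroup.closure (S : Set G) with hH
    have hinj : Function.Injective H.subtype := H.subtype_injective
    refine mem_of_trees_fg hP (G := H) (Ω := Ω) (T := T) inferInstance hT
      (fun i g u v => hadj i g u v) ?_ ?_ ?_ ?_
    · intro i v
      have hcard : Nat.card {j : I // j ≠ i} = n + 1 := by
        classical
        have := Fintype.ofFinite I
        have h1 : Nat.card {j : I // j ≠ i} = Fintype.card I - 1 := by
          rw [Nat.card_eq_fintype_card, Fintype.card_subtype_compl, Fintype.card_subtype_eq]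
        rw [h1, ← Nat.card_eq_fintype_card, hI]
        rfl
      have hne : Nonempty {j : I // j ≠ i} := by
        by_contra hcon
        rw [not_nonempty_iff] at hcon
        rw [Nat.card_of_isEmpty] at hcard
        omega
      set K := MulAction.stabilizer H v with hK
      have hinj' : Function.Injective (H.subtype.comp K.subtype) :=
        hinj.comp K.subtype_injective
      refine ih (G := K) (I := {j : I // j ≠ i}) (Ω := Ω) (V := fun j => V j)
        (T := fun j => T j) hcard (fun j => hT j) (fun j g u v => hadj j g u v) ?_ ?_ ?_ ?_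
      · intro x
        obtain ⟨x', hx', hx''⟩ := A12aux_ext i v x
        refine A12aux_P hP.toIsFJClass (H.subtype.comp K.subtype) hinj' ?_ (ha x')
        intro a haa
        rw [Subgroup.mem_iInf] at haa ⊢
        intro j
        by_cases hj : j = i
        · subst hj
          rw [hx']
          exact a.2
        · have := hx'' ⟨j, hj⟩
          simp only at this
          rw [this]
          exact haa ⟨j, hj⟩
      · intro ω ω'
        exact A12aux_P hP.toIsFJClass (H.subtype.comp K.subtype) hinj' (fun a haa => haa)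
          (hb ω ω')
      · intro g hg
        obtain ⟨j, w, hw⟩ := hg
        exact hc g ⟨j, w, hw⟩
      · intro R
        obtain ⟨L, hL⟩ := hd R
        refine ⟨L, fun x y hxy => ?_⟩
        obtain ⟨x', hx', hx''⟩ := A12aux_ext i v x
        obtain ⟨y', hy', hy''⟩ := A12aux_ext i v y
        obtain ⟨j, hj⟩ := hxy
        obtain ⟨ω, hω⟩ := hL x' y' ⟨j, by rw [hx'' j, hy'' j]; exact hj⟩
        refine ⟨ω, fun γ hγ => hω ((γ : H) : G) ?_⟩
        intro k
        by_cases hk : k = i
        · subst hk
          have hv : (((γ : H) : G)) • v = v := γ.2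
          rw [hx', hy', hv]
          simp
        · have h1 := hx'' ⟨k, hk⟩
          have h2 := hy'' ⟨k, hk⟩
          simp only at h1 h2
          rw [h1, h2]
          exact hγ ⟨k, hk⟩
    · intro ω ω'
      exact A12aux_P hP.toIsFJClass H.subtype hinj (fun a haa => haa) (hb ω ω')
    · intro g hg
      exact hc g hg
    · intro R
      obtain ⟨L, hL⟩ := hd R
      refine ⟨L, fun x y hxy => ?_⟩
      obtain ⟨ω, hω⟩ := hL x y ⟨Classical.arbitrary I, hxy _⟩
      exact ⟨ω, fun γ hγ => hω γ hγ⟩

theorem mem_of_trees (hP : IsFJClassA P) {G I Ω : Type} [Group G] [Finite I] [Nonempty I]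
    [MulAction G Ω] {V : I → Type} [∀ i, MulAction G (V i)] [∀ i, Countable (V i)]
    {T : ∀ i, SimpleGraph (V i)} (hT : ∀ i, (T i).IsTree)
    (hadj : ∀ i (g : G) (u v : V i), (T i).Adj u v → (T i).Adj (g • u) (g • v))
    (ha : ∀ x : ∀ i, V i, P ↥(⨅ i, MulAction.stabilizer G (x i)))
    (hb : ∀ ω ω' : Ω, P ↥(MulAction.stabilizer G ω ⊓ MulAction.stabilizer G ω'))
    (hc : ∀ g : G, NT V g → {ω : Ω | g • ω = ω}.encard ≤ 2)
    (hd : ∀ R : ℕ, ∃ L : ℕ, ∀ x y : ∀ i, V i, (∃ i, L ≤ (T i).dist (x i) (y i)) →
      (FixS Ω (Sh G T R x y)).Nonempty) : P G := by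
  have hpos : 0 < Nat.card I := Nat.card_pos
  exact A12aux hP (Nat.card I - 1) (by omega) hT hadj ha hb hc hd

end Pool.Agent.GT
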