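import Pool.Agent.Lib.MP_98022b_gl.Places
import Pool.Agent.Lib.MP_98022b_gl.Far
import Pool.Agent.Lib.MP_98022b_gl.CommonStab
import Pool.Agent.Lib.MP_98022b_gl.Induct

/-!
# Groups of matrices with integral entries over a function field

Task B11. `mem_of_trees` for the Bruhat-Tits trees of `exists_places` and `Ω = Ln F`, `F` the
algebraic closure of `E`, with the action of `G` through `toF E F`.
-/

set_option autoImplicit false

open Set

namespace Pool.Agent.GT

open Pool.Agent.FJ

variable {P : ∀ (G : Type) [Group G], Prop}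

namespace B11aux

theorem toF_injective (E F : Type) [Field E] [Field F] [Algebra E F] :
    Function.Injective (toF E F) := by
  intro M N h
  apply Units.ext
  ext i j
  have h1 : (toF E F M).1 i j = (toF E F N).1 i j := by rw [h]
  exact (algebraMap E F).injective h1

/-- Scalar matrices act trivially on the tree. -/
theorem smul_of_scalar {E : Type} [Field E] (v : Valuation E (WithZero (Multiplicative ℤ)))
    (g : GL (Fin 2) E) (c : E) (hg : g.1 = c • (1 : Matrix (Fin 2) (Fin 2) E)) (x : Vtx v) :
    g • x = x := by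
  obtain ⟨h, rfl⟩ := vt_surj v x
  rw [smul_vt]
  refine ((vt_eq_iff v _ _).2 ?_).symm
  have e : h⁻¹ * (g * h) = g := by
    have hc : g * h = h * g := by
      apply Units.ext
      show g.1 * h.1 = h.1 * g.1
      rw [hg]
      simp
    rw [hc, inv_mul_cancel_left]
  rw [e]
  unfold len
  have hdet : g.1.det = c ^ 2 := by
    rw [hg, Matrix.det_smul, Matrix.det_one]
    simp
  rw [hdet, hg, nrm_smul, nrm_one, mul_one, map_pow, WithZero.log_pow]
  simp

theorem countable_vtx {E : Type} [Field E] [Countable E]
    (v : Valuation E (WithZero (Multiplicative ℤ))) : Countable (Vtx v) := by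
  have h1 : Countable (Matrix (Fin 2) (Fin 2) E) :=
    (inferInstance : Countable (Fin 2 → Fin 2 → E))
  have h2 : Countable (GL (Fin 2) E) := Units.val_injective.countable
  exact Function.Surjective.countable (QuotientGroup.mk_surjective (s := Hv v))

end B11aux

open B11aux

theorem mem_geo (hP : IsFJClassA P) (hsol : ∀ (G : Type) [Group G], IsSolvable G → P G)
    {K E : Type} [Field K] [IsAlgClosed K] [Field E] [Countable E] [Algebra (RatFunc K) E]
    [FiniteDimensional (RatFunc K) E] [Algebra.IsSeparable (RatFunc K) E]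
    (hK : P (GL (Fin 2) K)) (G : Subgroup (GL (Fin 2) E))
    (hG : ∀ g ∈ G, ∀ i j, (pE K E).IsIntegralElem (g.1 i j)) : P G := by
  classical
  obtain ⟨I, hI, hne, v, hv, hV2, hV1⟩ := exists_places K E
  letI algK : Algebra K E := (cE K E).toAlgebra
  letI algX : Algebra (Polynomial K) E := (pE K E).toAlgebra
  let A : Subring E := (integralClosure (Polynomial K) E).toSubring
  have memA : ∀ x : E, x ∈ A ↔ (pE K E).IsIntegralElem x := fun x => Iff.rfl
  let F := AlgebraicClosure E
  let φ : G →* GL (Fin 2) F := (toF E F).comp G.subtype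
  have hφ : Function.Injective φ := (toF_injective E F).comp G.subtype_injective
  letI act : MulAction G (Ln F) := MulAction.compHom (Ln F) φ
  have hact : ∀ (g : G) (ω : Ln F), g • ω = φ g • ω := fun _ _ => rfl
  have hcount : ∀ i, Countable (Vtx (v i)) := fun i => countable_vtx (v i)
  have hGA : ∀ g ∈ G, ∀ i j, g.1 i j ∈ A := fun g hg i j => (memA _).2 (hG g hg i j)
  refine mem_of_trees (G := G) (Ω := Ln F) (V := fun i => Vtx (v i)) (T := fun i => bt (v i)) hP
    (fun i => bt_isTree (v i) (hv i)) (fun i g x y h => bt_adj_smul (v i) (g : GL (Fin 2) E) x y h)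
    ?_ ?_ ?_ ?_
  · intro x
    exact mem_common hP.toIsFJClass hsol hK v A (fun y hy h => hV2 y ((memA y).1 hy) h) G hGA x
  · intro ω ω'
    apply hsol
    have hs : Group.IsSolvable (MulAction.stabilizer (GL (Fin 2) F) ω) := solvable_line ω
    let ψ : ↥(MulAction.stabilizer G ω ⊓ MulAction.stabilizer G ω') →*
        MulAction.stabilizer (GL (Fin 2) F) ω :=
      (φ.comp (Subgroup.subtype _)).codRestrict _ (fun g => by
        rw [MulAction.mem_stabilizer_iff]
        exact (Subgroup.mem_inf.1 g.2).1)
    refine Group.isSolvable_of_isSolvable_injective (f := ψ) ?_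
    intro a b hab
    have h1 : φ a.1 = φ b.1 := congrArg Subtype.val hab
    exact Subtype.ext (hφ h1)
  · rintro g ⟨i, x, hx⟩
    have h1 : ¬ ∃ c : F, (φ g).1 = c • (1 : Matrix (Fin 2) (Fin 2) F) := by
      rintro ⟨c, hc⟩
      apply hx
      have h00 : algebraMap E F (g.1.1 0 0) = c := by
        have h3 : algebraMap E F (g.1.1 0 0) = (c • (1 : Matrix (Fin 2) (Fin 2) F)) 0 0 :=
          congrFun (congrFun hc 0) 0
        rw [h3]
        simp
      refine smul_of_scalar (v i) (g : GL (Fin 2) E) (g.1.1 0 0) ?_ x
      ext a b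
      have h2 : algebraMap E F (g.1.1 a b) = (c • (1 : Matrix (Fin 2) (Fin 2) F)) a b :=
        congrFun (congrFun hc a) b
      apply (algebraMap E F).injective
      rw [h2, ← h00]
      fin_cases a <;> fin_cases b <;> simp
    exact fix_le_two (φ g) h1
  · intro R
    obtain ⟨L, hL⟩ := exists_far (F := F) v hv A
      (fun R => by
        obtain ⟨C, hC⟩ := hV1 R
        exact ⟨C, fun x hx hx0 h => hC x hx0 ((memA x).1 hx) h⟩) G hGA R
    refine ⟨L, fun x y hxy => ?_⟩
    obtain ⟨ω, hω⟩ := hL x y hxy
    exact ⟨ω, fun g hg => hω g.1 g.2 hg⟩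

end Pool.Agent.GT
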