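import Pool.Agent.Lib.MP_98022b_gl.PlaceDefs

/-!
# The places at infinity

Task B8a. Let `O` be the integral closure of `K[X]` in `E` for the homomorphism `pI` (a Dedekind
domain: `integralClosure.isDedekindDomain`, `E` is finite separable over the field of fractions of
the image of `pI`), and `I` the set of the height one primes which contain `pI X = (pE X)⁻¹`
(finite; not empty, as `pE X` is not integral over `pI`). The valuations are
`HeightOneSpectrum.valuation E`. Fourth property: let `y = (pI X) ^ R * x`. If a height one prime does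
not contain `pI X` then its valuation is `≤ 1` on the image of `pE`, so on `x`, and on `pI X`; so all
valuations of `y` are `≤ 1` (`mem_integers_of_valuation_le_one`).
-/

set_option autoImplicit false

open Polynomial
open scoped WithZero

namespace Pool.Agent.GT

namespace B8aaux

/-- The places over the prime `X`. -/
theorem zero_places (K E : Type) [Field K] [Field E] [Algebra (RatFunc K) E]
    [FiniteDimensional (RatFunc K) E] [Algebra.IsSeparable (RatFunc K) E] :
    ∃ (I : Type) (_ : Finite I) (_ : Nonempty I) (v : I → Valuation E ℤᵐ⁰),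
      (∀ i, ∃ π, v i π = WithZero.exp (-1)) ∧
      (∀ i x, (pE K E).IsIntegralElem x → v i x ≤ 1) ∧
      (∀ i, v i (pE K E X) ≤ WithZero.exp (-1)) ∧
      ∀ y : E, (∀ w : Valuation E ℤᵐ⁰, (∀ p, w (pE K E p) ≤ 1) → w (pE K E X) = 1 → w y ≤ 1) →
        (∀ i, v i y ≤ 1) → (pE K E).IsIntegralElem y := by
  classical
  let _ : Algebra K[X] E := (pE K E).toAlgebra
  have : IsScalarTower K[X] (RatFunc K) E := IsScalarTower.of_algebraMap_eq fun x => rfl
  have hDed : IsDedekindDomain (integralClosure K[X] E) :=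
    integralClosure.isDedekindDomain K[X] (RatFunc K) E
  have hFrac : IsFractionRing (integralClosure K[X] E) E :=
    integralClosure.isFractionRing_of_finite_extension (RatFunc K) E
  have hinj : Function.Injective (algebraMap K[X] E) := by
    rw [IsScalarTower.algebraMap_eq K[X] (RatFunc K) E]
    exact (algebraMap (RatFunc K) E).injective.comp (RatFunc.algebraMap_injective K)
  have hinj' : Function.Injective (algebraMap K[X] (integralClosure K[X] E)) := by
    intro a b hab
    apply hinj
    exact congrArg Subtype.val hab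
  obtain ⟨t, ht⟩ : ∃ t, t = algebraMap K[X] (integralClosure K[X] E) X := ⟨_, rfl⟩
  have ht0 : t ≠ 0 := by
    rw [ht]
    exact fun h => X_ne_zero (hinj' (h.trans (map_zero _).symm))
  have htE : algebraMap (integralClosure K[X] E) E t = pE K E X := by rw [ht]; rfl
  have htu : ¬ IsUnit t := by
    intro h
    rw [ht] at h
    have : FaithfulSMul K[X] (integralClosure K[X] E) :=
      (faithfulSMul_iff_algebraMap_injective _ _).2 hinj'
    exact not_isUnit_X ((isUnit_map_iff (algebraMap K[X] (integralClosure K[X] E)) X).1 h)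
  have hspan0 : Ideal.span {t} ≠ 0 := fun h => ht0 (by
    rwa [Ideal.zero_eq_bot, Ideal.span_singleton_eq_bot] at h)
  obtain ⟨M, hM, htM⟩ := Ideal.exists_le_maximal (Ideal.span {t})
    (fun h => htu (Ideal.span_singleton_eq_top.1 h))
  refine ⟨{w : IsDedekindDomain.HeightOneSpectrum (integralClosure K[X] E) //
      w.asIdeal ∣ Ideal.span {t}}, (Ideal.finite_factors hspan0).to_subtype, ?_,
    fun w => w.1.valuation E, ?_, ?_, ?_, ?_⟩
  · exact ⟨⟨⟨M, hM.isPrime, fun h => ht0 (by
      rw [h, le_bot_iff, Ideal.span_singleton_eq_bot] at htM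
      exact htM)⟩, Ideal.dvd_iff_le.2 htM⟩⟩
  · intro w
    exact w.1.valuation_exists_uniformizer E
  · intro w x hx
    exact w.1.valuation_le_one (K := E) (⟨x, hx⟩ : integralClosure K[X] E)
  · intro w
    have h1 : w.1.valuation E (pE K E X) < 1 := by
      rw [← htE, w.1.valuation_lt_one_iff_dvd]
      exact w.2
    have h2 : w.1.valuation E (pE K E X) ≠ 0 := by
      rw [Valuation.ne_zero_iff]
      exact fun h => X_ne_zero (hinj (h.trans (map_zero _).symm))
    rw [← WithZero.exp_log h2, ← WithZero.exp_zero, WithZero.exp_lt_exp] at h1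
    rw [← WithZero.exp_log h2, WithZero.exp_le_exp]
    omega
  · intro y hy1 hy2
    have h1 : y ∈ (algebraMap (integralClosure K[X] E) E).range := by
      refine IsDedekindDomain.HeightOneSpectrum.mem_integers_of_valuation_le_one E y fun w => ?_
      by_cases hw : w.asIdeal ∣ Ideal.span {t}
      · exact hy2 ⟨w, hw⟩
      · refine hy1 _ (fun p => ?_) ?_
        · exact w.valuation_le_one (K := E) (algebraMap K[X] (integralClosure K[X] E) p)
        · rw [← htE]
          refine le_antisymm (w.valuation_le_one t) ?_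
          rw [← not_lt, w.valuation_lt_one_iff_dvd]
          exact hw
    obtain ⟨z, rfl⟩ := h1
    exact z.2

theorem places_of_hom (K E : Type) [Field K] [Field E] (φ : RatFunc K →+* E) (hfin : φ.Finite)
    (hsep : @Algebra.IsSeparable (RatFunc K) E _ _ φ.toAlgebra) :
    ∃ (I : Type) (_ : Finite I) (_ : Nonempty I) (v : I → Valuation E ℤᵐ⁰),
      (∀ i, ∃ π, v i π = WithZero.exp (-1)) ∧
      (∀ i x, (φ.comp (algebraMap K[X] (RatFunc K))).IsIntegralElem x → v i x ≤ 1) ∧
      (∀ i, v i (φ.comp (algebraMap K[X] (RatFunc K)) X) ≤ WithZero.exp (-1)) ∧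
      ∀ y : E, (∀ w : Valuation E ℤᵐ⁰, (∀ p, w (φ.comp (algebraMap K[X] (RatFunc K)) p) ≤ 1) →
        w (φ.comp (algebraMap K[X] (RatFunc K)) X) = 1 → w y ≤ 1) →
        (∀ i, v i y ≤ 1) → (φ.comp (algebraMap K[X] (RatFunc K))).IsIntegralElem y := by
  let al : Algebra (RatFunc K) E := φ.toAlgebra
  have hfin' : FiniteDimensional (RatFunc K) E := hfin
  exact zero_places K E

theorem sep_comp (F E : Type) [Field F] [Field E] [a : Algebra F E] [h : Algebra.IsSeparable F E]
    (σ : F ≃+* F) :
    @Algebra.IsSeparable F E _ _ ((algebraMap F E).comp (σ : F →+* F)).toAlgebra := by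
  refine @Algebra.IsSeparable.of_equiv_equiv F E F E _ _ _ _ a
    ((algebraMap F E).comp (σ : F →+* F)).toAlgebra σ.symm (RingEquiv.refl E) ?_ h
  ext x
  show algebraMap F E (σ (σ.symm x)) = algebraMap F E x
  rw [σ.apply_symm_apply]

/-- The substitution of `X⁻¹` for `X`. -/
theorem exists_sigma (K : Type) [Field K] : ∃ σ : RatFunc K ≃+* RatFunc K,
    (σ : RatFunc K →+* RatFunc K).comp (algebraMap K[X] (RatFunc K)) =
      Polynomial.eval₂RingHom (RatFunc.C (K := K)) (RatFunc.X (K := K))⁻¹ := by
  obtain ⟨ψ, hψ⟩ : ∃ ψ, ψ = Polynomial.eval₂RingHom (RatFunc.C (K := K)) (RatFunc.X (K := K))⁻¹ :=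
    ⟨_, rfl⟩
  have hinj : Function.Injective ψ := by
    have h1 : Transcendental K ((RatFunc.X (K := K))⁻¹) := by
      intro h
      exact RatFunc.transcendental_X ((IsAlgebraic.inv_iff).1 h)
    rw [transcendental_iff_injective] at h1
    intro a b hab
    refine h1 ?_
    rw [hψ] at hab
    simpa only [Polynomial.aeval_def, RatFunc.algebraMap_eq_C, coe_eval₂RingHom] using hab
  have hle : nonZeroDivisors K[X] ≤ (nonZeroDivisors (RatFunc K)).comap ψ := by
    intro p hp
    rw [Submonoid.mem_comap, mem_nonZeroDivisors_iff_ne_zero]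
    exact fun h => nonZeroDivisors.ne_zero hp (hinj (h.trans (map_zero _).symm))
  obtain ⟨τ, hτ⟩ : ∃ τ, τ = RatFunc.liftRingHom ψ hle := ⟨_, rfl⟩
  have hτ1 : τ.comp (algebraMap K[X] (RatFunc K)) = ψ := by
    rw [hτ]
    exact RatFunc.liftRingHom_comp_algebraMap ψ hle
  have hτC : ∀ a, τ (RatFunc.C a) = RatFunc.C a := by
    intro a
    rw [← RatFunc.algebraMap_C]
    have := congrArg (fun f : K[X] →+* RatFunc K => f (C a)) hτ1
    simp only [RingHom.comp_apply] at this
    rw [this, hψ]
    simp
  have hτX : τ (RatFunc.X) = (RatFunc.X)⁻¹ := by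
    rw [← RatFunc.algebraMap_X]
    have := congrArg (fun f : K[X] →+* RatFunc K => f X) hτ1
    simp only [RingHom.comp_apply] at this
    rw [this, hψ]
    simp
  have hττ : ∀ p : K[X], τ (τ (algebraMap K[X] (RatFunc K) p)) = algebraMap K[X] (RatFunc K) p := by
    have h1 : (τ.comp τ).comp (algebraMap K[X] (RatFunc K)) = algebraMap K[X] (RatFunc K) := by
      refine Polynomial.ringHom_ext (fun a => ?_) ?_
      · simp only [RingHom.comp_apply, RatFunc.algebraMap_C, hτC]
      · simp only [RingHom.comp_apply, RatFunc.algebraMap_X, hτX, map_inv₀, inv_inv]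
    intro p
    exact congrArg (fun f : K[X] →+* RatFunc K => f p) h1
  have hττ' : ∀ f, τ (τ f) = f := by
    intro f
    rw [← RatFunc.num_div_denom f, map_div₀, map_div₀, hττ, hττ]
  exact ⟨RingEquiv.ofRingHom τ τ (RingHom.ext hττ') (RingHom.ext hττ'), hτ1.trans hψ⟩

end B8aaux

open B8aaux

theorem exists_inf_places (K E : Type) [Field K] [Field E] [Algebra (RatFunc K) E]
    [FiniteDimensional (RatFunc K) E] [Algebra.IsSeparable (RatFunc K) E] :
    ∃ (I : Type) (_ : Finite I) (_ : Nonempty I) (v : I → Valuation E ℤᵐ⁰),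
      (∀ i, ∃ π, v i π = WithZero.exp (-1)) ∧
      (∀ i x, (pI K E).IsIntegralElem x → v i x ≤ 1) ∧
      (∀ i, v i (pI K E X) ≤ WithZero.exp (-1)) ∧
      ∀ (x : E) (R : ℕ), (pE K E).IsIntegralElem x → (∀ i, v i (pI K E X ^ R * x) ≤ 1) →
        (pI K E).IsIntegralElem (pI K E X ^ R * x) := by
  obtain ⟨σ, hσ⟩ := exists_sigma K
  obtain ⟨I, h1, h2, v, hv1, hv2, hv3, hv4⟩ :
      ∃ (I : Type) (_ : Finite I) (_ : Nonempty I) (v : I → Valuation E ℤᵐ⁰),
      (∀ i, ∃ π, v i π = WithZero.exp (-1)) ∧
      (∀ i x, (pI K E).IsIntegralElem x → v i x ≤ 1) ∧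
      (∀ i, v i (pI K E X) ≤ WithZero.exp (-1)) ∧
      ∀ y : E, (∀ w : Valuation E ℤᵐ⁰, (∀ p, w (pI K E p) ≤ 1) → w (pI K E X) = 1 → w y ≤ 1) →
        (∀ i, v i y ≤ 1) → (pI K E).IsIntegralElem y := by
    have key := places_of_hom K E ((algebraMap (RatFunc K) E).comp (σ : RatFunc K →+* RatFunc K)) ?_
      (sep_comp (RatFunc K) E σ)
    · rw [RingHom.comp_assoc, hσ] at key
      exact key
    · have h1 : (algebraMap (RatFunc K) E).Finite := by
        rw [RingHom.finite_algebraMap]
        infer_instance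
      exact RingHom.Finite.comp h1 (RingHom.Finite.of_surjective _ σ.surjective)
  refine ⟨I, h1, h2, v, hv1, hv2, hv3, fun x R hx hxR => hv4 _ (fun w hw hwX => ?_) hxR⟩
  have hX : pE K E X = (pI K E X)⁻¹ := by
    simp [pE, pI]
  have hC : ∀ a, pE K E (C a) = pI K E (C a) := by
    intro a
    simp [pE, pI]
  have hw' : ∀ p, w (pE K E p) ≤ 1 := by
    intro p
    induction p using Polynomial.induction_on' with
    | add p q hp hq =>
      rw [map_add]
      exact (w.map_add _ _).trans (max_le hp hq)
    | monomial n a =>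
      rw [← C_mul_X_pow_eq_monomial, map_mul, map_mul, map_pow, map_pow, hX, map_inv₀, hwX, hC]
      simpa using hw (C a)
  rw [map_mul, map_pow, hwX, one_pow, one_mul]
  obtain ⟨p, hp, hpx⟩ := hx
  have h3 : IsIntegral w.integer x := by
    let f : K[X] →+* w.integer := (pE K E).codRestrict w.integer hw'
    refine ⟨p.map f, hp.map f, ?_⟩
    rw [eval₂_map]
    exact hpx
  exact Valuation.Integers.mem_of_integral (Valuation.integer.integers w) h3

end Pool.Agent.GT
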