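import Pool.Agent.Lib.MP_98022b_gl.Defs

/-!
# Comparison of the sets of common fixed points

Task A7. For a fixed `s₀ ∈ S` with a nontrivial element in `E 2 s₀` the sets `FixS (E k s₀)`,
`k = 2, 4, 6`, are decreasing, nonempty and have at most two elements. So two consecutive ones are
equal, and `FixS (E k s)` is between them for `k = 3` or `k = 5`.
-/

set_option autoImplicit false

open Set

namespace Pool.Agent.GT

variable {G Ω : Type} [Group G] [MulAction G Ω]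

private lemma A7_anti {E E' : Set G} (h : E ⊆ E') : FixS Ω E' ⊆ FixS Ω E :=
  fun _ hω γ hγ => hω γ (h hγ)

theorem squeeze {S : Finset G} {E : ℕ → G → Set G} (N : G → Prop)
    (hE : ∀ k, ∀ s ∈ S, ∀ s' ∈ S, E k s ⊆ E (k + 1) s')
    (hne : ∀ s ∈ S, (FixS Ω (E 6 s)).Nonempty)
    (hcard : ∀ g : G, N g → {ω : Ω | g • ω = ω}.encard ≤ 2)
    (h2 : ∃ s ∈ S, ∃ γ ∈ E 2 s, N γ) :
    ∃ k : ℕ, (k = 3 ∨ k = 5) ∧ ∃ l : Set Ω, ∀ s ∈ S, (∃ γ ∈ E k s, N γ) ∧ l = FixS Ω (E k s) := by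
  obtain ⟨s₀, hs₀, γ, hγ, hN⟩ := h2
  have hγ3 : ∀ s ∈ S, γ ∈ E 3 s := fun s hs => hE 2 s₀ hs₀ s hs hγ
  have hγ4 : ∀ s ∈ S, γ ∈ E 4 s := fun s hs => hE 3 s₀ hs₀ s hs (hγ3 s₀ hs₀)
  have hγ5 : ∀ s ∈ S, γ ∈ E 5 s := fun s hs => hE 4 s₀ hs₀ s hs (hγ4 s₀ hs₀)
  have h42 : FixS Ω (E 4 s₀) ⊆ FixS Ω (E 2 s₀) :=
    A7_anti ((hE 2 s₀ hs₀ s₀ hs₀).trans (hE 3 s₀ hs₀ s₀ hs₀))
  have h64 : FixS Ω (E 6 s₀) ⊆ FixS Ω (E 4 s₀) :=
    A7_anti ((hE 4 s₀ hs₀ s₀ hs₀).trans (hE 5 s₀ hs₀ s₀ hs₀))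
  have hc2 : (FixS Ω (E 2 s₀)).encard ≤ 2 := by
    refine le_trans (encard_le_encard ?_) (hcard γ hN)
    intro ω hω
    exact hω γ hγ
  by_cases he : FixS Ω (E 4 s₀) = FixS Ω (E 2 s₀)
  · refine ⟨3, Or.inl rfl, FixS Ω (E 2 s₀), fun s hs => ⟨⟨γ, hγ3 s hs, hN⟩, ?_⟩⟩
    apply Subset.antisymm
    · rw [← he]
      exact A7_anti (hE 3 s hs s₀ hs₀)
    · exact A7_anti (hE 2 s₀ hs₀ s hs)
  · have hfin : (FixS Ω (E 2 s₀)).Finite := by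
      apply Set.finite_of_encard_le_coe (k := 2)
      exact_mod_cast hc2
    have hlt : (FixS Ω (E 4 s₀)).encard < (FixS Ω (E 2 s₀)).encard :=
      (hfin.subset h42).encard_lt_encard (h42.ssubset_of_ne he)
    have h41 : (FixS Ω (E 4 s₀)).encard ≤ 1 := by
      have h1 : (FixS Ω (E 4 s₀)).encard < 2 := lt_of_lt_of_le hlt hc2
      have h3 : (2 : ℕ∞) = 1 + 1 := by norm_num
      rw [h3] at h1
      exact Order.le_of_lt_add_one h1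
    have hss : (FixS Ω (E 4 s₀)).Subsingleton := Set.encard_le_one_iff_subsingleton.1 h41
    have he' : FixS Ω (E 6 s₀) = FixS Ω (E 4 s₀) := by
      apply Subset.antisymm h64
      intro ω hω
      obtain ⟨ω', hω'⟩ := hne s₀ hs₀
      rw [hss hω (h64 hω')]
      exact hω'
    refine ⟨5, Or.inr rfl, FixS Ω (E 4 s₀), fun s hs => ⟨⟨γ, hγ5 s hs, hN⟩, ?_⟩⟩
    apply Subset.antisymm
    · rw [← he']
      exact A7_anti (hE 5 s hs s₀ hs₀)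
    · exact A7_anti (hE 4 s₀ hs₀ s hs)

end Pool.Agent.GT
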