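import Mathlib

/-!
# The projective line as a coset space
-/

set_option autoImplicit false

namespace Pool.Agent.GT

/-- The group of the upper triangular invertible matrices. -/
def Bor (F : Type) [Field F] : Subgroup (GL (Fin 2) F) where
  carrier := {M | M.1 1 0 = 0}
  mul_mem' {M N} hM hN := by
    have hM' : M.1 1 0 = 0 := hM
    have hN' : N.1 1 0 = 0 := hN
    show (M.1 * N.1) 1 0 = 0
    rw [Matrix.mul_apply, Fin.sum_univ_two, hM', hN']
    ring
  one_mem' := by simp
  inv_mem' {M} hM := by
    have hM' : M.1 1 0 = 0 := hM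
    show (M⁻¹).1 1 0 = 0
    rw [Matrix.coe_units_inv, Matrix.inv_def, Matrix.adjugate_fin_two]
    simp [hM']

/-- The points of the projective line over `F`. -/
abbrev Ln (F : Type) [Field F] : Type := GL (Fin 2) F ⧸ Bor F

/-- `u` is an eigenvector of `M` (or `0`). -/
def IsEig {F : Type} [Field F] (M : Matrix (Fin 2) (Fin 2) F) (u : Fin 2 → F) : Prop :=
  ∃ c : F, M.mulVec u = c • u

/-- The extension of scalars. -/
abbrev toF (E F : Type) [Field E] [Field F] [Algebra E F] : GL (Fin 2) E →* GL (Fin 2) F :=
  Matrix.GeneralLinearGroup.map (algebraMap E F)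

end Pool.Agent.GT
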