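import Pool.Agent.Lib.MP_98022b_gl.LineDefs

/-!
# The action on the projective line

Task B5a.
-/

set_option autoImplicit false

namespace Pool.Agent.GT

variable {F : Type} [Field F]

private theorem lines_mk (x g : GL (Fin 2) F) :
    g • (x : Ln F) = (x : Ln F) ↔ IsEig g.1 (x.1.mulVec ![1, 0]) := by
  rw [eq_comm, MulAction.Quotient.smul_coe, QuotientGroup.eq, smul_eq_mul]
  set N : GL (Fin 2) F := x⁻¹ * (g * x) with hN
  have h1 : x.1 * N.1 = g.1 * x.1 := by
    have h2 : x * N = g * x := by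
      rw [hN]
      group
    exact congrArg Units.val h2
  have h3 : g.1.mulVec (x.1.mulVec ![1, 0]) = x.1.mulVec (N.1.mulVec ![1, 0]) := by
    rw [Matrix.mulVec_mulVec, Matrix.mulVec_mulVec, h1]
  have h4 : N ∈ Bor F ↔ N.1 1 0 = 0 := Iff.rfl
  rw [h4]
  constructor
  · intro h5
    refine ⟨N.1 0 0, ?_⟩
    have h6 : N.1.mulVec ![1, 0] = N.1 0 0 • ![1, 0] := by
      funext i
      fin_cases i
      · simp [Matrix.mulVec, dotProduct, Fin.sum_univ_two]
      · simp [Matrix.mulVec, dotProduct, Fin.sum_univ_two, h5]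
    rw [h3, h6, Matrix.mulVec_smul]
  · rintro ⟨c, hc⟩
    rw [h3, ← Matrix.mulVec_smul] at hc
    have h7 : N.1.mulVec ![1, 0] = c • ![1, 0] := by
      have h8 := congrArg (fun v => (x⁻¹).1.mulVec v) hc
      simp only [Matrix.mulVec_mulVec] at h8
      have h9 : (x⁻¹).1 * x.1 = 1 := by
        exact x.inv_mul
      rw [← Matrix.mul_assoc, h9, Matrix.one_mul, Matrix.one_mulVec] at h8
      exact h8
    have h10 := congrFun h7 1
    simpa [Matrix.mulVec, dotProduct, Fin.sum_univ_two] using h10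

theorem exists_line (u : Fin 2 → F) (hu : u ≠ 0) :
    ∃ ω : Ln F, ∀ g : GL (Fin 2) F, g • ω = ω ↔ IsEig g.1 u := by
  have h1 : ∃ x : GL (Fin 2) F, x.1.mulVec ![1, 0] = u := by
    by_cases h0 : u 0 = 0
    · have h2 : u 1 ≠ 0 := by
        intro h3
        apply hu
        funext i
        fin_cases i
        · exact h0
        · exact h3
      refine ⟨Matrix.GeneralLinearGroup.mkOfDetNeZero !![u 0, 1; u 1, 0] ?_, ?_⟩
      · rw [Matrix.det_fin_two_of]
        simpa using h2
      · funext i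
        fin_cases i
        · simp [Matrix.GeneralLinearGroup.mkOfDetNeZero, Matrix.mulVec, dotProduct,
            Fin.sum_univ_two]
        · simp [Matrix.GeneralLinearGroup.mkOfDetNeZero, Matrix.mulVec, dotProduct,
            Fin.sum_univ_two]
    · refine ⟨Matrix.GeneralLinearGroup.mkOfDetNeZero !![u 0, 0; u 1, 1] ?_, ?_⟩
      · rw [Matrix.det_fin_two_of]
        simpa using h0
      · funext i
        fin_cases i
        · simp [Matrix.GeneralLinearGroup.mkOfDetNeZero, Matrix.mulVec, dotProduct,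
            Fin.sum_univ_two]
        · simp [Matrix.GeneralLinearGroup.mkOfDetNeZero, Matrix.mulVec, dotProduct,
            Fin.sum_univ_two]
  obtain ⟨x, hx⟩ := h1
  refine ⟨(x : Ln F), fun g => ?_⟩
  rw [lines_mk, hx]

theorem line_rep (ω : Ln F) :
    ∃ u : Fin 2 → F, u ≠ 0 ∧ ∀ g : GL (Fin 2) F, g • ω = ω ↔ IsEig g.1 u := by
  induction ω using QuotientGroup.induction_on with
  | H x =>
    refine ⟨x.1.mulVec ![1, 0], ?_, fun g => lines_mk x g⟩
    intro h
    have h8 := congrArg (fun v => (x⁻¹).1.mulVec v) h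
    simp only [Matrix.mulVec_mulVec] at h8
    have h9 : (x⁻¹).1 * x.1 = 1 := x.inv_mul
    rw [h9, Matrix.one_mulVec, Matrix.mulVec_zero] at h8
    have h10 := congrFun h8 0
    simp at h10

/-- The determinant of two vectors. -/
private def lines_cr (u v : Fin 2 → F) : F := u 0 * v 1 - u 1 * v 0

private theorem lines_eq {x y : GL (Fin 2) F}
    (h : lines_cr (x.1.mulVec ![1, 0]) (y.1.mulVec ![1, 0]) = 0) : (x : Ln F) = (y : Ln F) := by
  rw [QuotientGroup.eq]
  have h4 : x⁻¹ * y ∈ Bor F ↔ (x⁻¹ * y).1 1 0 = 0 := Iff.rfl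
  rw [h4]
  have h5 : (x⁻¹ * y).1 = (x⁻¹).1 * y.1 := rfl
  rw [h5, Matrix.coe_units_inv, Matrix.inv_def, Matrix.adjugate_fin_two]
  simp only [lines_cr, Matrix.mulVec, dotProduct, Fin.sum_univ_two] at h
  simp at h
  simp [Matrix.mul_apply, Fin.sum_univ_two]
  linear_combination (x.1.det)⁻¹ * h

private theorem lines_scalar {A : Matrix (Fin 2) (Fin 2) F} {u v w : Fin 2 → F}
    (huv : lines_cr u v ≠ 0) (huw : lines_cr u w ≠ 0) (hvw : lines_cr v w ≠ 0)
    (hu : IsEig A u) (hv : IsEig A v) (hw : IsEig A w) :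
    ∃ c : F, A = c • (1 : Matrix (Fin 2) (Fin 2) F) := by
  obtain ⟨a, ha⟩ := hu
  obtain ⟨b, hb⟩ := hv
  obtain ⟨c, hc⟩ := hw
  have a0 := congrFun ha 0
  have a1 := congrFun ha 1
  have b0 := congrFun hb 0
  have b1 := congrFun hb 1
  have c0 := congrFun hc 0
  have c1 := congrFun hc 1
  simp only [Matrix.mulVec, dotProduct, Fin.sum_univ_two, Pi.smul_apply, smul_eq_mul] at *
  unfold lines_cr at huv huw hvw
  have hac : a = c := by
    have h1 : (a - c) * ((v 0 * w 1 - v 1 * w 0) * (u 0 * v 1 - u 1 * v 0)) = 0 := by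
      linear_combination (-(v 1 : F)) * ((v 0 * w 1 - v 1 * w 0) * a0 -
        (u 0 * w 1 - u 1 * w 0) * b0 + (u 0 * v 1 - u 1 * v 0) * c0) +
        (v 0 : F) * ((v 0 * w 1 - v 1 * w 0) * a1 -
        (u 0 * w 1 - u 1 * w 0) * b1 + (u 0 * v 1 - u 1 * v 0) * c1)
    exact sub_eq_zero.1 ((mul_eq_zero.1 h1).resolve_right (mul_ne_zero hvw huv))
  have hbc : b = c := by
    have h1 : (b - c) * ((u 0 * w 1 - u 1 * w 0) * (u 0 * v 1 - u 1 * v 0)) = 0 := by
      linear_combination (-(u 1 : F)) * ((v 0 * w 1 - v 1 * w 0) * a0 -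
        (u 0 * w 1 - u 1 * w 0) * b0 + (u 0 * v 1 - u 1 * v 0) * c0) +
        (u 0 : F) * ((v 0 * w 1 - v 1 * w 0) * a1 -
        (u 0 * w 1 - u 1 * w 0) * b1 + (u 0 * v 1 - u 1 * v 0) * c1)
    exact sub_eq_zero.1 ((mul_eq_zero.1 h1).resolve_right (mul_ne_zero huw huv))
  subst hac
  subst hbc
  have e00 : A 0 0 = b := by
    have h1 : (A 0 0 - b) * (u 0 * v 1 - u 1 * v 0) = 0 := by
      linear_combination (v 1 : F) * a0 - u 1 * b0
    exact sub_eq_zero.1 ((mul_eq_zero.1 h1).resolve_right huv)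
  have e01 : A 0 1 = 0 := by
    have h1 : A 0 1 * (u 0 * v 1 - u 1 * v 0) = 0 := by
      linear_combination (u 0 : F) * b0 - v 0 * a0
    exact (mul_eq_zero.1 h1).resolve_right huv
  have e10 : A 1 0 = 0 := by
    have h1 : A 1 0 * (u 0 * v 1 - u 1 * v 0) = 0 := by
      linear_combination (v 1 : F) * a1 - u 1 * b1
    exact (mul_eq_zero.1 h1).resolve_right huv
  have e11 : A 1 1 = b := by
    have h1 : (A 1 1 - b) * (u 0 * v 1 - u 1 * v 0) = 0 := by
      linear_combination (u 0 : F) * b1 - v 0 * a1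
    exact sub_eq_zero.1 ((mul_eq_zero.1 h1).resolve_right huv)
  refine ⟨b, ?_⟩
  ext i j
  fin_cases i <;> fin_cases j
  · simp [e00]
  · simp [e01]
  · simp [e10]
  · simp [e11]

/-- A matrix which is not scalar fixes at most two points. -/
theorem fix_le_two (g : GL (Fin 2) F) (hg : ¬ ∃ c : F, g.1 = c • (1 : Matrix (Fin 2) (Fin 2) F)) :
    {ω : Ln F | g • ω = ω}.encard ≤ 2 := by
  have key : ∀ x y z : Ln F, g • x = x → g • y = y → g • z = z → x ≠ y → z = x ∨ z = y := by
    intro x y z
    induction x using QuotientGroup.induction_on with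
    | H x =>
      induction y using QuotientGroup.induction_on with
      | H y =>
        induction z using QuotientGroup.induction_on with
        | H z =>
          intro hx hy hz hxy
          rw [lines_mk] at hx hy hz
          by_contra hcon
          push Not at hcon
          refine hg (lines_scalar (u := x.1.mulVec ![1, 0]) (v := y.1.mulVec ![1, 0])
            (w := z.1.mulVec ![1, 0]) ?_ ?_ ?_ hx hy hz)
          · exact fun h => hxy (lines_eq h)
          · exact fun h => hcon.1 (lines_eq h).symm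
          · exact fun h => hcon.2 (lines_eq h).symm
  have h2 : ∀ x y : Ln F, ({x, y} : Set (Ln F)).encard ≤ 2 := by
    intro x y
    refine (Set.encard_insert_le _ _).trans ?_
    rw [Set.encard_singleton]
    norm_num
  rcases Set.eq_empty_or_nonempty {ω : Ln F | g • ω = ω} with h | ⟨x, hx⟩
  · rw [h]
    simp
  · by_cases h3 : ∃ y ∈ {ω : Ln F | g • ω = ω}, x ≠ y
    · obtain ⟨y, hy, hxy⟩ := h3
      refine (Set.encard_le_encard ?_).trans (h2 x y)
      intro z hz
      rcases key x y z hx hy hz hxy with h | h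
      · left
        exact h
      · right
        exact h
    · push Not at h3
      refine (Set.encard_le_encard ?_).trans (h2 x x)
      intro z hz
      left
      exact (h3 z hz).symm

/-- The diagonal entries. -/
private def lines_dg (F : Type) [Field F] : Bor F →* F × F where
  toFun M := (M.1.1 0 0, M.1.1 1 1)
  map_one' := by simp
  map_mul' M N := by
    have hN : N.1.1 1 0 = 0 := N.2
    have hM : M.1.1 1 0 = 0 := M.2
    have h1 : (M * N).1.1 = M.1.1 * N.1.1 := rfl
    rw [h1]
    simp [Matrix.mul_apply, Fin.sum_univ_two, hN, hM]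

private theorem lines_solv (F : Type) [Field F] : Group.IsSolvable (Bor F) := by
  let f : Bor F →* (F × F)ˣ := (lines_dg F).toHomUnits
  have hf : ∀ a : f.ker, a.1.1.1 0 0 = 1 ∧ a.1.1.1 1 1 = 1 ∧ a.1.1.1 1 0 = 0 := by
    intro a
    have h1 : f a.1 = 1 := a.2
    have h2 : lines_dg F a.1 = 1 := by
      have h3 := congrArg Units.val h1
      exact h3
    have h4 : (a.1.1.1 0 0, a.1.1.1 1 1) = ((1 : F), (1 : F)) := h2
    rw [Prod.mk.injEq] at h4
    exact ⟨h4.1, h4.2, a.1.2⟩
  have h1 : Group.IsSolvable f.ker := by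
    refine Group.isSolvable_of_comm fun a b => ?_
    obtain ⟨a0, a1, a2⟩ := hf a
    obtain ⟨b0, b1, b2⟩ := hf b
    apply Subtype.ext
    apply Subtype.ext
    apply Units.ext
    show a.1.1.1 * b.1.1.1 = b.1.1.1 * a.1.1.1
    ext i j
    rw [Matrix.mul_apply, Matrix.mul_apply, Fin.sum_univ_two, Fin.sum_univ_two]
    fin_cases i <;> fin_cases j
    · simp [a0, a1, a2, b0, b1, b2]
    · simp [a0, a1, a2, b0, b1, b2, add_comm]
    · simp [a0, a1, a2, b0, b1, b2]
    · simp [a0, a1, a2, b0, b1, b2]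
  exact Group.isSolvable_of_ker_le_range f.ker.subtype f (by simp)

/-- The stabilizer of a point is solvable. -/
theorem solvable_line (ω : Ln F) : IsSolvable (MulAction.stabilizer (GL (Fin 2) F) ω) := by
  induction ω using QuotientGroup.induction_on with
  | H x =>
    have h1 : (x : Ln F) = x • ((1 : GL (Fin 2) F) : Ln F) := by
      rw [MulAction.Quotient.smul_coe, smul_eq_mul, mul_one]
    rw [h1, MulAction.stabilizer_smul_eq_stabilizer_map_conj, MulAction.stabilizer_quotient]
    have h2 := lines_solv F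
    exact Group.isSolvable_of_surjective
      (MonoidHom.subgroupMap_surjective (MulAut.conj x).toMonoidHom (Bor F))

end Pool.Agent.GT
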