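import Pool.Agent.Lib.MP_98022b_gl.AmenP
import Pool.Agent.Lib.MP_98022b_fa.Hull

/-!
# Finitely generated groups acting on finitely many trees

Task A11.
-/

set_option autoImplicit false

open Set
open scoped Pointwise

namespace Pool.Agent.GT

open Pool.Agent.FA Pool.Agent.FJ

variable {P : ∀ (G : Type) [Group G], Prop}

private theorem A11_countable {G : Type} [Group G] (hG : Group.FG G) : Countable G := by
  classical
  obtain ⟨α, hα, φ, hφ⟩ := Group.fg_iff_exists_freeGroup_hom_surjective_finite.1 hG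
  have h1 : Countable (FreeGroup α) := by
    refine Function.Surjective.countable (f := fun L : List (α × Bool) => FreeGroup.mk L) ?_
    intro x
    exact ⟨x.toWord, FreeGroup.mk_toWord⟩
  exact hφ.countable

private theorem A11_two (hP : IsFJClassA P) {G X : Type} [Group G] [MulAction G X]
    {H : Subgroup G} {l : Set X} (hne : l.Nonempty) (hl : l.encard ≤ 2)
    (hH : ∀ g ∈ H, g • l = l)
    (h : ∀ x ∈ l, ∀ y ∈ l, P ↥(MulAction.stabilizer G x ⊓ MulAction.stabilizer G y)) : P H := by
  classical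
  obtain ⟨x, hx⟩ := hne
  have hfin : l.Finite := Set.finite_of_encard_le_coe (k := 2) (by exact_mod_cast hl)
  have hsub : MulAction.orbit H x ⊆ l := by
    rintro _ ⟨g, rfl⟩
    have h1 : (g : G) • x ∈ (g : G) • l := smul_mem_smul_set hx
    rw [hH g g.2] at h1
    exact h1
  have hone : (l \ {x}).encard ≤ 1 := by
    have h1 := Set.encard_sdiff_singleton_add_one hx
    rw [← h1] at hl
    have h2 : (l \ {x}).encard + 1 ≤ 1 + 1 := by
      rw [one_add_one_eq_two]
      exact hl
    exact (WithTop.add_le_add_iff_right (by exact ENat.natCast_ne_top 1)).1 h2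
  rw [Set.encard_le_one_iff] at hone
  obtain ⟨y, hy, hyl⟩ : ∃ y ∈ l, ∀ z ∈ l, z ≠ x → z = y := by
    by_cases h1 : ∃ y ∈ l, y ≠ x
    · obtain ⟨y, hy, hyx⟩ := h1
      exact ⟨y, hy, fun z hz hzx => hone z y ⟨hz, hzx⟩ ⟨hy, hyx⟩⟩
    · push Not at h1
      exact ⟨x, hx, fun z hz hzx => absurd (h1 z hz) hzx⟩
  refine hP.of_finiteIndex (MulAction.stabilizer H x) ⟨?_⟩ ?_
  · rw [MulAction.index_stabilizer, Ne, Set.ncard_eq_zero (hfin.subset hsub)]
    exact Set.Nonempty.ne_empty ⟨x, MulAction.mem_orbit_self x⟩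
  · refine hP.of_injective (H := ↥(MulAction.stabilizer G x ⊓ MulAction.stabilizer G y))
      ((H.subtype.comp (MulAction.stabilizer H x).subtype).codRestrict _ ?_) ?_ (h x hx y hy)
    · rintro ⟨g, hg⟩
      have hgx : (g : G) • x = x := hg
      refine ⟨hgx, ?_⟩
      show (g : G) • y = y
      by_cases hyx : y = x
      · rw [hyx, hgx]
      · refine hyl _ ?_ ?_
        · have h1 : (g : G) • y ∈ (g : G) • l := smul_mem_smul_set hy
          rw [hH g g.2] at h1
          exact h1
        · intro h1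
          apply hyx
          rw [← hgx] at h1
          exact MulAction.injective (g : G) h1
    · intro a b hab
      have h1 : ((a : H) : G) = ((b : H) : G) :=
        congrArg (fun w : ↥(MulAction.stabilizer G x ⊓ MulAction.stabilizer G y) => (w : G)) hab
      exact Subtype.ext (Subtype.ext h1)

theorem mem_of_trees_fg (hP : IsFJClassA P) {G I Ω : Type} [Group G] [Finite I] [Nonempty I]
    [MulAction G Ω] (hG : Group.FG G) {V : I → Type} [∀ i, MulAction G (V i)]
    [∀ i, Countable (V i)] {T : ∀ i, SimpleGraph (V i)} (hT : ∀ i, (T i).IsTree)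
    (hadj : ∀ i (g : G) (u v : V i), (T i).Adj u v → (T i).Adj (g • u) (g • v))
    (ha : ∀ i (v : V i), P (MulAction.stabilizer G v))
    (hb : ∀ ω ω' : Ω, P ↥(MulAction.stabilizer G ω ⊓ MulAction.stabilizer G ω'))
    (hc : ∀ g : G, NT V g → {ω : Ω | g • ω = ω}.encard ≤ 2)
    (hd : ∀ R : ℕ, ∃ L : ℕ, ∀ x y : ∀ i, V i, (∀ i, L ≤ (T i).dist (x i) (y i)) →
      (FixS Ω (Sh G T R x y)).Nonempty) : P G := by
  have := A11_countable hG
  refine hP.amenable (PFam T Ω) (finitelyAmenable_of_trees hG hT hadj hc hd) ?_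
  rintro H (⟨i, v, hH⟩ | ⟨i, u, v, -, hH⟩ | ⟨l, hne, hl, hH⟩)
  · refine hP.of_injective (H := MulAction.stabilizer G v)
      (Subgroup.inclusion (H := H) (K := MulAction.stabilizer G v) fun g hg => hH g hg)
      (Subgroup.inclusion_injective _) (ha i v)
  · refine A11_two hP (l := ({u, v} : Set (V i))) ⟨u, Or.inl rfl⟩ ?_ hH fun x _ y _ => ?_
    · refine (Set.encard_insert_le _ _).trans ?_
      rw [Set.encard_singleton, one_add_one_eq_two]
    · exact hP.of_injective (H := MulAction.stabilizer G x)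
        (Subgroup.inclusion inf_le_left) (Subgroup.inclusion_injective _) (ha i x)
  · exact A11_two hP hne hl hH fun x _ y _ => hb x y

end Pool.Agent.GT
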