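import Pool.Agent.Lib.MP_98022b_gl.AvoidNeg
import Pool.Agent.Lib.MP_98022b_fa.Hull

/-!
# `PGL_2` of an algebraically closed field

Task C3. By `IsFJClass.locally` consider a finite set of elements of `PGL_2(F)`. Lift them to
matrices of determinant `1` (a finite set `s`; divide by a square root of the determinant), let
`H = closure s`. An element of `H` which is scalar is `1` or `-1`. If `2 ≠ 0` in `F` let `N` be as in
`exists_avoid`, otherwise `N = ⊤`: `N` has finite index in `H` and its map to `PGL_2(F)` is injective,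
so the image of `N` is in `P`, and it has finite index in the image of `H`.
-/

set_option autoImplicit false

namespace Pool.Agent.GT

open Pool.Agent.FJ

variable {P : ∀ (G : Type) [Group G], Prop}

private theorem C3_lift {F : Type} [Field F] [IsAlgClosed F]
    (x : Matrix.ProjGenLinGroup (Fin 2) F) :
    ∃ M : GL (Fin 2) F, Matrix.ProjGenLinGroup.mk M = x ∧ M.1.det = 1 := by
  obtain ⟨M, rfl⟩ := Matrix.ProjGenLinGroup.mk_surjective x
  have hd : M.1.det ≠ 0 := ((Matrix.isUnit_iff_isUnit_det _).1 M.isUnit).ne_zero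
  obtain ⟨c, hc⟩ := IsAlgClosed.exists_pow_nat_eq (M.1.det)⁻¹ (show 0 < 2 by norm_num)
  have hc0 : c ≠ 0 := by
    rintro rfl
    rw [zero_pow two_ne_zero] at hc
    exact inv_ne_zero hd hc.symm
  refine ⟨M * Matrix.GeneralLinearGroup.scalar (Fin 2) (Units.mk0 c hc0), ?_, ?_⟩
  · rw [map_mul, Matrix.ProjGenLinGroup.mk_scalar, mul_one]
  · rw [Units.val_mul, Matrix.det_mul]
    have h1 : (Matrix.GeneralLinearGroup.scalar (Fin 2) (Units.mk0 c hc0)).1.det = c ^ 2 := by
      show (Matrix.scalar (Fin 2) c).det = c ^ 2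
      rw [Matrix.scalar_apply, Matrix.det_diagonal]
      simp [pow_two]
    rw [h1, hc, mul_inv_cancel₀ hd]

private theorem C3_scalar {F : Type} [Field F] {M : GL (Fin 2) F} (hM : M.1.det = 1)
    (h : (Matrix.ProjGenLinGroup.mk M : Matrix.ProjGenLinGroup (Fin 2) F) = 1) :
    M = 1 ∨ M.1 = -1 := by
  rw [Matrix.ProjGenLinGroup.mk_eq_one,
    Matrix.GeneralLinearGroup.mem_center_iff_val_mem_range_scalar] at h
  obtain ⟨c, hc⟩ := h
  rw [← hc, Matrix.scalar_apply, Matrix.det_diagonal] at hM
  have h1 : c * c = 1 := by rwa [Fin.prod_univ_two] at hM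
  rcases mul_self_eq_one_iff.1 h1 with h2 | h2
  · left
    apply Units.ext
    rw [← hc, h2, map_one]
    rfl
  · right
    rw [← hc, h2, map_neg, map_one]

theorem mem_PGL_closed (hP : IsFJClass P) {F : Type} [Field F] [IsAlgClosed F]
    (hF : P (GL (Fin 2) F)) : P (Matrix.ProjGenLinGroup (Fin 2) F) := by
  classical
  choose L hL hdet using C3_lift (F := F)
  refine hP.locally fun S => ?_
  set s : Finset (GL (Fin 2) F) := S.image L with hs
  set H : Subgroup (GL (Fin 2) F) := Subgroup.closure (s : Set (GL (Fin 2) F)) with hH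
  have hH1 : ∀ M ∈ H, M.1.det = 1 := by
    intro M hM
    have h1 : H ≤ (Matrix.GeneralLinearGroup.det (n := Fin 2) (R := F)).ker := by
      rw [hH, Subgroup.closure_le]
      intro M hM
      rw [hs, Finset.coe_image] at hM
      obtain ⟨x, _, rfl⟩ := hM
      rw [SetLike.mem_coe, MonoidHom.mem_ker]
      apply Units.ext
      exact hdet x
    exact congrArg Units.val (h1 hM)
  let π : GL (Fin 2) F →* Matrix.ProjGenLinGroup (Fin 2) F := Matrix.ProjGenLinGroup.mk
  refine ⟨H.map π, fun x hx => ?_, ?_⟩
  · exact ⟨L x, Subgroup.subset_closure (by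
      rw [hs, Finset.coe_image]
      exact ⟨x, hx, rfl⟩), hL x⟩
  · obtain ⟨N, hN, hN1⟩ : ∃ N : Subgroup H, N.FiniteIndex ∧
        ∀ x ∈ N, π (x : GL (Fin 2) F) = 1 → x = 1 := by
      by_cases h2 : (2 : F) = 0
      · refine ⟨⊤, inferInstance, fun x _ hx => ?_⟩
        apply Subtype.ext
        rcases C3_scalar (hH1 x x.2) hx with h3 | h3
        · exact h3
        · apply Units.ext
          rw [h3]
          have h4 : (-1 : F) = 1 := by
            have : (1 : F) + 1 = 0 := by rw [one_add_one_eq_two, h2]
            exact (eq_neg_of_add_eq_zero_left this).symm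
          have h5 : (-1 : Matrix (Fin 2) (Fin 2) F) = (-1 : F) • 1 := by rw [neg_smul, one_smul]
          rw [h5, h4, one_smul]
          rfl
      · obtain ⟨N, hN, hN1⟩ := exists_avoid h2 s
        refine ⟨N, hN, fun x hx hx1 => ?_⟩
        apply Subtype.ext
        rcases C3_scalar (hH1 x x.2) hx1 with h3 | h3
        · exact h3
        · exact absurd h3 (hN1 x hx)
    have hPN : P N := hP.subgroup N (hP.subgroup H hF)
    have hsur : Function.Surjective (π.subgroupMap H) := π.subgroupMap_surjective H
    have hfin : (N.map (π.subgroupMap H)).FiniteIndex := by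
      refine ⟨fun h0 => hN.index_ne_zero ?_⟩
      have := Subgroup.index_map_dvd N hsur
      rw [h0] at this
      exact zero_dvd_iff.1 this
    refine hP.of_finiteIndex _ hfin ?_
    have hinj : Function.Injective ((π.subgroupMap H).subgroupMap N) := by
      rw [injective_iff_map_eq_one]
      intro a ha
      have h1 : π ((a : H) : GL (Fin 2) F) = 1 := by
        have h2 := congrArg (fun z : N.map (π.subgroupMap H) =>
          ((z : H.map π) : Matrix.ProjGenLinGroup (Fin 2) F)) ha
        exact h2
      exact Subtype.ext (hN1 a a.2 h1)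
    exact hP.of_equiv (MulEquiv.ofBijective _
      ⟨hinj, (π.subgroupMap H).subgroupMap_surjective N⟩).symm hPN

end Pool.Agent.GT
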