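import Pool.Agent.Lib.MP_98022b_gl.NilKer
import Pool.Agent.Lib.MP_98022b_gl.StepF

/-!
# Functoriality of `PGL_2`

Task C4. (`Matrix.GeneralLinearGroup.map_center_le`, `mk_eq_mk_iff`.) `solvable_ker_pmap`: a member of
the kernel is the class of a matrix `M` which is scalar modulo each `ker (f i)`, so
`M = d + N` with the entries of `N` in the intersection `J` of the kernels, `J ^ k = 0`; `d` is a
unit (its square is congruent to `det M` modulo `J`), and the class of `M` is that of
`1 + N / d`, a member of the kernel of `GL_2(R) → GL_2(R / J)`, which is solvable (`solvable_ker`).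
-/

set_option autoImplicit false

namespace Pool.Agent.GT

/-- The homomorphism of projective groups induced by a ring homomorphism. -/
abbrev pmap {R S : Type} [CommRing R] [CommRing S] (f : R →+* S) :
    Matrix.ProjGenLinGroup (Fin 2) R →* Matrix.ProjGenLinGroup (Fin 2) S :=
  Matrix.ProjGenLinGroup.map f

theorem pmap_mk {R S : Type} [CommRing R] [CommRing S] (f : R →+* S) (M : GL (Fin 2) R) :
    pmap f (Matrix.ProjGenLinGroup.mk M) =
      Matrix.ProjGenLinGroup.mk (Matrix.GeneralLinearGroup.map f M) := rfl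

/-- The centre of `GL_2`. -/
private theorem c4_center {R : Type} [CommRing R] {g : GL (Fin 2) R} :
    g ∈ Subgroup.center (GL (Fin 2) R) ↔
      g.1 0 1 = 0 ∧ g.1 1 0 = 0 ∧ g.1 0 0 = g.1 1 1 := by
  rw [Matrix.GeneralLinearGroup.mem_center_iff_val_mem_range_scalar]
  constructor
  · rintro ⟨a, ha⟩
    rw [← ha]
    simp
  · rintro ⟨h1, h2, h3⟩
    refine ⟨g.1 1 1, ?_⟩
    ext i j
    fin_cases i <;> fin_cases j
    · simp [h3]
    · simp [h1]
    · simp [h2]
    · simp

theorem pmap_injective {R S : Type} [CommRing R] [CommRing S] (f : R →+* S)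
    (hf : Function.Injective f) : Function.Injective (pmap f) := by
  rw [injective_iff_map_eq_one]
  intro x hx
  obtain ⟨M, rfl⟩ := Matrix.ProjGenLinGroup.mk_surjective x
  rw [pmap_mk, Matrix.ProjGenLinGroup.mk_eq_one, c4_center] at hx
  rw [Matrix.ProjGenLinGroup.mk_eq_one, c4_center]
  obtain ⟨h1, h2, h3⟩ := hx
  rw [Matrix.GeneralLinearGroup.map_apply] at h1 h2 h3
  rw [Matrix.GeneralLinearGroup.map_apply] at h3
  refine ⟨hf ?_, hf ?_, hf h3⟩
  · rw [h1, map_zero]
  · rw [h2, map_zero]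

theorem solvable_ker_pmap {R I : Type} [CommRing R] {S : I → Type} [∀ i, CommRing (S i)]
    (f : ∀ i, R →+* S i) (k : ℕ) (hk : (⨅ i, RingHom.ker (f i)) ^ k = ⊥) :
    Group.IsSolvable (MonoidHom.pi fun i => pmap (f i)).ker := by
  set J : Ideal R := ⨅ i, RingHom.ker (f i) with hJ
  have hmem : ∀ a : R, (∀ i, f i a = 0) → a ∈ J := by
    intro a ha
    rw [hJ, Ideal.mem_iInf]
    exact ha
  have hnil : ∀ a ∈ J, IsNilpotent a := by
    intro a ha
    refine ⟨k, ?_⟩
    have h1 := Ideal.pow_mem_pow ha k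
    rwa [hk, Ideal.mem_bot] at h1
  set K : Subgroup (GL (Fin 2) R) :=
    (Matrix.GeneralLinearGroup.map (n := Fin 2) (Ideal.Quotient.mk J)).ker with hK
  have hKs : Group.IsSolvable K := by
    refine solvable_ker (Ideal.Quotient.mk J) k ?_
    rw [Ideal.mk_ker]
    exact hk
  -- the image of `K`
  have hle : (MonoidHom.pi fun i => pmap (f i)).ker ≤
      K.map (Matrix.ProjGenLinGroup.mk (n := Fin 2) (R := R)) := by
    intro x hx
    obtain ⟨M, rfl⟩ := Matrix.ProjGenLinGroup.mk_surjective x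
    have h1 : ∀ i, f i (M.1 0 1) = 0 ∧ f i (M.1 1 0) = 0 ∧ f i (M.1 0 0) = f i (M.1 1 1) := by
      intro i
      have h2 : pmap (f i) (Matrix.ProjGenLinGroup.mk M) = 1 :=
        congrFun (MonoidHom.mem_ker.1 hx) i
      rw [pmap_mk, Matrix.ProjGenLinGroup.mk_eq_one, c4_center] at h2
      exact h2
    have h01 : M.1 0 1 ∈ J := hmem _ fun i => (h1 i).1
    have h10 : M.1 1 0 ∈ J := hmem _ fun i => (h1 i).2.1
    have h00 : M.1 0 0 - M.1 1 1 ∈ J := hmem _ fun i => by
      rw [map_sub, (h1 i).2.2, sub_self]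
    have hu : IsUnit (M.1 1 1) := by
      have hdet : IsUnit M.1.det := (Matrix.isUnit_iff_isUnit_det _).1 M.isUnit
      have e : M.1 1 1 * M.1 1 1 =
          M.1.det + (-(M.1 0 0 - M.1 1 1) * M.1 1 1 + M.1 0 1 * M.1 1 0) := by
        rw [Matrix.det_fin_two]
        ring
      have hn : -(M.1 0 0 - M.1 1 1) * M.1 1 1 + M.1 0 1 * M.1 1 0 ∈ J :=
        J.add_mem (J.mul_mem_right _ (J.neg_mem h00)) (J.mul_mem_right _ h01)
      have h3 : IsUnit (M.1 1 1 * M.1 1 1) := by
        rw [e]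
        exact (hnil _ hn).isUnit_add_left_of_commute hdet (Commute.all _ _)
      exact isUnit_of_mul_isUnit_left h3
    obtain ⟨d, hd⟩ := hu
    refine ⟨M * Matrix.GeneralLinearGroup.scalar (Fin 2) d⁻¹, ?_, ?_⟩
    · rw [hK, SetLike.mem_coe, MonoidHom.mem_ker]
      have hent : ∀ i j, (M * Matrix.GeneralLinearGroup.scalar (Fin 2) d⁻¹).1 i j =
          M.1 i j * ((d⁻¹ : Rˣ) : R) := by
        intro i j
        show (M.1 * (Matrix.GeneralLinearGroup.scalar (Fin 2) d⁻¹).1) i j = _
        rw [Matrix.GeneralLinearGroup.coe_scalar, Matrix.scalar_apply,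
          Matrix.mul_diagonal]
      apply Units.ext
      ext i j
      rw [Matrix.GeneralLinearGroup.map_apply, hent]
      have hdd : (d : R) * ((d⁻¹ : Rˣ) : R) = 1 := d.mul_inv
      fin_cases i <;> fin_cases j
      · show Ideal.Quotient.mk J (M.1 0 0 * ((d⁻¹ : Rˣ) : R)) = 1
        rw [← map_one (Ideal.Quotient.mk J), Ideal.Quotient.eq]
        have e : M.1 0 0 * ((d⁻¹ : Rˣ) : R) - 1 = (M.1 0 0 - M.1 1 1) * ((d⁻¹ : Rˣ) : R) := by
          rw [sub_mul, ← hd, hdd]
        rw [e]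
        exact J.mul_mem_right _ h00
      · show Ideal.Quotient.mk J (M.1 0 1 * ((d⁻¹ : Rˣ) : R)) = 0
        rw [Ideal.Quotient.eq_zero_iff_mem]
        exact J.mul_mem_right _ h01
      · show Ideal.Quotient.mk J (M.1 1 0 * ((d⁻¹ : Rˣ) : R)) = 0
        rw [Ideal.Quotient.eq_zero_iff_mem]
        exact J.mul_mem_right _ h10
      · show Ideal.Quotient.mk J (M.1 1 1 * ((d⁻¹ : Rˣ) : R)) = 1
        rw [← hd, hdd, map_one]
    · exact (Matrix.ProjGenLinGroup.mk_eq_mk_iff.2 ⟨d⁻¹, rfl⟩).symm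
  have h2 : Group.IsSolvable (K.map (Matrix.ProjGenLinGroup.mk (n := Fin 2) (R := R))) :=
    Group.isSolvable_of_surjective (Matrix.ProjGenLinGroup.mk.subgroupMap_surjective K)
  exact Group.isSolvable_of_isSolvable_injective (Subgroup.inclusion_injective hle)

end Pool.Agent.GT
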