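import Pool.Agent.Lib.MP_98022b_gl.Domain
import Pool.Agent.Lib.MP_98022b_gl.NilKer

/-!
# All commutative rings

Task B18. `mem_fgRing`: `R` is Noetherian; the map to the product of the domains `R / p` over the
(finitely many) minimal primes has the nilradical as kernel, which is nilpotent. Extension property:
the preimages of cyclic groups are solvable. `mem_GL2`: `IsFJClass.locally`; the entries of a
finite set of matrices and their inverses generate a finitely generated subring.
-/

set_option autoImplicit false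

namespace Pool.Agent.GT

open Pool.Agent.FJ

variable {P : ∀ (G : Type) [Group G], Prop}

/-- An extension of a cyclic group by a solvable group. -/
private theorem B18aux_solv {G Q : Type} [Group G] [Group Q] (F : G →* Q)
    (hF : Group.IsSolvable F.ker) (q : Q) :
    Group.IsSolvable ((Subgroup.zpowers q).comap F) := by
  let f : F.ker →* (Subgroup.zpowers q).comap F :=
    { toFun := fun x => ⟨x, by
        rw [Subgroup.mem_comap, F.mem_ker.1 x.2]
        exact Subgroup.one_mem _⟩
      map_one' := rfl
      map_mul' := fun _ _ => rfl }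
  let g : (Subgroup.zpowers q).comap F →* Subgroup.zpowers q :=
    (F.comp (Subgroup.subtype _)).codRestrict _ fun x => x.2
  have h1 : Group.IsSolvable (Subgroup.zpowers q) := by
    refine Group.isSolvable_of_comm ?_
    rintro ⟨_, m, rfl⟩ ⟨_, n, rfl⟩
    apply Subtype.ext
    change q ^ m * q ^ n = q ^ n * q ^ m
    rw [← zpow_add, ← zpow_add, add_comm]
  refine Group.isSolvable_of_ker_le_range f g ?_
  intro x hx
  refine ⟨⟨x, ?_⟩, rfl⟩
  rw [MonoidHom.mem_ker]
  exact congrArg Subtype.val (MonoidHom.mem_ker.1 hx)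

private theorem B18aux_entry {A B : Type} [CommRing A] [CommRing B] (f : A →+* B)
    {g : GL (Fin 2) A} (hg : Matrix.GeneralLinearGroup.map f g = 1) (i j : Fin 2) :
    f ((g : Matrix (Fin 2) (Fin 2) A) i j) = (1 : Matrix (Fin 2) (Fin 2) B) i j := by
  have h := Matrix.GeneralLinearGroup.map_apply f i j g
  rw [hg] at h
  exact h.symm

theorem mem_fgRing (hP : IsFJClassA P) (hsol : ∀ (G : Type) [Group G], IsSolvable G → P G)
    (hQ : ∀ n : ℕ, P (GL (Fin n) ℚ)) {R : Type} [CommRing R] (s : Finset R)
    (hs : Subring.closure (s : Set R) = ⊤) : P (GL (Fin 2) R) := by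
  classical
  have hft : Algebra.FiniteType ℤ R := ⟨⟨s, by
    rw [Algebra.adjoin_int, hs]
    rfl⟩⟩
  have hN : IsNoetherianRing R := Algebra.FiniteType.isNoetherianRing ℤ R
  have hfin : (minimalPrimes R).Finite := minimalPrimes.finite_of_isNoetherianRing R
  have := hfin.to_subtype
  -- the map to the product of the domains
  let φ : R →+* ∀ p : minimalPrimes R, R ⧸ p.1 := RingHom.pi fun p => Ideal.Quotient.mk p.1
  have hker : RingHom.ker φ ≤ nilradical R := by
    intro x hx
    have h1 : x ∈ sInf (⊥ : Ideal R).minimalPrimes := by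
      rw [Ideal.mem_sInf]
      intro p hp
      have := congrFun ((RingHom.mem_ker).1 hx) ⟨p, hp⟩
      exact Ideal.Quotient.eq_zero_iff_mem.1 this
    rw [Ideal.sInf_minimalPrimes] at h1
    exact h1
  obtain ⟨k, hk⟩ := IsNoetherianRing.isNilpotent_nilradical R
  have hk' : RingHom.ker φ ^ k = ⊥ := by
    rw [eq_bot_iff]
    refine (Ideal.pow_right_mono hker k).trans ?_
    rw [hk]
    exact le_rfl
  let F : GL (Fin 2) R →* ∀ p : minimalPrimes R, GL (Fin 2) (R ⧸ p.1) :=
    MonoidHom.pi fun p => Matrix.GeneralLinearGroup.map (Ideal.Quotient.mk p.1)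
  have hFker : F.ker ≤ (Matrix.GeneralLinearGroup.map (n := Fin 2) φ).ker := by
    intro g hg
    rw [MonoidHom.mem_ker] at hg ⊢
    apply Units.ext
    ext i j p
    rw [Matrix.GeneralLinearGroup.map_apply]
    have h1 : Matrix.GeneralLinearGroup.map (Ideal.Quotient.mk p.1) g = 1 := congrFun hg p
    have h2 := B18aux_entry _ h1 i j
    change Ideal.Quotient.mk p.1 ((g : Matrix (Fin 2) (Fin 2) R) i j) = _
    rw [h2]
    by_cases hij : i = j
    · subst hij
      simp
    · simp [hij]
  have hsolK : Group.IsSolvable F.ker := by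
    have h1 : Group.IsSolvable (Matrix.GeneralLinearGroup.map (n := Fin 2) φ).ker :=
      solvable_ker φ k hk'
    exact Group.isSolvable_of_isSolvable_injective (Subgroup.inclusion_injective hFker)
  refine hP.extension F ?_ fun q => hsol _ (B18aux_solv F hsolK q)
  refine hP.toIsFJClass.pi' fun p => ?_
  have hp : p.1.IsPrime := p.2.1.1
  have : IsDomain (R ⧸ p.1) := Ideal.Quotient.isDomain p.1
  refine mem_domain hP hsol hQ (s.image (Ideal.Quotient.mk p.1)) ?_
  rw [Finset.coe_image, ← RingHom.map_closure, hs, eq_top_iff]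
  intro x _
  obtain ⟨y, rfl⟩ := Ideal.Quotient.mk_surjective x
  exact ⟨y, trivial, rfl⟩

theorem mem_GL2 (hP : IsFJClassA P) (hsol : ∀ (G : Type) [Group G], IsSolvable G → P G)
    (hQ : ∀ n : ℕ, P (GL (Fin n) ℚ)) (R : Type) [CommRing R] : P (GL (Fin 2) R) := by
  classical
  refine hP.toIsFJClass.locally fun S => ?_
  -- the entries
  let ent : GL (Fin 2) R → Finset R := fun g =>
    (Finset.univ.image fun q : Fin 2 × Fin 2 => (g : Matrix (Fin 2) (Fin 2) R) q.1 q.2) ∪
      Finset.univ.image fun q : Fin 2 × Fin 2 =>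
        ((g⁻¹ : GL (Fin 2) R) : Matrix (Fin 2) (Fin 2) R) q.1 q.2
  let T : Finset R := S.biUnion ent
  let A : Subring R := Subring.closure (T : Set R)
  have hTA : ∀ t ∈ T, t ∈ A := fun t ht => Subring.subset_closure ht
  let F : GL (Fin 2) A →* GL (Fin 2) R := Matrix.GeneralLinearGroup.map A.subtype
  have hFinj : Function.Injective F := by
    intro g h hgh
    apply Units.ext
    ext i j
    have h1 := Matrix.GeneralLinearGroup.map_apply A.subtype i j g
    have h2 := Matrix.GeneralLinearGroup.map_apply A.subtype i j h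
    change Matrix.GeneralLinearGroup.map A.subtype g = Matrix.GeneralLinearGroup.map A.subtype h
      at hgh
    rw [hgh, h2] at h1
    exact h1.symm
  refine ⟨F.range, ?_, ?_⟩
  · intro g hg
    have h1 : ∀ i j, (g : Matrix (Fin 2) (Fin 2) R) i j ∈ A := fun i j =>
      hTA _ (Finset.mem_biUnion.2 ⟨g, hg, Finset.mem_union_left _
        (Finset.mem_image.2 ⟨(i, j), Finset.mem_univ _, rfl⟩)⟩)
    have h2 : ∀ i j, ((g⁻¹ : GL (Fin 2) R) : Matrix (Fin 2) (Fin 2) R) i j ∈ A := fun i j =>
      hTA _ (Finset.mem_biUnion.2 ⟨g, hg, Finset.mem_union_right _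
        (Finset.mem_image.2 ⟨(i, j), Finset.mem_univ _, rfl⟩)⟩)
    let M : Matrix (Fin 2) (Fin 2) A := fun i j => ⟨_, h1 i j⟩
    let N : Matrix (Fin 2) (Fin 2) A := fun i j => ⟨_, h2 i j⟩
    have hM : M.map A.subtype = (g : Matrix (Fin 2) (Fin 2) R) := rfl
    have hN : N.map A.subtype = ((g⁻¹ : GL (Fin 2) R) : Matrix (Fin 2) (Fin 2) R) := rfl
    have hinj : Function.Injective fun X : Matrix (Fin 2) (Fin 2) A => X.map A.subtype :=
      Matrix.map_injective A.subtype_injective
    have hMN : M * N = 1 := by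
      apply hinj
      change (M * N).map A.subtype = (1 : Matrix (Fin 2) (Fin 2) A).map A.subtype
      rw [Matrix.map_mul, hM, hN, Matrix.map_one _ (map_zero _) (map_one _)]
      exact g.mul_inv
    have hNM : N * M = 1 := by
      apply hinj
      change (N * M).map A.subtype = (1 : Matrix (Fin 2) (Fin 2) A).map A.subtype
      rw [Matrix.map_mul, hM, hN, Matrix.map_one _ (map_zero _) (map_one _)]
      exact g.inv_mul
    refine ⟨⟨M, N, hMN, hNM⟩, ?_⟩
    apply Units.ext
    ext i j
    exact Matrix.GeneralLinearGroup.map_apply A.subtype i j _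
  · refine hP.toIsFJClass.of_equiv (MonoidHom.ofInjective hFinj).symm ?_
    refine mem_fgRing hP hsol hQ (T.attach.image fun t => (⟨t.1, hTA _ t.2⟩ : A)) ?_
    have hinjm : ∀ B C : Subring A, B.map A.subtype = C.map A.subtype → B = C := by
      intro B C hBC
      ext x
      have h1 : ∀ D : Subring A, A.subtype x ∈ D.map A.subtype ↔ x ∈ D := by
        intro D
        constructor
        · rintro ⟨y, hy, hyx⟩
          rwa [← A.subtype_injective hyx]
        · intro hx
          exact ⟨x, hx, rfl⟩
      rw [← h1, ← h1, hBC]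
    apply hinjm
    rw [RingHom.map_closure]
    have himg : A.subtype '' ((T.attach.image fun t => (⟨t.1, hTA _ t.2⟩ : A) : Finset A) : Set A)
        = (T : Set R) := by
      ext x
      constructor
      · rintro ⟨y, hy, rfl⟩
        rw [Finset.mem_coe, Finset.mem_image] at hy
        obtain ⟨t, _, rfl⟩ := hy
        exact t.2
      · intro hx
        refine ⟨⟨x, hTA _ hx⟩, ?_, rfl⟩
        rw [Finset.mem_coe, Finset.mem_image]
        exact ⟨⟨x, hx⟩, Finset.mem_attach _ _, rfl⟩
    rw [himg]
    ext x
    constructor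
    · intro hx
      exact ⟨⟨x, hx⟩, trivial, rfl⟩
    · rintro ⟨y, _, rfl⟩
      exact y.2

end Pool.Agent.GT
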