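import Pool.Agent.Lib.MP_98022b_gl.PGLField
import Pool.Agent.Lib.MP_98022b_gl.PGLMap
import Pool.Agent.Lib.MP_98022b_gl.RingF

/-!
# `PGL_2` of commutative rings

Task C5. `mem_PGL_domain`: `pmap` to the algebraic closure `F` of the fraction field is injective;
`mem_GL2` for `F` and `mem_PGL_closed`. `mem_PGL_fgRing`: as `mem_fgRing`, with
`solvable_ker_pmap` for the quotients by the minimal primes. `mem_PGL2`: `IsFJClass.locally`; a finite
set of elements comes from a finite set of matrices, whose entries and those of the inverses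
generate a finitely generated subring `A`; the elements are in the image of `pmap A.subtype`, which is
injective. `mem_of_hom`: extension property (the preimages of cyclic groups are solvable).
-/

set_option autoImplicit false

namespace Pool.Agent.GT

open Pool.Agent.FJ

variable {P : ∀ (G : Type) [Group G], Prop}

namespace C5aux

/-- An extension of a cyclic group by a solvable group. -/
theorem solv {G Q : Type} [Group G] [Group Q] (F : G →* Q) (hF : Group.IsSolvable F.ker) (q : Q) :
    Group.IsSolvable ((Subgroup.zpowers q).comap F) := by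
  let f : F.ker →* (Subgroup.zpowers q).comap F :=
    { toFun := fun x => ⟨x, by
        rw [Subgroup.mem_comap, F.mem_ker.1 x.2]
        exact Subgroup.one_mem _⟩
      map_one' := rfl
      map_mul' := fun _ _ => rfl }
  let g : (Subgroup.zpowers q).comap F →* Subgroup.zpowers q :=
    (F.comp (Subgroup.subtype _)).codRestrict _ fun x => x.2
  have h1 : Group.IsSolvable (Subgroup.zpowers q) := by
    refine Group.isSolvable_of_comm ?_
    rintro ⟨_, m, rfl⟩ ⟨_, n, rfl⟩
    apply Subtype.ext
    change q ^ m * q ^ n = q ^ n * q ^ m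
    rw [← zpow_add, ← zpow_add, add_comm]
  refine Group.isSolvable_of_ker_le_range f g ?_
  intro x hx
  refine ⟨⟨x, ?_⟩, rfl⟩
  rw [MonoidHom.mem_ker]
  exact congrArg Subtype.val (MonoidHom.mem_ker.1 hx)

/-- The subring generated by a finite set is finitely generated. -/
theorem closure_attach {R : Type} [CommRing R] [DecidableEq R] (T : Finset R) :
    ∃ s : Finset (Subring.closure (T : Set R)),
      Subring.closure (s : Set (Subring.closure (T : Set R))) = ⊤ := by
  classical
  let A : Subring R := Subring.closure (T : Set R)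
  have hTA : ∀ t ∈ T, t ∈ A := fun t ht => Subring.subset_closure ht
  refine ⟨T.attach.image fun t => (⟨t.1, hTA _ t.2⟩ : A), ?_⟩
  have hinjm : ∀ B C : Subring A, B.map A.subtype = C.map A.subtype → B = C := by
    intro B C hBC
    ext x
    have h1 : ∀ D : Subring A, A.subtype x ∈ D.map A.subtype ↔ x ∈ D := by
      intro D
      constructor
      · rintro ⟨y, hy, hyx⟩
        rwa [← A.subtype_injective hyx]
      · intro hx
        exact ⟨x, hx, rfl⟩
    rw [← h1, ← h1, hBC]
  apply hinjm
  rw [RingHom.map_closure]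
  have himg : A.subtype '' ((T.attach.image fun t => (⟨t.1, hTA _ t.2⟩ : A) : Finset A) : Set A)
      = (T : Set R) := by
    ext x
    constructor
    · rintro ⟨y, hy, rfl⟩
      rw [Finset.mem_coe, Finset.mem_image] at hy
      obtain ⟨t, _, rfl⟩ := hy
      exact t.2
    · intro hx
      refine ⟨⟨x, hTA _ hx⟩, ?_, rfl⟩
      rw [Finset.mem_coe, Finset.mem_image]
      exact ⟨⟨x, hx⟩, Finset.mem_attach _ _, rfl⟩
  rw [himg]
  ext x
  constructor
  · intro hx
    exact ⟨⟨x, hx⟩, trivial, rfl⟩
  · rintro ⟨y, _, rfl⟩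
    exact y.2

end C5aux

open C5aux

theorem mem_PGL_domain (hP : IsFJClassA P) (hsol : ∀ (G : Type) [Group G], IsSolvable G → P G)
    (hQ : ∀ n : ℕ, P (GL (Fin n) ℚ)) (R : Type) [CommRing R] [IsDomain R] :
    P (Matrix.ProjGenLinGroup (Fin 2) R) := by
  let F := AlgebraicClosure (FractionRing R)
  let f : R →+* F := (algebraMap (FractionRing R) F).comp (algebraMap R (FractionRing R))
  have hf : Function.Injective f :=
    (algebraMap (FractionRing R) F).injective.comp (IsFractionRing.injective R (FractionRing R))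
  exact hP.toIsFJClass.of_injective (pmap f) (pmap_injective f hf)
    (mem_PGL_closed hP.toIsFJClass (mem_GL2 hP hsol hQ F))

theorem mem_PGL_fgRing (hP : IsFJClassA P) (hsol : ∀ (G : Type) [Group G], IsSolvable G → P G)
    (hQ : ∀ n : ℕ, P (GL (Fin n) ℚ)) {R : Type} [CommRing R] (s : Finset R)
    (hs : Subring.closure (s : Set R) = ⊤) : P (Matrix.ProjGenLinGroup (Fin 2) R) := by
  classical
  have hft : Algebra.FiniteType ℤ R := ⟨⟨s, by
    rw [Algebra.adjoin_int, hs]
    rfl⟩⟩
  have hN : IsNoetherianRing R := Algebra.FiniteType.isNoetherianRing ℤ R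
  have hfin : (minimalPrimes R).Finite := minimalPrimes.finite_of_isNoetherianRing R
  have := hfin.to_subtype
  have hker : (⨅ p : minimalPrimes R, RingHom.ker (Ideal.Quotient.mk p.1)) ≤ nilradical R := by
    intro x hx
    have h1 : x ∈ sInf (⊥ : Ideal R).minimalPrimes := by
      rw [Ideal.mem_sInf]
      intro p hp
      have h2 := (Submodule.mem_iInf _).1 hx ⟨p, hp⟩
      rwa [Ideal.mk_ker] at h2
    rw [Ideal.sInf_minimalPrimes] at h1
    exact h1
  obtain ⟨k, hk⟩ := IsNoetherianRing.isNilpotent_nilradical R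
  have hk' : (⨅ p : minimalPrimes R, RingHom.ker (Ideal.Quotient.mk p.1)) ^ k = ⊥ := by
    rw [eq_bot_iff]
    refine (Ideal.pow_right_mono hker k).trans ?_
    rw [hk]
    exact le_rfl
  have hsolK := solvable_ker_pmap (fun p : minimalPrimes R => Ideal.Quotient.mk p.1) k hk'
  refine hP.extension (MonoidHom.pi fun p : minimalPrimes R => pmap (Ideal.Quotient.mk p.1)) ?_
    fun q => hsol _ (solv _ hsolK q)
  refine hP.toIsFJClass.pi' fun p => ?_
  have hp : p.1.IsPrime := p.2.1.1
  have : IsDomain (R ⧸ p.1) := Ideal.Quotient.isDomain p.1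
  exact mem_PGL_domain hP hsol hQ (R ⧸ p.1)

theorem mem_PGL2 (hP : IsFJClassA P) (hsol : ∀ (G : Type) [Group G], IsSolvable G → P G)
    (hQ : ∀ n : ℕ, P (GL (Fin n) ℚ)) (R : Type) [CommRing R] :
    P (Matrix.ProjGenLinGroup (Fin 2) R) := by
  classical
  refine hP.toIsFJClass.locally fun S => ?_
  choose lift hlift using (Matrix.ProjGenLinGroup.mk_surjective (n := Fin 2) (R := R))
  let ent : GL (Fin 2) R → Finset R := fun g =>
    (Finset.univ.image fun q : Fin 2 × Fin 2 => (g : Matrix (Fin 2) (Fin 2) R) q.1 q.2) ∪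
      Finset.univ.image fun q : Fin 2 × Fin 2 =>
        ((g⁻¹ : GL (Fin 2) R) : Matrix (Fin 2) (Fin 2) R) q.1 q.2
  let T : Finset R := S.biUnion fun x => ent (lift x)
  let A : Subring R := Subring.closure (T : Set R)
  have hTA : ∀ t ∈ T, t ∈ A := fun t ht => Subring.subset_closure ht
  refine ⟨(pmap A.subtype).range, ?_, ?_⟩
  · intro x hx
    obtain ⟨U, hU⟩ := B13aux.mem_range_map A.subtype A.subtype_injective (lift x)
      (fun i j => ⟨⟨_, hTA _ (Finset.mem_biUnion.2 ⟨x, hx, Finset.mem_union_left _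
        (Finset.mem_image.2 ⟨(i, j), Finset.mem_univ _, rfl⟩)⟩)⟩, rfl⟩)
      (fun i j => ⟨⟨_, hTA _ (Finset.mem_biUnion.2 ⟨x, hx, Finset.mem_union_right _
        (Finset.mem_image.2 ⟨(i, j), Finset.mem_univ _, rfl⟩)⟩)⟩, rfl⟩)
    refine ⟨Matrix.ProjGenLinGroup.mk U, ?_⟩
    rw [pmap_mk, hU, hlift]
  · refine hP.toIsFJClass.of_equiv
      (MonoidHom.ofInjective (pmap_injective A.subtype A.subtype_injective)).symm ?_
    obtain ⟨s, hs⟩ := closure_attach T
    exact mem_PGL_fgRing hP hsol hQ s hs

theorem mem_of_hom (hP : IsFJClassA P) (hsol : ∀ (G : Type) [Group G], IsSolvable G → P G)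
    (hQ : ∀ n : ℕ, P (GL (Fin n) ℚ)) {R G : Type} [CommRing R] [Group G]
    (f : G →* Matrix.ProjGenLinGroup (Fin 2) R) (hf : Group.IsSolvable f.ker) : P G :=
  hP.extension f (mem_PGL2 hP hsol hQ R) fun q => hsol _ (solv f hf q)

end Pool.Agent.GT
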