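import Mathlib

/-!
# Trees given by a parent map

Task B1. `p v` is the parent of `v`; any two vertices have a common ancestor.
-/

set_option autoImplicit false

namespace Pool.Agent.GT

variable {V : Type} {T : SimpleGraph V} {p : V → V} {ht : V → ℤ}

private theorem up_walk (hT : ∀ u v, T.Adj u v ↔ p u = v ∨ p v = u) (u : V) (a : ℕ) :
    ∃ w : T.Walk u (p^[a] u), w.length = a := by
  induction a with
  | zero => exact ⟨SimpleGraph.Walk.nil, rfl⟩
  | succ a ih =>
    obtain ⟨w, hw⟩ := ih
    have h1 : T.Adj (p^[a] u) (p^[a + 1] u) := by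
      rw [Function.iterate_succ_apply']
      exact (hT _ _).2 (Or.inl rfl)
    exact ⟨w.concat h1, by rw [SimpleGraph.Walk.length_concat, hw]⟩

private theorem ht_iter (hp : ∀ v, ht (p v) = ht v - 1) (u : V) (a : ℕ) :
    ht (p^[a] u) = ht u - a := by
  induction a with
  | zero => simp
  | succ a ih =>
    rw [Function.iterate_succ_apply', hp, ih]
    push_cast
    ring

private theorem walk_anc (hT : ∀ u v, T.Adj u v ↔ p u = v ∨ p v = u) {u v : V} (w : T.Walk u v) :
    ∃ a b : ℕ, p^[a] u = p^[b] v ∧ a + b ≤ w.length := by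
  induction w with
  | nil => exact ⟨0, 0, rfl, le_rfl⟩
  | cons h w ih =>
    rename_i x y z
    obtain ⟨a, b, h1, h2⟩ := ih
    rw [SimpleGraph.Walk.length_cons]
    rcases (hT _ _).1 h with h3 | h3
    · refine ⟨a + 1, b, ?_, by omega⟩
      rw [Function.iterate_succ_apply, h3, h1]
    · cases a with
      | zero =>
        refine ⟨0, b + 1, ?_, by omega⟩
        rw [Function.iterate_succ_apply', ← h1]
        exact h3.symm
      | succ a =>
        refine ⟨a, b, ?_, by omega⟩
        rw [Function.iterate_succ_apply, h3] at h1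
        exact h1

theorem isTree_of_parent [Nonempty V] (hp : ∀ v, ht (p v) = ht v - 1)
    (hT : ∀ u v, T.Adj u v ↔ p u = v ∨ p v = u) (hc : ∀ u v, ∃ a b, p^[a] u = p^[b] v) :
    T.IsTree := by
  classical
  refine ⟨⟨fun u v => ?_⟩, ?_⟩
  · obtain ⟨a, b, hab⟩ := hc u v
    obtain ⟨w, -⟩ := up_walk hT u a
    obtain ⟨w', -⟩ := up_walk hT v b
    rw [hab] at w
    exact ⟨w.append w'.reverse⟩
  · intro v c hc'
    obtain ⟨w, hw, hmax⟩ := c.support.toFinset.exists_max_image ht
      ⟨v, List.mem_toFinset.2 c.start_mem_support⟩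
    rw [List.mem_toFinset] at hw
    have h1 : (c.rotate w hw).IsCycle := by
      rw [SimpleGraph.Walk.isCycle_rotate]
      exact hc'
    have h2 : ∀ x ∈ (c.rotate w hw).support, T.Adj w x → x = p w := by
      intro x hx hwx
      rw [SimpleGraph.Walk.mem_support_rotate_iff] at hx
      rcases (hT _ _).1 hwx with h3 | h3
      · exact h3.symm
      · have h4 := hp x
        have h5 := hmax x (List.mem_toFinset.2 hx)
        rw [h3] at h4
        omega
    refine h1.snd_ne_penultimate ?_
    have h6 := h2 (c.rotate w hw).snd (SimpleGraph.Walk.getVert_mem_support _ _)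
      (SimpleGraph.Walk.adj_snd h1.not_nil)
    have h7 := h2 (c.rotate w hw).penultimate (SimpleGraph.Walk.getVert_mem_support _ _)
      (SimpleGraph.Walk.adj_penultimate h1.not_nil).symm
    rw [h6, h7]

theorem dist_of_parent (hp : ∀ v, ht (p v) = ht v - 1)
    (hT : ∀ u v, T.Adj u v ↔ p u = v ∨ p v = u) (hc : ∀ u v, ∃ a b, p^[a] u = p^[b] v)
    {u v : V} {a b : ℕ} (hab : p^[a] u = p^[b] v)
    (hmin : ∀ a' b', p^[a'] u = p^[b'] v → a ≤ a') : T.dist u v = a + b := by
  obtain ⟨w, hw⟩ := up_walk hT u a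
  obtain ⟨w', hw'⟩ := up_walk hT v b
  have h1 : ∃ w : T.Walk u v, w.length = a + b := by
    have h2 : ∃ w'' : T.Walk u (p^[b] v), w''.length = a := by
      rw [← hab]
      exact ⟨w, hw⟩
    obtain ⟨w'', hw''⟩ := h2
    exact ⟨w''.append w'.reverse, by
      rw [SimpleGraph.Walk.length_append, SimpleGraph.Walk.length_reverse, hw'', hw']⟩
  obtain ⟨w1, hw1⟩ := h1
  refine le_antisymm (hw1 ▸ SimpleGraph.dist_le w1) ?_
  obtain ⟨w2, hw2⟩ := (show T.Reachable u v from ⟨w1⟩).exists_walk_length_eq_dist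
  rw [← hw2]
  obtain ⟨a', b', h3, h4⟩ := walk_anc hT w2
  have h5 := hmin a' b' h3
  have h6 := congrArg ht hab
  have h7 := congrArg ht h3
  rw [ht_iter hp, ht_iter hp] at h6 h7
  omega

end Pool.Agent.GT
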