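import Mathlib

/-!
# Products of contractible and of locally contractible spaces

Task A1a.
-/

set_option autoImplicit false

namespace Pool.Agent.GT

theorem contractibleSpace_pi {I : Type} [Finite I] {X : I → Type} [∀ i, TopologicalSpace (X i)]
    (h : ∀ i, ContractibleSpace (X i)) : ContractibleSpace (∀ i, X i) := by
  rw [contractible_iff_id_nullhomotopic]
  have h1 : ∀ i, ∃ y : X i, ContinuousMap.Homotopic (ContinuousMap.id (X i))
      (ContinuousMap.const _ y) := fun i => id_nullhomotopic (X i)
  choose y hy using h1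
  refine ⟨y, ?_⟩
  have h2 : ContinuousMap.Homotopic
      (ContinuousMap.pi fun i => (⟨fun x : ∀ i, X i => x i, continuous_apply i⟩ : C(∀ i, X i, X i)))
      (ContinuousMap.pi fun i => ContinuousMap.const (∀ i, X i) (y i)) := by
    refine ContinuousMap.Homotopic.pi fun i => ?_
    exact ContinuousMap.Homotopic.comp (hy i) (ContinuousMap.Homotopic.refl
      (⟨fun x : ∀ i, X i => x i, continuous_apply i⟩ : C(∀ i, X i, X i)))
  exact h2

/-- The product of subspaces. -/
private def piSub {I : Type} {X : I → Type} [∀ i, TopologicalSpace (X i)] (c : ∀ i, Set (X i)) :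
    (Set.pi Set.univ c) ≃ₜ (∀ i, c i) where
  toFun x i := ⟨x.1 i, x.2 i (Set.mem_univ i)⟩
  invFun y := ⟨fun i => (y i).1, fun i _ => (y i).2⟩
  left_inv _ := rfl
  right_inv _ := rfl
  continuous_toFun := continuous_pi fun i =>
    ((continuous_apply i).comp continuous_subtype_val).subtype_mk _
  continuous_invFun := (continuous_pi fun i =>
    continuous_subtype_val.comp (continuous_apply i)).subtype_mk _

theorem stronglyLocallyContractible_pi {I : Type} [Finite I] {X : I → Type}
    [∀ i, TopologicalSpace (X i)] (h : ∀ i, StronglyLocallyContractibleSpace (X i)) :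
    StronglyLocallyContractibleSpace (∀ i, X i) := by
  constructor
  intro x
  rw [Filter.hasBasis_self]
  intro t ht
  rw [nhds_pi, Filter.mem_pi'] at ht
  obtain ⟨F, u, hu, hut⟩ := ht
  have h1 : ∀ i, ∃ c : Set (X i), c ∈ nhds (x i) ∧ ContractibleSpace c ∧ c ⊆ u i := by
    intro i
    have h2 := ((h i).contractible_basis (x i)).mem_iff.1 (hu i)
    obtain ⟨c, ⟨hc1, hc2⟩, hc3⟩ := h2
    exact ⟨c, hc1, hc2, hc3⟩
  choose c hc1 hc2 hc3 using h1
  refine ⟨Set.pi Set.univ c, set_pi_mem_nhds Set.finite_univ fun i _ => hc1 i, ?_, ?_⟩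
  · have := contractibleSpace_pi hc2
    exact (piSub c).contractibleSpace
  · exact fun y hy => hut fun i _ => hc3 i (hy i (Set.mem_univ i))

end Pool.Agent.GT
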