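import Pool.Agent.Lib.MP_98022b_gl.PlaceDefs

/-!
# Integral elements with few poles

Task B8b. `v_poly`: `(pI X) ^ d * pE p = pI (reverse of p)` for the degree `d` of `p`; its constant
term is a unit, so its valuation is `1`. `place_bound`: let `y = (pI X) ^ R * x`, `N` the norm from `E`
to `RatFunc K`, `n` the degree of `E`. The norm of `x` is the image of a polynomial, not `0`, so its
valuation is `≥ 1`, and `N y = (pI X) ^ (R * n) * N x`. As `y` is integral over `pI`, so is
`N y / y`; hence `v y ≥ v (N y) ≥ v (pI X) ^ (R * n)`.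
-/

set_option autoImplicit false

open Polynomial
open scoped WithZero

namespace Pool.Agent.GT

namespace B8baux

theorem coeff_int {R F : Type} [CommRing R] [Field F] (φ : R →+* F) {g : R[X]} (hg : g.Monic)
    {q : F[X]} (hq : q.Monic) (h : q ∣ g.map φ) (i : ℕ) : φ.IsIntegralElem (q.coeff i) := by
  let _ := φ.toAlgebra
  have h1 := integralClosure.mem_lifts_of_monic_of_dvd_map F hg hq h
  rw [Polynomial.lifts_iff_coeff_lifts] at h1
  obtain ⟨b, hb⟩ := h1 i
  rw [← hb]
  exact b.2

theorem lift_int {R F E : Type} [CommRing R] [Field F] [Field E] (φ : R →+* F) (ι : F →+* E)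
    {b : F} (hb : φ.IsIntegralElem b) : (ι.comp φ).IsIntegralElem (ι b) := by
  obtain ⟨g, hg, h⟩ := hb
  refine ⟨g, hg, ?_⟩
  rw [← Polynomial.hom_eval₂, h, map_zero]

theorem v_const {K E : Type} [Field K] [Field E] (φ : K[X] →+* E) (v : Valuation E ℤᵐ⁰)
    (h1 : ∀ x, φ.IsIntegralElem x → v x ≤ 1) (h2 : v (φ X) < 1) (q : K[X])
    (hq : q.coeff 0 ≠ 0) : v (φ q) = 1 := by
  have hint : ∀ r : K[X], v (φ r) ≤ 1 := fun r => h1 _ φ.isIntegralElem_map
  have hC : v (φ (C (q.coeff 0))) = 1 := by
    have ha := hint (C (q.coeff 0))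
    have hb := hint (C (q.coeff 0)⁻¹)
    have hab : v (φ (C (q.coeff 0))) * v (φ (C (q.coeff 0)⁻¹)) = 1 := by
      rw [← map_mul, ← map_mul, ← C_mul, mul_inv_cancel₀ hq, C_1, map_one, map_one]
    refine le_antisymm ha ?_
    rw [← hab]
    exact mul_le_of_le_one_right' hb
  have hlt : v (φ (divX q * X)) < v (φ (C (q.coeff 0))) := by
    rw [hC, map_mul, map_mul]
    exact lt_of_le_of_lt (mul_le_of_le_one_left' (hint _)) h2
  have h3 : φ q = φ (divX q * X) + φ (C (q.coeff 0)) := by
    rw [← map_add, divX_mul_X_add]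
  rw [h3, Valuation.map_add_eq_of_lt_right _ hlt, hC]

theorem pI_X (K E : Type) [Field K] [Field E] [Algebra (RatFunc K) E] :
    pI K E X = algebraMap (RatFunc K) E (RatFunc.X)⁻¹ := by
  unfold pI
  rw [RingHom.comp_apply, coe_eval₂RingHom, eval₂_X]

/-- The minimal polynomial of a multiple. -/
theorem minpoly_mul {F E : Type} [Field F] [Field E] [Algebra F E] [FiniteDimensional F E]
    (c : F) (hc : c ≠ 0) (x : E) :
    minpoly F (algebraMap F E c * x) = scaleRoots (minpoly F x) c := by
  have hint : ∀ z : E, IsIntegral F z := fun z => Algebra.IsIntegral.isIntegral z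
  have hd : ∀ (c : F) (x : E), minpoly F (algebraMap F E c * x) ∣ scaleRoots (minpoly F x) c :=
    fun c x => minpoly.dvd F _ (scaleRoots_aeval_eq_zero (minpoly.aeval F x))
  have hmon : ∀ (c : F) (x : E), (scaleRoots (minpoly F x) c).Monic := fun c x =>
    (monic_scaleRoots_iff c).2 (minpoly.monic (hint x))
  have hle : ∀ (c : F) (x : E), (minpoly F (algebraMap F E c * x)).natDegree ≤
      (minpoly F x).natDegree := by
    intro c x
    have h1 := natDegree_le_of_dvd (hd c x) (hmon c x).ne_zero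
    rwa [natDegree_scaleRoots] at h1
  have hge : (minpoly F x).natDegree ≤ (minpoly F (algebraMap F E c * x)).natDegree := by
    have h1 := hle c⁻¹ (algebraMap F E c * x)
    rwa [← mul_assoc, ← map_mul, inv_mul_cancel₀ hc, map_one, one_mul] at h1
  refine (eq_of_monic_of_dvd_of_natDegree_le (minpoly.monic (hint _)) (hmon c x) (hd c x) ?_).symm
  rw [natDegree_scaleRoots]
  exact hge

end B8baux

open B8baux

theorem v_poly {K E : Type} [Field K] [Field E] [Algebra (RatFunc K) E] (v : Valuation E ℤᵐ⁰)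
    (h1 : ∀ x, (pI K E).IsIntegralElem x → v x ≤ 1)
    (h2 : v (pI K E X) ≤ WithZero.exp (-1)) (p : K[X]) (hp : p ≠ 0) : 1 ≤ v (pE K E p) := by
  have hX : (RatFunc.X : RatFunc K) ≠ 0 := RatFunc.X_ne_zero
  have h2' : v (pI K E X) < 1 := by
    refine lt_of_le_of_lt h2 ?_
    rw [← WithZero.exp_zero, WithZero.exp_lt_exp]
    norm_num
  let _ := invertibleOfNonzero hX
  have hrev : pI K E (reverse p) * (algebraMap (RatFunc K) E RatFunc.X) ^ p.natDegree =
      pE K E p := by
    have h := Polynomial.eval₂_reverse_mul_pow (RatFunc.C (K := K)) (RatFunc.X) p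
    rw [invOf_eq_inv] at h
    have h' : eval₂RingHom (RatFunc.C (K := K)) RatFunc.X = algebraMap K[X] (RatFunc K) := by
      refine Polynomial.ringHom_ext (fun a => ?_) ?_
      · rw [coe_eval₂RingHom, eval₂_C, RatFunc.algebraMap_C]
      · rw [coe_eval₂RingHom, eval₂_X, RatFunc.algebraMap_X]
    unfold pI pE
    rw [RingHom.comp_apply, RingHom.comp_apply, coe_eval₂RingHom, ← map_pow, ← map_mul, h, ← h',
      coe_eval₂RingHom]
  rw [← hrev, map_mul, map_pow, v_const (pI K E) v h1 h2' (reverse p) (by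
    rw [coeff_zero_reverse]
    exact leadingCoeff_ne_zero.2 hp), one_mul]
  apply one_le_pow_of_one_le'
  have h3 : v (pI K E X) * v (algebraMap (RatFunc K) E RatFunc.X) = 1 := by
    rw [pI_X, ← map_mul, ← map_mul, inv_mul_cancel₀ hX, map_one, map_one]
  rw [← h3]
  exact mul_le_of_le_one_left' h2'.le

theorem place_bound {K E : Type} [Field K] [Field E] [Algebra (RatFunc K) E]
    [FiniteDimensional (RatFunc K) E] [Algebra.IsSeparable (RatFunc K) E] (v : Valuation E ℤᵐ⁰)
    (h1 : ∀ x, (pI K E).IsIntegralElem x → v x ≤ 1)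
    (h2 : v (pI K E X) ≤ WithZero.exp (-1)) (R : ℕ) :
    ∃ C : ℕ, ∀ x : E, x ≠ 0 → (pE K E).IsIntegralElem x →
      (pI K E).IsIntegralElem (pI K E X ^ R * x) → WithZero.exp (-(C : ℤ)) ≤ v x := by
  have hX : (RatFunc.X : RatFunc K) ≠ 0 := RatFunc.X_ne_zero
  have h2' : v (pI K E X) ≤ 1 := by
    refine le_trans h2 ?_
    rw [← WithZero.exp_zero, WithZero.exp_le_exp]
    norm_num
  have hne : v (pI K E X) ≠ 0 := by
    rw [Valuation.ne_zero_iff, pI_X]
    exact (_root_.map_ne_zero _).2 (inv_ne_zero hX)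
  set n := Module.finrank (RatFunc K) E with hn
  set a := WithZero.log (v (pI K E X)) with ha
  have hva : v (pI K E X) = WithZero.exp a := (WithZero.exp_log hne).symm
  have ha0 : a ≤ 0 := by
    rw [hva, ← WithZero.exp_zero, WithZero.exp_le_exp] at h2'
    exact h2'
  refine ⟨(R * n) * a.natAbs, fun x hx hx1 hx2 => ?_⟩
  have hpow : WithZero.exp (-(((R * n) * a.natAbs : ℕ) : ℤ)) = v (pI K E X) ^ (R * n) := by
    rw [hva, ← WithZero.exp_nsmul, nsmul_eq_mul]
    congr 1
    push_cast
    rw [abs_of_nonpos ha0]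
    ring
  rw [hpow]
  -- the multiplier
  set c : RatFunc K := (RatFunc.X)⁻¹ ^ R with hc
  have hc0 : c ≠ 0 := pow_ne_zero _ (inv_ne_zero hX)
  have hcE : algebraMap (RatFunc K) E c = pI K E X ^ R := by rw [pI_X, hc, map_pow]
  set y : E := pI K E X ^ R * x with hy
  have hyc : y = algebraMap (RatFunc K) E c * x := by rw [hcE]
  have hintx : IsIntegral (RatFunc K) x := Algebra.IsIntegral.isIntegral x
  have hinty : IsIntegral (RatFunc K) y := Algebra.IsIntegral.isIntegral y
  have hmin : minpoly (RatFunc K) y = scaleRoots (minpoly (RatFunc K) x) c := by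
    rw [hyc, minpoly_mul c hc0 x]
  set m := (minpoly (RatFunc K) x).natDegree with hm
  have hmn : m ≤ n := minpoly.natDegree_le x
  -- the constant coefficient of the minimal polynomial of `x`
  obtain ⟨g, hg, hgx⟩ := hx1
  have hdvd : minpoly (RatFunc K) x ∣ g.map (algebraMap K[X] (RatFunc K)) := by
    apply minpoly.dvd
    rw [aeval_def, eval₂_map]
    exact hgx
  have hcoef := coeff_int (algebraMap K[X] (RatFunc K)) hg (minpoly.monic hintx) hdvd 0
  obtain ⟨p, hp⟩ := (IsIntegrallyClosed.isIntegral_iff (R := K[X]) (K := RatFunc K)).1 hcoef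
  have hp0 : p ≠ 0 := by
    rintro rfl
    rw [map_zero] at hp
    exact minpoly.coeff_zero_ne_zero hintx hx hp.symm
  -- the coefficients of the minimal polynomial of `y`
  obtain ⟨g', hg', hgy⟩ := hx2
  have hdvd' : minpoly (RatFunc K) y ∣
      g'.map (Polynomial.eval₂RingHom (RatFunc.C (K := K)) (RatFunc.X (K := K))⁻¹) := by
    apply minpoly.dvd
    rw [aeval_def, eval₂_map]
    exact hgy
  have hb : ∀ i, v (algebraMap (RatFunc K) E ((minpoly (RatFunc K) y).coeff i)) ≤ 1 := fun i =>
    h1 _ (lift_int _ (algebraMap (RatFunc K) E)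
      (coeff_int _ hg' (minpoly.monic hinty) hdvd' i))
  have hvy : v y ≤ 1 := h1 y ⟨g', hg', hgy⟩
  -- the constant coefficient of the minimal polynomial of `y`
  have hb0 : algebraMap (RatFunc K) E ((minpoly (RatFunc K) y).coeff 0) =
      pE K E p * (pI K E X ^ R) ^ m := by
    rw [hmin, coeff_scaleRoots, Nat.sub_zero, map_mul, map_pow, hcE, ← hp]
    rfl
  have hlow : v (pI K E X) ^ (R * n) ≤
      v (algebraMap (RatFunc K) E ((minpoly (RatFunc K) y).coeff 0)) := by
    rw [hb0, map_mul, map_pow, map_pow, ← pow_mul]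
    have h3 : v (pI K E X) ^ (R * n) ≤ v (pI K E X) ^ (R * m) :=
      pow_le_pow_right_of_le_one' h2' (Nat.mul_le_mul_left R hmn)
    have h4 : 1 ≤ v (pE K E p) := v_poly v h1 h2 p hp0
    exact h3.trans (le_mul_of_one_le_left' h4)
  have hup : v (algebraMap (RatFunc K) E ((minpoly (RatFunc K) y).coeff 0)) ≤ v y := by
    have h5 := minpoly.aeval (RatFunc K) y
    rw [aeval_eq_sum_range, Finset.sum_range_succ', pow_zero, Algebra.smul_def, mul_one] at h5
    have h6 : algebraMap (RatFunc K) E ((minpoly (RatFunc K) y).coeff 0) =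
        -∑ i ∈ Finset.range (minpoly (RatFunc K) y).natDegree,
          (minpoly (RatFunc K) y).coeff (i + 1) • y ^ (i + 1) := by
      rw [eq_neg_iff_add_eq_zero, add_comm]
      exact h5
    rw [h6, Valuation.map_neg]
    refine Valuation.map_sum_le v fun i _ => ?_
    rw [Algebra.smul_def, map_mul, map_pow, pow_succ]
    calc v (algebraMap (RatFunc K) E ((minpoly (RatFunc K) y).coeff (i + 1))) * (v y ^ i * v y)
        ≤ 1 * (1 * v y) := by
          gcongr
          · exact hb _
          · exact pow_le_one' hvy i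
      _ = v y := by rw [one_mul, one_mul]
  have hyx : v y ≤ v x := by
    rw [hy, map_mul, map_pow]
    exact mul_le_of_le_one_left' (pow_le_one' h2' R)
  exact (hlow.trans hup).trans hyx

end Pool.Agent.GT
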