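import Mathlib

/-!
# Polynomials in a finite extension of the field of rational functions
-/

set_option autoImplicit false

open Polynomial

namespace Pool.Agent.GT

/-- The homomorphism from the polynomial ring. -/
noncomputable def pE (K E : Type) [Field K] [Field E] [Algebra (RatFunc K) E] : K[X] →+* E :=
  (algebraMap (RatFunc K) E).comp (algebraMap K[X] (RatFunc K))

/-- The homomorphism from the constants. -/
noncomputable def cE (K E : Type) [Field K] [Field E] [Algebra (RatFunc K) E] : K →+* E :=
  (pE K E).comp Polynomial.C

/-- The homomorphism from the polynomial ring which maps `X` to the inverse of `X`. -/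
noncomputable def pI (K E : Type) [Field K] [Field E] [Algebra (RatFunc K) E] : K[X] →+* E :=
  (algebraMap (RatFunc K) E).comp
    (Polynomial.eval₂RingHom (RatFunc.C (K := K)) (RatFunc.X (K := K))⁻¹)

end Pool.Agent.GT
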