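import Pool.Agent.Lib.MP_98022b_gl.InfPlaces
import Pool.Agent.Lib.MP_98022b_gl.PlaceBound
import Pool.Agent.Lib.MP_98022b_gl.Constants

/-!
# Places

Task B8d.
-/

set_option autoImplicit false

open Polynomial
open scoped WithZero

namespace Pool.Agent.GT

theorem exists_places (K E : Type) [Field K] [IsAlgClosed K] [Field E] [Algebra (RatFunc K) E]
    [FiniteDimensional (RatFunc K) E] [Algebra.IsSeparable (RatFunc K) E] :
    ∃ (I : Type) (_ : Finite I) (_ : Nonempty I) (v : I → Valuation E ℤᵐ⁰),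
      (∀ i, ∃ π, v i π = WithZero.exp (-1)) ∧
      (∀ x, (pE K E).IsIntegralElem x → (∀ i, v i x ≤ 1) → x ∈ (cE K E).range) ∧
      ∀ R : ℕ, ∃ C : ℕ, ∀ x : E, x ≠ 0 → (pE K E).IsIntegralElem x →
        (∀ i, v i x ≤ WithZero.exp (R : ℤ)) → ∀ i, WithZero.exp (-(C : ℤ)) ≤ v i x := by
  classical
  obtain ⟨I, hI, hne, v, h1, h2, h3, h4⟩ := exists_inf_places K E
  refine ⟨I, hI, hne, v, h1, fun x hx hv => mem_constants hx ?_, fun R => ?_⟩
  · have h5 := h4 x 0 hx (fun i => by rw [pow_zero, one_mul]; exact hv i)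
    rwa [pow_zero, one_mul] at h5
  · choose C hC using fun i => place_bound (K := K) (v i) (h2 i) (h3 i) R
    let _ : Fintype I := Fintype.ofFinite I
    refine ⟨Finset.univ.sup C, fun x hx0 hx hv i => ?_⟩
    have h5 := h4 x R hx (fun j => by
      rw [map_mul, map_pow]
      have e1 : (v j (pI K E X)) ^ R ≤ WithZero.exp (-(R : ℤ)) := by
        have e2 : (v j (pI K E X)) ^ R ≤ (WithZero.exp (-1 : ℤ)) ^ R := pow_le_pow_left₀ zero_le (h3 j) R
        refine e2.trans (le_of_eq ?_)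
        rw [← WithZero.exp_nsmul]
        congr 1
        simp
      calc (v j (pI K E X)) ^ R * v j x ≤ WithZero.exp (-(R : ℤ)) * WithZero.exp (R : ℤ) :=
            mul_le_mul' e1 (hv j)
        _ = 1 := by rw [← WithZero.exp_add, neg_add_cancel, WithZero.exp_zero])
    refine le_trans ?_ (hC i x hx0 hx h5)
    rw [WithZero.exp_le_exp]
    have h6 : C i ≤ Finset.univ.sup C := Finset.le_sup (Finset.mem_univ i)
    have h7 : ((C i : ℕ) : ℤ) ≤ ((Finset.univ.sup C : ℕ) : ℤ) := by exact_mod_cast h6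
    linarith

end Pool.Agent.GT
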