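import Pool.Agent.Lib.MP_98022b_gl.ClaimC
import Pool.Agent.Lib.MP_98022b_fa.Hull

/-!
# Groups of scalar multiples of matrices over a subfield

Task B7. Apply the extension property to `det : H → Fˣ`. Let `q ∈ Fˣ`, `r ^ 2 = q`. The members of
`H` with determinant in `⟨q⟩` are (after conjugation) `r ^ k * M` with `M` in `GL_2(K)` (each
`h = c M` with `det M = 1`, `c ^ 2 = q ^ k`, `c = r ^ k` or `- r ^ k`). If `r` is in `K` this group
embeds in `GL_2(K)`; otherwise no power of `r` is in `K` (`K` is algebraically closed) and it embeds in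
`ℤ × GL_2(K)`.
-/

set_option autoImplicit false

namespace Pool.Agent.GT

open Pool.Agent.FJ

namespace ScalarExtaux

variable {K F : Type} [Field K] [Field F] [Algebra K F]

/-- an element of `F` with a power in the algebraically closed field `K` is in `K` -/
theorem mem_of_pow [IsAlgClosed K] {r : F} {n : ℕ} (hn : 0 < n) {a : K}
    (h : r ^ n = algebraMap K F a) : ∃ b : K, algebraMap K F b = r := by
  have h0 : IsIntegral K (r ^ n) := by
    rw [h]
    exact isIntegral_algebraMap
  have h1 : IsIntegral K r := IsIntegral.of_pow hn h0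
  have h2 := IsAlgClosed.degree_eq_one_of_irreducible K (minpoly.irreducible h1)
  obtain ⟨b, hb⟩ := minpoly.mem_range_of_degree_eq_one K r h2
  exact ⟨b, hb⟩

/-- the same for integer exponents -/
theorem mem_of_zpow [IsAlgClosed K] {r : F} {n : ℤ} (hn : n ≠ 0) {a : K}
    (h : r ^ n = algebraMap K F a) : ∃ b : K, algebraMap K F b = r := by
  have hm : 0 < n.natAbs := Int.natAbs_pos.2 hn
  rcases Int.natAbs_eq n with e | e
  · rw [e, zpow_natCast] at h
    exact mem_of_pow hm h
  · rw [e, zpow_neg, zpow_natCast] at h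
    refine mem_of_pow hm (a := a⁻¹) ?_
    rw [map_inv₀, ← h, inv_inv]

/-- scalar matrices -/
def sc (F : Type) [Field F] : Fˣ →* GL (Fin 2) F := Matrix.GeneralLinearGroup.scalar (Fin 2)

theorem sc_val (c : Fˣ) : (sc F c).1 = Matrix.scalar (Fin 2) (c : F) := rfl

theorem sc_mul_val (c : Fˣ) (M : GL (Fin 2) F) : (sc F c * M).1 = (c : F) • M.1 := by
  show (sc F c).1 * M.1 = (c : F) • M.1
  rw [sc_val, Matrix.scalar_apply, ← Matrix.smul_one_eq_diagonal, Matrix.smul_mul, one_mul]

theorem sc_comm (c : Fˣ) (M : GL (Fin 2) F) : Commute (sc F c) M := by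
  apply Units.ext
  show (sc F c).1 * M.1 = M.1 * (sc F c).1
  exact Matrix.scalar_commute (c : F) (fun r => Commute.all _ _) M.1

/-- the map of the general linear groups -/
def mp (K F : Type) [Field K] [Field F] [Algebra K F] : GL (Fin 2) K →* GL (Fin 2) F :=
  Matrix.GeneralLinearGroup.map (algebraMap K F)

theorem mp_val (M : GL (Fin 2) K) : (mp K F M).1 = M.1.map (algebraMap K F) := rfl

theorem mp_injective : Function.Injective (mp K F) := by
  intro M N h
  apply Units.ext
  ext i j
  have h1 : (mp K F M).1 i j = (mp K F N).1 i j := by rw [h]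
  exact (algebraMap K F).injective h1

/-- the map of `ℤ × GL_2(K)` -/
def ph (K : Type) {F : Type} [Field K] [Field F] [Algebra K F] (r : Fˣ) :
    Multiplicative ℤ × GL (Fin 2) K →* GL (Fin 2) F :=
  MonoidHom.noncommCoprod ((sc F).comp (zpowersHom Fˣ r)) (mp K F) (fun _ _ => sc_comm _ _)

theorem ph_apply (r : Fˣ) (k : Multiplicative ℤ) (M : GL (Fin 2) K) :
    ph K r (k, M) = sc F (r ^ (Multiplicative.toAdd k)) * mp K F M := rfl

theorem sc_injective : Function.Injective (sc F) := by
  intro c d h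
  have h1 : (sc F c).1 0 0 = (sc F d).1 0 0 := by rw [h]
  apply Units.ext
  simpa [sc_val] using h1

/-- if `r` is not in `K` the map is injective -/
theorem ph_injective [IsAlgClosed K] (r : Fˣ) (hr : ¬ ∃ b : K, algebraMap K F b = (r : F)) :
    Function.Injective (ph K r) := by
  rw [injective_iff_map_eq_one]
  rintro ⟨k, M⟩ h
  rw [ph_apply] at h
  have h1 : (sc F (r ^ (Multiplicative.toAdd k)) * mp K F M).1 = 1 := by rw [h]; rfl
  rw [sc_mul_val, mp_val] at h1
  have h2 : ((r ^ (Multiplicative.toAdd k) : Fˣ) : F) * algebraMap K F (M.1 0 0) = 1 := by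
    have h3 := congrFun (congrFun h1 0) 0
    simpa using h3
  have h4 : (r : F) ^ (Multiplicative.toAdd k) = algebraMap K F (M.1 0 0)⁻¹ := by
    rw [map_inv₀]
    rw [Units.val_zpow_eq_zpow_val] at h2
    exact eq_inv_of_mul_eq_one_left h2
  have h5 : Multiplicative.toAdd k = 0 := by
    by_contra hk
    exact hr (mem_of_zpow hk h4)
  have hk : k = 1 := h5
  subst hk
  have h6 : mp K F M = 1 := by
    rw [← h]
    simp
  have h7 : M = 1 := mp_injective (by rw [h6, map_one])
  rw [h7]
  rfl

/-- the normal form of the scalar multiples -/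
theorem scal_eq [IsAlgClosed K] {q r : Fˣ} (hr : r ^ 2 = q) (h : GL (Fin 2) F) (c : Fˣ)
    (M : GL (Fin 2) K) (hM : h.1 = (c : F) • M.1.map (algebraMap K F)) (k : ℤ)
    (hdet : Matrix.GeneralLinearGroup.det h = q ^ k) :
    ∃ M' : GL (Fin 2) K, h = sc F (r ^ k) * mp K F M' := by
  obtain ⟨s, hs⟩ := IsAlgClosed.exists_eq_mul_self M.1.det
  have hdM : M.1.det ≠ 0 := (Matrix.GeneralLinearGroup.det M).ne_zero
  have hs0 : s ≠ 0 := by
    rintro rfl
    exact hdM (by rw [hs, mul_zero])
  have h1 : h.1.det = (c : F) ^ 2 * algebraMap K F M.1.det := by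
    rw [hM, Matrix.det_smul, Fintype.card_fin]
    congr 1
    exact (RingHom.map_det (algebraMap K F) M.1).symm
  have h2 : h.1.det = ((r : F) ^ k) ^ 2 := by
    have h3 : (Matrix.GeneralLinearGroup.det h : Fˣ).1 = ((q ^ k : Fˣ) : F) := by rw [hdet]
    have h4 : (Matrix.GeneralLinearGroup.det h : Fˣ).1 = h.1.det := rfl
    rw [← h4, h3, ← hr, ← zpow_natCast, ← zpow_mul, Units.val_zpow_eq_zpow_val, ← zpow_natCast,
      ← zpow_mul, mul_comm]
  have h5 : ((c : F) * algebraMap K F s) ^ 2 = ((r : F) ^ k) ^ 2 := by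
    rw [← h2, h1, hs, map_mul]
    ring
  obtain ⟨t, ht0, ht⟩ : ∃ t : K, t ≠ 0 ∧ (c : F) * algebraMap K F t = (r : F) ^ k := by
    rcases sq_eq_sq_iff_eq_or_eq_neg.1 h5 with e | e
    · exact ⟨s, hs0, e⟩
    · refine ⟨-s, neg_ne_zero.2 hs0, ?_⟩
      rw [map_neg, mul_neg, e, neg_neg]
  refine ⟨sc K (Units.mk0 t ht0)⁻¹ * M, ?_⟩
  apply Units.ext
  rw [sc_mul_val, mp_val, sc_mul_val, hM]
  ext i j
  simp only [Matrix.smul_apply, Matrix.map_apply, smul_eq_mul, map_mul, Units.val_inv_eq_inv_val,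
    Units.val_mk0, map_inv₀, Units.val_zpow_eq_zpow_val]
  rw [← ht]
  have ht1 : algebraMap K F t ≠ 0 := by
    rw [Ne, map_eq_zero]
    exact ht0
  field_simp

end ScalarExtaux

open ScalarExtaux

variable {P : ∀ (G : Type) [Group G], Prop}

theorem mem_of_scalar (hP : IsFJClass P) (hsol : ∀ (G : Type) [Group G], IsSolvable G → P G)
    {K F : Type} [Field K] [Field F] [Algebra K F] [IsAlgClosed K] [IsAlgClosed F]
    (hK : P (GL (Fin 2) K)) (H : Subgroup (GL (Fin 2) F)) (g : GL (Fin 2) F)
    (hH : ∀ h ∈ H, ScalK K F g h) : P H := by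
  refine hP.extension ((Matrix.GeneralLinearGroup.det (n := Fin 2) (R := F)).comp H.subtype)
    (hsol Fˣ (by exact Group.isSolvable_of_comm fun a b => mul_comm a b)) ?_
  intro q
  obtain ⟨r0, hr0⟩ := IsAlgClosed.exists_pow_nat_eq (q : F) (n := 2) zero_lt_two
  have hr00 : r0 ≠ 0 := by
    rintro rfl
    apply q.ne_zero
    rw [← hr0]
    simp
  set r : Fˣ := Units.mk0 r0 hr00 with hrdef
  have hr : r ^ 2 = q := by
    apply Units.ext
    rw [Units.val_pow_eq_pow_val]
    exact hr0
  -- the range of the map is in the class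
  have hran : P (ph K r).range := by
    by_cases hrK : ∃ b : K, algebraMap K F b = (r : F)
    · obtain ⟨b, hb⟩ := hrK
      have hb0 : b ≠ 0 := by
        rintro rfl
        rw [map_zero] at hb
        exact r.ne_zero hb.symm
      have hsb : ∀ k : ℤ, sc F (r ^ k) = mp K F (sc K (Units.mk0 b hb0 ^ k)) := by
        intro k
        rw [map_zpow, map_zpow, map_zpow]
        congr 1
        apply Units.ext
        rw [mp_val, sc_val, sc_val]
        ext i j
        fin_cases i <;> fin_cases j <;> simp [hb]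
      have hle : (ph K r).range ≤ (mp K F).range := by
        rintro _ ⟨⟨k, M⟩, rfl⟩
        rw [ph_apply, hsb, ← map_mul]
        exact ⟨_, rfl⟩
      exact hP.of_le hle (hP.of_equiv (MonoidHom.ofInjective mp_injective).symm hK)
    · exact hP.of_equiv (MonoidHom.ofInjective (ph_injective r hrK)).symm (hP.prod hP.int hK)
  -- the preimage embeds in the range
  have hmem : ∀ x : ((Subgroup.zpowers q).comap
      ((Matrix.GeneralLinearGroup.det (n := Fin 2) (R := F)).comp H.subtype)),
      g⁻¹ * x.1.1 * g ∈ (ph K r).range := by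
    intro x
    obtain ⟨k, hk⟩ := Subgroup.mem_zpowers_iff.1 (Subgroup.mem_comap.1 x.2)
    obtain ⟨c, M, hM⟩ := hH x.1.1 x.1.2
    have hdet : Matrix.GeneralLinearGroup.det (g⁻¹ * x.1.1 * g) = q ^ k := by
      rw [map_mul, map_mul, map_inv, hk, mul_comm, mul_inv_cancel_left]
      rfl
    obtain ⟨M', hM'⟩ := scal_eq hr _ c M hM k hdet
    exact ⟨(Multiplicative.ofAdd k, M'), by rw [ph_apply, hM']; rfl⟩
  refine hP.of_injective (H := (ph K r).range)
    { toFun := fun x => ⟨g⁻¹ * x.1.1 * g, hmem x⟩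
      map_one' := by
        apply Subtype.ext
        show g⁻¹ * 1 * g = 1
        group
      map_mul' := fun x y => by
        apply Subtype.ext
        show g⁻¹ * (x.1.1 * y.1.1) * g = (g⁻¹ * x.1.1 * g) * (g⁻¹ * y.1.1 * g)
        group } ?_ hran
  intro x y hxy
  have h1 : g⁻¹ * x.1.1 * g = g⁻¹ * y.1.1 * g := congrArg Subtype.val hxy
  have h2 : x.1.1 = y.1.1 := by
    have h3 := congrArg (fun z => g * z * g⁻¹) h1
    beta_reduce at h3
    have e1 : ∀ z : GL (Fin 2) F, g * (g⁻¹ * z * g) * g⁻¹ = z := fun z => by group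
    rw [e1, e1] at h3
    exact h3
  exact Subtype.ext (Subtype.ext h2)

end Pool.Agent.GT
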