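import Pool.Agent.Lib.MP_98022b_gl.CMoves

/-!
# The soft exit colours

Task A3b.
-/

set_option autoImplicit false

open Set Filter
open scoped Topology

namespace Pool.Agent.GT

open Pool.Agent.FA

variable {G V Δ : Type} [Group G] [MulAction G V] [TopologicalSpace Δ] [MulAction G Δ]
  {T : SimpleGraph V} {B : V → V → Set Δ}

omit [TopologicalSpace Δ] in
theorem wsum_le (β : V → ℕ) (θ h : ℕ) (g : G) (p : ℕ → V) (e : ℕ) :
    wsum β θ h g p e ≤ e * (2 * h) := by
  unfold wsum
  calc ∑ a ∈ Finset.Icc 1 e, wt θ h (top β g p a)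
      ≤ ∑ _a ∈ Finset.Icc 1 e, 2 * h := Finset.sum_le_sum fun a _ => min_le_left _ _
    _ = e * (2 * h) := by
        rw [Finset.sum_const, Nat.card_Icc, smul_eq_mul, Nat.add_sub_cancel]

/-- the number of the vertex is at most `e` -/
private theorem idx_le (β : V → ℕ) (θ h α : ℕ) (hh : 0 < h) (hα : α ≤ 1) (g : G) (p : ℕ → V)
    (e : ℕ) : (wsum β θ h g p e + α * h) / (2 * h) ≤ e := by
  have h1 := wsum_le β θ h g p e
  have h2 : α * h ≤ 1 * h := Nat.mul_le_mul_right h hα
  rw [← Nat.lt_succ_iff, Nat.div_lt_iff_lt_mul (by omega), Nat.succ_mul]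
  omega

/-- the sum depends only on the first `e` vertices -/
private theorem wsum_congr (β : V → ℕ) (θ h : ℕ) (g : G) {p q : ℕ → V} {e : ℕ}
    (hpq : ∀ m ≤ e, q m = p m) : wsum β θ h g q e = wsum β θ h g p e := by
  unfold wsum
  refine Finset.sum_congr rfl fun a ha => ?_
  have ha' := (Finset.mem_Icc.1 ha).2
  congr 1
  unfold top
  refine Finset.sup_congr rfl fun j hj => ?_
  rw [hpq j ((Finset.mem_Icc.1 hj).2.trans ha')]

private theorem wsum_smul (β : V → ℕ) (θ h : ℕ) (k g : G) {p q : ℕ → V} {e : ℕ}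
    (hpq : ∀ m, q m = k • p m) : wsum β θ h (k * g) q e = wsum β θ h g p e := by
  unfold wsum
  refine Finset.sum_congr rfl fun a _ => ?_
  congr 1
  unfold top
  refine Finset.sup_congr rfl fun j _ => ?_
  rw [hpq j, mul_inv_rev, mul_smul, inv_smul_smul]

theorem isColour_colS (hadj : ∀ (g : G) (u v : V), T.Adj u v → T.Adj (g • u) (g • v))
    (hB : IsFlow G T B) {β : V → ℕ} {len : G → ℕ} (hβ : IsGauge G β len) (v₀ : V) (θ h α : ℕ)
    (hh : 0 < h) (hα : α ≤ 1) :
    IsColour (G := G) (fun _ : V => True) (colS T B β v₀ θ h α) where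
  unique := by
    rintro g x l l' ⟨e, he, rfl⟩ ⟨e', he', rfl⟩
    rw [he.unique hB he']
  isOpen := by
    intro g l
    rw [isOpen_iff_mem_nhds]
    rintro x ⟨e, he, rfl⟩
    filter_upwards [eventually_cexit hB hβ he] with y hy
    refine ⟨e, hy.1, ?_⟩
    rw [wsum_congr β θ h g hy.2]
    exact (hy.2 _ (idx_le β θ h α hh hα g _ e)).symm
  smul := by
    rintro k g x l ⟨e, he, rfl⟩
    refine ⟨e, cexit_smul hadj hB k he, ?_⟩
    have hp : ∀ m, pth T B (k • x) ((k * g) • v₀) m = k • pth T B x (g • v₀) m := by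
      intro m
      rw [mul_smul]
      exact pth_smul hadj hB k x (g • v₀) m
    rw [wsum_smul β θ h k g hp, hp]
  good := fun _ _ _ _ => trivial

end Pool.Agent.GT
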