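import Pool.Agent.Lib.MP_98022b_gl.SoftCol
import Pool.Agent.Lib.MP_98022b_fa.Gate

/-!
# A common soft exit colour

Task A3c. Let `q` be the tail (the path from `u`), `e s = b s + n s` the exit for `g * s`, so
`n s < D`. The first `b s` weights are `2 * h`. Let `J` be the maximum of the `n s`. For `j ≤ J` let
`w s j` be the weight of the step `b s + j` of `s`; it is `0` for `j > n s` (the step `n s` of the
tail is a move, but not to a vertex close to `g * s`), and `|w s j - w s' j| ≤ c`, because the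
gauges of the tail vertices seen from `g * s`, `g * s'` differ by at most `c` and the initial parts
have gauge at most `θ`. Hence the sums `σ s` of the weights of the tails differ by at most
`D * c < h`, and for `α = 0` or `α = 1` the number `(σ s + α * h) / (2 * h)` does not depend
on `s`.
-/

set_option autoImplicit false

open Set

namespace Pool.Agent.GT

open Pool.Agent.FA

variable {G V Δ : Type} [Group G] [MulAction G V] [TopologicalSpace Δ] [MulAction G Δ]
  {T : SimpleGraph V} {B : V → V → Set Δ}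

/-- If natural numbers differ by less than `h` then they have the same quotient by `2 * h`, or they
have the same quotient after adding `h`. -/
theorem exists_alpha {A : Type} (S : Finset A) (σ : A → ℕ) {h : ℕ}
    (hσ : ∀ s ∈ S, ∀ s' ∈ S, σ s < σ s' + h) :
    ∃ α, α ≤ 1 ∧ ∃ k, ∀ s ∈ S, (σ s + α * h) / (2 * h) = k := by
  rcases S.eq_empty_or_nonempty with rfl | hS
  · exact ⟨0, by omega, 0, by simp⟩
  obtain ⟨s₁, hs₁, hmax⟩ := S.exists_max_image σ hS
  obtain ⟨s₀, hs₀, hmin⟩ := S.exists_min_image σ hS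
  have h0 : 0 < h := by
    have := hσ s₁ hs₁ s₁ hs₁
    omega
  have hlt := hσ s₁ hs₁ s₀ hs₀
  have hk1 : σ s₁ / (2 * h) * (2 * h) ≤ σ s₁ := Nat.div_mul_le_self _ _
  have hk2 : σ s₁ < (σ s₁ / (2 * h) + 1) * (2 * h) := by
    have := Nat.lt_mul_div_succ (σ s₁) (show 0 < 2 * h by omega)
    rwa [mul_comm] at this
  generalize σ s₁ / (2 * h) = k at hk1 hk2
  have hk3 : (k + 1) * (2 * h) = k * (2 * h) + 2 * h := by ring
  by_cases hc : k * (2 * h) ≤ σ s₀
  · refine ⟨0, by omega, k, fun s hs => ?_⟩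
    have h1 := hmax s hs
    have h2 := hmin s hs
    exact Nat.div_eq_of_lt_le (by omega) (by omega)
  · refine ⟨1, by omega, k, fun s hs => ?_⟩
    have h1 := hmax s hs
    have h2 := hmin s hs
    have h3 := hσ s₁ hs₁ s hs
    exact Nat.div_eq_of_lt_le (by omega) (by omega)

private theorem wt_congr {θ h A t : ℕ} (h1 : A ≤ t) (h2 : t ≤ max θ A) :
    wt θ h t = wt θ h A := by
  unfold wt
  omega

private theorem wt_lip {θ h c A A' : ℕ} (h1 : A' ≤ A + c) : wt θ h A ≤ wt θ h A' + c := by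
  unfold wt
  omega

private theorem wt_low {θ h t : ℕ} (h1 : t ≤ θ) : wt θ h t = 2 * h := by
  unfold wt
  omega

private theorem wt_high {θ h t : ℕ} (h1 : θ + 2 * h < t) : wt θ h t = 0 := by
  unfold wt
  omega

/-- The weights of a path with a close initial part. -/
private theorem wsum_split (β : V → ℕ) (θ h : ℕ) (g : G) (p q : ℕ → V) (b : ℕ)
    (hq : ∀ j, p (b + j) = q j) (hb : ∀ j ≤ b, β (g⁻¹ • p j) ≤ θ) (n : ℕ) :
    wsum β θ h g p (b + n) = 2 * h * b +
      ∑ j ∈ Finset.Icc 1 n, wt θ h ((Finset.Icc 1 j).sup fun i => β (g⁻¹ • q i)) := by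
  induction n with
  | zero =>
    unfold wsum
    rw [Finset.Icc_eq_empty (by omega : ¬ 1 ≤ 0), Finset.sum_empty, add_zero, add_zero]
    have h1 : ∀ a ∈ Finset.Icc 1 b, wt θ h (top β g p a) = 2 * h := by
      intro a ha
      rw [Finset.mem_Icc] at ha
      refine wt_low (Finset.sup_le fun j hj => ?_)
      rw [Finset.mem_Icc] at hj
      exact hb j (by omega)
    rw [Finset.sum_congr rfl h1, Finset.sum_const, Nat.card_Icc, smul_eq_mul]
    rw [Nat.add_sub_cancel, mul_comm]
  | succ n ih =>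
    have e1 : wsum β θ h g p (b + (n + 1)) =
        wsum β θ h g p (b + n) + wt θ h (top β g p (b + (n + 1))) := by
      unfold wsum
      rw [← add_assoc, Finset.sum_Icc_succ_top (by omega)]
    rw [e1, ih, Finset.sum_Icc_succ_top (by omega), add_assoc]
    congr 2
    refine wt_congr ?_ ?_
    · refine Finset.sup_le fun i hi => ?_
      rw [Finset.mem_Icc] at hi
      rw [← hq i]
      exact Finset.le_sup (f := fun j => β (g⁻¹ • p j)) (Finset.mem_Icc.2 (by omega))
    · refine Finset.sup_le fun a ha => ?_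
      rw [Finset.mem_Icc] at ha
      rcases le_or_gt a b with h1 | h1
      · exact le_max_of_le_left (hb a h1)
      · refine le_max_of_le_right ?_
        obtain ⟨i, rfl⟩ := Nat.exists_eq_add_of_le h1.le
        rw [hq i]
        exact Finset.le_sup (f := fun i => β (g⁻¹ • q i)) (Finset.mem_Icc.2 (by omega))

theorem soft_common (hT : T.IsTree) (hB : IsFlow G T B) {β : V → ℕ} {len : G → ℕ}
    (hβ : IsGauge G β len) {v₀ : V} {S : Finset G} {η ρH : ℕ} {g : G} {x : Δ} {u : V} {b : G → ℕ}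
    (hx : Reg T B x) (hd : GateData T B β v₀ S η ρH g x u b) {θ c D h : ℕ} (hθ : ρH ≤ θ)
    (hc : ∀ s ∈ S, ∀ s' ∈ S, len (s⁻¹ * s') ≤ c) (hh : D * c < h)
    (hcase : ∀ s ∈ S, ¬ ∀ m < b s + D, CMove T B β v₀ (θ + 2 * h) (g * s) x m) :
    ∃ α, α ≤ 1 ∧ ∃ v, ∀ s ∈ S, colS T B β v₀ θ h α (g * s) x v := by
  have h0 : 0 < h := by omega
  choose e he using fun s : G => exists_cexit hT hB hβ hx v₀ (θ + 2 * h) (g * s)
  have hq : ∀ s ∈ S, ∀ j, pth T B x ((g * s) • v₀) (b s + j) = pth T B x u j := by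
    intro s hs j
    rw [pth_add, hd.eq s hs]
  have hbe : ∀ s ∈ S, b s ≤ e s := by
    intro s hs
    by_contra hlt
    refine (he s).not_cmove hB ⟨hd.adj s hs (e s) (by omega), ?_⟩
    have h1 := hd.close s hs (e s + 1) (by omega)
    unfold Close at h1 ⊢
    omega
  obtain ⟨n, hn⟩ : ∃ n : G → ℕ, ∀ s ∈ S, e s = b s + n s :=
    ⟨fun s => e s - b s, fun s hs => by have := hbe s hs; show e s = b s + (e s - b s); omega⟩
  have hnD : ∀ s ∈ S, n s < D := by
    intro s hs
    have h1 := hcase s hs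
    push Not at h1
    obtain ⟨m, hm, hm'⟩ := h1
    have h2 : e s ≤ m := by
      by_contra h3
      exact hm' ((he s).1 m (by omega))
    have := hn s hs
    omega
  set w : G → ℕ → ℕ := fun s j =>
    wt θ h ((Finset.Icc 1 j).sup fun i => β ((g * s)⁻¹ • pth T B x u i)) with hw
  have hlip : ∀ s ∈ S, ∀ s' ∈ S, ∀ j, w s j ≤ w s' j + c := by
    intro s hs s' hs' j
    refine wt_lip (Finset.sup_le fun i hi => ?_)
    have h1 : β ((g * s')⁻¹ • pth T B x u i) ≤ β ((g * s)⁻¹ • pth T B x u i) + c := by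
      have h2 := hβ.le (s'⁻¹ * s) ((g * s)⁻¹ • pth T B x u i)
      rw [← mul_smul] at h2
      have h3 : s'⁻¹ * s * (g * s)⁻¹ = (g * s')⁻¹ := by group
      rw [h3] at h2
      exact h2.trans (Nat.add_le_add_left (hc s' hs' s hs) _)
    have h4 := Finset.le_sup (f := fun i => β ((g * s)⁻¹ • pth T B x u i)) hi
    exact h1.trans (Nat.add_le_add_right h4 c)
  have hzero : ∀ s ∈ S, ∀ s' ∈ S, ∀ j, n s' < j → j ≤ n s → w s' j = 0 := by
    intro s hs s' hs' j h1 h2
    have h3 : T.Adj (pth T B x u (n s')) (pth T B x u (n s' + 1)) := by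
      have h4 := ((he s).1 (b s + n s') (by have := hn s hs; omega)).1
      rwa [add_assoc, hq s hs, hq s hs] at h4
    have h5 : ¬ Close β (θ + 2 * h) (g * s') (pth T B x u (n s' + 1)) := by
      intro h6
      refine (he s').not_cmove hB ?_
      rw [hn s' hs']
      refine ⟨?_, ?_⟩
      · rw [add_assoc, hq s' hs', hq s' hs']
        exact h3
      · rw [add_assoc, hq s' hs']
        exact h6
    refine wt_high ?_
    unfold Close at h5
    have h6 := Finset.le_sup (f := fun i => β ((g * s')⁻¹ • pth T B x u i))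
      (Finset.mem_Icc.2 ⟨by omega, by omega⟩ : n s' + 1 ∈ Finset.Icc 1 j)
    exact (not_le.1 h5).trans_le h6
  set τ : G → ℕ := fun s => ∑ j ∈ Finset.Icc 1 (n s), w s j with hτ
  have hτlt : ∀ s ∈ S, ∀ s' ∈ S, τ s < τ s' + h := by
    intro s hs s' hs'
    have h1 : τ s ≤ ∑ j ∈ Finset.Icc 1 (n s), (w s' j + c) :=
      Finset.sum_le_sum fun j _ => hlip s hs s' hs' j
    rw [Finset.sum_add_distrib, Finset.sum_const, Nat.card_Icc, smul_eq_mul,
      Nat.add_sub_cancel] at h1
    have h2 : ∑ j ∈ Finset.Icc 1 (n s), w s' j ≤ τ s' := by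
      refine Finset.sum_le_sum_of_ne_zero fun j hj hj0 => ?_
      rw [Finset.mem_Icc] at hj ⊢
      refine ⟨hj.1, ?_⟩
      by_contra h3
      exact hj0 (hzero s hs s' hs' j (by omega) hj.2)
    have h3 : n s * c ≤ D * c := Nat.mul_le_mul_right c (hnD s hs).le
    omega
  obtain ⟨α, hα, k, hk⟩ := exists_alpha S τ hτlt
  refine ⟨α, hα, pth T B x u k, fun s hs => ⟨e s, he s, ?_⟩⟩
  have h1 := wsum_split β θ h (g * s) (pth T B x ((g * s) • v₀)) (pth T B x u) (b s) (hq s hs)
    (fun j hj => le_trans (hd.close s hs j hj) hθ) (n s)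
  have h2 : (wsum β θ h (g * s) (pth T B x ((g * s) • v₀)) (e s) + α * h) / (2 * h) =
      b s + k := by
    rw [hn s hs, h1, add_assoc, Nat.mul_add_div (by omega)]
    congr 1
    exact hk s hs
  rw [h2, hq s hs]

end Pool.Agent.GT
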