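import Pool.Agent.Lib.MP_98022b_gl.StepF
import Pool.Agent.Lib.MP_98022b_gl.Base

/-!
# Algebraically closed fields of finite transcendence degree

Task B16.
-/

set_option autoImplicit false

namespace Pool.Agent.GT

open Pool.Agent.FJ

variable {P : ∀ (G : Type) [Group G], Prop}

namespace B16aux

/-- Algebraic elements over a subfield contained in the image of `A` are integral over `A`. -/
theorem int_of_le {A F : Type} [Field A] [Field F] [Algebra A F] (k : Subfield F)
    (hk : ∀ c ∈ k, ∃ b : A, algebraMap A F b = c) {a : F} (h : IsAlgebraic k a) :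
    IsIntegral A a := by
  obtain ⟨p, hp, hp0⟩ := isAlgebraic_iff_isIntegral.1 h
  have h1 : p.map (algebraMap k F) ∈ Polynomial.lifts (algebraMap A F) := by
    rw [Polynomial.lifts_iff_coeff_lifts]
    intro n
    rw [Polynomial.coeff_map]
    obtain ⟨b, hb⟩ := hk _ (p.coeff n).2
    exact ⟨b, hb⟩
  obtain ⟨q, hq, -, hqm⟩ := Polynomial.lifts_and_natDegree_eq_and_monic h1 (hp.map _)
  refine ⟨q, hqm, ?_⟩
  rw [Polynomial.eval₂_eq_eval_map, hq, Polynomial.eval_map]
  exact hp0

/-- The field of the elements algebraic over the field generated by `s`. -/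
def Ks {F : Type} [Field F] (s : Set F) : Subfield F :=
  (algebraicClosure (Subfield.closure s) F).toSubfield

theorem mem_Ks {F : Type} [Field F] (s : Set F) (a : F) :
    a ∈ Ks s ↔ IsAlgebraic (Subfield.closure s) a :=
  mem_algebraicClosure_iff

instance Ks_closed {F : Type} [Field F] [IsAlgClosed F] (s : Set F) : IsAlgClosed (Ks s) :=
  (inferInstance : IsAlgClosure (Subfield.closure s) (algebraicClosure (Subfield.closure s) F)).isAlgClosed

theorem closure_le_Ks {F : Type} [Field F] (s : Set F) : Subfield.closure s ≤ Ks s := by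
  intro x hx
  rw [mem_Ks]
  exact isAlgebraic_algebraMap (⟨x, hx⟩ : Subfield.closure s)

/-- `Ks s` is relatively algebraically closed. -/
theorem mem_Ks_of_alg {F : Type} [Field F] (s : Set F) (k : Subfield F) (hk : k ≤ Ks s) {a : F}
    (h : IsAlgebraic k a) : a ∈ Ks s := by
  have h1 : IsIntegral (algebraicClosure (Subfield.closure s) F) a :=
    int_of_le k (fun c hc => ⟨⟨c, hk hc⟩, rfl⟩) h
  have h2 : IsIntegral (Subfield.closure s) a := isIntegral_trans _ h1
  exact (mem_Ks s a).2 h2.isAlgebraic

theorem map_inj {B F : Type} [CommRing B] [CommRing F] (f : B →+* F)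
    (hf : Function.Injective f) :
    Function.Injective (Matrix.GeneralLinearGroup.map (n := Fin 2) f) :=
  B13aux.map_injective f hf

theorem base (hP : IsFJClassA P) (hQ : ∀ n : ℕ, P (GL (Fin n) ℚ)) {F : Type} [Field F] :
    P (GL (Fin 2) (Ks (∅ : Set F))) := by
  have hmem : ∀ (A : Type) [Field A] [Algebra A F], ∀ a : Ks (∅ : Set F), IsIntegral A (a : F) := by
    intro A _ _ a
    refine int_of_le (Subfield.closure ∅) ?_ ((mem_Ks ∅ a.1).1 a.2)
    intro c hc
    have h1 : Subfield.closure (∅ : Set F) ≤ (algebraMap A F).fieldRange :=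
      Subfield.closure_le.2 (Set.empty_subset _)
    exact h1 hc
  obtain ⟨q, hq⟩ := CharP.exists F
  rcases CharP.char_is_prime_or_zero F q with hp | h0
  · have : Fact q.Prime := ⟨hp⟩
    letI algF : Algebra (ZMod q) F := ZMod.algebra F q
    have hcK : CharP (Ks (∅ : Set F)) q := inferInstance
    letI algK : Algebra (ZMod q) (Ks (∅ : Set F)) := ZMod.algebra _ q
    refine mem_charP hP.toIsFJClass q fun a => ?_
    obtain ⟨p, hpm, hp0⟩ := hmem (ZMod q) a
    have h2 : IsIntegral (ZMod q) a := by
      refine ⟨p, hpm, ?_⟩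
      apply (Ks (∅ : Set F)).subtype_injective
      rw [Polynomial.hom_eval₂, map_zero, ← hp0]
      congr 1
      exact RingHom.ext_zmod _ _
    exact h2.isAlgebraic
  · subst h0
    have : CharZero F := CharP.charP_to_charZero F
    have : CharZero (Ks (∅ : Set F)) := inferInstance
    refine mem_char0 hP.toIsFJClass hQ fun a => ?_
    obtain ⟨p, hpm, hp0⟩ := hmem ℚ a
    have h2 : IsIntegral ℚ a := by
      refine ⟨p, hpm, ?_⟩
      apply (Ks (∅ : Set F)).subtype_injective
      rw [Polynomial.hom_eval₂, map_zero, ← hp0]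
      congr 1
    exact h2.isAlgebraic

theorem step (hP : IsFJClassA P) (hsol : ∀ (G : Type) [Group G], IsSolvable G → P G)
    {F : Type} [Field F] [IsAlgClosed F] [Countable F] (t : F) (s : Set F)
    (h : P (GL (Fin 2) (Ks s))) : P (GL (Fin 2) (Ks (insert t s))) := by
  by_cases ht : t ∈ Ks s
  · have hle : Ks (insert t s) ≤ Ks s := by
      intro a ha
      refine mem_Ks_of_alg s _ ?_ ((mem_Ks _ a).1 ha)
      rw [Subfield.closure_le, Set.insert_subset_iff]
      exact ⟨ht, Subfield.subset_closure.trans (closure_le_Ks s)⟩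
    exact hP.toIsFJClass.of_injective
      (Matrix.GeneralLinearGroup.map (n := Fin 2) (Subfield.inclusion hle))
      (map_inj _ (Subfield.inclusion hle).injective) h
  · have hle : Ks s ≤ Ks (insert t s) := by
      intro a ha
      refine mem_Ks_of_alg _ _ ?_ ((mem_Ks _ a).1 ha)
      exact (Subfield.closure_mono (Set.subset_insert t s)).trans (closure_le_Ks _)
    letI alg : Algebra (Ks s) (Ks (insert t s)) := (Subfield.inclusion hle).toAlgebra
    have htm : t ∈ Ks (insert t s) :=
      closure_le_Ks _ (Subfield.subset_closure (Set.mem_insert t s))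
    have htr : Transcendental (Ks s) (⟨t, htm⟩ : Ks (insert t s)) := by
      intro halg
      apply ht
      refine mem_Ks_of_alg s (Ks s) le_rfl ?_
      obtain ⟨p, hpm, hp0⟩ := isAlgebraic_iff_isIntegral.1 halg
      have h2 : IsIntegral (Ks s) t := by
        refine ⟨p, hpm, ?_⟩
        have h3 := congrArg (Ks (insert t s)).subtype hp0
        rw [Polynomial.hom_eval₂, map_zero] at h3
        exact h3
      exact h2.isAlgebraic
    refine mem_step hP hsol htr (fun a => ?_) h
    have h1 : IsIntegral (IntermediateField.adjoin (Ks s) {(⟨t, htm⟩ : Ks (insert t s))})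
        a := by
      let L := IntermediateField.adjoin (Ks s) {(⟨t, htm⟩ : Ks (insert t s))}
      letI algL : Algebra L F := ((Ks (insert t s)).subtype.comp (algebraMap L _)).toAlgebra
      have h2 : IsIntegral L (a : F) := by
        refine int_of_le (Subfield.closure (insert t s)) ?_ ((mem_Ks _ a.1).1 a.2)
        have h3 : Subfield.closure (insert t s) ≤ (algebraMap L F).fieldRange := by
          rw [Subfield.closure_le]
          intro c hc
          rcases Set.mem_insert_iff.1 hc with rfl | hc
          · exact ⟨⟨_, IntermediateField.mem_adjoin_simple_self _ _⟩, rfl⟩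
          · have hcK : c ∈ Ks s := closure_le_Ks s (Subfield.subset_closure hc)
            exact ⟨algebraMap (Ks s) L ⟨c, hcK⟩, rfl⟩
        exact fun c hc => h3 hc
      obtain ⟨p, hpm, hp0⟩ := h2
      refine ⟨p, hpm, ?_⟩
      apply (Ks (insert t s)).subtype_injective
      rw [Polynomial.hom_eval₂, map_zero]
      exact hp0
    exact (IntermediateField.isAlgebraic_adjoin_iff).1 h1.isAlgebraic

end B16aux

open B16aux

theorem mem_trdeg (hP : IsFJClassA P) (hsol : ∀ (G : Type) [Group G], IsSolvable G → P G)
    (hQ : ∀ n : ℕ, P (GL (Fin n) ℚ)) {F : Type} [Field F] [IsAlgClosed F] [Countable F]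
    (s : Finset F) (hs : ∀ a : F, IsAlgebraic (Subfield.closure (s : Set F)) a) :
    P (GL (Fin 2) F) := by
  classical
  have key : ∀ s : Finset F, P (GL (Fin 2) (Ks (s : Set F))) := by
    intro s
    induction s using Finset.induction_on with
    | empty =>
      rw [Finset.coe_empty]
      exact base hP hQ
    | insert t s _ ih =>
      rw [Finset.coe_insert]
      exact step hP hsol t s ih
  let f : F →+* Ks (s : Set F) :=
    (RingHom.id F).codRestrict (Ks (s : Set F)) fun a => (mem_Ks _ a).2 (hs a)
  exact hP.toIsFJClass.of_injective (Matrix.GeneralLinearGroup.map (n := Fin 2) f)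
    (map_inj f f.injective) (key s)

end Pool.Agent.GT
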